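import Pool.Agent.Helper17.TU.Mach

set_option autoImplicit false

/-!
Few turns: the function for one block is right.
-/

namespace Pool.Agent.Helper17.TU

open Pool.Agent.Helper17.SL

section run

variable {S Γ : Type} (stp : TStp S Γ) (c0 : S × List Γ) {N : ℕ}

theorem tval_1 {t : ℕ} (ht : t ≤ N) (c : S × List Γ) : (((tval N t c).1 : Fin (N + 1)) : ℕ) = t :=
  clamp_val ht

theorem tlen_le (hc0 : c0.2 = []) {t : ℕ} (ht : t ≤ N) : (trun stp c0 t).2.length ≤ N := by
  have := trun_length stp c0 t
  rw [hc0] at this
  simp at this
  omega

theorem tval_2 (hc0 : c0.2 = []) {t : ℕ} (ht : t ≤ N) :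
    (((tval N t (trun stp c0 t)).2.1 : Fin (N + 1)) : ℕ) = (trun stp c0 t).2.length :=
  clamp_val (tlen_le stp c0 hc0 ht)

/-- The action of the value at time `t`. -/
theorem act_tval {t : ℕ} (ht : t ≤ N) :
    stp ((tval N t (trun stp c0 t)).1 : Fin (N + 1)) (tval N t (trun stp c0 t)).2.2 =
      stp t (trun stp c0 t).1 := by
  rw [tval_1 ht]
  rfl

theorem vadv_eq (hc0 : c0.2 = []) {t : ℕ} (ht : t < N) {y : Option Γ}
    (hy : vpop stp (tval N t (trun stp c0 t)) = true → y = (trun stp c0 t).2.head?) :
    vadv stp (tval N t (trun stp c0 t)) y = tval N (t + 1) (trun stp c0 (t + 1)) := by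
  have h1 := tval_1 (S := S) (Γ := Γ) ht.le (trun stp c0 t)
  have h2 := tval_2 stp c0 hc0 ht.le
  unfold vadv
  unfold vpop at hy
  rw [act_tval stp c0 ht.le] at hy ⊢
  rw [trun_succ, h1, h2]
  cases hs : stp t (trun stp c0 t).1 with
  | stay s => rfl
  | push s z => rfl
  | pop k =>
    rw [hs] at hy
    rw [hy rfl]
    simp only [TAct.app, tval, List.length_tail]

theorem vpop_true {t : ℕ} (ht : t ≤ N) (h : vpop stp (tval N t (trun stp c0 t)) = true) :
    (trun stp c0 (t + 1)).2 = (trun stp c0 t).2.tail := by
  unfold vpop at h
  rw [act_tval stp c0 ht] at h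
  rw [trun_succ]
  cases hs : stp t (trun stp c0 t).1 with
  | stay s => rw [hs] at h; simp at h
  | push s z => rw [hs] at h; simp at h
  | pop k => rfl

theorem vpop_false {t : ℕ} (ht : t ≤ N) (h : ¬ vpop stp (tval N t (trun stp c0 t)) = true) :
    (trun stp c0 t).2.length ≤ (trun stp c0 (t + 1)).2.length := by
  unfold vpop at h
  rw [act_tval stp c0 ht] at h
  rw [trun_succ]
  cases hs : stp t (trun stp c0 t).1 with
  | stay s => exact le_rfl
  | push s z => simp [TAct.app]
  | pop k => rw [hs] at h; simp at h

theorem vpush_some {t : ℕ} (ht : t ≤ N) {y : Γ}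
    (h : vpush stp (tval N t (trun stp c0 t)) = some y) :
    (trun stp c0 (t + 1)).2 = y :: (trun stp c0 t).2 := by
  unfold vpush at h
  rw [act_tval stp c0 ht] at h
  rw [trun_succ]
  cases hs : stp t (trun stp c0 t).1 with
  | stay s => rw [hs] at h; simp at h
  | push s z => rw [hs] at h; simp at h; rw [h]; rfl
  | pop k => rw [hs] at h; simp at h

theorem vpush_none {t : ℕ} (ht : t ≤ N)
    (h : ¬ (vpush stp (tval N t (trun stp c0 t))).isSome = true) :
    (trun stp c0 (t + 1)).2.length ≤ (trun stp c0 t).2.length := by
  unfold vpush at h
  rw [act_tval stp c0 ht] at h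
  rw [trun_succ]
  cases hs : stp t (trun stp c0 t).1 with
  | stay s => exact le_rfl
  | push s z => rw [hs] at h; simp at h
  | pop k => simp [TAct.app]

/-- The search finds the symbol pushed at the time `r`. -/
theorem symAt_eq (hc0 : c0.2 = []) {P₀ s r η : ℕ} (hsr : s ≤ r) (hrN : r < N)
    (hr : r < s + P₀) (hup : ∀ r', s ≤ r' → r' ≤ r →
      (trun stp c0 r').2.length ≤ (trun stp c0 (r' + 1)).2.length)
    (h1 : (trun stp c0 r).2.length + 1 = η) (h2 : (trun stp c0 (r + 1)).2.length = η) :
    ∃ y, symAt stp P₀ (tval N s (trun stp c0 s)) η = some y ∧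
      (trun stp c0 (r + 1)).2 = y :: (trun stp c0 r).2 := by
  have hmono : ∀ r', s ≤ r' → r' ≤ r → (trun stp c0 r').2.length ≤ (trun stp c0 r).2.length := by
    intro r' h3 h4
    induction r, h4 using Nat.le_induction with
    | base => exact le_rfl
    | succ r h4 ih =>
      have e1 : ∀ r'', s ≤ r'' → r'' ≤ r → (trun stp c0 r'').2.length ≤
          (trun stp c0 (r + 1)).2.length := by
        intro r'' h5 h6
        induction h6 using Nat.decreasingInduction with
        | self => exact hup r h5 (by omega)
        | of_succ k hk ih' =>
          exact (hup k h5 (by omega)).trans (ih' (by omega))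
      exact e1 r' h3 h4
  have key : ∀ i, s + i ≤ r → (symStep stp η)^[i] (tval N s (trun stp c0 s), none) =
      (tval N (s + i) (trun stp c0 (s + i)), none) := by
    intro i
    induction i with
    | zero => intro _; rfl
    | succ i ih =>
      intro hi
      rw [Function.iterate_succ_apply', ih (by omega)]
      have h3 : (s + i) < N := by omega
      have hne : ¬ ((((tval N (s + i) (trun stp c0 (s + i))).2.1 : Fin (N + 1)) : ℕ) + 1 = η ∧
          (vpush stp (tval N (s + i) (trun stp c0 (s + i)))).isSome = true) := by
        rintro ⟨h4, h5⟩
        rw [tval_2 stp c0 hc0 h3.le] at h4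
        obtain ⟨y, hy⟩ := Option.isSome_iff_exists.mp h5
        have h6 := vpush_some stp c0 h3.le hy
        have h7 := hmono (s + i + 1) (by omega) (by omega)
        rw [h6, List.length_cons] at h7
        omega
      unfold symStep
      rw [if_neg (by simp), if_neg hne]
      rw [vadv_eq stp c0 hc0 h3]
      · rfl
      · intro hp
        have h4 := vpop_true stp c0 h3.le hp
        have h5 := hup (s + i) (by omega) (by omega)
        rw [h4] at h5
        cases hl : (trun stp c0 (s + i)).2 with
        | nil => rfl
        | cons z l => rw [hl] at h5; simp at h5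
  have hkr := key (r - s) (by omega)
  have e : s + (r - s) = r := by omega
  rw [e] at hkr
  have hps : (vpush stp (tval N r (trun stp c0 r))).isSome = true := by
    by_contra hc
    have := vpush_none stp c0 hrN.le hc
    omega
  obtain ⟨y, hy⟩ := Option.isSome_iff_exists.mp hps
  refine ⟨y, ?_, vpush_some stp c0 hrN.le hy⟩
  have hstep : symStep stp η (tval N r (trun stp c0 r), none) =
      (tval N r (trun stp c0 r), some y) := by
    unfold symStep
    rw [if_neg (by simp), if_pos, hy]
    exact ⟨by rw [tval_2 stp c0 hc0 hrN.le]; exact h1, hps⟩
  have hfix : ∀ j, (symStep stp η)^[j] (tval N r (trun stp c0 r), some y) =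
      (tval N r (trun stp c0 r), some y) := by
    intro j
    apply Function.iterate_fixed
    unfold symStep
    exact if_pos rfl
  unfold symAt
  have hP : P₀ = (P₀ - (r - s) - 1) + 1 + (r - s) := by omega
  rw [hP, Function.iterate_add_apply, hkr, Function.iterate_add_apply, Function.iterate_one,
    hstep, hfix]

/-- The last time at which a level is entered. -/
theorem exists_enter {h : ℕ → ℕ} (hup : ∀ t, h (t + 1) ≤ h t + 1) {a b η : ℕ} (hab : a ≤ b)
    (ha : h a < η) (hb : η ≤ h b) : ∃ r, a ≤ r ∧ r < b ∧ h r + 1 = η ∧ h (r + 1) = η ∧
      ∀ r', a ≤ r' → r' ≤ r → h r' < η := by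
  induction b, hab using Nat.le_induction with
  | base => omega
  | succ b hab ih =>
    by_cases hc : η ≤ h b
    · obtain ⟨r, h1, h2, h3⟩ := ih hc
      exact ⟨r, h1, by omega, h3⟩
    · by_cases hall : ∀ r', a ≤ r' → r' ≤ b → h r' < η
      · have := hup b
        exact ⟨b, hab, by omega, by omega, by omega, hall⟩
      · push Not at hall
        obtain ⟨r', h1, h2, h3⟩ := hall
        -- an earlier visit
        have : ∃ n, a ≤ n ∧ η ≤ h n := ⟨r', h1, h3⟩
        classical
        have hs := Nat.find_spec this
        have hle : Nat.find this ≤ r' := Nat.find_min' this ⟨h1, h3⟩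
        have hne : Nat.find this ≠ a := by
          intro he
          rw [he] at hs
          omega
        have hlt : ∀ n, a ≤ n → n < Nat.find this → h n < η := by
          intro n hn1 hn2
          have := Nat.find_min this hn2
          push Not at this
          exact this hn1
        have h5 := hup (Nat.find this - 1)
        have h6 := hlt (Nat.find this - 1) (by omega) (by omega)
        have e : Nat.find this - 1 + 1 = Nat.find this := by omega
        rw [e] at h5
        refine ⟨Nat.find this - 1, by omega, by omega, by omega, by rw [e]; omega, ?_⟩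
        intro n hn1 hn2
        exact hlt n hn1 (by omega)

/-- The symbol popped inside the block is found. -/
theorem symAt_top (hc0 : c0.2 = []) {P₀ s t τ : ℕ} (hP₀ : 0 < P₀) (hU : Uni stp c0 P₀)
    (htN : t < N) (hL : Legit (fun u => (trun stp c0 u).2.length) P₀ s t)
    (hτ1 : t ≤ τ) (hτ2 : τ < blk P₀ t) (hpop : vpop stp (tval N τ (trun stp c0 τ)) = true)
    (hτN : τ < N) (hlt : (trun stp c0 s).2.length < (trun stp c0 τ).2.length) :
    symAt stp P₀ (tval N s (trun stp c0 s)) (trun stp c0 τ).2.length =
      (trun stp c0 τ).2.head? := by
  have hdown := vpop_true stp c0 hτN.le hpop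
  have hpos : 0 < (trun stp c0 τ).2.length := by omega
  have hlt2 : (trun stp c0 (τ + 1)).2.length < (trun stp c0 τ).2.length := by
    rw [hdown, List.length_tail]
    omega
  -- the block of `t` is antitone
  have hblk : t / P₀ * P₀ ≤ t := Nat.div_mul_le_self _ _
  have hanti : ∀ r, t ≤ r → r < blk P₀ t →
      (trun stp c0 (r + 1)).2.length ≤ (trun stp c0 r).2.length := by
    rcases hU (t / P₀) with h | h
    · have := h τ (hblk.trans hτ1) hτ2
      omega
    · intro r hr1 hr2
      exact h r (hblk.trans hr1) hr2
  have hanti2 : ∀ r, t ≤ r → r ≤ τ → (trun stp c0 τ).2.length ≤ (trun stp c0 r).2.length := by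
    intro r hr1 hr2
    induction hr2 using Nat.decreasingInduction with
    | self => exact le_rfl
    | of_succ k hk ih => exact (ih (by omega)).trans (hanti k hr1 (by omega))
  have htτ := hanti2 t le_rfl hτ1
  rcases hL with hL | ⟨hL1, hL2, hL3⟩
  · subst hL
    omega
  · -- the block of `s` is monotone
    have hsb : (trun stp c0 s).2.length < (trun stp c0 (blk P₀ s)).2.length := by
      have := hL3 (blk P₀ s) le_rfl hL1
      simp only at this
      omega
    have hblk2 : s / P₀ * P₀ ≤ s := Nat.div_mul_le_self _ _
    have hsblk : s < blk P₀ s := lt_blk hP₀ s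
    have hup1 : ∀ t, (trun stp c0 (t + 1)).2.length ≤ (trun stp c0 t).2.length + 1 := by
      intro t
      rw [trun_succ]
      exact app_length_le _ _
    have hmono : ∀ r, s ≤ r → r < blk P₀ s →
        (trun stp c0 r).2.length ≤ (trun stp c0 (r + 1)).2.length := by
      rcases hU (s / P₀) with h | h
      · intro r hr1 hr2
        exact h r (hblk2.trans hr1) hr2
      · exfalso
        have : ∀ r, s ≤ r → r ≤ blk P₀ s →
            (trun stp c0 (blk P₀ s)).2.length ≤ (trun stp c0 r).2.length := by
          intro r hr1 hr2
          induction hr2 using Nat.decreasingInduction with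
          | self => exact le_rfl
          | of_succ k hk ih => exact (ih (by omega)).trans (h k (hblk2.trans hr1) hk)
        have := this s le_rfl hsblk.le
        omega
    have hη : (trun stp c0 τ).2.length ≤ (trun stp c0 (blk P₀ s)).2.length := by
      have := hL3 (blk P₀ s) le_rfl hL1
      simp only at this
      omega
    obtain ⟨r, h1, h2, h3, h4, h5⟩ := exists_enter (h := fun u => (trun stp c0 u).2.length)
      hup1 hsblk.le hlt hη
    obtain ⟨y, h6, h7⟩ := symAt_eq (N := N) stp c0 hc0 (P₀ := P₀) h1 (by omega)
      (by unfold blk at h2; have := Nat.div_mul_le_self s P₀; rw [add_mul, one_mul] at h2; omega)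
      (fun r' hr1 hr2 => hmono r' hr1 (by omega)) h3 h4
    rw [h6]
    have hsuf : (trun stp c0 (r + 1)).2 <:+ (trun stp c0 τ).2 := by
      apply trun_suffix stp c0 (by omega) (List.suffix_refl _)
      intro r' hr1 hr2
      rw [h4]
      rcases le_total r' (blk P₀ s) with hle | hle
      · -- monotone until the end of the block of `s`
        have : ∀ r', r + 1 ≤ r' → r' ≤ blk P₀ s →
            (trun stp c0 (r + 1)).2.length ≤ (trun stp c0 r').2.length := by
          intro r' hr1 hr2
          induction r', hr1 using Nat.le_induction with
          | base => exact le_rfl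
          | succ n hn ih => exact (ih (by omega)).trans (hmono n (by omega) (by omega))
        rw [← h4]
        exact this r' hr1 hle
      · rcases le_total r' t with hle2 | hle2
        · have := hL3 r' hle hle2
          simp only at this
          omega
        · exact hanti2 r' hle2 hr2
    have heq : (trun stp c0 (r + 1)).2 = (trun stp c0 τ).2 := hsuf.eq_of_length h4
    rw [← heq, h7]
    rfl

/-- The function for blocks of length `P₀` is right. -/
theorem phiB_right (hc0 : c0.2 = []) {P₀ : ℕ} (hP₀ : 0 < P₀) (hPN : P₀ ∣ N)
    (hU : Uni stp c0 P₀) (s t : ℕ) (hst : s ≤ t) (htN : t < N)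
    (hL : Legit (fun u => (trun stp c0 u).2.length) P₀ s t)
    (hle : (trun stp c0 s).2.length ≤ (trun stp c0 t).2.length) :
    Right (fun u => (trun stp c0 u).2.length) (fun u => tval N u (trun stp c0 u)) P₀ s t
      (phiB stp P₀ (tval N s (trun stp c0 s)) (tval N t (trun stp c0 t))) := by
  have hbN : blk P₀ t ≤ N := blk_le hP₀ hPN htN
  have htb : t < blk P₀ t := lt_blk hP₀ t
  have hbt : blk P₀ t ≤ t + P₀ := by
    unfold blk
    have := Nat.div_mul_le_self t P₀
    rw [add_mul, one_mul]
    omega
  have key : ∀ i, (((bstep stp P₀ (tval N s (trun stp c0 s)) (tval N t (trun stp c0 t)))^[i]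
        ⟨tval N t (trun stp c0 t), none, .none⟩).fin = .none ∧ t + i ≤ blk P₀ t ∧
      ((bstep stp P₀ (tval N s (trun stp c0 s)) (tval N t (trun stp c0 t)))^[i]
        ⟨tval N t (trun stp c0 t), none, .none⟩).cur = tval N (t + i) (trun stp c0 (t + i)) ∧
      BOK (fun u => (trun stp c0 u).2.length) (fun u => tval N u (trun stp c0 u)) t (t + i)
        ((bstep stp P₀ (tval N s (trun stp c0 s)) (tval N t (trun stp c0 t)))^[i]
        ⟨tval N t (trun stp c0 t), none, .none⟩).best ∧
      ∀ r, t ≤ r → r ≤ t + i → (trun stp c0 s).2.length ≤ (trun stp c0 r).2.length) ∨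
      (((bstep stp P₀ (tval N s (trun stp c0 s)) (tval N t (trun stp c0 t)))^[i]
        ⟨tval N t (trun stp c0 t), none, .none⟩).fin ≠ .none ∧
      Right (fun u => (trun stp c0 u).2.length) (fun u => tval N u (trun stp c0 u)) P₀ s t
        ((bstep stp P₀ (tval N s (trun stp c0 s)) (tval N t (trun stp c0 t)))^[i]
        ⟨tval N t (trun stp c0 t), none, .none⟩).fin) := by
    intro i
    induction i with
    | zero =>
      left
      refine ⟨rfl, htb.le, rfl, Or.inl ⟨rfl, rfl⟩, fun r hr1 hr2 => ?_⟩
      have : r = t := by omega
      rw [this]; exact hle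
    | succ i ih =>
      rw [Function.iterate_succ_apply']
      generalize (bstep stp P₀ (tval N s (trun stp c0 s)) (tval N t (trun stp c0 t)))^[i]
        ⟨tval N t (trun stp c0 t), none, .none⟩ = q at ih ⊢
      obtain ⟨cur, best, fin⟩ := q
      simp only at ih
      rcases ih with ⟨e1, e2, e3, e4, e5⟩ | ⟨e1, e2⟩
      · subst e1 e3
        have hiN : t + i ≤ N := e2.trans hbN
        by_cases hb : blk P₀ t ≤ t + i
        · -- the end of the block
          right
          have hstep : bstep stp P₀ (tval N s (trun stp c0 s)) (tval N t (trun stp c0 t))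
              ⟨tval N (t + i) (trun stp c0 (t + i)), best, .none⟩ =
              ⟨tval N (t + i) (trun stp c0 (t + i)), best,
                .done (tval N (t + i) (trun stp c0 (t + i)))
                  (best.getD (tval N (t + i) (trun stp c0 (t + i))))⟩ := by
            unfold bstep
            simp only [tval_1 htN.le, tval_1 hiN]
            rw [if_pos hb]
          rw [hstep]
          refine ⟨by simp, ?_⟩
          have hE : t + i = blk P₀ t := le_antisymm e2 hb
          rcases e4 with ⟨_, e4⟩ | ⟨σ, hσ, b1, b2, b3, b4⟩
          · omega
          · right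
            rw [hE] at b2 b3 b4 ⊢
            refine ⟨σ, b1, b2, fun r hr1 hr2 => e5 r hr1 (by omega), b3, b4, ?_⟩
            rw [hσ]
            rfl
        · have hτ : t + i < blk P₀ t := not_le.mp hb
          have hτN : t + i < N := by omega
          have h1 := tval_1 (S := S) (Γ := Γ) hiN (trun stp c0 (t + i))
          have h2 := tval_2 stp c0 hc0 hiN
          have h2s := tval_2 (N := N) stp c0 hc0 (t := s) (by omega)
          have hhs := e5 (t + i) (by omega) le_rfl
          by_cases hp : vpop stp (tval N (t + i) (trun stp c0 (t + i))) = true ∧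
              0 < (trun stp c0 (t + i)).2.length ∧
              (trun stp c0 (t + i)).2.length ≤ (trun stp c0 s).2.length
          · right
            have hstep : bstep stp P₀ (tval N s (trun stp c0 s)) (tval N t (trun stp c0 t))
                ⟨tval N (t + i) (trun stp c0 (t + i)), best, .none⟩ =
                ⟨tval N (t + i) (trun stp c0 (t + i)), best,
                  .popped (tval N (t + i) (trun stp c0 (t + i)))⟩ := by
              unfold bstep
              simp only [tval_1 htN.le, h1, h2, h2s]
              rw [if_neg hb, if_pos hp]
            rw [hstep]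
            refine ⟨by simp, Or.inl ⟨t + i, by omega, hτ, ?_, fun r hr1 hr2 => e5 r hr1 hr2,
              rfl⟩⟩
            have := vpop_true stp c0 hiN hp.1
            simp only [this, List.length_tail]
            omega
          · left
            have hy : vpop stp (tval N (t + i) (trun stp c0 (t + i))) = true →
                (if vpop stp (tval N (t + i) (trun stp c0 (t + i))) = true ∧
                  0 < (((tval N (t + i) (trun stp c0 (t + i))).2.1 : Fin (N + 1)) : ℕ) then
                  symAt stp P₀ (tval N s (trun stp c0 s))
                    (((tval N (t + i) (trun stp c0 (t + i))).2.1 : Fin (N + 1)) : ℕ)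
                  else none) = (trun stp c0 (t + i)).2.head? := by
              intro hpp
              rw [h2]
              by_cases h0 : 0 < (trun stp c0 (t + i)).2.length
              · rw [if_pos ⟨hpp, h0⟩]
                exact symAt_top stp c0 hc0 hP₀ hU htN hL (by omega) hτ hpp hτN (by
                  by_contra hc
                  exact hp ⟨hpp, h0, not_lt.mp hc⟩)
              · rw [if_neg (by tauto)]
                have : (trun stp c0 (t + i)).2 = [] := List.length_eq_zero_iff.mp (by omega)
                rw [this]
                rfl
            have hstep : bstep stp P₀ (tval N s (trun stp c0 s)) (tval N t (trun stp c0 t))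
                ⟨tval N (t + i) (trun stp c0 (t + i)), best, .none⟩ =
                ⟨tval N (t + i + 1) (trun stp c0 (t + i + 1)),
                  better tht best (tval N (t + i) (trun stp c0 (t + i))), .none⟩ := by
              rw [← vadv_eq stp c0 hc0 hτN hy]
              unfold bstep
              simp only [tval_1 htN.le, h1, h2, h2s]
              rw [if_neg hb, if_neg hp]
            rw [hstep]
            have hnext : (trun stp c0 s).2.length ≤ (trun stp c0 (t + i + 1)).2.length := by
              by_cases hpp : vpop stp (tval N (t + i) (trun stp c0 (t + i))) = true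
              · have := vpop_true stp c0 hiN hpp
                rw [this, List.length_tail]
                by_cases h0 : 0 < (trun stp c0 (t + i)).2.length
                · have : ¬ (trun stp c0 (t + i)).2.length ≤ (trun stp c0 s).2.length :=
                    fun hc => hp ⟨hpp, h0, hc⟩
                  omega
                · omega
              · exact hhs.trans (vpop_false stp c0 hiN hpp)
            refine ⟨rfl, hτ, rfl, ?_, fun r hr1 hr2 => ?_⟩
            · right
              rcases e4 with ⟨hB1, hB2⟩ | ⟨σ, hσ, c1, c2, c3, c4⟩
              · have hi0 : i = 0 := by omega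
                subst hi0
                refine ⟨t, by simp [hB1, better], le_rfl, by omega, fun r hr1 hr2 => ?_,
                  fun r hr1 hr2 => by omega⟩
                have : r = t := by omega
                rw [this]
              · have hσN : σ ≤ N := by omega
                have hhσ := tval_2 (N := N) stp c0 hc0 hσN
                by_cases hle' : (trun stp c0 (t + i)).2.length ≤ (trun stp c0 σ).2.length
                · refine ⟨t + i, ?_, by omega, by omega, fun r hr1 hr2 => ?_,
                    fun r hr1 hr2 => by omega⟩
                  · simp only [hσ, better, tht, h2, hhσ]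
                    rw [if_pos hle']
                  · rcases Nat.lt_or_ge r (t + i) with hr | hr
                    · exact hle'.trans (c3 r hr1 hr)
                    · have : r = t + i := by omega
                      rw [this]
                · refine ⟨σ, ?_, c1, by omega, fun r hr1 hr2 => ?_, fun r hr1 hr2 => ?_⟩
                  · simp only [hσ, better, tht, h2, hhσ]
                    rw [if_neg hle']
                  · rcases Nat.lt_or_ge r (t + i) with hr | hr
                    · exact c3 r hr1 hr
                    · have : r = t + i := by omega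
                      rw [this]
                      exact (not_le.mp hle').le
                  · rcases Nat.lt_or_ge r (t + i) with hr | hr
                    · exact c4 r hr1 hr
                    · have : r = t + i := by omega
                      rw [this]
                      exact not_le.mp hle'
            · rcases Nat.lt_or_ge r (t + i + 1) with hr | hr
              · exact e5 r hr1 (by omega)
              · have : r = t + i + 1 := by omega
                rw [this]
                exact hnext
      · right
        have hstep : bstep stp P₀ (tval N s (trun stp c0 s)) (tval N t (trun stp c0 t))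
            ⟨cur, best, fin⟩ = ⟨cur, best, fin⟩ := by
          unfold bstep
          cases fin with
          | none => exact absurd rfl e1
          | popped x => rfl
          | done z u => rfl
        rw [hstep]
        exact ⟨e1, e2⟩
  rcases key (P₀ + 1) with h | h
  · omega
  · exact h.2

/-- The value at the end of the run. -/
theorem phiB_final (hc0 : c0.2 = []) {P₀ M D : ℕ} (hP₀ : 0 < P₀) (hM : 0 < M)
    (hN : N = P₀ * M ^ D) (hU : Uni stp c0 P₀) :
    ∃ u, PhiB ttm tht P₀ M (phiB (N := N) stp P₀) D (tval N 0 c0) (tval N 0 c0) =
      .done (tval N N (trun stp c0 N)) u := by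
  exact PhiB_final (V := TV N S) (tm := ttm) (ht := tht)
    (h := fun u => (trun stp c0 u).2.length) (C := fun u => tval N u (trun stp c0 u))
    hP₀ hM hN (fun t ht => tval_1 ht _) (fun t ht => tval_2 stp c0 hc0 ht)
    (fun t _ => by
      rw [trun_succ]
      exact le_app_length _ _)
    (by simp [trun, hc0])
    (fun s t hst htN hL hle => phiB_right stp c0 hc0 hP₀ (hN ▸ Dvd.intro _ rfl) hU s t hst htN
      hL hle)

end run

end Pool.Agent.Helper17.TU
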