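import Pool.Agent.Helper17.TU.NumEq2
import Pool.Agent.Helper17.TU.MachR
import Pool.Agent.Helper17.TU.PhiTVal
import Pool.Agent.Helper17.UL.Ans

set_option autoImplicit false

/-!
Few turns: the answer is read from the value of the scheme.
-/

namespace Pool.Agent.Helper17.TU

open Pool.Agent.Helper17.SL Pool.Agent.Helper17.UL

section

variable {α Q Γ : Type} [Fintype α] [Fintype Q] [Fintype Γ] {k R : ℕ} [Fintype (Pend Γ R)]

theorem kV_init {n N : ℕ} (q₀ : Q) :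
    kV (tval N 0 (((none, uinit Γ k n R q₀) : Option Bool × UCtl Q Γ k n R), ([] : List Γ))) =
      a0 k q₀ Γ R := by
  funext i
  revert i
  apply idx_cases
  · rw [kV_0]; simp [tval, clamp, a0]
  · rw [kV_1]; simp [tval, clamp, a0]
  · rw [kV_2]; simp [tval, a0, dirc]
  · rw [kV_3]; simp [tval, a0, uinit]
  · rw [kV_4]; simp [tval, a0, uinit]
  · rw [kV_5]; simp [tval, a0, oc, uinit]
  · intro j
    rw [kV_pj]
    have h3 : ((pj j : Fin (k + 4 + 2)) : ℕ) ≠ 3 := by simp [pj]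
    have h4 : ((pj j : Fin (k + 4 + 2)) : ℕ) ≠ 4 := by simp [pj]
    simp [tval, a0, h3, h4, uinit]

theorem a0_ltT {n N B : ℕ} (h : NOK Q Γ n R N B) (q₀ : Q) (i : Fin (k + 4 + 2)) :
    a0 k q₀ Γ R i < B := by
  have h2 := h.h2
  unfold a0
  split_ifs
  · exact (fc_lt _).trans h.hQ
  · exact (fc_lt _).trans h.hP
  · omega

theorem answerT (δ : PDTrans α Q Γ k) (q₀ : Q) (F : Q → Bool) (u : List α) {P₀ E : ℕ} (p : Prm)
    (hP₀ : 0 < P₀) (hM : 0 < p.M) (hB : NOK Q Γ u.length R (P₀ * p.M ^ E) p.B)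
    (hmB : p.m < p.B) (hm : p.m = 4 * p.M + 6)
    (hb : 2 ^ p.b = p.B ^ Fintype.card (CI (k + 4))) {r : ℕ} (hmr : p.m ≤ r)
    (hr : 2 ^ (2 * p.b) ≤ r ^ p.t2)
    (phi0N : (Fin (k + 4 + 2) → ℕ) → (Fin (k + 4 + 2) → ℕ) → RI (k + 4) → ℕ)
    (hphi : ∀ g x : TV (P₀ * p.M ^ E) (Option Bool × UCtl Q Γ k u.length R),
      phi0N (kV g) (kV x) = cRes kV (phiB (tact (uact δ F u) P₀) P₀ g x))
    (nn : ℕ) (hnn : E * p.Del ≤ nn) :
    tabF F (decI p.B ((PhiT p P₀ phi0N).val nn (mkN 1 E 0 0 0 (a0 k q₀ Γ R) (a0 k q₀ Γ R)))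
      (RI.x (⟨3, by omega⟩ : Fin (k + 4 + 2)))) = 1 ↔
      F ((trun (tact (uact (n := u.length) (R := R) δ F u) P₀)
        ((none, uinit Γ k u.length R q₀), []) (P₀ * p.M ^ E)).1.2.1) = true := by
  set c0 : (Option Bool × UCtl Q Γ k u.length R) × List Γ :=
    ((none, uinit Γ k u.length R q₀), []) with hc0
  obtain ⟨u', hu'⟩ := phiB_final (tact (uact (n := u.length) (R := R) δ F u) P₀) c0 rfl
    (N := P₀ * p.M ^ E) hP₀ hM rfl (tact_uni _ P₀ c0)
  have hval := PhiT_val (kV (n := u.length) (R := R) (N := P₀ * p.M ^ E)) ttm tht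
    (fun v => rfl) (fun v => rfl) p P₀ phi0N (D := E) (kV_lt hB) hB.h2 hmB hm hb hmr hr
    (phiB (tact (uact δ F u) P₀) P₀) (fun g x _ => hphi g x) E le_rfl nn hnn
    (tval (P₀ * p.M ^ E) 0 c0) (tval (P₀ * p.M ^ E) 0 c0)
  rw [hu', hc0, kV_init] at hval
  rw [hval]
  have hlt : ∀ i, cRes kV (Res.done (tval (P₀ * p.M ^ E) (P₀ * p.M ^ E)
      (trun (tact (uact (n := u.length) (R := R) δ F u) P₀) c0 (P₀ * p.M ^ E))) u') i < p.B := by
    intro i
    cases i with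
    | tag => exact hB.h2
    | x i => exact kV_lt hB _ _
    | u i => exact kV_lt hB _ _
  have hdec := congrFun (decI_encI _ hlt) (RI.x (⟨3, by omega⟩ : Fin (k + 4 + 2)))
  rw [hdec]
  have hc : cRes kV (Res.done (tval (P₀ * p.M ^ E) (P₀ * p.M ^ E)
      (trun (tact (uact (n := u.length) (R := R) δ F u) P₀) c0 (P₀ * p.M ^ E))) u')
      (RI.x (⟨3, by omega⟩ : Fin (k + 4 + 2))) =
      fc (trun (tact (uact (n := u.length) (R := R) δ F u) P₀) c0 (P₀ * p.M ^ E)).1.2.1 := rfl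
  rw [hc, tabF, ptab_code fc_injective]
  cases F (trun (tact (uact (n := u.length) (R := R) δ F u) P₀) c0 (P₀ * p.M ^ E)).1.2.1 <;> simp

end

end Pool.Agent.Helper17.TU
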