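import Pool.Agent.Helper17.TU.DigFL1
import Pool.Agent.Helper17.UL.CoefR

set_option autoImplicit false

/-!
Few turns: the coefficient of a selector is computable.
-/

namespace Pool.Agent.Helper17.TU

open Pool.Agent.Helper17.SL Pool.Agent.Helper17.UL Pool.Agent.Helper6

/-! ### Arithmetic -/

/-- The Lagrange polynomial of the digit `d`. -/
private def trn3_lagN (f q len : ℕ) (iv : ℕ → ℕ) (d X : ℕ) : ℕ :=
  Nat.rec (motive := fun _ => ℕ) 1 (fun e P => if e = d then P else
    min (P * (min ((min (X + f) (len + 1) - e) % f * iv (min (d + f) (len + 1) - e)) (len + 1) % f))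
      (len + 1) % f) q

/-- The factor number `i` of the indicator polynomial. -/
private def trn3_facN (f q len : ℕ) (iv : ℕ → ℕ) (u X i : ℕ) : ℕ :=
  trn3_lagN f q len iv (u / min (q ^ i) (len + 1) % q) (X / min (f ^ i) (len + 1) % f)

/-- The indicator polynomial. -/
private def trn3_dqN (f q b len : ℕ) (iv : ℕ → ℕ) (u X : ℕ) : ℕ :=
  Nat.rec (motive := fun _ => ℕ) 1
    (fun i P => min (P * trn3_facN f q len iv u X i) (len + 1) % f) b

/-- The term number `m` of the coefficient. -/
private def trn3_termN (f q b len : ℕ) (iv : ℕ → ℕ) (sel : ℕ → ℕ → ℕ) (s X Y m : ℕ) : ℕ :=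
  if sel (m / min (q ^ b) (len + 1)) (m % min (q ^ b) (len + 1)) = s then
    min (trn3_dqN f q b len iv (m / min (q ^ b) (len + 1)) X *
      trn3_dqN f q b len iv (m % min (q ^ b) (len + 1)) Y) (len + 1) % f
  else 0

/-- The coefficient. -/
private def trn3_coefN (f q b len : ℕ) (iv : ℕ → ℕ) (sel : ℕ → ℕ → ℕ) (s X Y : ℕ) : ℕ :=
  Nat.rec (motive := fun _ => ℕ) 0
    (fun m acc => min (acc + trn3_termN f q b len iv sel s X Y m) (len + 1) % f)
    (min (min (q ^ b) (len + 1) * min (q ^ b) (len + 1)) (len + 1))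

section Sem

variable {f q b len : ℕ}

private theorem trn3_lagN_eq (h : LongQ len f q b) {iv : ℕ → ℕ}
    (hiv : ∀ c ≤ len + 1, iv c = ((c : ZMod f)⁻¹).val) {d : ℕ} (hd : d < q) (x : ZMod f) :
    trn3_lagN f q len iv d x.val = (lag f q d x).val := by
  have h4 := h.ff
  have h5 := h.pr.two_le
  have hqf := h.qf
  have : NeZero f := ⟨by omega⟩
  have : Fact (1 < f) := ⟨by omega⟩
  have h6 : 2 * f ≤ len := by nlinarith
  let g : ℕ → ZMod f := fun e => if e = d then 1 else (x - (e : ZMod f)) *
    ((d : ZMod f) - (e : ZMod f))⁻¹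
  let R : ℕ → ℕ := fun k => Nat.rec (motive := fun _ => ℕ) 1 (fun e P => if e = d then P else
    min (P * (min ((min (x.val + f) (len + 1) - e) % f * iv (min (d + f) (len + 1) - e))
      (len + 1) % f)) (len + 1) % f) k
  have hR0 : R 0 = 1 := rfl
  have hRs : ∀ k, R (k + 1) = if k = d then R k else
    min (R k * (min ((min (x.val + f) (len + 1) - k) % f * iv (min (d + f) (len + 1) - k))
      (len + 1) % f)) (len + 1) % f := fun _ => rfl
  have key : ∀ k ≤ q, R k = (∏ e ∈ Finset.range k, g e).val := by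
    intro k
    induction k with
    | zero =>
      intro _
      rw [Finset.range_zero, Finset.prod_empty, ZMod.val_one, hR0]
    | succ k ih =>
      intro hk
      rw [Finset.prod_range_succ, ZMod.val_mul, ← ih (by omega), hRs]
      have h7 := ZMod.val_lt (∏ e ∈ Finset.range k, g e)
      rw [← ih (by omega)] at h7
      generalize R k = P at h7 ⊢
      by_cases hkd : k = d
      · rw [if_pos hkd]
        simp only [g, if_pos hkd]
        rw [ZMod.val_one, mul_one, Nat.mod_eq_of_lt h7]
      · rw [if_neg hkd]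
        have hx := ZMod.val_lt x
        rw [min_eq_left (show x.val + f ≤ len + 1 by omega),
          min_eq_left (show d + f ≤ len + 1 by omega), hiv _ (by omega)]
        have h8 : (((d + f - k : ℕ) : ZMod f)) = (d : ZMod f) - (k : ZMod f) := by
          rw [Nat.cast_sub (by omega)]
          push_cast
          rw [ZMod.natCast_self]
          ring
        rw [h8]
        have h9 := ZMod.val_lt (((d : ZMod f) - (k : ZMod f))⁻¹)
        have h10 : (x.val + f - k) % f < f := Nat.mod_lt _ (by omega)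
        have h11 : (x.val + f - k) % f = (x - (k : ZMod f)).val := by
          symm
          apply val_of_cast
          rw [Nat.cast_sub (by omega)]
          push_cast
          rw [ZMod.natCast_self, ZMod.natCast_zmod_val]
          ring
        have h12 : (x.val + f - k) % f * (((d : ZMod f) - (k : ZMod f))⁻¹).val ≤ f * f :=
          Nat.mul_le_mul h10.le h9.le
        have h13 : f * f ≤ len := by nlinarith
        rw [min_eq_left (show (x.val + f - k) % f * (((d : ZMod f) - (k : ZMod f))⁻¹).val ≤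
          len + 1 by omega), h11, ← ZMod.val_mul]
        have h14 := ZMod.val_lt ((x - (k : ZMod f)) * ((d : ZMod f) - (k : ZMod f))⁻¹)
        have h15 : P * ((x - (k : ZMod f)) * ((d : ZMod f) - (k : ZMod f))⁻¹).val ≤ f * f :=
          Nat.mul_le_mul h7.le h14.le
        rw [min_eq_left (by omega)]
        simp only [g, if_neg hkd]
  unfold lag
  show R q = _
  rw [key q le_rfl]
  congr 1
  rw [← Finset.prod_erase (f := g) (a := d) (Finset.range q) (by simp only [g, if_true])]
  refine Finset.prod_congr rfl (fun e he => ?_)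
  rw [Finset.mem_erase] at he
  simp only [g, if_neg he.1]

private theorem trn3_powf_le (h : LongQ len f q b) {i : ℕ} (hi : i < b) : f ^ i ≤ len :=
  le_trans (Nat.pow_le_pow_right (by have := h.pr.two_le; omega) hi.le) h.fb

private theorem trn3_powq_le (h : LongQ len f q b) {i : ℕ} (hi : i ≤ 2 * b) : q ^ i ≤ len :=
  le_trans (Nat.pow_le_pow_right (by have := h.q2; omega) hi) h.bb

private theorem trn3_facN_eq (h : LongQ len f q b) {iv : ℕ → ℕ}
    (hiv : ∀ c ≤ len + 1, iv c = ((c : ZMod f)⁻¹).val) (u : ℕ) (x : Blk (ZMod f) b) (i : Fin b) :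
    trn3_facN f q len iv u (blkNum x) i = (lag f q (u / q ^ (i : ℕ) % q) (x i)).val := by
  have h5 := h.pr.two_le
  have : NeZero f := ⟨by omega⟩
  have h1 := trn3_powf_le h i.2
  have h2 := trn3_powq_le h (i := (i : ℕ)) (by have := i.2; omega)
  unfold trn3_facN
  rw [min_eq_left (show q ^ (i : ℕ) ≤ len + 1 by omega),
    min_eq_left (show f ^ (i : ℕ) ≤ len + 1 by omega), blkNum_digit]
  exact trn3_lagN_eq h hiv (Nat.mod_lt _ (by have := h.q2; omega)) (x i)

private theorem trn3_dqN_eq (h : LongQ len f q b) {iv : ℕ → ℕ}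
    (hiv : ∀ c ≤ len + 1, iv c = ((c : ZMod f)⁻¹).val) (u : ℕ) (x : Blk (ZMod f) b) :
    trn3_dqN f q b len iv u (blkNum x) = (dq f q b u x).val := by
  have h4 := h.ff
  have h5 := h.pr.two_le
  have : NeZero f := ⟨by omega⟩
  have : Fact (1 < f) := ⟨by omega⟩
  let fa : ℕ → ZMod f := fun i => if hi : i < b then lag f q (u / q ^ i % q) (x ⟨i, hi⟩) else 1
  have key : ∀ k ≤ b, (Nat.rec (motive := fun _ => ℕ) 1
      (fun i P => min (P * trn3_facN f q len iv u (blkNum x) i) (len + 1) % f) k : ℕ) =
      (∏ i ∈ Finset.range k, fa i).val := by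
    intro k
    induction k with
    | zero =>
      intro _
      rw [Finset.range_zero, Finset.prod_empty, ZMod.val_one]
      rfl
    | succ k ih =>
      intro hk
      show min (_ * trn3_facN f q len iv u (blkNum x) k) (len + 1) % f = _
      rw [ih (by omega), Finset.prod_range_succ, ZMod.val_mul]
      have h6 := trn3_facN_eq h hiv u x ⟨k, by omega⟩
      simp only at h6
      rw [h6]
      have h8 := ZMod.val_lt (∏ i ∈ Finset.range k, fa i)
      have h9 := ZMod.val_lt (lag f q (u / q ^ k % q) (x ⟨k, by omega⟩))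
      have h10 : (∏ i ∈ Finset.range k, fa i).val *
          (lag f q (u / q ^ k % q) (x ⟨k, by omega⟩)).val ≤ f * f := Nat.mul_le_mul h8.le h9.le
      rw [min_eq_left (by nlinarith)]
      simp only [fa, dif_pos (show k < b by omega)]
  unfold trn3_dqN dq
  rw [key b le_rfl, Finset.prod_range]
  congr 1
  refine Finset.prod_congr rfl (fun i _ => ?_)
  simp only [fa, dif_pos i.2]

private theorem trn3_coefN_eq (h : LongQ len f q b) {iv : ℕ → ℕ}
    (hiv : ∀ c ≤ len + 1, iv c = ((c : ZMod f)⁻¹).val) {A : Type} (S : Scheme A) (a : A) (s : ℕ)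
    (x y : Blk (ZMod f) b) :
    trn3_coefN f q b len iv (S.sel a) s (blkNum x) (blkNum y) =
      (coefq S f q b a s x y).val := by
  have h4 := h.ff
  have h5 := h.pr.two_le
  have : NeZero f := ⟨by omega⟩
  have hD : q ^ b ≤ len := trn3_powq_le h (by omega)
  have hD2 : q ^ b * q ^ b ≤ len := by
    have := h.bb
    rwa [two_mul, pow_add] at this
  have hD0 : 0 < q ^ b := Nat.pow_pos (by have := h.q2; omega)
  let T : ℕ → ZMod f := fun m => if S.sel a (m / q ^ b) (m % q ^ b) = s then
    dq f q b (m / q ^ b) x * dq f q b (m % q ^ b) y else 0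
  have hT : ∀ m, trn3_termN f q b len iv (S.sel a) s (blkNum x) (blkNum y) m = (T m).val := by
    intro m
    unfold trn3_termN
    simp only [T]
    rw [min_eq_left (show q ^ b ≤ len + 1 by omega)]
    by_cases h6 : S.sel a (m / q ^ b) (m % q ^ b) = s
    · rw [if_pos h6, if_pos h6, trn3_dqN_eq h hiv, trn3_dqN_eq h hiv]
      have h7 := ZMod.val_lt (dq f q b (m / q ^ b) x)
      have h8 := ZMod.val_lt (dq f q b (m % q ^ b) y)
      rw [min_eq_left, ZMod.val_mul]
      have : (dq f q b (m / q ^ b) x).val * (dq f q b (m % q ^ b) y).val ≤ f * f :=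
        Nat.mul_le_mul h7.le h8.le
      nlinarith
    · rw [if_neg h6, if_neg h6, ZMod.val_zero]
  have key : ∀ k : ℕ, (Nat.rec (motive := fun _ => ℕ) 0 (fun m acc =>
      min (acc + trn3_termN f q b len iv (S.sel a) s (blkNum x) (blkNum y) m) (len + 1) % f) k :
        ℕ) = (∑ m ∈ Finset.range k, T m).val := by
    intro k
    induction k with
    | zero =>
      rw [Finset.range_zero, Finset.sum_empty, ZMod.val_zero]
      rfl
    | succ k ih =>
      show min (_ + trn3_termN f q b len iv (S.sel a) s (blkNum x) (blkNum y) k) (len + 1) % f = _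
      rw [ih, Finset.sum_range_succ, hT]
      have h7 := ZMod.val_lt (∑ m ∈ Finset.range k, T m)
      have h8 := ZMod.val_lt (T k)
      rw [min_eq_left, ZMod.val_add]
      nlinarith
  unfold trn3_coefN coefq
  rw [min_eq_left (show q ^ b ≤ len + 1 by omega), min_eq_left (show q ^ b * q ^ b ≤ len + 1 by
    omega), key]
  congr 1
  exact sum_range_mul' (fun u₁ u₂ => if S.sel a u₁ u₂ = s then
    dq f q b u₁ x * dq f q b u₂ y else 0) _ _ hD0

end Sem

section FLs

variable {β V : Type} [Finite V] {f q b : List β → ℕ} {iv : List β → ℕ → ℕ}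

private theorem trn3_lagN_FL (hf : FL β Empty (fun w _ => f w))
    (hq : FL β Empty (fun w _ => q w)) (hiv : FL β Unit (fun w z => iv w (z ())))
    {d X : List β → (V → ℕ) → ℕ} (hd : FL β V d) (hX : FL β V X) :
    FL β V (fun w z => trn3_lagN (f w) (q w) w.length (iv w) (d w z) (X w z)) := by
  have h : FL β Bool (fun w z => trn3_lagN (f w) (q w) w.length (iv w) (z false) (z true)) := by
    have hf' : FL β (Unit ⊕ (Bool ⊕ Unit)) (fun w _ => f w) := FL.ofEmpty7 hf
    have hP : FL β (Unit ⊕ (Bool ⊕ Unit)) (fun _ z => z (Sum.inl ())) := FL.proj _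
    have he : FL β (Unit ⊕ (Bool ⊕ Unit)) (fun _ z => z (Sum.inr (Sum.inr ()))) := FL.proj _
    have hdd : FL β (Unit ⊕ (Bool ⊕ Unit)) (fun _ z => z (Sum.inr (Sum.inl false))) := FL.proj _
    have hXX : FL β (Unit ⊕ (Bool ⊕ Unit)) (fun _ z => z (Sum.inr (Sum.inl true))) := FL.proj _
    have h1 := (((hXX.add hf').sub he).mod hf').mul (FL.comp1 hiv ((hdd.add hf').sub he))
    exact FL.iterIdx1 (V := Bool) (F := fun w P e z => if e = z false then P else
        min (P * (min ((min (z true + f w) (w.length + 1) - e) % f w *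
          iv w (min (z false + f w) (w.length + 1) - e)) (w.length + 1) % f w))
          (w.length + 1) % f w)
      (FL.ite (isL_eq he hdd) hP ((hP.mul (h1.mod hf')).mod hf'))
      FL.one (FL.ofEmpty7 hq)
  exact FL.comp h (g := fun c => bif c then X else d) (by rintro (_ | _) <;> assumption)

private theorem trn3_facN_FL (hf : FL β Empty (fun w _ => f w))
    (hq : FL β Empty (fun w _ => q w)) (hiv : FL β Unit (fun w z => iv w (z ())))
    {u X i : List β → (V → ℕ) → ℕ} (hu : FL β V u) (hX : FL β V X) (hi : FL β V i) :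
    FL β V (fun w z => trn3_facN (f w) (q w) w.length (iv w) (u w z) (X w z) (i w z)) := by
  have hf' : FL β V (fun w _ => f w) := FL.ofEmpty7 hf
  have hq' : FL β V (fun w _ => q w) := FL.ofEmpty7 hq
  exact trn3_lagN_FL hf hq hiv ((hu.div (hq'.pow hi)).mod hq') ((hX.div (hf'.pow hi)).mod hf')

private theorem trn3_dqN_FL (hf : FL β Empty (fun w _ => f w))
    (hq : FL β Empty (fun w _ => q w)) (hb : FL β Empty (fun w _ => b w))
    (hiv : FL β Unit (fun w z => iv w (z ())))
    {u X : List β → (V → ℕ) → ℕ} (hu : FL β V u) (hX : FL β V X) :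
    FL β V (fun w z => trn3_dqN (f w) (q w) (b w) w.length (iv w) (u w z) (X w z)) := by
  have h : FL β Bool (fun w z =>
      trn3_dqN (f w) (q w) (b w) w.length (iv w) (z false) (z true)) :=
    FL.iterIdx1 (V := Bool) (F := fun w P i z =>
        min (P * trn3_facN (f w) (q w) w.length (iv w) (z false) (z true) i)
          (w.length + 1) % f w)
      (((FL.proj _).mul (trn3_facN_FL hf hq hiv (FL.proj _) (FL.proj _) (FL.proj _))).mod
        (FL.ofEmpty7 hf))
      FL.one (FL.ofEmpty7 hb)
  exact FL.comp h (g := fun c => bif c then X else u) (by rintro (_ | _) <;> assumption)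

end FLs

variable {β U : Type} [Finite U] {f q b : List β → ℕ}

/-- Piece TRN-3. Adapt `Helper17.UL.CoefR` (`facN`, `dlN`, `termN`, `coefN`, `coef_FL`): the digit
number `i` of `u` in base `q` is `D = u / q ^ i % q`, the field element is `X / f ^ i % f`, and the
factor is the Lagrange polynomial `lag f q D`, a product over `e < q`, `e ≠ D` of
`(x + f - e) * inv (D + f - e)` modulo `f`, computed by a bounded iteration (`FL.iterIdx1`), with
`inv` from `invmod_FL`. -/
theorem coefq_FL (S : List β → Scheme (U → ℕ)) (hS : SchemeFL β U S)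
    (hf : FL β Empty (fun w _ => f w)) (hq : FL β Empty (fun w _ => q w))
    (hb : FL β Empty (fun w _ => b w)) :
    ∃ g : List β → (U → ℕ) → ℕ → ℕ → ℕ → ℕ,
      FL β (U ⊕ Fin 3) (fun w z =>
        g w (z ∘ Sum.inl) (z (Sum.inr 0)) (z (Sum.inr 1)) (z (Sum.inr 2))) ∧
      ∀ w, LongQ w.length (f w) (q w) (b w) → ∀ (a : U → ℕ) (s : ℕ)
        (x y : Blk (ZMod (f w)) (b w)), (∀ u, a u ≤ w.length + 1) → s ≤ w.length + 1 →
        g w a s (blkNum x) (blkNum y) = (coefq (S w) (f w) (q w) (b w) a s x y).val := by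
  obtain ⟨iv, hiv, hiv2⟩ := invmod_FL hf
  refine ⟨fun w a s X Y => trn3_coefN (f w) (q w) (b w) w.length (iv w) ((S w).sel a) s X Y, ?_,
    fun w h a s x y _ _ => trn3_coefN_eq h (hiv2 w h.pr h.ff) (S w) a s x y⟩
  have hD : ∀ {V : Type} [Finite V], FL β V (fun w _ => min (q w ^ b w) (w.length + 1)) :=
    fun {V} _ => (FL.ofEmpty7 hq).pow (FL.ofEmpty7 hb)
  refine FL.iterIdx1 (V := U ⊕ Fin 3) (F := fun w acc m z =>
      min (acc + trn3_termN (f w) (q w) (b w) w.length (iv w) ((S w).sel (z ∘ Sum.inl))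
        (z (Sum.inr 0)) (z (Sum.inr 1)) (z (Sum.inr 2)) m) (w.length + 1) % f w) ?_ FL.zero
        (hD.mul hD)
  refine FL.mod (FL.add (FL.proj _) ?_) (FL.ofEmpty7 hf)
  have hm : FL β (Unit ⊕ ((U ⊕ Fin 3) ⊕ Unit)) (fun _ z => z (Sum.inr (Sum.inr ()))) :=
    FL.proj _
  have h1 := hm.div hD
  have h2 := hm.mod hD
  have h3 : FL β (Unit ⊕ ((U ⊕ Fin 3) ⊕ Unit)) (fun w z =>
      (S w).sel (fun u => z (Sum.inr (Sum.inl (Sum.inl u))))
        (z (Sum.inr (Sum.inr ())) / min (q w ^ b w) (w.length + 1))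
        (z (Sum.inr (Sum.inr ())) % min (q w ^ b w) (w.length + 1))) :=
    FL.comp hS.sel (g := fun v w z => match v with
      | Sum.inl u => z (Sum.inr (Sum.inl (Sum.inl u)))
      | Sum.inr false => z (Sum.inr (Sum.inr ())) / min (q w ^ b w) (w.length + 1)
      | Sum.inr true => z (Sum.inr (Sum.inr ())) % min (q w ^ b w) (w.length + 1)) (by
        rintro (u | _ | _)
        · exact FL.proj _
        · exact h1
        · exact h2)
  exact FL.ite (isL_eq h3 (FL.proj _))
    ((FL.mul (trn3_dqN_FL hf hq hb hiv h1 (FL.proj _))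
      (trn3_dqN_FL hf hq hb hiv h2 (FL.proj _))).mod (FL.ofEmpty7 hf))
    FL.zero

end Pool.Agent.Helper17.TU
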