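import Pool.Agent.Helper17.TU.DigSem
import Pool.Agent.Helper17.TU.DigFL2
import Pool.Agent.Helper17.UL.Eval

set_option autoImplicit false

/-!
Few turns: the generic evaluator of recursion schemes, with digits.
-/

namespace Pool.Agent.Helper17.TU

open Pool.Agent.Helper17.SL Pool.Agent.Helper17.UL Pool.Agent.Helper6

section

variable {β U : Type}

theorem nexecq_eq (S : Scheme (U → ℕ)) {f q b : ℕ} [Fact f.Prime] {lin : ℕ → ℕ → ℕ → ℕ}
    {bits : ℕ → ℕ} {mulm : ℕ → ℕ → ℕ} {inv : ℕ → ℕ} {co : (U → ℕ) → ℕ → ℕ → ℕ → ℕ}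
    (hlin : ∀ (x y : Blk (ZMod f) b) (c : ZMod f),
      lin (blkNum x) c.val (blkNum y) = blkNum (x + c • y))
    (it : Item (U → ℕ)) (hbits : bits (S.leafVal it.a) = blkNum (nq f q b (S.leafVal it.a)))
    (hmul : ∀ x y : ZMod f, mulm x.val y.val = (x * y).val)
    (hinv : inv it.s = ((it.s : ZMod f)⁻¹).val)
    (hco : ∀ x y : Blk (ZMod f) b, co it.a it.s (blkNum x) (blkNum y) =
      (coefq S f q b it.a it.s x y).val) (R : Reg (ZMod f) b) (k : Fin 4) :
    nexec f lin bits mulm inv co S.leafVal (fun k => blkNum (R k)) it.tag it.sg it.j it.s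
      it.a k =
      blkNum (execq S f q b it R k) := by
  have hlin0 : ∀ (y : Blk (ZMod f) b) (c : ZMod f), lin 0 c.val (blkNum y) = blkNum (c • y) := by
    intro y c
    have := hlin 0 y c
    rwa [blkNum_zero, zero_add] at this
  unfold nexec execq
  by_cases h2 : it.tag = 2
  · rw [if_pos h2, if_pos h2]
    by_cases hk : k = f4 it.j
    · rw [if_pos ((f4_iff _ _).mpr hk), hk, Function.update_self, sgn_val, hbits, hlin]
    · rw [if_neg (fun h => hk ((f4_iff _ _).mp h)), Function.update_of_ne hk]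
  · rw [if_neg h2, if_neg h2]
    by_cases h3 : it.tag = 3
    · rw [if_pos h3, if_pos h3]
      by_cases hk : k = f4 it.j + 1 ∨ k = f4 it.j + 2
      · rw [if_pos hk, if_pos (by rwa [f4_iff1, f4_iff2]), ← ZMod.val_natCast, hlin0]
      · rw [if_neg hk, if_neg (by rwa [f4_iff1, f4_iff2])]
    · rw [if_neg h3, if_neg h3]
      by_cases h4 : it.tag = 4
      · rw [if_pos h4, if_pos h4]
        by_cases hk : k = f4 it.j + 1 ∨ k = f4 it.j + 2
        · rw [if_pos hk, if_pos (by rwa [f4_iff1, f4_iff2]), hinv, hlin0]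
        · rw [if_neg hk, if_neg (by rwa [f4_iff1, f4_iff2])]
      · rw [if_neg h4, if_neg h4]
        by_cases h5 : it.tag = 5
        · rw [if_pos h5, if_pos h5]
          by_cases hk : k = f4 it.j
          · rw [if_pos ((f4_iff _ _).mpr hk), hk, Function.update_self, sgn_val, hco, hmul,
              hlin]
          · rw [if_neg (fun h => hk ((f4_iff _ _).mp h)), Function.update_of_ne hk]
        · rw [if_neg h5, if_neg h5]

end

section

variable {β U : Type} [Finite U] {f q b : List β → ℕ}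

theorem execq_FL (S : List β → Scheme (U → ℕ)) (hS : SchemeFL β U S)
    (hf : FL β Empty (fun w _ => f w)) (hq : FL β Empty (fun w _ => q w))
    (hb : FL β Empty (fun w _ => b w)) :
    ∃ X : List β → (Fin 4 → ℕ) → (TI U → ℕ) → Fin 4 → ℕ,
      (∀ k, FL β (Fin 4 ⊕ TI U) (fun w z => X w (z ∘ Sum.inl) (z ∘ Sum.inr) k)) ∧
      ∀ w, LongQ w.length (f w) (q w) (b w) → ∀ (it : Item (U → ℕ))
        (R : Reg (ZMod (f w)) (b w)), it.s ≤ w.length + 1 → (∀ u, it.a u ≤ w.length + 1) →
        X w (fun k => blkNum (R k)) (codeIt it) =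
          fun k => blkNum (execq (S w) (f w) (q w) (b w) it R k) := by
  obtain ⟨lin, lin1, lin2⟩ := lin_FL hf hb
  obtain ⟨bits, bits1, bits2⟩ := bitsq_FL hf hq hb
  obtain ⟨mulm, mul1, mul2⟩ := mulmod_FL hf
  obtain ⟨inv, inv1, inv2⟩ := invmod_FL hf
  obtain ⟨co, co1, co2⟩ := coefq_FL S hS hf hq hb
  let D : List β → (Fin 4 ⊕ TI U → ℕ) → Prop := fun w _ => LongQ w.length (f w) (q w) (b w)
  have hlong : ∀ w z, D w z → 4 ≤ w.length := by
    intro w z h
    have h1 := h.pr.two_le
    have h2 := h.ff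
    calc 4 = 2 ^ 2 := by norm_num
      _ ≤ f w ^ 2 := Nat.pow_le_pow_left h1 2
      _ ≤ _ := h2
  have hc : ∀ c ≤ 5, FLon β (Fin 4 ⊕ TI U) D (fun _ _ => c) := fun c hc =>
    FLon.const c fun w x h => by have := hlong w x h; omega
  have pY : ∀ i, FLon β (Fin 4 ⊕ TI U) D (fun w z => z (Sum.inr i)) := fun i => FLon.proj _
  have pX : ∀ k, FLon β (Fin 4 ⊕ TI U) D (fun w z => z (Sum.inl k)) := fun k => FLon.proj _
  have ff : FLon β (Fin 4 ⊕ TI U) D (fun w _ => f w) := FLon.of
    (FL.comp (U := Empty) hf (g := fun u => u.elim) (fun u => u.elim))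
  have hsg : FLon β (Fin 4 ⊕ TI U) D
      (fun w z => if z (Sum.inr .sg) = 0 then 1 else f w - 1) :=
    FLon.ite' (IsLon.eqConst 0 (pY .sg)) FLon.one (ff.sub FLon.one)
  have hjm : FLon β (Fin 4 ⊕ TI U) D (fun w z => z (Sum.inr .j) % 4) :=
    (pY .j).mod (hc 4 (by norm_num))
  have hlin : ∀ {p q s : List β → (Fin 4 ⊕ TI U → ℕ) → ℕ}, FLon β _ D p → FLon β _ D q →
      FLon β _ D s → FLon β _ D (fun w z => lin w (p w z) (q w z) (s w z)) := by
    intro p q s hp hq hs
    have := FLon.comp (G := ![p, q, s]) lin1 (V := Fin 4 ⊕ TI U) (D := D) (by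
      intro u
      fin_cases u
      · exact hp
      · exact hq
      · exact hs)
    exact this
  have hmul : ∀ {p q : List β → (Fin 4 ⊕ TI U → ℕ) → ℕ}, FLon β _ D p → FLon β _ D q →
      FLon β _ D (fun w z => mulm w (p w z) (q w z)) := by
    intro p q hp hq
    have := FLon.comp (G := ![p, q]) mul1 (V := Fin 4 ⊕ TI U) (D := D) (by
      intro u
      fin_cases u
      · exact hp
      · exact hq)
    exact this
  have hlv : FLon β (Fin 4 ⊕ TI U) D
      (fun w z => bits w ((S w).leafVal (fun u => z (Sum.inr (.a u))))) :=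
    FLon.comp bits1 (fun _ => FLon.comp hS.leafVal (fun u => pY (.a u)))
  have hinv : FLon β (Fin 4 ⊕ TI U) D (fun w z => inv w (z (Sum.inr .s))) :=
    FLon.comp inv1 (fun _ => pY .s)
  have hco : ∀ k, FLon β (Fin 4 ⊕ TI U) D (fun w z => co w (fun u => z (Sum.inr (.a u)))
      (z (Sum.inr .s)) (z (Sum.inl (k + 1))) (z (Sum.inl (k + 2)))) := by
    intro k
    have := FLon.comp (V := Fin 4 ⊕ TI U) (D := D) (G := Sum.elim
      (fun u => fun (w : List β) (z : Fin 4 ⊕ TI U → ℕ) => z (Sum.inr (.a u)))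
      ![fun w z => z (Sum.inr .s), fun w z => z (Sum.inl (k + 1)),
        fun w z => z (Sum.inl (k + 2))]) co1 (by
      intro u
      rcases u with u | u
      · exact pY _
      · fin_cases u
        · exact pY _
        · exact pX _
        · exact pX _)
    exact this
  have hmain : ∀ k, FLon β (Fin 4 ⊕ TI U) D (fun w z => nexec (f w) (lin w) (bits w) (mulm w)
      (inv w) (co w) (S w).leafVal (fun k => z (Sum.inl k)) (z (Sum.inr .tag))
      (z (Sum.inr .sg)) (z (Sum.inr .j)) (z (Sum.inr .s)) (fun u => z (Sum.inr (.a u))) k) := by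
    intro k
    have hk : ∀ l : Fin 4, (l : ℕ) ≤ 5 := fun l => by omega
    refine FLon.ite' (IsLon.eqConst 2 (pY .tag))
      (FLon.ite' (IsLon.eq hjm (hc _ (hk k))) (hlin (pX k) hsg hlv) (pX k)) ?_
    refine FLon.ite' (IsLon.eqConst 3 (pY .tag))
      (FLon.ite' ((IsLon.eq hjm (hc _ (hk _))).or (IsLon.eq hjm (hc _ (hk _))))
        (hlin FLon.zero ((pY .s).mod ff) (pX k)) (pX k)) ?_
    refine FLon.ite' (IsLon.eqConst 4 (pY .tag))
      (FLon.ite' ((IsLon.eq hjm (hc _ (hk _))).or (IsLon.eq hjm (hc _ (hk _))))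
        (hlin FLon.zero hinv (pX k)) (pX k)) ?_
    exact FLon.ite' (IsLon.eqConst 5 (pY .tag))
      (FLon.ite' (IsLon.eq hjm (hc _ (hk k)))
        (hlin (pX k) (hmul hsg (hco k)) (pX (k + 3))) (pX k)) (pX k)
  choose g hg1 hg2 using fun k => (hmain k).total
  refine ⟨fun w x y k => g k w (Sum.elim x y), fun k => ?_, fun w hw it R hs ha => ?_⟩
  · refine (hg1 k).congr fun w z _ => ?_
    have h : Sum.elim (z ∘ Sum.inl) (z ∘ Sum.inr) = z := by
      funext v
      cases v <;> rfl
    exact congrArg (g k w) h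
  · haveI : Fact (f w).Prime := ⟨hw.pr⟩
    funext k
    have h1 := hg2 k w (Sum.elim (fun k => blkNum (R k)) (codeIt it)) hw
    refine h1.trans ?_
    exact nexecq_eq (S w) (lin2 w hw.long) it
      (bits2 w hw _ (hS.leafVal.bd w _ ha)) (mul2 w hw.pr hw.ff) (inv2 w hw.pr hw.ff _ hs)
      (fun x y => co2 w hw _ _ x y ha hs) R k

/-- The generic evaluator. -/
theorem uniform_evalq (S : List β → Scheme (U → ℕ))
    (hS : SchemeFL β U S) {b f q r n : List β → ℕ} (hb : FL β Empty (fun w _ => b w))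
    (hq : FL β Empty (fun w _ => q w))
    (hf : FL β Empty (fun w _ => f w)) (hr : FL β Empty (fun w _ => r w))
    (hn : FL β Empty (fun w _ => n w)) {a0 : List β → U → ℕ}
    (ha0 : ∀ u, FL β Empty (fun w _ => a0 w u)) :
    ∃ out : List β → ℕ, FL β Empty (fun w _ => out w) ∧
      ∀ (w : List β) (G : (U → ℕ) → Prop) (dep : (U → ℕ) → ℕ) (bb : ℕ),
        2 ^ bb = q w ^ b w → (S w).Ok G dep bb (r w) → (∀ a, G a → ∀ u, a u ≤ w.length + 1) → G (a0 w) →
        dep (a0 w) + 1 ≤ n w → (f w).Prime → 2 ≤ q w → q w ≤ f w → 2 * (b w * (q w - 1)) < f w - 1 → 7 * f w ≤ r w →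
        r w ^ n w ≤ w.length → f w ^ b w ≤ w.length → f w ^ 2 ≤ w.length →
        q w ^ (2 * b w) ≤ w.length → out w = (S w).val (n w) (a0 w) := by
  obtain ⟨W, W1, W2⟩ := walk_FL S hS hf hr hn ha0
  obtain ⟨X, X1, X2⟩ := execq_FL S hS hf hq hb
  obtain ⟨rd, rd1, rd2⟩ := readq_FL hf hq hb
  let step : Fin 4 → List β → (Fin 4 ⊕ (Empty ⊕ Unit) → ℕ) → ℕ := fun k w z =>
    X w (fun l => z (Sum.inl l)) (W w (z (Sum.inr (Sum.inr ())))) k
  have hstep : ∀ k, FL β (Fin 4 ⊕ (Empty ⊕ Unit)) (step k) := by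
    intro k
    have := FL.comp (V := Fin 4 ⊕ (Empty ⊕ Unit)) (g := Sum.elim
      (fun l => fun (w : List β) (z : Fin 4 ⊕ (Empty ⊕ Unit) → ℕ) => z (Sum.inl l))
      (fun i => fun w z => W w (z (Sum.inr (Sum.inr ()))) i)) (X1 k) (by
      intro v
      rcases v with l | i
      · exact FL.proj _
      · exact FL.comp (g := fun _ w z => z (Sum.inr (Sum.inr ()))) (W1 i)
          (fun _ => FL.proj _))
    exact this
  have hc : FL β Empty (fun w _ => min (r w ^ n w) (w.length + 1)) := hr.pow hn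
  have hit := fun k => FL.iterIdx (init := fun _ _ _ => 0) hstep (fun _ => FL.zero) hc k
  let st : List β → ℕ → Fin 4 → ℕ := fun w m =>
    Nat.rec (motive := fun _ => Fin 4 → ℕ) (fun _ => 0)
      (fun i y k => X w y (W w i) k) m
  refine ⟨fun w => rd w (st w (min (r w ^ n w) (w.length + 1)) 0), ?_, ?_⟩
  · exact FL.comp (g := fun _ w _ => st w (min (r w ^ n w) (w.length + 1)) 0) rd1
      (fun _ => hit 0)
  · intro w G dep bb hbb2 hok hG hG0 hdep hp hq2 hqf hfb h7 hrn hfb' hff hbb
    haveI : Fact (f w).Prime := ⟨hp⟩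
    have hlong : LongQ w.length (f w) (q w) (b w) := ⟨hp, hqf, hq2, hfb', hff, hbb⟩
    have hr0 : 0 < r w := by have := hp.two_le; omega
    have hwalk := W2 w G dep bb hok hG hG0 hdep h7 hp.one_lt hrn
    set it0 : Item (U → ℕ) := ⟨0, 0, 0, 0, 0, a0 w⟩ with hit0
    have key : ∀ m ≤ r w ^ n w, st w m = fun k => blkNum ((Nat.rec
        (motive := fun _ => Reg (ZMod (f w)) (b w)) 0
        (fun pc R => execq (S w) (f w) (q w) (b w) (walk (S w) (r w) (f w) (n w) it0 pc) R) m :
          Reg (ZMod (f w)) (b w)) k) := by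
      intro m
      induction m with
      | zero =>
        intro _
        funext k
        exact blkNum_zero.symm
      | succ m ih =>
        intro hm
        have h1 := ih (by omega)
        have hW := hwalk m (by omega)
        have hWb : ∀ i, W w m i ≤ w.length + 1 := fun i =>
          (W1 i).bd w (fun _ => m) (fun _ => by omega)
        have hs : (walk (S w) (r w) (f w) (n w) it0 m).s ≤ w.length + 1 := by
          have := hWb .s
          rw [hW] at this
          exact this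
        have ha : ∀ u, (walk (S w) (r w) (f w) (n w) it0 m).a u ≤ w.length + 1 := by
          intro u
          have := hWb (.a u)
          rw [hW] at this
          exact this
        have h2 : st w (m + 1) = fun k => X w (st w m) (W w m) k := rfl
        rw [h2, h1, hW, X2 w hlong _ _ hs ha]
    have hmin : min (r w ^ n w) (w.length + 1) = r w ^ n w := min_eq_left (by omega)
    have hfin := key (r w ^ n w) le_rfl
    rw [← runq_eq_rec (S w) (f w) (q w) (b w) (r w) (n w) hr0 it0 0,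
      runq_gen (S w) hok (by omega) hqf hbb2 hfb h7 (n w) (a0 w) hG0 hdep 0 0 0 0 0] at hfin
    have hval := (S w).val_lt hok (n w) (a0 w) hG0 (by omega)
    simp only [hmin, hfin]
    have hf0 : (0 : Fin 4) = f4 0 := rfl
    have hsg : (sgn (f w) 0 : ZMod (f w)) = 1 := by simp [sgn]
    rw [hf0, Function.update_self, hsg, one_smul]
    have : (0 : Reg (ZMod (f w)) (b w)) (f4 0) = 0 := rfl
    rw [this, zero_add]
    exact rd2 w hlong _ (hbb2 ▸ hval)

end

end Pool.Agent.Helper17.TU
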