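import Pool.Agent.Helper17.TU.NumDef
import Pool.Agent.Helper17.UL.MachBd

set_option autoImplicit false

/-!
Few turns: bounds for the numeric form.
-/

namespace Pool.Agent.Helper17.TU

open Pool.Agent.Helper17.SL Pool.Agent.Helper17.UL

section

variable {α Q Γ : Type} [Fintype α] [Fintype Q] [Fintype Γ] {k : ℕ}
variable {n R N B : ℕ} [Fintype (Pend Γ R)]

theorem nDir_lt (P0 : ℕ) (x : Fin (k + 4 + 2) → ℕ) (hB : 0 < B) (hx : ∀ i, x i < B) :
    nDir P0 x < B := by
  unfold nDir
  split_ifs
  · exact hB
  · exact hx _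

/-- Piece TRN-13. -/
theorem nadv_lt (h : NOK Q Γ n R N B) (δ : PDTrans α Q Γ k) (F : Q → Bool) (p : NP)
    (hN : p.N = N) (hn : p.n = n) (x : Fin (k + 4 + 2) → ℕ) (y : ℕ) (hx : ∀ i, x i < B)
    (hy : y < B) (i : Fin (k + 4 + 2)) : nadv δ F R p x y i < B := by
  have h2 := h.h2
  have hN' : p.N < B := hN ▸ h.hN
  have hn' : p.n + 1 < B := hn ▸ h.hn
  refine lt_of_le_of_lt (min_le_left _ _) ?_
  unfold nadv0
  split_ifs
  · exact lt_of_le_of_lt (min_le_right _ _) hn'
  · exact hx _
  · exact lt_of_le_of_lt (min_le_right _ _) hN'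
  · exact lt_of_le_of_lt (min_le_right _ _) hN'
  · exact lt_of_le_of_lt (min_le_right _ _) hN'
  · exact hx _
  · omega
  · omega
  · exact nDir_lt _ _ (by omega) hx
  · exact ptab_lt _ _ _ (fun z => (fc_lt _).trans h.hQ) (by omega)
  · exact hx _
  · exact ptab_lt _ _ _ (fun z => (fc_lt _).trans h.hP) (by omega)
  · exact ptab_lt _ _ _ (fun z => (fc_lt _).trans h.hP) (by omega)
  · exact hx _
  · exact hy
  · exact ptab_lt _ _ _ (fun z => (oc_lt _).trans h.hG) (by omega)
  · exact hx _

theorem npush_lt (h : NOK Q Γ n R N B) (p : NP) (x : Fin (k + 4 + 2) → ℕ) :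
    npush (Γ := Γ) R p x < B := by
  have h2 := h.h2
  unfold npush
  split_ifs
  · exact lt_of_le_of_lt (min_le_left _ _)
      (ptab_lt _ _ _ (fun z => (oc_lt _).trans h.hG) (by omega))
  · omega

theorem nsymAt_lt (h : NOK Q Γ n R N B) (δ : PDTrans α Q Γ k) (F : Q → Bool) (p : NP)
    (hN : p.N = N) (hn : p.n = n) (g : Fin (k + 4 + 2) → ℕ) (hg : ∀ i, g i < B) (η : ℕ) :
    nsymAt δ F R p g η < B := by
  have h2 := h.h2
  have key : ∀ m : ℕ, ∀ v, ((nsymStep δ F R p η)^[m] (Sum.elim g (fun _ => 0))) v < B := by
    intro m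
    induction m with
    | zero =>
      rintro (v | v)
      · exact hg v
      · show 0 < B
        omega
    | succ m ih =>
      rw [Function.iterate_succ_apply']
      generalize (nsymStep δ F R p η)^[m] (Sum.elim g (fun _ => 0)) = q at ih
      intro v
      unfold nsymStep
      split_ifs
      · exact ih v
      · rcases v with v | v
        · exact ih _
        · exact npush_lt h p _
      · rcases v with v | v
        · exact nadv_lt h δ F p hN hn _ _ (fun i => ih _) (by omega) v
        · show 0 < B
          omega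
  exact key _ _

/-- Piece TRN-13. All components of the states of the two iterations are below `B`. -/
theorem phiNum_lt (h : NOK Q Γ n R N B) (δ : PDTrans α Q Γ k) (F : Q → Bool) (p : NP)
    (hN : p.N = N) (hn : p.n = n) (cnt : ℕ) (g x : Fin (k + 4 + 2) → ℕ) (hg : ∀ i, g i < B)
    (hx : ∀ i, x i < B) (q : RI (k + 4)) : phiNum δ F R p cnt g x q < B := by
  have h2 := h.h2
  have key : ∀ m : ℕ, ∀ v, ((nbstep δ F R p g x)^[m] (nbinit x)) v < B := by
    intro m
    induction m with
    | zero =>
      intro v
      cases v with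
      | cur i => exact hx i
      | _ => show 0 < B; omega
    | succ m ih =>
      rw [Function.iterate_succ_apply']
      generalize (nbstep δ F R p g x)^[m] (nbinit x) = a at ih
      intro v
      unfold nbstep
      have hb1 : 1 < B := by omega
      have hb0 : 0 < B := by omega
      split_ifs <;> cases v <;>
        first
        | exact ih _
        | exact lt_of_le_of_lt (min_le_left _ _) h2
        | exact hb0
        | exact hb1
        | exact nadv_lt h δ F p hN hn _ _ (fun i => ih _) (nsymAt_lt h δ F p hN hn g hg _) _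
        | exact nadv_lt h δ F p hN hn _ _ (fun i => ih _) hb0 _
  cases q with
  | tag => exact key _ _
  | x i => exact key _ _
  | u i => exact key _ _

end

end Pool.Agent.Helper17.TU
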