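import Pool.Agent.Helper17.TU.NumFL

set_option autoImplicit false

/-!
Few turns: the numeric form of the function for blocks is computable by multihead automata.
-/

namespace Pool.Agent.Helper17.TU

open Pool.Agent.Helper17.SL Pool.Agent.Helper17.UL Pool.Agent.Helper6

section

variable {α Q Γ : Type} [Fintype α] [Fintype Q] [Fintype Γ] {k : ℕ}
variable (δ : PDTrans α Q Γ k) (F : Q → Bool) (R : ℕ) [Fintype (Pend Γ R)]
variable {N P0 n : List (Option α) → ℕ}

open Classical in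
theorem trn15_step_FL (hN : FL (Option α) Empty (fun w _ => N w))
    (hP0 : FL (Option α) Empty (fun w _ => P0 w)) (hn : FL (Option α) Empty (fun w _ => n w))
    (u : Fin (k + 4 + 2) ⊕ Unit) :
    FL (Option α) ((Fin (k + 4 + 2) ⊕ Unit) ⊕ (Fin (k + 4 + 2) ⊕ Unit)) (fun w z =>
      nsymStep δ F R (npW N P0 n w) (z (Sum.inr (Sum.inr ()))) (fun v => z (Sum.inl v)) u) := by
  have hpu : FL (Option α) ((Fin (k + 4 + 2) ⊕ Unit) ⊕ (Fin (k + 4 + 2) ⊕ Unit)) (fun w z =>
      npush (Γ := Γ) R (npW N P0 n w) (fun i => z (Sum.inl (Sum.inl i)))) :=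
    FL.comp (npush_FL (α := α) (Γ := Γ) (k := k) (N := N) (n := n) R hP0)
      (g := fun i _ z => z (Sum.inl (Sum.inl i))) (fun _ => FL.proj _)
  have hc1 : IsL (Option α) ((Fin (k + 4 + 2) ⊕ Unit) ⊕ (Fin (k + 4 + 2) ⊕ Unit))
      (fun _ z => z (Sum.inl (Sum.inr ())) ≠ 0) := IsL.not (IsL.isZero _)
  have hc2 : IsL (Option α) ((Fin (k + 4 + 2) ⊕ Unit) ⊕ (Fin (k + 4 + 2) ⊕ Unit))
      (fun w z => z (Sum.inl (Sum.inl 1)) + 1 = z (Sum.inr (Sum.inr ())) ∧
        npush (Γ := Γ) R (npW N P0 n w) (fun i => z (Sum.inl (Sum.inl i))) ≠ 0) :=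
    IsL.and (IsL.succ _ _) (IsL.not (isL_eq hpu FL.zero))
  rcases u with i | u
  · have hna : FL (Option α) ((Fin (k + 4 + 2) ⊕ Unit) ⊕ (Fin (k + 4 + 2) ⊕ Unit)) (fun w z =>
        nadv δ F R (npW N P0 n w) (fun j => z (Sum.inl (Sum.inl j))) 0 i) := by
      refine FL.congr (FL.comp (nadv_FL δ F R hN hP0 hn i) (g := fun s _ z => match s with
        | Sum.inl j => z (Sum.inl (Sum.inl j))
        | Sum.inr _ => 0) ?_) ?_
      · rintro (s | s)
        · exact FL.proj _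
        · exact FL.zero
      · intro w z _
        rfl
    refine FL.congr (FL.ite hc1 (FL.proj (Sum.inl (Sum.inl i)))
      (FL.ite hc2 (FL.proj (Sum.inl (Sum.inl i))) hna)) ?_
    intro w z _
    simp only [nsymStep]
    split_ifs <;> rfl
  · refine FL.congr (FL.ite hc1 (FL.proj (Sum.inl (Sum.inr ())))
      (FL.ite hc2 hpu FL.zero)) ?_
    intro w z _
    simp only [nsymStep]
    split_ifs <;> rfl

/-- Piece TRN-15. By `FL.iter` with `U = Fin (k + 4 + 2) ⊕ Unit`, `npush_FL`, `nadv_FL`,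
`FL.comp`. Variables: `g` and `η`. -/
theorem nsymAt_FL (hN : FL (Option α) Empty (fun w _ => N w))
    (hP0 : FL (Option α) Empty (fun w _ => P0 w)) (hn : FL (Option α) Empty (fun w _ => n w)) :
    FL (Option α) (Fin (k + 4 + 2) ⊕ Unit) (fun w z =>
      nsymAt δ F R (npW N P0 n w) (z ∘ Sum.inl) (z (Sum.inr ()))) := by
  have h := FL.iter (U := Fin (k + 4 + 2) ⊕ Unit) (V := Fin (k + 4 + 2) ⊕ Unit)
    (F := fun u w z => nsymStep δ F R (npW N P0 n w) (z (Sum.inr (Sum.inr ())))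
      (fun v => z (Sum.inl v)) u) (trn15_step_FL δ F R hN hP0 hn)
    (init := fun u _ z => match u with
      | Sum.inl i => z (Sum.inl i)
      | Sum.inr _ => 0)
    (by
      rintro (i | i)
      · exact FL.proj _
      · exact FL.zero)
    (c := fun w _ => P0 w) (FL.ofEmpty hP0) (Sum.inr ())
  refine FL.congr h ?_
  intro w z _
  have e : (fun u : Fin (k + 4 + 2) ⊕ Unit => (match u with
      | Sum.inl i => z (Sum.inl i)
      | Sum.inr _ => 0 : ℕ)) = Sum.elim (z ∘ Sum.inl) (fun _ => 0) := by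
    funext u
    rcases u with u | u <;> rfl
  rw [e]
  rfl

open Classical in
theorem trn15_bstep_FL (hN : FL (Option α) Empty (fun w _ => N w))
    (hP0 : FL (Option α) Empty (fun w _ => P0 w)) (hn : FL (Option α) Empty (fun w _ => n w))
    (u : CI (k + 4)) :
    FL (Option α) (CI (k + 4) ⊕ (Fin (k + 4 + 2) ⊕ Fin (k + 4 + 2))) (fun w z =>
      nbstep δ F R (npW N P0 n w) (fun i => z (Sum.inr (Sum.inl i)))
        (fun i => z (Sum.inr (Sum.inr i))) (fun v => z (Sum.inl v)) u) := by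
  have hP : FL (Option α) (CI (k + 4) ⊕ (Fin (k + 4 + 2) ⊕ Fin (k + 4 + 2)))
      (fun w _ => P0 w) := FL.ofEmpty hP0
  have hc1 : IsL (Option α) (CI (k + 4) ⊕ (Fin (k + 4 + 2) ⊕ Fin (k + 4 + 2)))
      (fun _ z => z (Sum.inl .ft) ≠ 0) := IsL.not (IsL.isZero _)
  have hx0 : FL (Option α) (CI (k + 4) ⊕ (Fin (k + 4 + 2) ⊕ Fin (k + 4 + 2)))
      (fun _ z => z (Sum.inr (Sum.inr 0))) := FL.proj _
  have ha0 : FL (Option α) (CI (k + 4) ⊕ (Fin (k + 4 + 2) ⊕ Fin (k + 4 + 2)))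
      (fun _ z => z (Sum.inl (.cur 0))) := FL.proj _
  have ha1 : FL (Option α) (CI (k + 4) ⊕ (Fin (k + 4 + 2) ⊕ Fin (k + 4 + 2)))
      (fun _ z => z (Sum.inl (.cur 1))) := FL.proj _
  have hb1 : FL (Option α) (CI (k + 4) ⊕ (Fin (k + 4 + 2) ⊕ Fin (k + 4 + 2)))
      (fun _ z => z (Sum.inl (.best 1))) := FL.proj _
  have hg1 : FL (Option α) (CI (k + 4) ⊕ (Fin (k + 4 + 2) ⊕ Fin (k + 4 + 2)))
      (fun _ z => z (Sum.inr (Sum.inl 1))) := FL.proj _
  have hc2 : IsL (Option α) (CI (k + 4) ⊕ (Fin (k + 4 + 2) ⊕ Fin (k + 4 + 2)))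
      (fun w z => blk (P0 w) (z (Sum.inr (Sum.inr 0))) ≤ z (Sum.inl (.cur 0))) := by
    refine IsL.congr (IsL.or (isL_eq hP FL.zero) (isL_lt (hx0.div hP) (ha0.div hP))) ?_
    intro w z _
    unfold blk
    rcases Nat.eq_zero_or_pos (P0 w) with h0 | h0
    · rw [h0]
      simp
    · rw [Nat.lt_iff_add_one_le, Nat.le_div_iff_mul_le h0]
      constructor
      · intro h
        exact Or.inr h
      · rintro (h | h)
        · omega
        · exact h
  have hdp : IsL (Option α) (CI (k + 4) ⊕ (Fin (k + 4 + 2) ⊕ Fin (k + 4 + 2)))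
      (fun w z => nDoPop δ F R (npW N P0 n w) (fun i => z (Sum.inl (.cur i)))) :=
    isL_comp (nDoPop_isL (N := N) (n := n) δ F R hP0)
      (g := fun i _ z => z (Sum.inl (CI.cur i))) (fun _ => FL.proj _)
  have hpos : IsL (Option α) (CI (k + 4) ⊕ (Fin (k + 4 + 2) ⊕ Fin (k + 4 + 2)))
      (fun _ z => 0 < z (Sum.inl (.cur 1))) := isL_lt FL.zero ha1
  have hc3 : IsL (Option α) (CI (k + 4) ⊕ (Fin (k + 4 + 2) ⊕ Fin (k + 4 + 2)))
      (fun w z => nDoPop δ F R (npW N P0 n w) (fun i => z (Sum.inl (.cur i))) ∧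
        0 < z (Sum.inl (.cur 1)) ∧ z (Sum.inl (.cur 1)) ≤ z (Sum.inr (Sum.inl 1))) :=
    IsL.and hdp (IsL.and hpos (isL_le ha1 hg1))
  have hbt : IsL (Option α) (CI (k + 4) ⊕ (Fin (k + 4 + 2) ⊕ Fin (k + 4 + 2)))
      (fun _ z => z (Sum.inl .bt) = 0) := IsL.isZero _
  have hp : ∀ v : CI (k + 4), FL (Option α) (CI (k + 4) ⊕ (Fin (k + 4 + 2) ⊕ Fin (k + 4 + 2)))
      (fun _ z => z (Sum.inl v)) := fun v => FL.proj _
  have hbest : IsL (Option α) (CI (k + 4) ⊕ (Fin (k + 4 + 2) ⊕ Fin (k + 4 + 2)))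
      (fun _ z => z (Sum.inl .bt) = 0 ∨ z (Sum.inl (.cur 1)) ≤ z (Sum.inl (.best 1))) :=
    IsL.or hbt (isL_le ha1 hb1)
  have hns : FL (Option α) (CI (k + 4) ⊕ (Fin (k + 4 + 2) ⊕ Fin (k + 4 + 2)))
      (fun w z => nsymAt δ F R (npW N P0 n w) (fun i => z (Sum.inr (Sum.inl i)))
        (z (Sum.inl (.cur 1)))) := by
    refine FL.congr (FL.comp (nsymAt_FL δ F R hN hP0 hn) (g := fun s _ z => match s with
      | Sum.inl j => z (Sum.inr (Sum.inl j))
      | Sum.inr _ => z (Sum.inl (CI.cur 1))) ?_) ?_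
    · rintro (s | s)
      · exact FL.proj _
      · exact FL.proj _
    · intro w z _
      rfl
  have hy : FL (Option α) (CI (k + 4) ⊕ (Fin (k + 4 + 2) ⊕ Fin (k + 4 + 2)))
      (fun w z => if nDoPop δ F R (npW N P0 n w) (fun i => z (Sum.inl (.cur i))) ∧
          0 < z (Sum.inl (.cur 1)) then
          nsymAt δ F R (npW N P0 n w) (fun i => z (Sum.inr (Sum.inl i))) (z (Sum.inl (.cur 1)))
        else 0) := FL.ite (IsL.and hdp hpos) hns FL.zero
  have hna : ∀ i : Fin (k + 4 + 2),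
      FL (Option α) (CI (k + 4) ⊕ (Fin (k + 4 + 2) ⊕ Fin (k + 4 + 2)))
      (fun w z => nadv δ F R (npW N P0 n w) (fun j => z (Sum.inl (.cur j)))
        (if nDoPop δ F R (npW N P0 n w) (fun i => z (Sum.inl (.cur i))) ∧
          0 < z (Sum.inl (.cur 1)) then
          nsymAt δ F R (npW N P0 n w) (fun i => z (Sum.inr (Sum.inl i))) (z (Sum.inl (.cur 1)))
        else 0) i) := by
    intro i
    refine FL.congr (FL.comp (nadv_FL δ F R hN hP0 hn i) (g := fun s w z => match s with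
      | Sum.inl j => z (Sum.inl (CI.cur j))
      | Sum.inr _ => (if nDoPop δ F R (npW N P0 n w) (fun i => z (Sum.inl (.cur i))) ∧
          0 < z (Sum.inl (.cur 1)) then
          nsymAt δ F R (npW N P0 n w) (fun i => z (Sum.inr (Sum.inl i))) (z (Sum.inl (.cur 1)))
        else 0)) ?_) ?_
    · rintro (s | s)
      · exact FL.proj _
      · exact hy
    · intro w z _
      rfl
  cases u with
  | ph =>
    refine FL.congr (hp .ph) ?_
    intro w z _
    simp only [nbstep]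
    split_ifs <;> rfl
  | cur i =>
    refine FL.congr (FL.ite hc1 (hp (.cur i)) (FL.ite hc2 (hp (.cur i))
      (FL.ite hc3 (hp (.cur i)) (hna i)))) ?_
    intro w z _
    rfl
  | bt =>
    refine FL.congr (FL.ite hc1 (hp .bt) (FL.ite hc2 (hp .bt)
      (FL.ite hc3 (hp .bt) FL.one))) ?_
    intro w z _
    rfl
  | best i =>
    refine FL.congr (FL.ite hc1 (hp (.best i)) (FL.ite hc2 (hp (.best i))
      (FL.ite hc3 (hp (.best i)) (FL.ite hbest (hp (.cur i)) (hp (.best i)))))) ?_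
    intro w z _
    simp only [nbstep, npW]
    split_ifs <;> rfl
  | ft =>
    refine FL.congr (FL.ite hc1 (hp .ft) (FL.ite hc2 (FL.const 2)
      (FL.ite hc3 FL.one (hp .ft)))) ?_
    intro w z _
    rfl
  | fx i =>
    refine FL.congr (FL.ite hc1 (hp (.fx i)) (FL.ite hc2 (hp (.cur i))
      (FL.ite hc3 (hp (.cur i)) (hp (.fx i))))) ?_
    intro w z _
    rfl
  | fu i =>
    refine FL.congr (FL.ite hc1 (hp (.fu i)) (FL.ite hc2
      (FL.ite hbt (hp (.cur i)) (hp (.best i))) (FL.ite hc3 FL.zero (hp (.fu i))))) ?_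
    intro w z _
    simp only [nbstep, npW]
    split_ifs <;> rfl
  | len =>
    refine FL.congr (hp .len) ?_
    intro w z _
    simp only [nbstep]
    split_ifs <;> rfl
  | et =>
    refine FL.congr (hp .et) ?_
    intro w z _
    simp only [nbstep]
    split_ifs <;> rfl
  | en i =>
    refine FL.congr (hp (.en i)) ?_
    intro w z _
    simp only [nbstep]
    split_ifs <;> rfl

theorem trn15_iter_FL (hN : FL (Option α) Empty (fun w _ => N w))
    (hP0 : FL (Option α) Empty (fun w _ => P0 w)) (hn : FL (Option α) Empty (fun w _ => n w))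
    {cnt : List (Option α) → ℕ} (hc : FL (Option α) Empty (fun w _ => cnt w))
    (v : CI (k + 4)) :
    FL (Option α) (Fin (k + 4 + 2) ⊕ Fin (k + 4 + 2)) (fun w z =>
      ((nbstep δ F R (npW N P0 n w) (z ∘ Sum.inl) (z ∘ Sum.inr))^[cnt w]
        (nbinit (z ∘ Sum.inr))) v) := by
  have h := FL.iter (U := CI (k + 4)) (V := Fin (k + 4 + 2) ⊕ Fin (k + 4 + 2))
    (F := fun u w z => nbstep δ F R (npW N P0 n w) (fun i => z (Sum.inr (Sum.inl i)))
        (fun i => z (Sum.inr (Sum.inr i))) (fun v => z (Sum.inl v)) u)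
    (trn15_bstep_FL δ F R hN hP0 hn)
    (init := fun u _ z => nbinit (fun i => z (Sum.inr i)) u)
    (by
      intro u
      cases u with
      | cur i => exact FL.proj _
      | ph => exact FL.zero
      | bt => exact FL.zero
      | best i => exact FL.zero
      | ft => exact FL.zero
      | fx i => exact FL.zero
      | fu i => exact FL.zero
      | len => exact FL.zero
      | et => exact FL.zero
      | en i => exact FL.zero)
    (c := fun w _ => cnt w) (FL.ofEmpty hc) v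
  exact h

/-- Piece TRN-15. By `FL.iter` with `U = CI (k + 4)`. The relation `blk P0 t ≤ s` is
`P0 = 0 ∨ t / P0 < s / P0`. -/
theorem phiNum_FL (hN : FL (Option α) Empty (fun w _ => N w))
    (hP0 : FL (Option α) Empty (fun w _ => P0 w)) (hn : FL (Option α) Empty (fun w _ => n w))
    {cnt : List (Option α) → ℕ} (hc : FL (Option α) Empty (fun w _ => cnt w))
    (q : RI (k + 4)) :
    FL (Option α) (Fin (k + 4 + 2) ⊕ Fin (k + 4 + 2)) (fun w z =>
      phiNum δ F R (npW N P0 n w) (cnt w) (z ∘ Sum.inl) (z ∘ Sum.inr) q) := by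
  cases q with
  | tag => exact trn15_iter_FL δ F R hN hP0 hn hc .ft
  | x i => exact trn15_iter_FL δ F R hN hP0 hn hc (.fx i)
  | u i => exact trn15_iter_FL δ F R hN hP0 hn hc (.fu i)

end

end Pool.Agent.Helper17.TU
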