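import Pool.Agent.Helper17.SL.MacroStep

set_option autoImplicit false

/-!
Few turns: the macro scheme above blocks of length `P₀`.
-/

namespace Pool.Agent.Helper17.TU

open Pool.Agent.Helper17.SL

variable {V : Type} {tm ht : V → ℕ} {h : ℕ → ℕ} {C : ℕ → V}

/-- The function computed at scale `d`, from the function `Φ₀` for blocks of length `P₀`. -/
def PhiB (tm ht : V → ℕ) (P₀ M : ℕ) (Φ₀ : V → V → Res V) : ℕ → V → V → Res V
  | 0 => fun g x => if ht x < ht g then .popped x else Φ₀ g x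
  | d + 1 => fun g x => if ht x < ht g then .popped x else
      ((mstep tm ht (P₀ * M ^ (d + 1)) g x (PhiB tm ht P₀ M Φ₀ d))^[4 * M + 4]
        (minit tm g x, [g])).1.fin

/-- Correctness of the functions `PhiB`. -/
theorem PhiB_right {P₀ M D N : ℕ} (hP₀ : 0 < P₀) (hM : 0 < M) (hN : N = P₀ * M ^ D)
    (htm : ∀ t ≤ N, tm (C t) = t) (hht : ∀ t ≤ N, ht (C t) = h t)
    (hdown : ∀ t < N, h t ≤ h (t + 1) + 1) {Φ₀ : V → V → Res V}
    (hΦ : ∀ s t, s ≤ t → t < N → Legit h P₀ s t → h s ≤ h t →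
      Right h C P₀ s t (Φ₀ (C s) (C t))) (d : ℕ) (hd : d ≤ D) :
    (∀ s t, s ≤ N → t ≤ N → h t < h s → PhiB tm ht P₀ M Φ₀ d (C s) (C t) = .popped (C t)) ∧
    (∀ s t, s ≤ t → t < N → Legit h (P₀ * M ^ d) s t →
      Right h C (P₀ * M ^ d) s t (PhiB tm ht P₀ M Φ₀ d (C s) (C t))) := by
  have hle : ∀ P s t, Legit h P s t → s ≤ t → h s ≤ h t := by
    intro P s t hL hst
    rcases hL with rfl | hL
    · exact le_rfl
    · exact hL.2.1 t hst le_rfl
  induction d with
  | zero =>
    refine ⟨fun s t hs ht' hlt => ?_, fun s t hst htN hL => ?_⟩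
    · simp [PhiB, hht s hs, hht t ht', hlt]
    · rw [pow_zero, mul_one] at hL ⊢
      have h1 := hle _ s t hL hst
      simp only [PhiB, hht s (by omega), hht t (by omega), not_lt.mpr h1, if_false]
      exact hΦ s t hst htN hL h1
  | succ d ih =>
    obtain ⟨ih1, ih2⟩ := ih (by omega)
    refine ⟨fun s t hs ht' hlt => ?_, fun s t hst htN hL => ?_⟩
    · simp [PhiB, hht s hs, hht t ht', hlt]
    · have h1 := hle _ s t hL hst
      simp only [PhiB, hht s (by omega), hht t (by omega), not_lt.mpr h1, if_false]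
      have hP0 : 0 < P₀ * M ^ d := Nat.mul_pos hP₀ (pow_pos hM d)
      have hP' : P₀ * M ^ (d + 1) = M * (P₀ * M ^ d) := by rw [pow_succ]; ring
      have hP0' : 0 < P₀ * M ^ (d + 1) := Nat.mul_pos hP₀ (pow_pos hM _)
      have hdvd : P₀ * M ^ (d + 1) ∣ N := hN ▸ Nat.mul_dvd_mul_left _ (pow_dvd_pow M hd)
      have hdiv : ∀ u, blk (P₀ * M ^ (d + 1)) u / (P₀ * M ^ d) - u / (P₀ * M ^ d) ≤ M := by
        intro u
        have e1 : blk (P₀ * M ^ (d + 1)) u / (P₀ * M ^ d) = (u / (P₀ * M ^ (d + 1)) + 1) * M := by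
          unfold blk
          rw [hP', ← mul_assoc, Nat.mul_div_cancel _ hP0]
        have e2 : u / (P₀ * M ^ (d + 1)) * M ≤ u / (P₀ * M ^ d) := by
          rw [hP', mul_comm M, ← Nat.div_div_eq_div_mul]
          exact Nat.div_mul_le_self _ _
        rw [e1, add_mul, one_mul]
        omega
      refine Inv.iter hP0 hP' hM hdvd hst htN htm hht hdown hL ih1 ih2 (4 * M + 4) ?_
      have hS : ∀ u, SOK h (P₀ * M ^ d) (h u) u [u] := fun u =>
        ⟨le_rfl, fun r hr1 hr2 => by rw [le_antisymm hr2 hr1]; simp,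
          fun r hr1 hr2 => by
            have := lt_blk hP0 u
            omega, by simp, trivial⟩
      unfold minit
      by_cases hst' : s = t
      · subst hst'
        simp only [if_true]
        have := hdiv s
        exact Inv.two (l := [s]) (lt_blk hP0' s).le le_rfl rfl (hS s) (Or.inr rfl)
          (fun r hr1 hr2 => by rw [le_antisymm hr2 hr1]) le_rfl le_rfl
          (fun r hr1 hr2 => by rw [le_antisymm hr2 hr1]) (Or.inl ⟨rfl, rfl⟩) (Or.inl rfl)
          (by simp only [List.length_singleton]; omega)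
      · have hG : blk (P₀ * M ^ (d + 1)) s ≤ t := by
          rcases hL with hL | hL
          · exact absurd hL hst'
          · exact hL.1
        rw [htm s (by omega), htm t (by omega), if_neg hst']
        have := hdiv s
        exact Inv.one (l := [s]) (lt_blk hP0' s).le hG rfl (hS s) (Or.inr rfl)
          (fun r hr1 hr2 => by rw [le_antisymm hr2 hr1])
          (by simp only [List.length_singleton]; omega)

/-- The value at the end of the run. -/
theorem PhiB_final {P₀ M D N : ℕ} (hP₀ : 0 < P₀) (hM : 0 < M) (hN : N = P₀ * M ^ D)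
    (htm : ∀ t ≤ N, tm (C t) = t) (hht : ∀ t ≤ N, ht (C t) = h t)
    (hdown : ∀ t < N, h t ≤ h (t + 1) + 1) {Φ₀ : V → V → Res V} (h0 : h 0 = 0)
    (hΦ : ∀ s t, s ≤ t → t < N → Legit h P₀ s t → h s ≤ h t →
      Right h C P₀ s t (Φ₀ (C s) (C t))) :
    ∃ u, PhiB tm ht P₀ M Φ₀ D (C 0) (C 0) = .done (C N) u := by
  have hN0 : 0 < N := hN ▸ Nat.mul_pos hP₀ (pow_pos hM D)
  have h1 := (PhiB_right hP₀ hM hN htm hht hdown hΦ D le_rfl).2 0 0 le_rfl hN0 (Or.inl rfl)
  have hb : blk (P₀ * M ^ D) 0 = N := by simp [blk, hN]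
  rcases h1 with ⟨r0, _, _, hr, _⟩ | ⟨s', _, _, _, _, _, hr⟩
  · rw [h0] at hr
    exact absurd hr (Nat.not_lt_zero _)
  · rw [hb] at hr
    exact ⟨_, hr⟩

end Pool.Agent.Helper17.TU
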