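import Pool.Agent.Helper17.UL.PhiSDef
import Pool.Agent.Helper7.UL.PhiVal
import Pool.Agent.Helper17.TU.PhiB

set_option autoImplicit false

/-!
Few turns: the recursion scheme of `PhiB` on number tuples.
-/

namespace Pool.Agent.Helper17.TU

open Pool.Agent.Helper17.SL Pool.Agent.Helper17.UL

variable {c : ℕ}

/-- The recursion scheme of `PhiB` (blocks of length `P0` at scale `0`). Nonterminals: tag `0` the constant `s`; tag `1`
`Phi d g x`; tag `2` the cell `l` at macro time `i` in the call of `Phi (d + 1) g x`; tag `3` the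
answer to the call of the macro machine at macro time `i`; tag `4` the cell with the top entry. -/
noncomputable def PhiT (p : Prm) (P0 : ℕ) (phi0N : (Fin (c + 2) → ℕ) → (Fin (c + 2) → ℕ) → RI c → ℕ) :
    Scheme (NI c → ℕ) where
  isLeaf a := a .tag = 0 ∨ (a .tag = 1 ∧ (a .d = 0 ∨ a (.x 1) < a (.g 1))) ∨
    (a .tag = 2 ∧ a .i = 0) ∨ 4 < a .tag
  leafVal a :=
    if a .tag = 0 then a .s % 2 ^ p.b
    else if a .tag = 1 then
      (if a (.x 1) < a (.g 1) then encI p.B (nPopped fun j => a (.x j))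
        else encI p.B (phi0N (fun j => a (.g j)) (fun j => a (.x j)))) % 2 ^ p.b
    else if a .tag = 2 then
      encI p.B (nInit (fun j => a (.g j)) (fun j => a (.x j)) (a .l)) % 2 ^ p.b
    else 0
  c1 a :=
    if a .tag = 1 then mkN 2 (a .d - 1) (4 * p.M + 4) 0 0 (fun j => a (.g j)) (fun j => a (.x j))
    else if a .tag = 2 then
      mkN 2 (a .d) (a .i - 1) (a .l) 0 (fun j => a (.g j)) (fun j => a (.x j))
    else if a .tag = 3 then mkN 4 (a .d) (a .i) 0 0 (fun j => a (.g j)) (fun j => a (.x j))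
    else mkN 2 (a .d) (a .i) 0 0 (fun j => a (.g j)) (fun j => a (.x j))
  c2 a :=
    if a .tag = 2 then mkN 3 (a .d) (a .i - 1) 0 0 (fun j => a (.g j)) (fun j => a (.x j))
    else mkN 0 0 0 0 0 0 0
  sel a u₁ u₂ :=
    if a .tag = 2 then u₁ + 2 ^ p.b * u₂
    else if a .tag = 4 then min (decI p.B u₁ (CI.len : CI c) - 1) (p.m - 1)
    else u₁
  kap a s :=
    if a .tag = 1 then
      mkN 0 0 0 0 (encI p.B (fun r : RI c => match r with
        | .tag => decI p.B s (CI.ft : CI c)
        | .x i => decI p.B s (CI.fx i)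
        | .u i => decI p.B s (CI.fu i)) % 2 ^ p.b) 0 0
    else if a .tag = 2 then
      mkN 0 0 0 0 (encI p.B (nComb (P0 * p.M ^ (a .d + 1)) (fun j => a (.g j)) (fun j => a (.x j)) p.m
        (a .l) (decI p.B (s % 2 ^ p.b)) (decI p.B (s / 2 ^ p.b % 2 ^ p.b))) % 2 ^ p.b) 0 0
    else if a .tag = 3 then
      if decI p.B s (CI.et : CI c) = 0 then mkN 0 0 0 0 0 0 0
      else mkN 1 (a .d) 0 0 0 (fun j => decI p.B s (CI.en j)) (fun j => decI p.B s (CI.cur j))
    else mkN 2 (a .d) (a .i) s 0 (fun j => a (.g j)) (fun j => a (.x j))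
  dig a := if a .tag = 4 then 1 else p.t2


end Pool.Agent.Helper17.TU
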