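import Pool.Agent.Helper32.UL.PhiFL
import Pool.Agent.Helper17.TU.PhiTDef

set_option autoImplicit false

/-!
Few turns: the scheme `PhiT` is computable.
-/

namespace Pool.Agent.Helper17.TU

open Pool.Agent.Helper17.SL Pool.Agent.Helper17.UL Pool.Agent.Helper17.UL.PhiFL Pool.Agent.Helper6

variable {c : ℕ}

namespace PhiFL


section

variable {β V : Type} [Finite V] {D : List β → (V → ℕ) → Prop}

/-! ### the domain -/

/-- The size hypotheses. -/
structure Sz {β : Type} (p : List β → Prm) (P0 : List β → ℕ)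
    (phi0 : List β → (Fin (c + 2) → ℕ) → (Fin (c + 2) → ℕ) → RI c → ℕ) (w : List β)
    (D r : ℕ) : Prop where
  B2 : 2 < (p w).B
  M0 : 0 < (p w).M
  m0 : 0 < (p w).m
  mB : (p w).m < (p w).B
  pw : 2 ^ (p w).b = (p w).B ^ Fintype.card (CI c)
  ph : ∀ g x q, (∀ j, g j < (p w).B) → (∀ j, x j < (p w).B) → phi0 w g x q < (p w).B
  h1 : 2 ^ (2 * (p w).b) ≤ w.length
  h2 : (p w).B + P0 w * (p w).M ^ (D + 1) ≤ w.length
  h3 : 4 * (p w).M + 4 ≤ w.length
  h4 : r ≤ w.length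

/-- The domain. -/
def GD {β : Type} (p : List β → Prm) (P0 : List β → ℕ)
    (phi0 : List β → (Fin (c + 2) → ℕ) → (Fin (c + 2) → ℕ) → RI c → ℕ) (w : List β)
    (a : NI c → ℕ) : Prop :=
  ∃ D r, Sz p P0 phi0 w D r ∧ PhiG (p w) D r a

section

variable {p : List β → Prm} {P0 : List β → ℕ} {phi0 : List β → (Fin (c + 2) → ℕ) → (Fin (c + 2) → ℕ) → RI c → ℕ}
  {w : List β} {a : NI c → ℕ}

omit [Finite V]

theorem GD.B0 (h : GD p P0 phi0 w a) : 0 < (p w).B := by
  obtain ⟨D, r, h, -⟩ := h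
  have := h.B2; omega

theorem GD.B2 (h : GD p P0 phi0 w a) : 2 < (p w).B := by
  obtain ⟨D, r, h, -⟩ := h
  exact h.B2

theorem GD.two (h : GD p P0 phi0 w a) : 2 ≤ w.length + 1 := by
  obtain ⟨D, r, h, -⟩ := h
  have := h.h3; omega

theorem GD.four (h : GD p P0 phi0 w a) : 4 ≤ w.length + 1 := by
  obtain ⟨D, r, h, -⟩ := h
  have := h.h3; omega

theorem GD.fourM (h : GD p P0 phi0 w a) : 4 * (p w).M + 4 ≤ w.length + 1 := by
  obtain ⟨D, r, h, -⟩ := h
  have := h.h3; omega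

theorem GD.pow2b (h : GD p P0 phi0 w a) : 2 ^ (p w).b ≤ w.length + 1 := by
  obtain ⟨D, r, h, -⟩ := h
  have h1 := h.h1
  have h2 : 2 ^ (p w).b ≤ 2 ^ (2 * (p w).b) := Nat.pow_le_pow_right (by norm_num) (by omega)
  omega

theorem GD.cardCI (h : GD p P0 phi0 w a) : (p w).B ^ Fintype.card (CI c) ≤ w.length + 1 := by
  have h1 := h.pow2b
  obtain ⟨D, r, h, -⟩ := h
  rw [← h.pw]; exact h1

theorem GD.cardRI (h : GD p P0 phi0 w a) : (p w).B ^ Fintype.card (RI c) ≤ w.length + 1 :=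
  (Nat.pow_le_pow_right h.B0 (card_RI_le c)).trans h.cardCI

theorem GD.lt_l (h : GD p P0 phi0 w a) : a .l + 1 ≤ w.length + 1 := by
  obtain ⟨D, r, h, h'⟩ := h
  have h1 := h'.2.2.2.1
  have h2 := h.h4
  omega

theorem GD.g (h : GD p P0 phi0 w a) (j : Fin (c + 2)) : a (.g j) < (p w).B := by
  obtain ⟨D, r, h, h'⟩ := h
  exact (h'.2.2.2.2.2 j).1

theorem GD.x (h : GD p P0 phi0 w a) (j : Fin (c + 2)) : a (.x j) < (p w).B := by
  obtain ⟨D, r, h, h'⟩ := h
  exact (h'.2.2.2.2.2 j).2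

theorem GD.m (h : GD p P0 phi0 w a) : (p w).m < (p w).B := by
  obtain ⟨D, r, h, h'⟩ := h
  exact h.mB

theorem GD.phi (h : GD p P0 phi0 w a) (q : RI c) :
    phi0 w (fun j => a (.g j)) (fun j => a (.x j)) q < (p w).B := by
  have h1 := h.g
  have h2 := h.x
  obtain ⟨D, r, h, h'⟩ := h
  exact h.ph _ _ _ h1 h2

theorem GD.powM (h : GD p P0 phi0 w a) : (p w).M ^ (a .d + 1) ≤ w.length + 1 ∨ P0 w = 0 := by
  obtain ⟨D, r, h, h'⟩ := h
  have h1 : (p w).M ^ (a .d + 1) ≤ (p w).M ^ (D + 1) :=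
    Nat.pow_le_pow_right h.M0 (by have := h'.2.1; omega)
  rcases Nat.eq_zero_or_pos (P0 w) with h2 | h2
  · exact Or.inr h2
  · left
    have h3 := h.h2
    have h4 : (p w).M ^ (D + 1) ≤ P0 w * (p w).M ^ (D + 1) := Nat.le_mul_of_pos_left _ h2
    omega

theorem GD.powMd (h : GD p P0 phi0 w a) : (p w).M ^ (a .d) ≤ w.length + 1 ∨ P0 w = 0 := by
  have hM : 0 < (p w).M := by
    obtain ⟨D, r, h, h'⟩ := h
    exact h.M0
  rcases h.powM with h1 | h1
  · left
    exact (Nat.pow_le_pow_right hM (by omega)).trans h1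
  · exact Or.inr h1

theorem GD.powP (h : GD p P0 phi0 w a) : P0 w * (p w).M ^ (a .d + 1) ≤ w.length + 1 := by
  obtain ⟨D, r, h, h'⟩ := h
  have h1 : (p w).M ^ (a .d + 1) ≤ (p w).M ^ (D + 1) :=
    Nat.pow_le_pow_right h.M0 (by have := h'.2.1; omega)
  have h2 := Nat.mul_le_mul_left (P0 w) h1
  have h3 := h.h2
  omega

theorem GD.blk (h : GD p P0 phi0 w a) {t : ℕ} (ht : t < (p w).B) :
    blk (P0 w * (p w).M ^ (a .d + 1)) t ≤ w.length + 1 := by
  obtain ⟨D, r, h, h'⟩ := h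
  have h1 : (p w).M ^ (a .d + 1) ≤ (p w).M ^ (D + 1) :=
    Nat.pow_le_pow_right h.M0 (by have := h'.2.1; omega)
  have h2 := Nat.mul_le_mul_left (P0 w) h1
  have h3 := h.h2
  have h4 : t / (P0 w * (p w).M ^ (a .d + 1)) * (P0 w * (p w).M ^ (a .d + 1)) ≤ t :=
    Nat.div_mul_le_self _ _
  unfold SL.blk
  rw [add_mul, one_mul]
  omega

end

/-! ### the functions of the scheme -/

section main

variable {p : List β → Prm} {P0 : List β → ℕ} {phi0 : List β → (Fin (c + 2) → ℕ) → (Fin (c + 2) → ℕ) → RI c → ℕ}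

theorem flon_B (hp : PrmFL β p) : FLon β V D (fun w _ => (p w).B) := FLon.of (param hp.B)

theorem flon_m (hp : PrmFL β p) : FLon β V D (fun w _ => (p w).m) := FLon.of (param hp.m)

theorem flon_M (hp : PrmFL β p) : FLon β V D (fun w _ => (p w).M) := FLon.of (param hp.M)

theorem flon_pow2b (hp : PrmFL β p) (h2 : ∀ w z, D w z → 2 ≤ w.length + 1)
    (hb : ∀ w z, D w z → 2 ^ (p w).b ≤ w.length + 1) :
    FLon β V D (fun w _ => 2 ^ (p w).b) :=
  FLon.pow (FLon.const 2 h2) (FLon.of (param hp.b)) fun w z _ hD => hb w z hD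

/-- `encI B f % 2 ^ b`. -/
theorem flon_enc {I : Type} [Fintype I] (hp : PrmFL β p) {a : List β → (V → ℕ) → I → ℕ}
    (ha : ∀ i, FLon β V D (fun w z => a w z i)) (h2 : ∀ w z, D w z → 2 ≤ w.length + 1)
    (hb : ∀ w z, D w z → 2 ^ (p w).b ≤ w.length + 1)
    (hB0 : ∀ w z, D w z → 0 < (p w).B)
    (hlt : ∀ w x, D w x → ∀ i, a w x i < (p w).B)
    (hc : ∀ w z, D w z → (p w).B ^ Fintype.card I ≤ w.length + 1) :
    FLon β V D (fun w x => encI (p w).B (a w x) % 2 ^ (p w).b) :=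
  (FLon.encI (flon_B hp) (a := fun i w z => a w z i) ha hB0 hlt hc).mod (flon_pow2b hp h2 hb)

theorem leafVal_on (hp : PrmFL β p)
    (hphi : ∀ q : RI c, FL β (Fin (c + 2) ⊕ Fin (c + 2))
      (fun w z => phi0 w (z ∘ Sum.inl) (z ∘ Sum.inr) q)) :
    FLon β (NI c) (GD p P0 phi0) (fun w a => (PhiT (p w) (P0 w) (phi0 w)).leafVal a) := by
  have h2 : ∀ w (z : NI c → ℕ), GD p P0 phi0 w z → 2 ≤ w.length + 1 := fun w z h => h.two
  have hb : ∀ w (z : NI c → ℕ), GD p P0 phi0 w z → 2 ^ (p w).b ≤ w.length + 1 :=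
    fun w z h => h.pow2b
  have hB0 : ∀ w (z : NI c → ℕ), GD p P0 phi0 w z → 0 < (p w).B := fun w z h => h.B0
  have ePop : FLon β (NI c) (GD p P0 phi0) (fun w a =>
      encI (p w).B (nPopped fun j => a (.x j)) % 2 ^ (p w).b) :=
    flon_enc hp (a := fun _ a => nPopped (fun j : Fin (c + 2) => a (NI.x j)))
          (flon_popped (v := fun _ a (j : Fin (c + 2)) => a (NI.x j)) fun i => FLon.proj _) h2 hb hB0
          (fun w a h q => nPopped_lt h.B2 h.x q) fun w a h => h.cardRI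
  have ePhi : FLon β (NI c) (GD p P0 phi0) (fun w a =>
      encI (p w).B (phi0 w (fun j => a (.g j)) (fun j => a (.x j))) % 2 ^ (p w).b) := by
    refine flon_enc hp (a := fun w a => phi0 w (fun j => a (NI.g j)) (fun j => a (NI.x j)))
          (fun q => ?_) h2 hb hB0 (fun w a h q => h.phi q) fun w a h => h.cardRI
    exact FLon.comp (G := fun (u : Fin (c + 2) ⊕ Fin (c + 2)) (_ : List β) (a : NI c → ℕ) =>
          a (Sum.elim NI.g NI.x u)) (hphi q) (fun u => FLon.proj _)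
  have eInit : FLon β (NI c) (GD p P0 phi0) (fun w a =>
      encI (p w).B (nInit (fun j => a (.g j)) (fun j => a (.x j)) (a .l)) % 2 ^ (p w).b) :=
    flon_enc hp (a := fun _ a => nInit (fun j : Fin (c + 2) => a (NI.g j)) (fun j => a (NI.x j)) (a NI.l))
      (flon_init (g := fun _ a (j : Fin (c + 2)) => a (NI.g j))
        (x := fun _ a (j : Fin (c + 2)) => a (NI.x j)) (FLon.proj _)
        (fun i => FLon.proj _) (fun i => FLon.proj _)) h2 hb hB0
      (fun w a h q => nInit_lt h.B2 h.g h.x _ q) fun w a h => h.cardCI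
  have e1 := FLon.ite' (IsLon.lt (FLon.proj (NI.x 1)) (FLon.proj (NI.g 1))) ePop ePhi
  have e2 := FLon.ite' (IsLon.eqConst 2 (FLon.proj (NI.tag : NI c))) eInit FLon.zero
  have e3 := FLon.ite' (IsLon.eqConst 1 (FLon.proj (NI.tag : NI c))) e1 e2
  have e4 := FLon.ite' (IsLon.eqConst 0 (FLon.proj (NI.tag : NI c)))
    ((FLon.proj (NI.s : NI c)).mod (flon_pow2b hp h2 hb)) e3
  refine e4.congr fun w a _ _ => ?_
  unfold PhiT
  dsimp only
  by_cases h0 : a .tag = 0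
  · rw [if_pos h0, if_pos h0]
  rw [if_neg h0, if_neg h0]
  by_cases h1 : a .tag = 1
  · rw [if_pos h1, if_pos h1]
    split_ifs <;> rfl
  rw [if_neg h1, if_neg h1]

theorem c1_on (hp : PrmFL β p) (u : NI c) :
    FLon β (NI c) (GD p P0 phi0) (fun w a => (PhiT (p w) (P0 w) (phi0 w)).c1 a u) := by
  have c0 : FLon β (NI c) (GD p P0 phi0) (fun _ _ => 0) := FLon.zero
  have c2 : FLon β (NI c) (GD p P0 phi0) (fun _ _ => 2) := FLon.const 2 fun w z h => h.two
  have c4 : FLon β (NI c) (GD p P0 phi0) (fun _ _ => 4) := FLon.const 4 fun w z h => h.four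
  have pj : ∀ v, FLon β (NI c) (GD p P0 phi0) (fun _ a => a v) := fun v => FLon.proj v
  have hM : FLon β (NI c) (GD p P0 phi0) (fun w _ => 4 * (p w).M + 4) :=
    FLon.add (FLon.mul c4 (flon_M hp) fun w a _ h => by have := h.fourM; omega) c4
      fun w a _ h => h.fourM
  refine iteApp u (IsLon.eqConst 1 (pj _)) (flon_mkN c2 (pj _).pred hM c0 c0 (fun i => pj _)
    (fun i => pj _) u) ?_
  refine iteApp u (IsLon.eqConst 2 (pj _)) (flon_mkN c2 (pj _) (pj _).pred (pj _) c0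
    (fun i => pj _) (fun i => pj _) u) ?_
  refine iteApp u (IsLon.eqConst 3 (pj _)) (flon_mkN c4 (pj _) (pj _) c0 c0
    (fun i => pj _) (fun i => pj _) u) ?_
  exact flon_mkN c2 (pj _) (pj _) c0 c0 (fun i => pj _) (fun i => pj _) u

theorem three_le {w : List β} {a : NI c → ℕ} (h : GD p P0 phi0 w a) : 3 ≤ w.length + 1 := by
  have := h.four; omega

theorem c2_on (u : NI c) :
    FLon β (NI c) (GD p P0 phi0) (fun w a => (PhiT (p w) (P0 w) (phi0 w)).c2 a u) := by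
  have c0 : FLon β (NI c) (GD p P0 phi0) (fun _ _ => 0) := FLon.zero
  have c3 : FLon β (NI c) (GD p P0 phi0) (fun _ _ => 3) := FLon.const 3 fun w z h => three_le h
  have pj : ∀ v, FLon β (NI c) (GD p P0 phi0) (fun _ a => a v) := fun v => FLon.proj v
  exact iteApp u (IsLon.eqConst 2 (pj _)) (flon_mkN c3 (pj _) (pj _).pred c0 c0
    (fun i => pj _) (fun i => pj _) u) (flon_mkN c0 c0 c0 c0 c0 (fun i => c0) (fun i => c0) u)

end main

end

variable {β V : Type} [Finite V] {D : List β → (V → ℕ) → Prop}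
  {p : List β → Prm} {P0 : List β → ℕ} {phi0 : List β → (Fin (c + 2) → ℕ) → (Fin (c + 2) → ℕ) → RI c → ℕ}

/-- The domain of the selector. -/
def SD (p : List β → Prm) (P0 : List β → ℕ)
    (phi0 : List β → (Fin (c + 2) → ℕ) → (Fin (c + 2) → ℕ) → RI c → ℕ) (w : List β)
    (z : NI c ⊕ Bool → ℕ) : Prop :=
  GD p P0 phi0 w (z ∘ Sum.inl) ∧ z (Sum.inr false) < 2 ^ (p w).b ∧ z (Sum.inr true) < 2 ^ (p w).b

theorem SD.bound {w : List β} {z : NI c ⊕ Bool → ℕ} (h : SD p P0 phi0 w z) :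
    z (Sum.inr false) + 2 ^ (p w).b * z (Sum.inr true) ≤ w.length + 1 ∧
      2 ^ (p w).b * z (Sum.inr true) ≤ w.length + 1 := by
  obtain ⟨⟨D, r, h, -⟩, _, h2⟩ := h
  have h3 := h.h1
  have h4 : 2 ^ (2 * (p w).b) = 2 ^ (p w).b * 2 ^ (p w).b := by rw [two_mul, pow_add]
  have h5 : 2 ^ (p w).b * (z (Sum.inr true) + 1) ≤ 2 ^ (p w).b * 2 ^ (p w).b :=
    Nat.mul_le_mul_left _ h2
  rw [mul_add, mul_one] at h5
  omega

theorem sel_on (hp : PrmFL β p) :
    FLon β (NI c ⊕ Bool) (SD p P0 phi0) (fun w z => (PhiT (p w) (P0 w) (phi0 w)).sel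
      (z ∘ Sum.inl) (z (Sum.inr false)) (z (Sum.inr true))) := by
  have h2 : ∀ w (z : NI c ⊕ Bool → ℕ), SD p P0 phi0 w z → 2 ≤ w.length + 1 := fun w z h => h.1.two
  have hb : ∀ w (z : NI c ⊕ Bool → ℕ), SD p P0 phi0 w z → 2 ^ (p w).b ≤ w.length + 1 :=
    fun w z h => h.1.pow2b
  have pj : ∀ v, FLon β (NI c ⊕ Bool) (SD p P0 phi0) (fun _ a => a v) := fun v => FLon.proj v
  refine FLon.ite' (IsLon.eqConst 2 (pj _)) ?_ ?_
  · refine FLon.add (pj _) (FLon.mul (flon_pow2b hp h2 hb) (pj _) ?_) ?_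
    · exact fun w z _ h => h.bound.2
    · exact fun w z _ h => h.bound.1
  refine FLon.ite' (IsLon.eqConst 4 (pj _)) ?_ (pj _)
  exact FLon.min (FLon.decI (flon_B hp) (pj _) (fun w z h => h.1.B0)
    (fun w z h => h.1.cardCI) _).pred (flon_m hp).pred

/-- The domain of `kap`. -/
def KD (p : List β → Prm) (P0 : List β → ℕ)
    (phi0 : List β → (Fin (c + 2) → ℕ) → (Fin (c + 2) → ℕ) → RI c → ℕ) (w : List β)
    (z : NI c ⊕ Unit → ℕ) : Prop := GD p P0 phi0 w (z ∘ Sum.inl)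

theorem KD.gd {w : List β} {z : NI c ⊕ Unit → ℕ} (h : KD p P0 phi0 w z) :
    GD p P0 phi0 w (fun v => z (Sum.inl v)) := h

/-- Decoded components. -/
theorem flon_dec (hp : PrmFL β p) {s : List β → (NI c ⊕ Unit → ℕ) → ℕ}
    (hs : FLon β (NI c ⊕ Unit) (KD p P0 phi0) s) (i : CI c) :
    FLon β (NI c ⊕ Unit) (KD p P0 phi0) (fun w z => decI (p w).B (s w z) i) :=
  FLon.decI (flon_B hp) hs (fun w z h => h.gd.B0) (fun w z h => h.gd.cardCI) i

theorem flon_decR (hp : PrmFL β p) {s : List β → (NI c ⊕ Unit → ℕ) → ℕ}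
    (hs : FLon β (NI c ⊕ Unit) (KD p P0 phi0) s) (i : RI c) :
    FLon β (NI c ⊕ Unit) (KD p P0 phi0) (fun w z => decI (p w).B (s w z) i) :=
  FLon.decI (flon_B hp) hs (fun w z h => h.gd.B0) (fun w z h => h.gd.cardRI) i

/-- The code of the result of a cell. -/
noncomputable def resC (B s : ℕ) : RI c → ℕ := fun r => match r with
  | .tag => decI B s (CI.ft : CI c)
  | .x i => decI B s (CI.fx i)
  | .u i => decI B s (CI.fu i)

theorem flon_kapA (hp : PrmFL β p) : FLon β (NI c ⊕ Unit) (KD p P0 phi0) (fun w z =>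
    encI (p w).B (resC (c := c) (p w).B (z (Sum.inr ()))) % 2 ^ (p w).b) := by
  have pj : ∀ v, FLon β (NI c ⊕ Unit) (KD p P0 phi0) (fun _ a => a v) := fun v => FLon.proj v
  refine flon_enc hp (a := fun w z => resC (c := c) (p w).B (z (Sum.inr ()))) (fun r => ?_)
    (fun w z h => h.gd.two) (fun w z h => h.gd.pow2b) (fun w z h => h.gd.B0)
    (fun w z h r => ?_) (fun w z h => h.gd.cardRI)
  · cases r
    case tag => exact flon_dec hp (pj _) _
    case x i => exact flon_dec hp (pj _) _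
    case u i => exact flon_dec hp (pj _) _
  · cases r
    case tag => exact decI_lt h.gd.B0 _ _
    case x i => exact decI_lt h.gd.B0 _ _
    case u i => exact decI_lt h.gd.B0 _ _

theorem flon_powM (hp : PrmFL β p) (hP : FL β Empty (fun w _ => P0 w)) :
    FLon β (NI c ⊕ Unit) (KD p P0 phi0) (fun w z => P0 w * (p w).M ^ (z (Sum.inl .d) + 1)) := by
  classical
  have pj : ∀ v, FLon β (NI c ⊕ Unit) (KD p P0 phi0) (fun _ a => a v) := fun v => FLon.proj v
  have hP' : FLon β (NI c ⊕ Unit) (KD p P0 phi0) (fun w _ => P0 w) := FLon.of (param hP)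
  have h0 := IsLon.eqConst 0 hP'
  refine (FLon.ite h0 FLon.zero (FLon.mul (hP'.mono fun _ _ h => h.1)
    (f := fun w _ => P0 w) (g := fun w z => (p w).M ^ (z (Sum.inl .d) + 1)) ?_ ?_)).congr
    fun w z _ _ => ?_
  · refine (FLon.mul (FLon.pow ((flon_M hp).mono fun _ _ h => h.1)
      ((pj (Sum.inl .d)).mono fun _ _ h => h.1) fun w z _ h => ?_)
      ((flon_M hp).mono fun _ _ h => h.1) fun w z _ h => ?_).congr fun w z _ _ => pow_succ _ _
    · exact h.1.gd.powMd.resolve_right h.2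
    · rw [← pow_succ]
      exact h.1.gd.powM.resolve_right h.2
  · exact fun w z _ h => h.1.gd.powP
  · split_ifs with h
    · simp [h]
    · rfl

/-- The combined cell. -/
noncomputable def combC (p : Prm) (P0 : ℕ) (z : NI c → ℕ) (s : ℕ) : CI c → ℕ :=
  nComb (P0 * p.M ^ (z .d + 1)) (fun j => z (.g j)) (fun j => z (.x j)) p.m
        (z .l) (decI p.B (s % 2 ^ p.b)) (decI p.B (s / 2 ^ p.b % 2 ^ p.b))

theorem flon_kapB (hp : PrmFL β p) (hP0 : FL β Empty (fun w _ => P0 w)) : FLon β (NI c ⊕ Unit) (KD p P0 phi0) (fun w z =>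
    encI (p w).B (combC (p w) (P0 w) (fun v => z (Sum.inl v)) (z (Sum.inr ()))) % 2 ^ (p w).b) := by
  have pj : ∀ v, FLon β (NI c ⊕ Unit) (KD p P0 phi0) (fun _ a => a v) := fun v => FLon.proj v
  have h2 : ∀ w (z : NI c ⊕ Unit → ℕ), KD p P0 phi0 w z → 2 ≤ w.length + 1 := fun w z h => h.gd.two
  have hb : ∀ w (z : NI c ⊕ Unit → ℕ), KD p P0 phi0 w z → 2 ^ (p w).b ≤ w.length + 1 :=
    fun w z h => h.gd.pow2b
  have hP : FLon β (NI c ⊕ Unit) (KD p P0 phi0) (fun w _ => 2 ^ (p w).b) := flon_pow2b hp h2 hb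
  have e1 : ∀ q : CI c, FLon β (NI c ⊕ Unit) (KD p P0 phi0) (fun w z =>
      decI (p w).B (z (Sum.inr ()) % 2 ^ (p w).b) q) := fun q => flon_dec hp ((pj _).mod hP) q
  have e2 : ∀ q : RI c, FLon β (NI c ⊕ Unit) (KD p P0 phi0) (fun w z =>
      decI (p w).B (z (Sum.inr ()) / 2 ^ (p w).b % 2 ^ (p w).b) q) :=
    fun q => flon_decR hp (((pj _).div hP).mod hP) q
  refine flon_enc hp (a := fun w z => combC (p w) (P0 w) (fun v => z (Sum.inl v)) (z (Sum.inr ())))
      (fun q => ?_) h2 hb (fun w z h => h.gd.B0) (fun w z h q => ?_) (fun w z h => h.gd.cardCI)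
  · refine flon_comb (P := fun w z => P0 w * (p w).M ^ (z (Sum.inl .d) + 1)) (m := fun w _ => (p w).m)
      (l := fun _ z => z (Sum.inl .l))
      (g := fun _ z j => z (Sum.inl (.g j))) (x := fun _ z j => z (Sum.inl (.x j)))
      (a := fun w z => decI (p w).B (z (Sum.inr ()) % 2 ^ (p w).b))
      (r := fun w z => decI (p w).B (z (Sum.inr ()) / 2 ^ (p w).b % 2 ^ (p w).b))
      (flon_powM hp hP0) (flon_m hp) (pj _) (fun i => pj _) (fun i => pj _) e1 e2 ?_ ?_ h2 ?_ ?_ q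
    · exact fun w z h => h.gd.blk (h.gd.g 0)
    · exact fun w z h => h.gd.blk (h.gd.x 0)
    · intro w z h
      have h1 := decI_lt h.gd.B0 (z (Sum.inr ()) % 2 ^ (p w).b) (CI.len : CI c)
      have h2 := (Nat.pow_le_pow_right h.gd.B0 (show 1 ≤ Fintype.card (CI c) from
        Fintype.card_pos_iff.2 ⟨CI.len⟩)).trans h.gd.cardCI
      rw [pow_one] at h2
      omega
    · exact fun w z h => h.gd.lt_l
  · exact nComb_lt h.gd.B2 h.gd.x h.gd.m (fun q => decI_lt h.gd.B0 _ _)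
      (fun q => decI_lt h.gd.B0 _ _) q

theorem kap_on (hp : PrmFL β p) (hP0 : FL β Empty (fun w _ => P0 w)) (u : NI c) :
    FLon β (NI c ⊕ Unit) (KD p P0 phi0) (fun w z => (PhiT (p w) (P0 w) (phi0 w)).kap
      (z ∘ Sum.inl) (z (Sum.inr ())) u) := by
  have pj : ∀ v, FLon β (NI c ⊕ Unit) (KD p P0 phi0) (fun _ a => a v) := fun v => FLon.proj v
  have c0 : FLon β (NI c ⊕ Unit) (KD p P0 phi0) (fun _ _ => 0) := FLon.zero
  have c1 : FLon β (NI c ⊕ Unit) (KD p P0 phi0) (fun _ _ => 1) := FLon.one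
  have c2 : FLon β (NI c ⊕ Unit) (KD p P0 phi0) (fun _ _ => 2) :=
    FLon.const 2 fun w z h => h.gd.two
  have eA := flon_mkN (g := fun _ _ _ => 0) (x := fun _ _ _ => 0) c0 c0 c0 c0
    (flon_kapA (phi0 := phi0) hp) (fun i => c0) (fun i => c0) u
  have eB := flon_mkN (g := fun _ _ _ => 0) (x := fun _ _ _ => 0) c0 c0 c0 c0
    (flon_kapB (phi0 := phi0) hp hP0) (fun i => c0) (fun i => c0) u
  have eC0 := flon_mkN (g := fun _ _ _ => 0) (x := fun _ _ _ => 0) c0 c0 c0 c0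
    c0 (fun i => c0) (fun i => c0) u
  have eC1 := flon_mkN (g := fun w z i => decI (p w).B (z (Sum.inr ())) (CI.en i))
    (x := fun w z i => decI (p w).B (z (Sum.inr ())) (CI.cur i)) c1 (pj (Sum.inl .d)) c0 c0
    c0 (fun i => flon_dec hp (pj _) _) (fun i => flon_dec hp (pj _) _) u
  have eC := FLon.ite' (IsLon.eqConst 0 (flon_dec hp (pj (Sum.inr ())) (CI.et : CI c))) eC0 eC1
  have eD := flon_mkN (g := fun _ z j => z (Sum.inl (.g j))) (x := fun _ z j => z (Sum.inl (.x j)))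
    c2 (pj (Sum.inl .d)) (pj (Sum.inl .i)) (pj (Sum.inr ())) c0 (fun i => pj _) (fun i => pj _) u
  have e3 := FLon.ite' (IsLon.eqConst 3 (pj (Sum.inl .tag))) eC eD
  have e2 := FLon.ite' (IsLon.eqConst 2 (pj (Sum.inl .tag))) eB e3
  have e1 := FLon.ite' (IsLon.eqConst 1 (pj (Sum.inl .tag))) eA e2
  refine e1.congr fun w z _ _ => ?_
  unfold PhiT
  dsimp only [Function.comp_apply]
  by_cases h1 : z (Sum.inl .tag) = 1
  · rw [if_pos h1, if_pos h1]; rfl
  rw [if_neg h1, if_neg h1]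
  by_cases h2 : z (Sum.inl .tag) = 2
  · rw [if_pos h2, if_pos h2]; rfl
  rw [if_neg h2, if_neg h2]
  by_cases h3 : z (Sum.inl .tag) = 3
  · rw [if_pos h3, if_pos h3]
    split_ifs <;> rfl
  rw [if_neg h3, if_neg h3]

theorem isL_eqc {β V : Type} (c : ℕ) (v : V) : IsL β V (fun _ x => x v = c) := isL_const c v

theorem isLeaf_L : IsL β (NI c) (fun w a => (PhiT (p w) (P0 w) (phi0 w)).isLeaf a) := by
  have h4 : IsL β (NI c) (fun _ a => 4 < a .tag) := by
    refine IsL.congr (IsL.not (IsL.or (isL_const 0 (.tag : NI c)) (IsL.or (isL_const 1 .tag)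
      (IsL.or (isL_const 2 .tag) (IsL.or (isL_const 3 .tag) (isL_const 4 .tag)))))) ?_
    intro w x _
    omega
  exact IsL.or (isL_const 0 _) (IsL.or (IsL.and (isL_const 1 _) (IsL.or (isL_const 0 _)
    (isL_lt (FL.proj _) (FL.proj _)))) (IsL.or (IsL.and (isL_const 2 _) (isL_const 0 _)) h4))

theorem dig_L (hp : PrmFL β p) : FL β (NI c) (fun w a => (PhiT (p w) (P0 w) (phi0 w)).dig a) := by
  refine FL.ite (isL_const 4 _) ((FL.const 1).congr fun w x _ => ?_) (param hp.t2)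
  exact (min_eq_left (by omega)).symm

end PhiFL

theorem PhiT_FL {β : Type} (p : List β → Prm) (hp : PrmFL β p) (P0 : List β → ℕ)
    (hP0 : FL β Empty (fun w _ => P0 w))
    (phi0 : List β → (Fin (c + 2) → ℕ) → (Fin (c + 2) → ℕ) → RI c → ℕ)
    (hphi : ∀ q : RI c, FL β (Fin (c + 2) ⊕ Fin (c + 2))
      (fun w z => phi0 w (z ∘ Sum.inl) (z ∘ Sum.inr) q)) :
    ∃ S : List β → Scheme (NI c → ℕ), SchemeFL β (NI c) S ∧
      ∀ (w : List β) (D r : ℕ), 2 < (p w).B → 0 < (p w).M → 0 < (p w).m → (p w).m < (p w).B →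
        2 ^ (p w).b = (p w).B ^ Fintype.card (CI c) →
        (∀ g x q, (∀ j, g j < (p w).B) → (∀ j, x j < (p w).B) → phi0 w g x q < (p w).B) →
        2 ^ (2 * (p w).b) ≤ w.length → (p w).B + P0 w * (p w).M ^ (D + 1) ≤ w.length →
        4 * (p w).M + 4 ≤ w.length → r ≤ w.length →
        (S w).Agree (PhiT (p w) (P0 w) (phi0 w)) (PhiG (p w) D r) (p w).b r := by
  obtain ⟨lv, hlv, hlv'⟩ := (PhiFL.leafVal_on (P0 := P0) hp hphi).total
  choose f1 hf1 hf1' using fun u => (PhiFL.c1_on (P0 := P0) (phi0 := phi0) hp u).total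
  choose f2 hf2 hf2' using fun u => (PhiFL.c2_on (p := p) (P0 := P0) (phi0 := phi0) u).total
  obtain ⟨sl, hsl, hsl'⟩ := (PhiFL.sel_on (P0 := P0) (phi0 := phi0) hp).total
  choose kp hkp hkp' using fun u => (PhiFL.kap_on (phi0 := phi0) hp hP0 u).total
  let S : List β → Scheme (NI c → ℕ) := fun w =>
    { isLeaf := (PhiT (p w) (P0 w) (phi0 w)).isLeaf
      leafVal := lv w
      c1 := fun a u => f1 u w a
      c2 := fun a u => f2 u w a
      sel := fun a u₁ u₂ => sl w (Sum.elim a (fun t => if t then u₂ else u₁))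
      kap := fun a s u => kp u w (Sum.elim a (fun _ => s))
      dig := (PhiT (p w) (P0 w) (phi0 w)).dig }
  refine ⟨S, ⟨isLeaf_L (p := p) (phi0 := phi0), hlv, hf1, hf2, ?_, ?_,
    PhiFL.dig_L (P0 := P0) (phi0 := phi0) hp⟩, ?_⟩
  · refine hsl.congr fun w z _ => ?_
    have : Sum.elim (z ∘ Sum.inl) (fun t => if t then z (Sum.inr true) else z (Sum.inr false)) =
        z := by
      funext v
      rcases v with v | v
      · rfl
      · cases v <;> rfl
    change sl w (Sum.elim (z ∘ Sum.inl)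
      (fun t => if t then z (Sum.inr true) else z (Sum.inr false))) = _
    rw [this]
  · intro u
    refine (hkp u).congr fun w z _ => ?_
    have : Sum.elim (z ∘ Sum.inl) (fun _ => z (Sum.inr ())) = z := by
      funext v
      rcases v with v | v <;> rfl
    change kp u w (Sum.elim (z ∘ Sum.inl) (fun _ => z (Sum.inr ()))) = _
    rw [this]
  · intro w D r hB2 hM0 hm0 hmB hpw hph h1 h2 h3 h4
    have hGD : ∀ a, PhiG (p w) D r a → PhiFL.GD p P0 phi0 w a := fun a ha =>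
      ⟨D, r, ⟨hB2, hM0, hm0, hmB, hpw, hph, h1, h2, h3, h4⟩, ha⟩
    refine ⟨fun a _ => Iff.rfl, fun a ha _ => hlv' w a (hGD a ha),
      fun a ha _ => funext fun u => hf1' u w a (hGD a ha),
      fun a ha _ => funext fun u => hf2' u w a (hGD a ha), fun a _ _ => rfl, ?_, ?_⟩
    · intro a ha _ u₁ hu₁ u₂ hu₂
      exact hsl' w _ ⟨hGD a ha, hu₁, hu₂⟩
    · intro a ha _ s _
      exact funext fun u => hkp' u w _ (hGD a ha)

end Pool.Agent.Helper17.TU
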