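import Pool.Agent.Helper17.TU.PrmFL0

set_option autoImplicit false

/-!
Few turns: the parameters are computable on the good words (piece TRN-19).
-/

namespace Pool.Agent.Helper17.TU

open Pool.Agent.Helper6 Pool.Agent.Helper17.UL

variable {β : Type}

section

variable {κ K : ℕ} {y E : List β → ℕ} {Good : List β → Prop}

theorem GoodE.trn19_all (h : GoodE κ K y E Good) {w : List β} (hw : Good w) :
    qr κ K (y w) ^ qn κ K (y w) (E w) ≤ w.length ∧ qf κ K (y w) ^ qd κ K (y w) ≤ w.length ∧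
    qf κ K (y w) ^ 2 ≤ w.length ∧ qq (y w) ^ (2 * qd κ K (y w)) ≤ w.length ∧
    qB κ (y w) + 2 ^ (κ * y w) * qM (y w) ^ (E w + 1) ≤ w.length ∧
    4 * qM (y w) + 6 ≤ w.length ∧ qr κ K (y w) ≤ w.length := by
  have h1 := h.sz w hw
  refine ⟨h1 _ ?_, h1 _ ?_, h1 _ ?_, h1 _ ?_, h1 _ ?_, h1 _ ?_, h1 _ ?_⟩ <;> simp [sizesE]

theorem trn19_qM_two (n : ℕ) : 2 ≤ qM n := Nat.le_add_left 2 _

theorem trn19_qZ_two {n : ℕ} (hn : 4 ≤ n) : 2 ≤ qZ n :=
  Nat.le_log_of_pow_le (by norm_num) (by norm_num; exact hn)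

theorem trn19_pow_le (hκ : 0 < κ) (h : GoodE κ K y E Good) {w : List β} (hw : Good w) :
    2 ^ (κ * y w) * qM (y w) ^ E w ≤ w.length ∧ 2 ^ (κ * y w) ≤ w.length ∧
      qM (y w) ^ E w ≤ w.length ∧ κ * y w ≤ w.length ∧ y w ≤ w.length ∧
      qB κ (y w) ≤ w.length := by
  have h5 := (h.trn19_all hw).2.2.2.2.1
  have hM := trn19_qM_two (y w)
  have h6 : qM (y w) ^ E w ≤ qM (y w) ^ (E w + 1) :=
    Nat.pow_le_pow_right (by omega) (by omega)
  have h7 : 1 ≤ qM (y w) ^ E w := Nat.one_le_pow _ _ (by omega)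
  have h8 : 1 ≤ 2 ^ (κ * y w) := Nat.one_le_two_pow
  have h9 : 2 ^ (κ * y w) * qM (y w) ^ E w ≤ 2 ^ (κ * y w) * qM (y w) ^ (E w + 1) :=
    Nat.mul_le_mul_left _ h6
  have h10 : 2 ^ (κ * y w) ≤ 2 ^ (κ * y w) * qM (y w) ^ E w := Nat.le_mul_of_pos_right _ h7
  have h11 : qM (y w) ^ E w ≤ 2 ^ (κ * y w) * qM (y w) ^ E w := Nat.le_mul_of_pos_left _ h8
  have h12 : κ * y w < 2 ^ (κ * y w) := Nat.lt_two_pow_self
  have h13 : y w ≤ κ * y w := Nat.le_mul_of_pos_left _ hκ
  refine ⟨?_, ?_, ?_, ?_, ?_, ?_⟩ <;> omega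

theorem trn19_ZD (h : GoodE κ K y E Good) {w : List β} (hw : Good w) :
    2 * (qZ (y w) * qd κ K (y w)) < w.length := by
  have h4 := (h.trn19_all hw).2.2.2.1
  have h5 : qq (y w) ^ (2 * qd κ K (y w)) = 2 ^ (2 * (qZ (y w) * qd κ K (y w))) := by
    unfold qq
    rw [← pow_mul]
    congr 1
    ring
  have h6 : 2 * (qZ (y w) * qd κ K (y w)) < 2 ^ (2 * (qZ (y w) * qd κ K (y w))) :=
    Nat.lt_two_pow_self
  omega

theorem trn19_qd (h : GoodE κ K y E Good) {w : List β} (hw : Good w) :
    qd κ K (y w) ≤ w.length := by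
  have h1 := trn19_ZD h hw
  have h2 := trn19_qZ_two (h.y4 w hw)
  have h3 : qd κ K (y w) ≤ qZ (y w) * qd κ K (y w) := Nat.le_mul_of_pos_left _ (by omega)
  omega

theorem trn19_qn_lt (h : GoodE κ K y E Good) {w : List β} (hw : Good w) :
    qn κ K (y w) (E w) < w.length := by
  have h1 := (h.trn19_all hw).1
  have h2 : qn κ K (y w) (E w) < 2 ^ qn κ K (y w) (E w) := Nat.lt_two_pow_self
  have h3 : 2 ≤ qr κ K (y w) := by
    unfold qr
    omega
  have h4 : 2 ^ qn κ K (y w) (E w) ≤ qr κ K (y w) ^ qn κ K (y w) (E w) :=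
    Nat.pow_le_pow_left h3 _
  omega

theorem flg_params' (hκ : 0 < κ) (hK : 0 < K) (h : GoodE κ K y E Good) :
    FLG Good (fun w => qM (y w)) ∧ FLG Good (fun w => 4 * qM (y w) + 6) ∧
    FLG Good (fun w => qZ (y w) * qd κ K (y w)) ∧ FLG Good (fun w => qd κ K (y w)) ∧
    FLG Good (fun w => qq (y w)) ∧ FLG Good (fun w => qf κ K (y w)) ∧
    FLG Good (fun w => qr κ K (y w)) ∧ FLG Good (fun w => qt κ K (y w)) ∧
    FLG Good (fun w => qn κ K (y w) (E w)) ∧ FLG Good (fun w => qB κ (y w)) ∧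
    FLG Good (fun w => 2 ^ (κ * y w)) ∧ FLG Good (fun w => 2 ^ (κ * y w) + 1) ∧
    FLG Good (fun w => 2 ^ (κ * y w) * qM (y w) ^ E w) := by
  have hlen := h.len
  have hc : ∀ c ≤ κ + K + 30, FLG Good (fun _ => c) := fun c hc =>
    FLG.const c fun w hw => by
      have := hlen w hw
      omega
  -- logarithm
  have hZ : FLG Good (fun w => qZ (y w)) := h.yF.log2
  have hdv : FLG Good (fun w => y w / qZ (y w)) := h.yF.div hZ
  have hM : FLG Good (fun w => qM (y w)) := hdv.add (hc 2 (by omega)) fun w hw => by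
    have := (h.trn19_all hw).2.2.2.2.2.1
    unfold qM at this
    omega
  have hM4 : FLG Good (fun w => 4 * qM (y w)) := (hc 4 (by omega)).mul hM fun w hw => by
    have := (h.trn19_all hw).2.2.2.2.2.1
    omega
  have hM6 : FLG Good (fun w => 4 * qM (y w) + 6) := hM4.add (hc 6 (by omega)) fun w hw => by
    have := (h.trn19_all hw).2.2.2.2.2.1
    omega
  have hdv1 : FLG Good (fun w => y w / qZ (y w) + 1) :=
    hdv.add (hc 1 (by omega)) fun w hw => by
      have := (h.trn19_all hw).2.2.2.2.2.1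
      unfold qM at this
      omega
  have hAd : ∀ w, qA κ (y w) ≤ qd κ K (y w) := fun w => Nat.le_mul_of_pos_right _ hK
  have hA : FLG Good (fun w => qA κ (y w)) := (hc (κ + 8) (by omega)).mul hdv1 fun w hw => by
    have h1 := trn19_qd h hw
    have h2 := hAd w
    unfold qA at h2
    omega
  have hd : FLG Good (fun w => qd κ K (y w)) := hA.mul (hc K (by omega)) fun w hw => by
    have h1 := trn19_qd h hw
    unfold qd at h1
    omega
  have hZd : FLG Good (fun w => qZ (y w) * qd κ K (y w)) := hZ.mul hd fun w hw => by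
    have h1 := trn19_ZD h hw
    omega
  have hqb : ∀ w, Good w → qq (y w) ≤ w.length := fun w hw => by
    have h1 : qq (y w) ≤ y w := Nat.pow_log_le_self 2 (by have := h.y4 w hw; omega)
    have h2 := (trn19_pow_le hκ h hw).2.2.2.2.1
    omega
  have hq : FLG Good (fun w => qq (y w)) := (hc 2 (by omega)).pow hZ fun w hw => by
    have h1 := hqb w hw
    unfold qq at h1
    omega
  -- the prime
  have hfb : ∀ w, Good w → qf κ K (y w) ≤ w.length := fun w hw => by
    have h1 := (h.trn19_all hw).2.2.1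
    have h2 : qf κ K (y w) ≤ qf κ K (y w) ^ 2 := Nat.le_self_pow (by norm_num) _
    omega
  have hfs : ∀ w, Good w → 2 * (qd κ K (y w) * qq (y w)) + 3 ≤ w.length := fun w hw => by
    have h1 : 2 * (qd κ K (y w) * qq (y w)) + 3 ≤ qf κ K (y w) :=
      (Nat.find_spec (Nat.exists_infinite_primes (2 * (qd κ K (y w) * qq (y w)) + 3))).1
    have h2 := hfb w hw
    omega
  have hdq : FLG Good (fun w => qd κ K (y w) * qq (y w)) := hd.mul hq fun w hw => by
    have h1 := hfs w hw
    omega
  have hdq2 : FLG Good (fun w => 2 * (qd κ K (y w) * qq (y w))) :=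
    (hc 2 (by omega)).mul hdq fun w hw => by
      have h1 := hfs w hw
      omega
  have hdq3 : FLG Good (fun w => 2 * (qd κ K (y w) * qq (y w)) + 3) :=
    hdq2.add (hc 3 (by omega)) fun w hw => by
      have h1 := hfs w hw
      omega
  have hf : FLG Good (fun w => qf κ K (y w)) :=
    hdq3.findPrime fun w hw => (hfb w hw).trans (Nat.le_succ _)
  have hrb : ∀ w, Good w → 7 * qf κ K (y w) + (4 * qM (y w) + 6) ≤ w.length :=
    fun w hw => (h.trn19_all hw).2.2.2.2.2.2
  have hf7 : FLG Good (fun w => 7 * qf κ K (y w)) := (hc 7 (by omega)).mul hf fun w hw => by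
    have h1 := hrb w hw
    omega
  have hr : FLG Good (fun w => qr κ K (y w)) := hf7.add hM6 fun w hw => by
    have h1 := hrb w hw
    omega
  have hZd2 : FLG Good (fun w => 2 * (qZ (y w) * qd κ K (y w))) :=
    (hc 2 (by omega)).mul hZd fun w hw => by
      have h1 := trn19_ZD h hw
      omega
  have htb : ∀ w, Good w → qt κ K (y w) ≤ w.length := fun w hw => by
    have h1 := trn19_ZD h hw
    have h2 := Nat.div_le_self (2 * (qZ (y w) * qd κ K (y w))) (Nat.log 2 (qr κ K (y w)))
    unfold qt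
    omega
  have ht : FLG Good (fun w => qt κ K (y w)) :=
    (hZd2.div hr.log2).add (hc 1 (by omega)) fun w hw => by
      have h1 := htb w hw
      unfold qt at h1
      omega
  -- the number of steps
  have hnb : ∀ w, Good w → E w * 20 * qM (y w) + E w * 24 + E w * qt κ K (y w) + 1 ≤ w.length :=
    fun w hw => by
      have h1 := trn19_qn_lt h hw
      have h2 : qn κ K (y w) (E w) =
          E w * 20 * qM (y w) + E w * 24 + E w * qt κ K (y w) + 1 := by
        unfold qn
        ring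
      omega
  have hE20b : ∀ w, E w * 20 ≤ E w * 20 * qM (y w) := fun w =>
    Nat.le_mul_of_pos_right _ (by have := trn19_qM_two (y w); omega)
  have hE20 : FLG Good (fun w => E w * 20) := h.eF.mul (hc 20 (by omega)) fun w hw => by
    have h1 := hnb w hw
    have h2 := hE20b w
    omega
  have hE20M : FLG Good (fun w => E w * 20 * qM (y w)) := hE20.mul hM fun w hw => by
    have h1 := hnb w hw
    omega
  have hE24 : FLG Good (fun w => E w * 24) := h.eF.mul (hc 24 (by omega)) fun w hw => by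
    have h1 := hnb w hw
    omega
  have hEt : FLG Good (fun w => E w * qt κ K (y w)) := h.eF.mul ht fun w hw => by
    have h1 := hnb w hw
    omega
  have hs1 : FLG Good (fun w => E w * 20 * qM (y w) + E w * 24) :=
    hE20M.add hE24 fun w hw => by
      have h1 := hnb w hw
      omega
  have hs2 : FLG Good (fun w => E w * 20 * qM (y w) + E w * 24 + E w * qt κ K (y w)) :=
    hs1.add hEt fun w hw => by
      have h1 := hnb w hw
      omega
  have hs3 : FLG Good (fun w => E w * 20 * qM (y w) + E w * 24 + E w * qt κ K (y w) + 1) :=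
    hs2.add (hc 1 (by omega)) fun w hw => by
      have h1 := hnb w hw
      omega
  have hn : FLG Good (fun w => qn κ K (y w) (E w)) := hs3.congr fun w _ => by
    unfold qn
    ring
  -- the base of the codes
  have hZA : FLG Good (fun w => qZ (y w) * qA κ (y w)) := hZ.mul hA fun w hw => by
    have h1 := trn19_ZD h hw
    have h2 : qZ (y w) * qA κ (y w) ≤ qZ (y w) * qd κ K (y w) := Nat.mul_le_mul_left _ (hAd w)
    omega
  have hB : FLG Good (fun w => qB κ (y w)) := (hc 2 (by omega)).pow hZA fun w hw => by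
    have h1 := (trn19_pow_le hκ h hw).2.2.2.2.2
    unfold qB at h1
    omega
  have hκy : FLG Good (fun w => κ * y w) := (hc κ (by omega)).mul h.yF fun w hw => by
    have h1 := (trn19_pow_le hκ h hw).2.2.2.1
    omega
  have h2y : FLG Good (fun w => 2 ^ (κ * y w)) := (hc 2 (by omega)).pow hκy fun w hw => by
    have h1 := (trn19_pow_le hκ h hw).2.1
    omega
  have h2y1 : FLG Good (fun w => 2 ^ (κ * y w) + 1) := h2y.add (hc 1 (by omega)) fun w hw => by
    have h1 := (trn19_pow_le hκ h hw).2.1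
    omega
  have hME : FLG Good (fun w => qM (y w) ^ E w) := hM.pow h.eF fun w hw => by
    have h1 := (trn19_pow_le hκ h hw).2.2.1
    omega
  have h2M : FLG Good (fun w => 2 ^ (κ * y w) * qM (y w) ^ E w) := h2y.mul hME fun w hw => by
    have h1 := (trn19_pow_le hκ h hw).1
    omega
  exact ⟨hM, hM6, hZd, hd, hq, hf, hr, ht, hn, hB, h2y, h2y1, h2M⟩

end

end Pool.Agent.Helper17.TU
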