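import Pool.Agent.Helper17.TU.AnsT
import Pool.Agent.Helper17.TU.NumBd
import Pool.Agent.Helper17.TU.NumFL2
import Pool.Agent.Helper17.TU.DigEval
import Pool.Agent.Helper17.TU.PhiTFL
import Pool.Agent.Helper17.TU.PrmFL1

set_option autoImplicit false

/-!
Few turns: assembly for general parameter functions.
-/

namespace Pool.Agent.Helper17.TU

open Pool.Agent.Helper17.SL Pool.Agent.Helper17.UL Pool.Agent.Helper6

/-- The block length is large enough. -/
theorem block_bound {Q Γ : Type} [Fintype Q] [Fintype Γ] (k n R y t : ℕ) [Fintype (Pend Γ R)]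
    (hy : 1 ≤ y) (hn : n + 2 ≤ 2 ^ y) (ht : t ≤ 2 ^ y) (κ : ℕ)
    (hκ : 2 * ((R + 1) * (Fintype.card Q * (Fintype.card (Pend Γ R) *
      (Fintype.card Γ + 1)) + 1)) + 2 + 2 * k ≤ κ) :
    t * ((t * R * usz Q Γ k n R + 1) * usz Q Γ k n R) ≤ 2 ^ (κ * y) := by
  obtain ⟨c1, hc1⟩ : ∃ c1, c1 = Fintype.card Q * (Fintype.card (Pend Γ R) *
    (Fintype.card Γ + 1)) := ⟨_, rfl⟩
  rw [← hc1] at hκ
  have hu : usz Q Γ k n R = c1 * (n + 2) ^ k := by
    unfold usz
    simp only [Fintype.card_prod, Fintype.card_fun, Fintype.card_fin, Fintype.card_option]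
    rw [hc1]
    ring
  have hu1 : usz Q Γ k n R ≤ (c1 + 1) * 2 ^ (y * k) := by
    rw [hu, pow_mul]
    exact Nat.mul_le_mul (by omega) (Nat.pow_le_pow_left hn k)
  obtain ⟨c, hc⟩ : ∃ c, c = (R + 1) * (c1 + 1) := ⟨_, rfl⟩
  rw [← hc] at hκ
  obtain ⟨U, hU⟩ : ∃ U, U = 2 ^ (y * k) := ⟨_, rfl⟩
  obtain ⟨Y, hY⟩ : ∃ Y, Y = 2 ^ y := ⟨_, rfl⟩
  rw [← hU] at hu1
  rw [← hY] at ht
  have hU0 : 1 ≤ U := by rw [hU]; exact Nat.one_le_two_pow
  have hY0 : 1 ≤ Y := by rw [hY]; exact Nat.one_le_two_pow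
  have hcu : usz Q Γ k n R ≤ c * U := by
    refine hu1.trans (Nat.mul_le_mul_right _ ?_)
    rw [hc]
    exact Nat.le_mul_of_pos_left _ (by omega)
  have h2 : t * R * usz Q Γ k n R + 1 ≤ c * (Y * U) := by
    have e1 : t * R * usz Q Γ k n R ≤ Y * R * ((c1 + 1) * U) :=
      Nat.mul_le_mul (Nat.mul_le_mul_right _ ht) hu1
    have e2 : 1 ≤ (c1 + 1) * (Y * U) := Nat.one_le_iff_ne_zero.mpr (by positivity)
    calc t * R * usz Q Γ k n R + 1 ≤ Y * R * ((c1 + 1) * U) + (c1 + 1) * (Y * U) :=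
          Nat.add_le_add e1 e2
      _ = c * (Y * U) := by rw [hc]; ring
  have h3 : c * c ≤ 2 ^ (2 * c) := by
    have := (Nat.lt_two_pow_self (n := c)).le
    calc c * c ≤ 2 ^ c * 2 ^ c := Nat.mul_le_mul this this
      _ = 2 ^ (2 * c) := by rw [← pow_add]; congr 1; ring
  calc t * ((t * R * usz Q Γ k n R + 1) * usz Q Γ k n R) ≤ Y * ((c * (Y * U)) * (c * U)) :=
        Nat.mul_le_mul ht (Nat.mul_le_mul h2 hcu)
    _ = (c * c) * (Y * Y * (U * U)) := by ring
    _ ≤ 2 ^ (2 * c) * (Y * Y * (U * U)) := Nat.mul_le_mul_right _ h3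
    _ = 2 ^ (2 * c + (y + y + (y * k + y * k))) := by
        rw [hY, hU, pow_add, pow_add, pow_add, pow_add]
    _ ≤ 2 ^ (κ * y) := by
        refine Nat.pow_le_pow_right (by norm_num) ?_
        have e1 : 2 * c ≤ 2 * c * y := Nat.le_mul_of_pos_right _ hy
        calc 2 * c + (y + y + (y * k + y * k)) ≤ 2 * c * y + (y + y + (y * k + y * k)) := by omega
          _ = (2 * c + 2 + 2 * k) * y := by ring
          _ ≤ κ * y := Nat.mul_le_mul_right _ hκ

/-- The core. -/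
theorem core {α Q Γ : Type} [Fintype α] [Fintype Q] [Fintype Γ] {k : ℕ}
    (δ : PDTrans α Q Γ k) (q₀ : Q) (F : Set Q) :
    ∃ κ K : ℕ, 0 < κ ∧ 0 < K ∧ ∀ (yF eF : List (Option α) → ℕ) (Good : List (Option α) → Prop),
      GoodE κ K yF eF Good →
      ∃ Rr : List (Option α) → Prop, IsL (Option α) Empty (fun w _ => Rr w) ∧
      ∀ (u : List α) (m : ℕ), Good (padW u m) → u.length + 2 ≤ 2 ^ yF (padW u m) →
        (Rr (padW u m) → ∃ T, AcceptsIn δ q₀ F T u) ∧
        ∀ t, t ≤ 2 ^ yF (padW u m) →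
          t ≤ qM (yF (padW u m)) ^ eF (padW u m) → AcceptsTurns δ q₀ F t u → Rr (padW u m) := by
  classical
  -- the longest word pushed
  obtain ⟨R, hR1, hR⟩ : ∃ R, 1 ≤ R ∧ ∀ q v X, (δ q v X).2.2.length ≤ R := by
    refine ⟨Finset.univ.sup (fun x : Q × (Fin k → Bool × Option α) × Option Γ =>
      (δ x.1 x.2.1 x.2.2).2.2.length) + 1, by omega, fun q v X => ?_⟩
    exact (Finset.le_sup (f := fun x : Q × (Fin k → Bool × Option α) × Option Γ =>
      (δ x.1 x.2.1 x.2.2).2.2.length) (Finset.mem_univ (q, v, X))).trans (Nat.le_succ _)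
  haveI : Finite (Pend Γ R) := (List.finite_length_le Γ R).to_subtype
  letI : Fintype (Pend Γ R) := Fintype.ofFinite _
  let Fb : Q → Bool := fun q => decide (q ∈ F)
  obtain ⟨κ, hκ⟩ : ∃ κ, κ = 2 * ((R + 1) * (Fintype.card Q * (Fintype.card (Pend Γ R) *
      (Fintype.card Γ + 1)) + 1)) + 2 + 2 * k + Fintype.card Q + Fintype.card (Pend Γ R) +
    Fintype.card Γ + 12 := ⟨_, rfl⟩
  obtain ⟨K, hK⟩ : ∃ K, K = Fintype.card (CI (k + 4)) := ⟨_, rfl⟩
  have hκ0 : 0 < κ := by omega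
  have hK0 : 0 < K := by
    rw [hK]
    haveI : Nonempty (CI (k + 4)) := ⟨CI.ph⟩
    exact Fintype.card_pos
  refine ⟨κ, K, hκ0, hK0, fun yF eF Good hGE => ?_⟩
  let nW : List (Option α) → ℕ := fun w => (w.takeWhile Option.isSome).length
  have hnW : FL (Option α) Empty (fun w _ => nW w) := lead_FL
  obtain ⟨⟨gM, fM, eM⟩, ⟨gm, fm, em⟩, ⟨gbb, fbb, ebb⟩, ⟨gd, fd, ed⟩, ⟨gq, fq, eq'⟩,
    ⟨gf, ff, ef⟩, ⟨gr, fr, er⟩, ⟨gt, ft, et⟩, ⟨gn, fn, en⟩, ⟨gB, fB, eB⟩, ⟨gP, fP, eP⟩,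
    ⟨gC, fC, eC⟩, ⟨gN, fN, eN⟩⟩ := flg_params' hκ0 hK0 hGE
  obtain ⟨gE, fE, eE'⟩ := id hGE.eF
  -- the scheme
  let p : List (Option α) → Prm := fun w => ⟨gB w, gbb w, gM w, gm w, gt w⟩
  have hp : PrmFL (Option α) p := ⟨fB, fbb, fM, fm, ft⟩
  let phi0W : List (Option α) → (Fin (k + 4 + 2) → ℕ) → (Fin (k + 4 + 2) → ℕ) →
      RI (k + 4) → ℕ := fun w g x q => phiNum δ Fb R (npW gN gP nW w) (gC w) g x q
  have hphiFL : ∀ q : RI (k + 4), FL (Option α) (Fin (k + 4 + 2) ⊕ Fin (k + 4 + 2))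
      (fun w z => phi0W w (z ∘ Sum.inl) (z ∘ Sum.inr) q) := fun q =>
    phiNum_FL δ Fb R fN fP hnW fC q
  obtain ⟨S, hS, hagree⟩ := PhiT_FL p hp gP fP phi0W hphiFL
  let A0 : List (Option α) → Fin (k + 4 + 2) → ℕ := fun w i =>
    min (a0 k q₀ Γ R i) (w.length + 1)
  have hA0 : ∀ i, FL (Option α) Empty (fun w _ => A0 w i) := fun i => FL.const _
  have ha0 : ∀ v : NI (k + 4), FL (Option α) Empty
      (fun w _ => mkN 1 (gE w) 0 0 0 (A0 w) (A0 w) v) := by
    intro v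
    cases v with
    | tag => exact FL.one
    | d => exact fE
    | i => exact FL.zero
    | l => exact FL.zero
    | s => exact FL.zero
    | g j => exact hA0 j
    | x j => exact hA0 j
  obtain ⟨out, hout, heval⟩ := uniform_evalq S hS fd fq ff fr fn ha0
  obtain ⟨ps, hps⟩ : ∃ ps, ps = pos (RI.x (⟨3, by omega⟩ : Fin (k + 4 + 2))) := ⟨_, rfl⟩
  have hpsK : ps ≤ K := by
    rw [hps, hK]
    exact ((Fintype.equivFin _ _).isLt.le).trans card_RI_le
  refine ⟨fun w => tabF Fb (out w / min (gB w ^ (min ps (w.length + 1)))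
    (w.length + 1) % gB w) = 1, tabF_isL Fb ((hout.div (fB.pow (FL.const ps))).mod fB), ?_⟩
  intro u m hgood hn2
  obtain ⟨w, hw⟩ : ∃ w, w = padW u m := ⟨_, rfl⟩
  rw [← hw] at hgood hn2 ⊢
  have hlen : w.length = u.length + m := by rw [hw, padW_length]
  have hnw : nW w = u.length := by rw [hw]; exact padW_lead u m
  -- values of the parameters
  obtain ⟨y, hy⟩ : ∃ y, y = yF w := ⟨_, rfl⟩
  obtain ⟨E, hE⟩ : ∃ E, E = eF w := ⟨_, rfl⟩
  have hy4 : 4 ≤ y := by rw [hy]; exact hGE.y4 w hgood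
  have hcap : E ≤ qCap y := by rw [hy, hE]; exact hGE.cap w hgood
  have hsz : ∀ s ∈ sizesE κ K y E, s ≤ w.length := by rw [hy, hE]; exact hGE.sz w hgood
  rw [← hy] at hn2
  rw [← hy, ← hE]
  have hlenK := hGE.len w hgood
  obtain ⟨x1, x2, x3, x4, x5, x6, x7, x8, x9, x10, x11, x12, x13, x14⟩ :=
    prmE_exact κ K y E hκ0 hK0 hy4 hcap
  have s1 : qr κ K y ^ qn κ K y E ≤ w.length := hsz _ (by simp [sizesE])
  have s2 : qf κ K y ^ qd κ K y ≤ w.length := hsz _ (by simp [sizesE])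
  have s3 : qf κ K y ^ 2 ≤ w.length := hsz _ (by simp [sizesE])
  have s4 : qq y ^ (2 * qd κ K y) ≤ w.length := hsz _ (by simp [sizesE])
  have s5 : qB κ y + 2 ^ (κ * y) * qM y ^ (E + 1) ≤ w.length := hsz _ (by simp [sizesE])
  have s6 : 4 * qM y + 6 ≤ w.length := hsz _ (by simp [sizesE])
  have s7 : qr κ K y ≤ w.length := hsz _ (by simp [sizesE])
  have EM : gM w = qM y := by rw [eM w hgood, hy]
  have Em : gm w = 4 * qM y + 6 := by rw [em w hgood, hy]
  have Ebb : gbb w = qZ y * qd κ K y := by rw [ebb w hgood, hy]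
  have Ed : gd w = qd κ K y := by rw [ed w hgood, hy]
  have Eq' : gq w = qq y := by rw [eq' w hgood, hy]
  have Ef : gf w = qf κ K y := by rw [ef w hgood, hy]
  have Er : gr w = qr κ K y := by rw [er w hgood, hy]
  have Et : gt w = qt κ K y := by rw [et w hgood, hy]
  have En : gn w = qn κ K y E := by rw [en w hgood, hy, hE]
  have EB : gB w = qB κ y := by rw [eB w hgood, hy]
  have EP : gP w = 2 ^ (κ * y) := by rw [eP w hgood, hy]
  have EC : gC w = 2 ^ (κ * y) + 1 := by rw [eC w hgood, hy]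
  have EN : gN w = 2 ^ (κ * y) * qM y ^ E := by rw [eN w hgood, hy, hE]
  have EE : gE w = E := by rw [eE' w hgood, hE]
  have hpw : p w = ⟨qB κ y, qZ y * qd κ K y, qM y, 4 * qM y + 6, qt κ K y⟩ := by
    simp only [p, EM, Em, EB, Ebb, Et]
  have hP0 : 0 < 2 ^ (κ * y) := by positivity
  have hBlen : qB κ y ≤ w.length := (Nat.le_add_right _ _).trans s5
  have hNOK : NOK Q Γ u.length R (2 ^ (κ * y) * qM y ^ E) (qB κ y) := by
    refine ⟨x3, ?_, ?_, ?_, ?_, ?_⟩ <;> omega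
  have hNP : NPOK u u.length (2 ^ (κ * y) * qM y ^ E) (2 ^ (κ * y)) (qB κ y)
      (npW gN gP nW w) := by
    refine ⟨EN, EP, hnw, fun z => ?_, ?_⟩
    · show oc ((w[z - 1]?).join) = oc (u[z - 1]?)
      rw [hw, padW_get]
    · show qB κ y ≤ w.length + 1
      omega
  have hbK : 2 ^ (qZ y * qd κ K y) = qB κ y ^ Fintype.card (CI (k + 4)) := by
    rw [← hK]; exact x13
  have hmr : 4 * qM y + 6 ≤ qr κ K y := Nat.le_add_left _ _
  have hA0w : A0 w = a0 k q₀ Γ R := by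
    funext i
    have := a0_ltT hNOK (k := k) q₀ i
    exact min_eq_left (by omega)
  -- the function for blocks
  have hphilt : ∀ g x q, (∀ j, g j < qB κ y) → (∀ j, x j < qB κ y) →
      phi0W w g x q < qB κ y := fun g x q hg hx =>
    phiNum_lt hNOK δ Fb (npW gN gP nW w) EN hnw (gC w) g x hg hx q
  have hphi0 : ∀ g x : TV (2 ^ (κ * y) * qM y ^ E) (Option Bool × UCtl Q Γ k u.length R),
      phi0W w (kV g) (kV x) =
        cRes kV (phiB (tact (uact δ Fb u) (2 ^ (κ * y))) (2 ^ (κ * y)) g x) := by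
    intro g x
    show phiNum δ Fb R (npW gN gP nW w) (gC w) (kV g) (kV x) = _
    rw [EC]
    exact phiNum_kV δ Fb hNOK hNP g x
  -- agreement
  have hag := hagree w E (qr κ K y) (by rw [hpw]; exact hNOK.h2) (by rw [hpw]; exact x1)
    (by rw [hpw]; exact Nat.succ_pos _) (by rw [hpw]; exact x6) (by rw [hpw]; exact hbK)
    (fun g x q hg hx => by
      rw [hpw] at hg hx ⊢
      exact hphilt g x q hg hx)
    (by
      rw [hpw]
      show 2 ^ (2 * (qZ y * qd κ K y)) ≤ w.length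
      have : 2 ^ (2 * (qZ y * qd κ K y)) = qq y ^ (2 * qd κ K y) := by
        unfold qq
        rw [← pow_mul]
        congr 1
        ring
      rw [this]
      exact s4)
    (by rw [hpw, EP]; exact s5)
    (by
      rw [hpw]
      have : 4 * qM y + 4 ≤ w.length := by omega
      exact this) s7
  have hok := PhiT_ok (p w) (gP w) (phi0W w) (D := E) (r := qr κ K y)
    (by rw [hpw]; exact Nat.pos_of_ne_zero (by unfold qB; positivity))
    (by rw [hpw]; exact Nat.succ_pos _)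
    (by rw [hpw]; exact hmr) (by rw [hpw]; exact x14)
  have hG : PhiG (p w) E (qr κ K y)
      (mkN 1 E 0 0 0 (a0 k q₀ Γ R) (a0 k q₀ Γ R)) := by
    refine ⟨by norm_num [mkN], le_rfl, Nat.zero_le _, ?_, ?_, fun j => ?_⟩
    · simp only [mkN]; omega
    · simp only [mkN]; positivity
    · rw [hpw]
      exact ⟨a0_ltT hNOK q₀ j, a0_ltT hNOK q₀ j⟩
  have hdep : PhiDep (p w) (mkN 1 E 0 0 0 (a0 k q₀ Γ R) (a0 k q₀ Γ R)) =
      E * (p w).Del := dep_mk1 _ _ _ _ _ _ _
  have hDel : E * (p w).Del + 1 = qn κ K y E := by rw [hpw]; rfl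
  have hM2 : 2 ≤ qM y := Nat.le_add_left 2 _
  have hEw : E ≤ w.length := by
    have h1 : E < 2 ^ E := Nat.lt_two_pow_self
    have h2 : 2 ^ E ≤ qM y ^ E := Nat.pow_le_pow_left hM2 E
    have h3 : qM y ^ E ≤ qM y ^ (E + 1) := Nat.pow_le_pow_right (by omega) (by omega)
    have h4 : qM y ^ (E + 1) ≤ 2 ^ (κ * y) * qM y ^ (E + 1) := Nat.le_mul_of_pos_left _ hP0
    omega
  have hev := heval w (PhiG (p w) E (qr κ K y)) (PhiDep (p w)) (qZ y * qd κ K y)
    (by rw [Eq', Ed]; exact x12)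
    (by rw [Er]; have := hag.ok hok; rwa [hpw] at this ⊢)
    (by
      rintro a ⟨h1, h2, h3, h4, h5, h6⟩ v
      rw [hpw] at h3 h5 h6
      simp only at h3 h5 h6
      have h7 : 2 ^ (qZ y * qd κ K y) ≤ w.length := by
        rw [x12]
        exact (Nat.pow_le_pow_right (by omega) (by omega)).trans s4
      cases v with
      | tag => omega
      | d => omega
      | i => omega
      | l => omega
      | s => omega
      | g j => have := (h6 j).1; omega
      | x j => have := (h6 j).2; omega)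
    (by rw [EE, hA0w]; exact hG)
    (by rw [EE, hA0w, En, hdep, hDel])
    (by rw [Ef]; exact x7) (by rw [Eq']; exact x9) (by rw [Eq', Ef]; exact x10)
    (by rw [Ed, Eq', Ef]; exact x8)
    (by rw [Ef, Er]; exact Nat.le_add_right _ _)
    (by rw [Er, En]; exact s1) (by rw [Ef, Ed]; exact s2) (by rw [Ef]; exact s3)
    (by rw [Eq', Ed]; exact s4)
  rw [EE, hA0w, En] at hev
  have hval := hag.val_eq hok (qn κ K y E) _ hG (by rw [hdep]; omega)
  rw [hval] at hev
  have hans := answerT δ q₀ Fb u (P₀ := 2 ^ (κ * y)) (E := E) (p w) hP0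
    (by rw [hpw]; exact x1) (by rw [hpw]; exact hNOK) (by rw [hpw]; exact x6) (by rw [hpw])
    (by rw [hpw]; exact hbK)
    (r := qr κ K y) (by rw [hpw]; exact hmr) (by rw [hpw]; exact x14) (phi0W w)
    (by rw [hpw]; exact hphi0) (qn κ K y E) (by omega)
  have hF : {q | Fb q = true} = F := by ext q; simp [Fb]
  have hps1 : min ps (w.length + 1) = ps := by
    apply min_eq_left
    omega
  have hqB2 : 2 ≤ qB κ y := by have := hNOK.h2; omega
  have hps2 : min (qB κ y ^ ps) (w.length + 1) = qB κ y ^ ps := by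
    apply min_eq_left
    have h1 : qB κ y ^ ps ≤ qB κ y ^ K := Nat.pow_le_pow_right (by omega) hpsK
    have h7 : 2 ^ (qZ y * qd κ K y) ≤ w.length := by
      rw [x12]
      exact (Nat.pow_le_pow_right (by omega) (by omega)).trans s4
    rw [← x13] at h1
    omega
  have hkey : (tabF Fb (out w / min (gB w ^ (min ps (w.length + 1)))
      (w.length + 1) % gB w) = 1) ↔
      Fb ((trun (tact (uact (n := u.length) (R := R) δ Fb u) (2 ^ (κ * y)))
        ((none, uinit Γ k u.length R q₀), []) (2 ^ (κ * y) * qM y ^ E)).1.2.1) = true := by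
    rw [hpw] at hans
    simp only at hans
    rw [← hans, EB, hps1, hps2, hev, hpw, EP]
    simp only [decI, hps]
  refine ⟨fun h => ?_, fun t ht1 ht2 hacc => ?_⟩
  · have h1 := turn_sound δ q₀ Fb u rfl hR _ _ (hkey.mp h)
    rw [hF] at h1
    exact h1
  · refine hkey.mpr ?_
    rw [← hF] at hacc
    refine turn_complete δ q₀ Fb u rfl hR hR1 t hacc hP0 ?_ _ ?_
    · exact block_bound k u.length R y t (by omega) hn2 ht1 κ (by omega)
    · rw [mul_comm t]
      exact Nat.mul_le_mul_left _ ht2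

end Pool.Agent.Helper17.TU
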