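import Pool.Agent.Helper17.UL.Sem
import Pool.Agent.Helper17.UL.EvDefs

set_option autoImplicit false

/-!
Few turns: masked registers with digits in base `q` instead of bits.
-/

namespace Pool.Agent.Helper17.TU

open Pool.Agent.Helper17.SL Pool.Agent.Helper17.UL

/-- The digits of `v` in base `q` as a block. -/
def nq (f q b v : ℕ) : Blk (ZMod f) b := fun i => ((v / q ^ (i : ℕ) % q : ℕ) : ZMod f)

/-- The Lagrange polynomial of the digit `d` for the digits below `q`. -/
def lag (f q d : ℕ) (x : ZMod f) : ZMod f :=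
  ∏ e ∈ (Finset.range q).erase d, (x - (e : ZMod f)) * ((d : ZMod f) - (e : ZMod f))⁻¹

/-- The indicator polynomial of `u`. -/
def dq (f q b u : ℕ) (x : Blk (ZMod f) b) : ZMod f :=
  ∏ i : Fin b, lag f q (u / q ^ (i : ℕ) % q) (x i)

/-- The coefficient of the selector `s`. -/
def coefq {A : Type} (S : Scheme A) (f q b : ℕ) (a : A) (s : ℕ) (x y : Blk (ZMod f) b) : ZMod f :=
  ∑ u₁ ∈ Finset.range (q ^ b), ∑ u₂ ∈ Finset.range (q ^ b),
    if S.sel a u₁ u₂ = s then dq f q b u₁ x * dq f q b u₂ y else 0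

/-- Effect of an item on the registers (items with tags `0`, `1` and `6` have none). -/
def execq {A : Type} (S : Scheme A) (f q b : ℕ) (it : Item A) (R : Reg (ZMod f) b) :
    Reg (ZMod f) b :=
  if it.tag = 2 then Function.update R (f4 it.j)
    (R (f4 it.j) + sgn f it.sg • nq f q b (S.leafVal it.a))
  else if it.tag = 3 then
    fun k => if k = f4 it.j + 1 ∨ k = f4 it.j + 2 then (it.s : ZMod f) • R k else R k
  else if it.tag = 4 then
    fun k => if k = f4 it.j + 1 ∨ k = f4 it.j + 2 then (it.s : ZMod f)⁻¹ • R k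
      else R k
  else if it.tag = 5 then Function.update R (f4 it.j)
    (R (f4 it.j) + (sgn f it.sg * coefq S f q b it.a it.s (R (f4 it.j + 1))
      (R (f4 it.j + 2))) • R (f4 it.j + 3))
  else R

/-- Run a list of items. -/
def runq {A : Type} (S : Scheme A) (f q b : ℕ) (l : List (Item A)) (R : Reg (ZMod f) b) :
    Reg (ZMod f) b :=
  l.foldl (fun R it => execq S f q b it R) R

/-- The word is long enough for the parameters `f`, `q`, `b`. -/
structure LongQ (len f q b : ℕ) : Prop where
  pr : f.Prime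
  qf : q ≤ f
  q2 : 2 ≤ q
  fb : f ^ b ≤ len
  ff : f ^ 2 ≤ len
  bb : q ^ (2 * b) ≤ len

end Pool.Agent.Helper17.TU
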