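import Pool.Agent.Helper17.TU.DigDef
import Pool.Agent.Helper68.UL.Blocks

set_option autoImplicit false

/-!
Few turns: writing and reading blocks of digits.
-/

namespace Pool.Agent.Helper17.TU

open Pool.Agent.Helper17.SL Pool.Agent.Helper17.UL Pool.Agent.Helper6

variable {β : Type} {f q b : List β → ℕ}

theorem LongQ.long {len f q b : ℕ} (h : LongQ len f q b) : LongFor len f b :=
  ⟨h.pr, h.fb, h.ff, (Nat.pow_le_pow_left h.q2 _).trans h.bb⟩

/-- Piece TRN-2. Copy of `Helper68.UL.Blocks.bits_FL` with the base `2` replaced by `q w` (a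
computable number, `2 ≤ q w ≤ f w`). -/
theorem bitsq_FL (hf : FL β Empty (fun w _ => f w)) (hq : FL β Empty (fun w _ => q w))
    (hb : FL β Empty (fun w _ => b w)) :
    ∃ g : List β → ℕ → ℕ, FL β Unit (fun w z => g w (z ())) ∧
      ∀ w, LongQ w.length (f w) (q w) (b w) → ∀ v ≤ w.length + 1,
        g w v = blkNum (nq (f w) (q w) (b w) v) := by
  refine ⟨fun w v => min (∑ i ∈ Finset.range (b w), min (dgC (w.length + 1)
    (q w) i v * min (f w ^ i) (w.length + 1)) (w.length + 1))
    (w.length + 1), ?_, ?_⟩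
  · refine FL.sum (d := fun w z i => min (dgC (w.length + 1)
      (q w) i (z ()) * min (f w ^ i) (w.length + 1)) (w.length + 1)) ?_
      (FL.ofEmpty hb)
    have hF : FL β (Unit ⊕ Unit) (fun w _ => f w) := FL.ofEmpty hf
    have hQ : FL β (Unit ⊕ Unit) (fun w _ => q w) := FL.ofEmpty hq
    have hI : FL β (Unit ⊕ Unit) (fun _ z => z (Sum.inr ())) := FL.proj _
    have hv : FL β (Unit ⊕ Unit) (fun _ z => z (Sum.inl ())) := FL.proj _
    refine FL.congr (FL.mul (dgC_FL hQ hI hv) (FL.pow hF hI)) ?_
    intro w z _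
    simp only [Function.comp_apply]
    omega
  · intro w hw v _
    have hpr := hw.pr
    have hf0 : 0 < f w := hpr.pos
    have hq0 : 0 < q w := lt_of_lt_of_le (by norm_num) hw.q2
    have : NeZero (f w) := ⟨hf0.ne'⟩
    have hterm : ∀ i ∈ Finset.range (b w), min (dgC (w.length + 1)
        (q w) i v * min (f w ^ i) (w.length + 1)) (w.length + 1)
        = dgt (nq (f w) (q w) (b w) v) i * f w ^ i := by
      intro i hi
      rw [Finset.mem_range] at hi
      have h1 : f w ^ i ≤ w.length + 1 :=
        ((Nat.pow_le_pow_right hf0 hi.le).trans hw.fb).trans (Nat.le_succ _)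
      have h2 : q w ^ i ≤ w.length + 1 :=
        ((Nat.pow_le_pow_right hq0 (by omega : i ≤ 2 * b w)).trans hw.bb).trans
          (Nat.le_succ _)
      rw [dgC_eq h2, min_eq_left h1]
      have h5 : v / q w ^ i % q w = dgt (nq (f w) (q w) (b w) v) i := by
        rw [dgt, dif_pos hi, nq, ZMod.val_natCast, Nat.mod_eq_of_lt
          (lt_of_lt_of_le (Nat.mod_lt _ hq0) hw.qf)]
      rw [h5]
      have h6 : dgt (nq (f w) (q w) (b w) v) i * f w ^ i ≤ w.length + 1 := by
        have h7 := dgt_lt hf0 (nq (f w) (q w) (b w) v) i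
        calc dgt (nq (f w) (q w) (b w) v) i * f w ^ i ≤ f w * f w ^ i :=
              Nat.mul_le_mul_right _ h7.le
          _ = f w ^ (i + 1) := by ring
          _ ≤ f w ^ b w := Nat.pow_le_pow_right hf0 hi
          _ ≤ w.length + 1 := hw.fb.trans (Nat.le_succ _)
      exact min_eq_left h6
    change min (∑ i ∈ Finset.range (b w), min (dgC (w.length + 1)
        (q w) i v * min (f w ^ i) (w.length + 1)) (w.length + 1))
        (w.length + 1) = _
    rw [Finset.sum_congr rfl hterm, ← blkNum_eq]
    have h8 := blkNum_lt hf0 (nq (f w) (q w) (b w) v)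
    have h9 := hw.fb
    exact min_eq_left (by omega)

private theorem trn2_sum (q v b : ℕ) (hv : v < q ^ b) :
    ∑ i ∈ Finset.range b, v / q ^ i % q * q ^ i = v := by
  have key : ∀ n, ∑ i ∈ Finset.range n, v / q ^ i % q * q ^ i = v % q ^ n := by
    intro n
    induction n with
    | zero => simp [Nat.mod_one]
    | succ n ih =>
      rw [Finset.sum_range_succ, ih, pow_succ, Nat.mod_mul]
      ring
  rw [key, Nat.mod_eq_of_lt hv]

/-- Piece TRN-2. Copy of `Helper68.UL.Blocks.read_FL` with the base `2` replaced by `q w`. -/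
theorem readq_FL (hf : FL β Empty (fun w _ => f w)) (hq : FL β Empty (fun w _ => q w))
    (hb : FL β Empty (fun w _ => b w)) :
    ∃ g : List β → ℕ → ℕ, FL β Unit (fun w z => g w (z ())) ∧
      ∀ w, LongQ w.length (f w) (q w) (b w) → ∀ v < q w ^ b w,
        g w (blkNum (nq (f w) (q w) (b w) v)) = v := by
  refine ⟨fun w X => min (∑ i ∈ Finset.range (b w), min (dgC (w.length + 1) (f w) i X *
    min (q w ^ i) (w.length + 1)) (w.length + 1)) (w.length + 1), ?_, ?_⟩
  · refine FL.sum (d := fun w z i => min (dgC (w.length + 1) (f w) i (z ()) *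
      min (q w ^ i) (w.length + 1)) (w.length + 1)) ?_ (FL.ofEmpty hb)
    have hF : FL β (Unit ⊕ Unit) (fun w _ => f w) := FL.ofEmpty hf
    have hQ : FL β (Unit ⊕ Unit) (fun w _ => q w) := FL.ofEmpty hq
    have hI : FL β (Unit ⊕ Unit) (fun _ z => z (Sum.inr ())) := FL.proj _
    have hv : FL β (Unit ⊕ Unit) (fun _ z => z (Sum.inl ())) := FL.proj _
    refine FL.congr (FL.mul (dgC_FL hF hI hv) (FL.pow hQ hI)) ?_
    intro w z _
    simp only [Function.comp_apply]
    omega
  · intro w hw v hv
    have hpr := hw.pr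
    have hf0 : 0 < f w := hpr.pos
    have hq0 : 0 < q w := lt_of_lt_of_le (by norm_num) hw.q2
    have : NeZero (f w) := ⟨hf0.ne'⟩
    have hvl : v ≤ w.length + 1 := by
      have h1 : q w ^ b w ≤ q w ^ (2 * b w) := Nat.pow_le_pow_right hq0 (by omega)
      have h2 := hw.bb
      omega
    have hterm : ∀ i ∈ Finset.range (b w), min (dgC (w.length + 1) (f w) i
        (blkNum (nq (f w) (q w) (b w) v)) * min (q w ^ i) (w.length + 1))
        (w.length + 1) = v / q w ^ i % q w * q w ^ i := by
      intro i hi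
      rw [Finset.mem_range] at hi
      have h1 : f w ^ i ≤ w.length + 1 :=
        ((Nat.pow_le_pow_right hf0 hi.le).trans hw.fb).trans (Nat.le_succ _)
      have h2 : q w ^ i ≤ w.length + 1 :=
        ((Nat.pow_le_pow_right hq0 (by omega : i ≤ 2 * b w)).trans hw.bb).trans
          (Nat.le_succ _)
      rw [dgC_eq h1, digit_blkNum hf0 _ i hi, min_eq_left h2]
      have h5 : (nq (f w) (q w) (b w) v ⟨i, hi⟩).val = v / q w ^ i % q w := by
        rw [nq, ZMod.val_natCast, Nat.mod_eq_of_lt
          (lt_of_lt_of_le (Nat.mod_lt _ hq0) hw.qf)]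
      rw [h5]
      have h6 : v / q w ^ i % q w * q w ^ i ≤ v :=
        (Nat.mul_le_mul_right _ (Nat.mod_le _ _)).trans (Nat.div_mul_le_self _ _)
      exact min_eq_left (h6.trans hvl)
    change min (∑ i ∈ Finset.range (b w), min (dgC (w.length + 1) (f w) i
      (blkNum (nq (f w) (q w) (b w) v)) * min (q w ^ i) (w.length + 1))
      (w.length + 1)) (w.length + 1) = _
    rw [Finset.sum_congr rfl hterm, trn2_sum (q w) v _ hv]
    exact min_eq_left hvl

end Pool.Agent.Helper17.TU
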