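import Pool.Agent.Helper17.TU.DigDef

set_option autoImplicit false

/-!
Few turns: the sum over the nonzero scalars.
-/

namespace Pool.Agent.Helper17.TU

open Pool.Agent.Helper17.SL Pool.Agent.Helper17.UL

open Polynomial

private theorem trn1_digits {q : ℕ} (hq : 0 < q) : ∀ (b u v : ℕ), u < q ^ b → v < q ^ b →
    (∀ i < b, u / q ^ i % q = v / q ^ i % q) → u = v := by
  intro b
  induction b with
  | zero =>
    intro u v hu hv _
    simp at hu hv
    omega
  | succ b ih =>
    intro u v hu hv h
    have h0 := h 0 (Nat.succ_pos b)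
    simp only [pow_zero, Nat.div_one] at h0
    have h1 : u / q = v / q := by
      apply ih
      · rw [Nat.div_lt_iff_lt_mul hq]
        rwa [pow_succ] at hu
      · rw [Nat.div_lt_iff_lt_mul hq]
        rwa [pow_succ] at hv
      · intro i hi
        have := h (i + 1) (Nat.succ_lt_succ hi)
        rw [Nat.div_div_eq_div_mul, Nat.div_div_eq_div_mul, ← pow_succ']
        exact this
    rw [← Nat.div_add_mod u q, ← Nat.div_add_mod v q, h0, h1]

private theorem trn1_cast {f q d e : ℕ} [Fact f.Prime] (hqf : q ≤ f) (hd : d < q) (he : e < q)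
    (h : (d : ZMod f) = (e : ZMod f)) : d = e := by
  have h1 := (ZMod.natCast_eq_natCast_iff' d e f).mp h
  rwa [Nat.mod_eq_of_lt (lt_of_lt_of_le hd hqf), Nat.mod_eq_of_lt (lt_of_lt_of_le he hqf)] at h1

private theorem trn1_lag {f q d e : ℕ} [Fact f.Prime] (hqf : q ≤ f) (hd : d < q) (he : e < q) :
    lag f q d (e : ZMod f) = if d = e then 1 else 0 := by
  unfold lag
  split_ifs with h
  · subst h
    apply Finset.prod_eq_one
    intro e' he'
    rw [Finset.mem_erase, Finset.mem_range] at he'
    apply mul_inv_cancel₀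
    rw [sub_ne_zero]
    intro hc
    exact he'.1 (trn1_cast hqf hd he'.2 hc).symm
  · apply Finset.prod_eq_zero (i := e)
    · rw [Finset.mem_erase, Finset.mem_range]
      exact ⟨fun hc => h hc.symm, he⟩
    · rw [sub_self, zero_mul]

private theorem trn1_dq {f q b : ℕ} [Fact f.Prime] (hq0 : 0 < q) (hqf : q ≤ f) {u v : ℕ}
    (hu : u < q ^ b) (hv : v < q ^ b) :
    dq f q b u (nq f q b v) = if u = v then 1 else 0 := by
  unfold dq nq
  split_ifs with h
  · subst h
    apply Finset.prod_eq_one
    intro i _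
    rw [trn1_lag hqf (Nat.mod_lt _ hq0) (Nat.mod_lt _ hq0), if_pos rfl]
  · have : ∃ i : Fin b, u / q ^ (i : ℕ) % q ≠ v / q ^ (i : ℕ) % q := by
      by_contra hcon
      push Not at hcon
      exact h (trn1_digits hq0 b u v hu hv (fun i hi => hcon ⟨i, hi⟩))
    obtain ⟨i, hi⟩ := this
    apply Finset.prod_eq_zero (Finset.mem_univ i)
    rw [trn1_lag hqf (Nat.mod_lt _ hq0) (Nat.mod_lt _ hq0), if_neg hi]

/-- The Lagrange polynomial along a line. -/
private noncomputable def trn1_lp (f q d : ℕ) [Fact f.Prime] (x v : ZMod f) : (ZMod f)[X] :=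
  ∏ e ∈ (Finset.range q).erase d,
    (X * C x + C v - C (e : ZMod f)) * C (((d : ZMod f) - (e : ZMod f))⁻¹)

private theorem trn1_lp_eval (f q d : ℕ) [Fact f.Prime] (x v ω : ZMod f) :
    (trn1_lp f q d x v).eval ω = lag f q d (ω * x + v) := by
  unfold trn1_lp lag
  rw [eval_prod]
  apply Finset.prod_congr rfl
  intro e _
  simp only [eval_mul, eval_sub, eval_add, eval_X, eval_C]

private theorem trn1_lp_deg (f q d : ℕ) [Fact f.Prime] (hd : d < q) (x v : ZMod f) :
    (trn1_lp f q d x v).natDegree ≤ q - 1 := by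
  unfold trn1_lp
  refine (natDegree_prod_le _ _).trans ?_
  calc ∑ e ∈ (Finset.range q).erase d, ((X * C x + C v - C (e : ZMod f)) *
        C (((d : ZMod f) - (e : ZMod f))⁻¹)).natDegree ≤
        ∑ _e ∈ (Finset.range q).erase d, 1 := by
        apply Finset.sum_le_sum
        intro e _
        refine (natDegree_mul_C_le _ _).trans ?_
        refine (natDegree_sub_le _ _).trans (max_le ?_ (by simp))
        refine (natDegree_add_le _ _).trans (max_le ?_ (by simp))
        refine natDegree_mul_le.trans ?_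
        simp
    _ = q - 1 := by
        rw [Finset.sum_const, Finset.card_erase_of_mem (Finset.mem_range.mpr hd),
          Finset.card_range]
        simp

/-- The indicator polynomial along a line. -/
private noncomputable def trn1_dp (f q b u : ℕ) [Fact f.Prime] (x v : Blk (ZMod f) b) :
    (ZMod f)[X] :=
  ∏ i : Fin b, trn1_lp f q (u / q ^ (i : ℕ) % q) (x i) (v i)

private theorem trn1_dp_eval (f q b u : ℕ) [Fact f.Prime] (x v : Blk (ZMod f) b) (ω : ZMod f) :
    (trn1_dp f q b u x v).eval ω = dq f q b u (ω • x + v) := by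
  unfold trn1_dp dq
  rw [eval_prod]
  apply Finset.prod_congr rfl
  intro i _
  rw [trn1_lp_eval]
  rfl

private theorem trn1_dp_deg (f q b u : ℕ) [Fact f.Prime] (hq0 : 0 < q)
    (x v : Blk (ZMod f) b) :
    (trn1_dp f q b u x v).natDegree ≤ b * (q - 1) := by
  unfold trn1_dp
  refine (natDegree_prod_le _ _).trans ?_
  calc ∑ i : Fin b, (trn1_lp f q (u / q ^ (i : ℕ) % q) (x i) (v i)).natDegree ≤
        ∑ _i : Fin b, (q - 1) := by
        apply Finset.sum_le_sum
        intro i _
        exact trn1_lp_deg f q _ (Nat.mod_lt _ hq0) _ _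
    _ = b * (q - 1) := by simp


/-- Piece TRN-1. Adapt `Helper17.SL.Gadget` (`sum_eval_erase`, `pl`, `pl_eval`, `pl_natDegree`,
`dl_enc`, `sum_dl`). (1) `dq f q b u (nq f q b v) = if u = v then 1 else 0` for `u, v < q ^ b`:
the digits below `q ≤ f` are distinct in `ZMod f`, so `lag f q d e = if d = e then 1 else 0` for
`d, e < q`, and numbers below `q ^ b` are equal iff their `b` digits are. (2) Along a line
`ω ↦ ω • x + c` the function `dq f q b u` is a polynomial of degree at most `b * (q - 1)`.
(3) The sum over the nonzero `ω` of minus the polynomial is its value at `0` (`sum_eval_erase`). -/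
theorem sum_dq {f q b : ℕ} [Fact f.Prime] (hq0 : 0 < q) (hqf : q ≤ f)
    (hfb : 2 * (b * (q - 1)) < f - 1) (x y : Blk (ZMod f) b) {u v : ℕ}
    (hu : u < q ^ b) (hv : v < q ^ b) (w : ℕ → ℕ → Blk (ZMod f) b) :
    ∑ ω ∈ Finset.univ.erase (0 : ZMod f), ∑ u' ∈ Finset.range (q ^ b),
      ∑ v' ∈ Finset.range (q ^ b),
      (-(dq f q b u' (ω • x + nq f q b u) * dq f q b v' (ω • y + nq f q b v)) : ZMod f) •
        w u' v' = w u v := by
  classical
  have hcard : Fintype.card (ZMod f) = f := ZMod.card f
  funext i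
  let G : (ZMod f)[X] := ∑ u' ∈ Finset.range (q ^ b), ∑ v' ∈ Finset.range (q ^ b),
    trn1_dp f q b u' x (nq f q b u) * trn1_dp f q b v' y (nq f q b v) * C (w u' v' i)
  have hG : G.natDegree < Fintype.card (ZMod f) - 1 := by
    rw [hcard]
    refine lt_of_le_of_lt ?_ hfb
    refine natDegree_sum_le_of_forall_le _ _ (fun u' _ => ?_)
    refine natDegree_sum_le_of_forall_le _ _ (fun v' _ => ?_)
    refine (natDegree_mul_C_le _ _).trans ?_
    refine natDegree_mul_le.trans ?_
    have h1 := trn1_dp_deg f q b u' hq0 x (nq f q b u)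
    have h2 := trn1_dp_deg f q b v' hq0 y (nq f q b v)
    omega
  have h := sum_eval_erase G hG
  have h0 : G.eval 0 = w u v i := by
    simp only [G, eval_finsetSum, eval_mul, trn1_dp_eval, eval_C, zero_smul, zero_add]
    rw [Finset.sum_eq_single_of_mem u (Finset.mem_range.mpr hu)]
    · rw [Finset.sum_eq_single_of_mem v (Finset.mem_range.mpr hv)]
      · rw [trn1_dq hq0 hqf hu hu, trn1_dq hq0 hqf hv hv, if_pos rfl, if_pos rfl, one_mul,
          one_mul]
      · intro v' hv' hne
        rw [trn1_dq hq0 hqf (Finset.mem_range.mp hv') hv, if_neg hne, mul_zero, zero_mul]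
    · intro u' hu' hne
      apply Finset.sum_eq_zero
      intro v' _
      rw [trn1_dq hq0 hqf (Finset.mem_range.mp hu') hu, if_neg hne, zero_mul, zero_mul]
  rw [← h0, ← h, Finset.sum_apply]
  apply Finset.sum_congr rfl
  intro ω _
  simp only [G, eval_finsetSum, eval_mul, trn1_dp_eval, eval_C, Finset.sum_apply, Pi.smul_apply,
    smul_eq_mul]
  rw [← Finset.sum_neg_distrib]
  apply Finset.sum_congr rfl
  intro u' _
  rw [← Finset.sum_neg_distrib]
  apply Finset.sum_congr rfl
  intro v' _
  ring

end Pool.Agent.Helper17.TU
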