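import Pool.Agent.Helper17.TU.PrmEx

set_option autoImplicit false

/-!
Few turns: the choice of the number of scales.
-/

namespace Pool.Agent.Helper17.TU

open Pool.Agent.Helper17.UL

/-- Piece TRN-18. -/
theorem eE_good (C0 y len : ℕ) (hy : 1 ≤ C0 * y) (h : C0 * y ≤ Nat.log 2 len) :
    C0 * y * (eE C0 y len + 1) ≤ Nat.log 2 len := by
  have h1 : 1 ≤ Nat.log 2 len / (C0 * y) := (Nat.one_le_div_iff (by omega)).mpr h
  have h2 : eE C0 y len + 1 ≤ Nat.log 2 len / (C0 * y) := by
    have : eE C0 y len ≤ Nat.log 2 len / (C0 * y) - 1 := Nat.min_le_right _ _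
    omega
  calc C0 * y * (eE C0 y len + 1) ≤ C0 * y * (Nat.log 2 len / (C0 * y)) :=
        Nat.mul_le_mul_left _ h2
    _ ≤ Nat.log 2 len := Nat.mul_div_le _ _

private theorem trn18_yW (C0 C1 len : ℕ) (h : C0 ≤ C1) : C0 * yW C1 len ≤ Nat.log 2 len := by
  rcases Nat.eq_zero_or_pos (yW C1 len) with h0 | h0
  · rw [h0]; simp
  · have hspec : C1 * yW C1 len ^ 2 ≤ Nat.log 2 len * Nat.log 2 (yW C1 len) := by
      have := Nat.findGreatest_of_ne_zero
        (P := fun y => C1 * y ^ 2 ≤ Nat.log 2 len * Nat.log 2 y) (n := Nat.log 2 len)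
        (m := yW C1 len) rfl h0.ne'
      exact this
    have h1 : C1 * yW C1 len * yW C1 len ≤ Nat.log 2 len * yW C1 len := by
      calc C1 * yW C1 len * yW C1 len = C1 * yW C1 len ^ 2 := by ring
        _ ≤ Nat.log 2 len * Nat.log 2 (yW C1 len) := hspec
        _ ≤ Nat.log 2 len * yW C1 len :=
            Nat.mul_le_mul_left _ (Nat.log_le_self 2 _)
    have h2 := Nat.le_of_mul_le_mul_right h1 h0
    exact (Nat.mul_le_mul_right _ h).trans h2

private theorem trn18_cap (C0 C1 len y : ℕ) (hC : 6 * C0 ≤ C1) (hC0 : 1 ≤ C0) (hy : 4 ≤ y)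
    (h : y = yW C1 len) : qCap y ≤ Nat.log 2 len / (C0 * y) - 1 := by
  have hspec : C1 * y ^ 2 ≤ Nat.log 2 len * Nat.log 2 y := by
    have := Nat.findGreatest_of_ne_zero
      (P := fun y => C1 * y ^ 2 ≤ Nat.log 2 len * Nat.log 2 y) (n := Nat.log 2 len)
      (m := yW C1 len) rfl (by omega)
    rw [h]
    exact this
  obtain ⟨z, hz⟩ : ∃ z, z = Nat.log 2 y := ⟨_, rfl⟩
  have hz2 : 2 ≤ z := by
    rw [hz]
    exact Nat.le_log_of_pow_le (by norm_num) (by omega)
  have hzy : z ≤ y := by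
    rw [hz]
    exact Nat.log_le_self 2 y
  have hdz : y / z * z ≤ y := Nat.div_mul_le_self y z
  have hcap : qCap y + 1 ≤ Nat.log 2 len / (C0 * y) := by
    rw [Nat.le_div_iff_mul_le (by positivity)]
    have e1 : (qCap y + 1) * z ≤ 6 * y := by
      unfold qCap qZ
      rw [← hz]
      have e0 : (2 * (y / z + 1) + 1) * z = 2 * (y / z * z) + 3 * z := by ring
      rw [e0]
      omega
    have e2 : (qCap y + 1) * (C0 * y) * z ≤ Nat.log 2 len * z := by
      calc (qCap y + 1) * (C0 * y) * z = ((qCap y + 1) * z) * (C0 * y) := by ring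
        _ ≤ (6 * y) * (C0 * y) := Nat.mul_le_mul_right _ e1
        _ = (6 * C0) * y ^ 2 := by ring
        _ ≤ C1 * y ^ 2 := Nat.mul_le_mul_right _ hC
        _ ≤ Nat.log 2 len * z := by rw [hz]; exact hspec
    exact Nat.le_of_mul_le_mul_right e2 (by omega)
  omega

/-- Piece TRN-18. Let `L = log (n + t + 16)`. (a) `len ≥ m ≥ exp (C L) ≥ C L + 1` and
`exp (C L) ≥ (n + t + 16) ^ C`. (b) If `t ≤ n + 16` then `n + t + 16 ≤ 2 ^ (log₂ (n + 16) + 2)`;
if `t > n + 16` then `TW_ge` (in `TWNum.lean`) with `T = t` gives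
`n + t + 16 ≤ 2 t ≤ 2 ^ yW C1 len`, as `L * log t / log L ≥ log t ^ 2 / log (log t)` (`x / log x`
is nondecreasing for `x ≥ e`). (c) `C0 * yW ≤ log₂ len` by the definition of `yW` and `C0 ≤ C1`
(`log₂ y ≤ y`); `C0 * (log₂ (n + 16) + 2) ≤ log₂ len` for `C` large. (d) If `yE = yW ≥ 6` then
`C1 * y ^ 2 ≤ log₂ len * log₂ y` and `C1 ≥ 6 C0` give `qCap y + 1 ≤ log₂ len / (C0 y)`, so
`eE = qCap y` and `qM y ^ qCap y ≥ 2 ^ y ≥ t`. Otherwise `y = log₂ (n + 16) + 2 ≤ 3 L` and
`L ≤ y`, so `log L ≤ log y ≤ (log₂ y + 1) log 2` and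
`log₂ len ≥ C0 y (3 + 2 (log₂ t + 1) / log₂ y)` for `C` large; use `le_qM_pow` (or again the case
`eE = qCap y`). -/
theorem choice_complete (C0 C1 K0 : ℕ) (hC0 : 1 ≤ C0) (hC1 : 6 * C0 ≤ C1) :
    ∃ C : ℝ, 0 < C ∧ ∀ n t m : ℕ, 1 ≤ t →
      Real.exp (C * (Real.log (n + t + 16) *
        (1 + Real.log t / Real.log (Real.log (n + t + 16))))) ≤ m →
      K0 ≤ n + m ∧ 16 ≤ m ∧ n + t + 16 ≤ 2 ^ yE C1 n (n + m) ∧
      C0 * yE C1 n (n + m) ≤ Nat.log 2 (n + m) ∧
      t ≤ qM (yE C1 n (n + m)) ^ eE C0 (yE C1 n (n + m)) (n + m) := by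
  obtain ⟨C', hC'0, hC'⟩ := TW_ge C1 K0
  refine ⟨C' + K0 + 12 * C0 + 16, by positivity, fun n t m ht hm => ?_⟩
  have hlog2 : (0.6931471803 : ℝ) < Real.log 2 := Real.log_two_gt_d9
  have hlog2' : Real.log 2 < (0.6931471808 : ℝ) := Real.log_two_lt_d9
  obtain ⟨Λ, hΛ⟩ : ∃ Λ, Λ = Real.log (n + t + 16) := ⟨_, rfl⟩
  rw [← hΛ] at hm
  have hnR : (0 : ℝ) ≤ n := Nat.cast_nonneg _
  have htR : (1 : ℝ) ≤ t := by exact_mod_cast ht
  have hC0R : (1 : ℝ) ≤ C0 := by exact_mod_cast hC0
  have hK0R : (0 : ℝ) ≤ K0 := Nat.cast_nonneg _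
  have hΛ27 : (2.77 : ℝ) ≤ Λ := by
    have h1 : Real.log (16 : ℝ) ≤ Λ := by
      rw [hΛ]
      exact Real.log_le_log (by norm_num) (by linarith)
    have h2 : Real.log (16 : ℝ) = 4 * Real.log 2 := by
      rw [show (16 : ℝ) = (2 : ℝ) ^ 4 by norm_num, Real.log_pow]
      norm_num
    rw [h2] at h1
    linarith
  have hlogt : 0 ≤ Real.log t := Real.log_nonneg htR
  have hlΛ : 0 < Real.log Λ := Real.log_pos (by linarith)
  obtain ⟨ρ, hρ⟩ : ∃ ρ, ρ = Real.log t / Real.log Λ := ⟨_, rfl⟩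
  rw [← hρ] at hm
  have hρ0 : 0 ≤ ρ := by rw [hρ]; exact div_nonneg hlogt hlΛ.le
  have hρΛ : ρ * Real.log Λ = Real.log t := by
    rw [hρ, div_mul_cancel₀ _ hlΛ.ne']
  obtain ⟨X, hX⟩ : ∃ X, X = Λ * (1 + ρ) := ⟨_, rfl⟩
  rw [← hX] at hm
  have hXΛ : Λ ≤ X := by
    rw [hX]
    exact le_mul_of_one_le_right (by linarith) (by linarith)
  have hX27 : (2.77 : ℝ) ≤ X := hΛ27.trans hXΛ
  -- the length
  obtain ⟨C, hCdef⟩ : ∃ C : ℝ, C = C' + K0 + 12 * C0 + 16 := ⟨_, rfl⟩
  rw [← hCdef] at hm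
  have hm1 : C * X + 1 ≤ m := (Real.add_one_le_exp _).trans hm
  have hCX : C ≤ C * X := by
    have : 0 ≤ C := by rw [hCdef]; positivity
    exact le_mul_of_one_le_right this (by linarith)
  have hmK : (K0 : ℝ) + 16 ≤ m := by
    have : (K0 : ℝ) + 16 ≤ C := by rw [hCdef]; linarith
    linarith
  have hmK' : K0 + 16 ≤ m := by exact_mod_cast hmK
  obtain ⟨len, hlen⟩ : ∃ len, len = n + m := ⟨_, rfl⟩
  rw [← hlen]
  have hlen0 : len ≠ 0 := by omega
  have hlenm : (m : ℝ) ≤ len := by
    rw [hlen]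
    push_cast
    linarith
  obtain ⟨L, hL⟩ : ∃ L, L = Nat.log 2 len := ⟨_, rfl⟩
  have hexplen : Real.exp (C * X) ≤ len := hm.trans hlenm
  have hL1 : C * X ≤ L := by
    have h1 : C * X ≤ ((L : ℝ) + 1) * Real.log 2 := by
      rcases real_lt_log2 len with h | h
      · rw [← hL] at h
        have h1 := Real.log_le_log (Real.exp_pos _) hexplen
        rw [Real.log_exp] at h1
        linarith
      · exact absurd h hlen0
    have h2 : 16 ≤ C := by rw [hCdef]; linarith
    have h3 : 16 * 2.77 ≤ C * X := mul_le_mul h2 hX27 (by norm_num) (by linarith)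
    have h4 : (0 : ℝ) ≤ (L : ℝ) + 1 := by positivity
    have h5 : ((L : ℝ) + 1) * Real.log 2 ≤ ((L : ℝ) + 1) * 0.6931471808 :=
      mul_le_mul_of_nonneg_left hlog2'.le h4
    linarith
  have hlow : Nat.log 2 (n + 16) + 2 ≤ yE C1 n len := le_max_right _ _
  have hyWle : yW C1 len ≤ yE C1 n len := le_max_left _ _
  obtain ⟨y, hy⟩ : ∃ y, y = yE C1 n len := ⟨_, rfl⟩
  rw [← hy] at hlow hyWle ⊢
  have hlog16 : 4 ≤ Nat.log 2 (n + 16) := Nat.le_log_of_pow_le (by norm_num) (by omega)
  have hy6 : 6 ≤ y := by omega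
  -- (b)
  have hb : n + t + 16 ≤ 2 ^ y := by
    rcases le_or_gt t (n + 16) with hc | hc
    · have h1 : n + 16 < 2 ^ (Nat.log 2 (n + 16) + 1) := Nat.lt_pow_succ_log_self (by norm_num) _
      have h2 : 2 ^ (Nat.log 2 (n + 16) + 2) ≤ 2 ^ y := Nat.pow_le_pow_right (by norm_num) hlow
      have h3 : 2 ^ (Nat.log 2 (n + 16) + 2) = 2 * 2 ^ (Nat.log 2 (n + 16) + 1) := by
        rw [show Nat.log 2 (n + 16) + 2 = (Nat.log 2 (n + 16) + 1) + 1 by ring, pow_succ]
        ring
      omega
    · have ht16 : 16 ≤ t := by omega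
      have hlt : (2.8 : ℝ) ≤ Real.log t := by
        have h1 : Real.log (17 : ℝ) ≤ Real.log t :=
          Real.log_le_log (by norm_num) (by exact_mod_cast (by omega : 17 ≤ t))
        have h2 : Real.exp 2.8 ≤ 17 := by
          have h3 : Real.exp 1 < 2.7182818286 := Real.exp_one_lt_d9
          have h4 : Real.exp 2.8 = Real.exp 1 ^ (2.8 : ℝ) := by
            rw [← Real.exp_mul]; norm_num
          have h5 : Real.exp 14 ≤ 17 ^ 5 := by
            have : Real.exp 14 = Real.exp 1 ^ 14 := by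
              rw [← Real.exp_nat_mul]; norm_num
            rw [this]
            have h6 : Real.exp 1 ^ 14 ≤ (2.7182818286 : ℝ) ^ 14 :=
              pow_le_pow_left₀ (Real.exp_pos _).le h3.le 14
            refine h6.trans ?_
            norm_num
          have h7 : Real.exp 2.8 ^ 5 ≤ 17 ^ 5 := by
            rw [← Real.exp_nat_mul]
            norm_num
            norm_num at h5
            exact h5
          exact le_of_pow_le_pow_left₀ (by norm_num) (by norm_num) h7
        have h3 := Real.log_le_log (Real.exp_pos _) h2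
        rw [Real.log_exp] at h3
        linarith
      have hexp : Real.exp 1 ≤ Real.log t := by
        have := Real.exp_one_lt_d9
        linarith
      have htΛ : Real.log t ≤ Λ := by
        rw [hΛ]
        exact Real.log_le_log (by linarith) (by linarith)
      have hmono : Real.log Λ / Λ ≤ Real.log (Real.log t) / Real.log t :=
        Real.log_div_self_antitoneOn hexp (hexp.trans htΛ) htΛ
      have hllt : 0 < Real.log (Real.log t) := Real.log_pos (by linarith)
      have hlt0 : 0 < Real.log t := by linarith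
      have hΛ0 : 0 < Λ := by linarith
      have hmain : Real.log t ^ 2 / Real.log (Real.log t) ≤ X := by
        rw [div_le_iff₀ hllt]
        rw [div_le_div_iff₀ hΛ0 hlt0] at hmono
        have e1 : Real.log t ^ 2 = ρ * (Real.log Λ * Real.log t) := by
          rw [← mul_assoc, hρΛ]; ring
        rw [e1]
        calc ρ * (Real.log Λ * Real.log t) ≤ ρ * (Real.log (Real.log t) * Λ) :=
              mul_le_mul_of_nonneg_left hmono hρ0
          _ = Λ * ρ * Real.log (Real.log t) := by ring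
          _ ≤ X * Real.log (Real.log t) := by
              apply mul_le_mul_of_nonneg_right _ hllt.le
              rw [hX]
              linarith
      have hkey : Real.exp (C' * Real.log t ^ 2 / Real.log (Real.log t)) ≤ len := by
        refine le_trans (Real.exp_le_exp.mpr ?_) hexplen
        rw [mul_div_assoc]
        have hCC : C' ≤ C := by rw [hCdef]; linarith
        calc C' * (Real.log t ^ 2 / Real.log (Real.log t)) ≤ C' * X :=
              mul_le_mul_of_nonneg_left hmain hC'0.le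
          _ ≤ C * X := mul_le_mul_of_nonneg_right hCC (by linarith)
      obtain ⟨h1, -⟩ := hC' t len ht16 hkey
      have h2 : TW C1 len ≤ 2 ^ y := Nat.pow_le_pow_right (by norm_num) hyWle
      omega
  -- the second candidate for `y`
  have hlogn : (Nat.log 2 (n + 16) : ℝ) * Real.log 2 ≤ Λ := by
    have h1 := log2_le_real (n + 16) (by omega)
    refine h1.trans ?_
    rw [hΛ]
    push_cast
    exact Real.log_le_log (by linarith) (by linarith)
  have hlogn3 : ((Nat.log 2 (n + 16) + 2 : ℕ) : ℝ) ≤ 3 * Λ := by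
    push_cast
    have h0 : (0 : ℝ) ≤ (Nat.log 2 (n + 16) : ℝ) := Nat.cast_nonneg _
    have h1 : (Nat.log 2 (n + 16) : ℝ) * 0.6931471803 ≤ (Nat.log 2 (n + 16) : ℝ) * Real.log 2 :=
      mul_le_mul_of_nonneg_left hlog2.le h0
    linarith
  have hc : C0 * y ≤ L := by
    rw [hy]
    unfold yE
    rcases le_total (yW C1 len) (Nat.log 2 (n + 16) + 2) with hc | hc
    · rw [max_eq_right hc]
      have h1 : ((C0 * (Nat.log 2 (n + 16) + 2) : ℕ) : ℝ) ≤ L := by
        rw [Nat.cast_mul]
        calc (C0 : ℝ) * ((Nat.log 2 (n + 16) + 2 : ℕ) : ℝ) ≤ C0 * (3 * Λ) :=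
              mul_le_mul_of_nonneg_left hlogn3 (by linarith)
          _ ≤ C * X := by
              have : 3 * (C0 : ℝ) ≤ C := by rw [hCdef]; linarith
              calc (C0 : ℝ) * (3 * Λ) = (3 * C0) * Λ := by ring
                _ ≤ C * Λ := mul_le_mul_of_nonneg_right this (by linarith)
                _ ≤ C * X := mul_le_mul_of_nonneg_left hXΛ (by linarith)
          _ ≤ L := hL1
      exact_mod_cast h1
    · rw [max_eq_left hc, hL]
      exact trn18_yW C0 C1 len (by omega)
  have hcapy : 2 ^ y ≤ qM y ^ qCap y :=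
    (prmE_exact 1 1 y 0 (by norm_num) (by norm_num) (by omega) (Nat.zero_le _)).2.1
  refine ⟨by omega, by omega, hb, by rw [← hL]; exact hc, ?_⟩
  -- (d)
  rcases le_total (qCap y) (Nat.log 2 len / (C0 * y) - 1) with hd | hd
  · have : eE C0 y len = qCap y := min_eq_left hd
    rw [this]
    exact le_trans (by omega) hcapy
  · have hE : eE C0 y len = Nat.log 2 len / (C0 * y) - 1 := min_eq_right hd
    by_cases hW : y = yW C1 len
    · have h1 := trn18_cap C0 C1 len y hC1 hC0 (by omega) hW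
      have : eE C0 y len = qCap y := min_eq_left h1
      rw [this]
      exact le_trans (by omega) hcapy
    · have hyy : y = Nat.log 2 (n + 16) + 2 := by
        rcases max_choice (yW C1 len) (Nat.log 2 (n + 16) + 2) with h | h
        · exact absurd (hy.trans h) hW
        · exact hy.trans h
      rw [hE]
      apply le_qM_pow y t _ (by omega)
      obtain ⟨z, hz⟩ : ∃ z, z = qZ y := ⟨_, rfl⟩
      rw [← hz]
      have hz2 : 2 ≤ z := by
        rw [hz]
        exact Nat.le_log_of_pow_le (by norm_num) (by omega)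
      have hz2R : (2 : ℝ) ≤ z := by exact_mod_cast hz2
      -- `Λ ≤ y`, so `log Λ ≤ 2 z log 2`
      have hΛy : Λ ≤ y := by
        have h1 : Λ ≤ Real.log ((2 : ℝ) ^ y) := by
          rw [hΛ]
          apply Real.log_le_log (by linarith)
          exact_mod_cast hb
        rw [Real.log_pow] at h1
        have h2 : (0 : ℝ) ≤ y := Nat.cast_nonneg _
        have h3 : (y : ℝ) * Real.log 2 ≤ y * 1 := mul_le_mul_of_nonneg_left (by linarith) h2
        linarith
      have hlogΛ : Real.log Λ ≤ 2 * (z : ℝ) * Real.log 2 := by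
        have h1 : Real.log Λ ≤ Real.log y := Real.log_le_log (by linarith) hΛy
        rcases real_lt_log2 y with h | h
        · have h3 : ((Nat.log 2 y : ℝ) + 1) * Real.log 2 ≤ 2 * (z : ℝ) * Real.log 2 := by
            apply mul_le_mul_of_nonneg_right _ (by linarith)
            rw [hz] at hz2R ⊢
            unfold qZ at hz2R ⊢
            linarith
          linarith
        · omega
      obtain ⟨l, hl⟩ : ∃ l, l = Nat.log 2 t := ⟨_, rfl⟩
      rw [← hl]
      have hlR : (l : ℝ) * Real.log 2 ≤ Real.log t := by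
        rw [hl]; exact log2_le_real t ht
      have hlz : (l : ℝ) ≤ 2 * ρ * z := by
        have h1 : (l : ℝ) * Real.log 2 ≤ (2 * ρ * z) * Real.log 2 := by
          calc (l : ℝ) * Real.log 2 ≤ Real.log t := hlR
            _ = ρ * Real.log Λ := hρΛ.symm
            _ ≤ ρ * (2 * (z : ℝ) * Real.log 2) := mul_le_mul_of_nonneg_left hlogΛ hρ0
            _ = (2 * ρ * z) * Real.log 2 := by ring
        exact le_of_mul_le_mul_right h1 (by linarith)
      obtain ⟨E', hE'⟩ : ∃ E', E' = 2 * (l + 1) / z + 1 := ⟨_, rfl⟩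
      have hE1 : 2 * (l + 1) ≤ z * E' := by
        have := Nat.lt_mul_div_succ (2 * (l + 1)) (by omega : 0 < z)
        rw [hE']
        exact this.le
      have hE2 : z * (E' + 1) ≤ 2 * (l + 1) + 2 * z := by
        have h1 := Nat.div_mul_le_self (2 * (l + 1)) z
        have h2 : z * (2 * (l + 1) / z + 1 + 1) = 2 * (l + 1) / z * z + 2 * z := by ring
        rw [hE', h2]
        omega
      have hE3 : ((E' : ℝ) + 1) ≤ 4 * ρ + 3 := by
        have h1 : (z : ℝ) * ((E' : ℝ) + 1) ≤ 2 * ((l : ℝ) + 1) + 2 * z := by exact_mod_cast hE2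
        have h2 : (z : ℝ) * ((E' : ℝ) + 1) ≤ z * (4 * ρ + 3) := by
          have e1 : (z : ℝ) * (4 * ρ + 3) = 2 * (2 * ρ * z) + 3 * z := by ring
          rw [e1]
          linarith
        exact le_of_mul_le_mul_left h2 (by linarith)
      have hE4 : E' + 1 ≤ Nat.log 2 len / (C0 * y) := by
        rw [Nat.le_div_iff_mul_le (by positivity), ← hL]
        have h1 : (((E' + 1) * (C0 * y) : ℕ) : ℝ) ≤ L := by
          push_cast
          have hyR : (y : ℝ) ≤ 3 * Λ := by rw [hyy]; exact hlogn3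
          have h2 : (C0 : ℝ) * y ≤ C0 * (3 * Λ) := mul_le_mul_of_nonneg_left hyR (by linarith)
          calc ((E' : ℝ) + 1) * (C0 * y) ≤ (4 * ρ + 3) * (C0 * (3 * Λ)) := by
                apply mul_le_mul hE3 h2 (by positivity) (by positivity)
            _ ≤ (12 * C0) * X := by
                have e0 : 0 ≤ (C0 : ℝ) * Λ := by positivity
                have e1 : (4 * ρ + 3) * ((C0 : ℝ) * (3 * Λ)) = 12 * ((C0 : ℝ) * Λ * ρ) +
                    9 * ((C0 : ℝ) * Λ) := by ring
                have e2 : (12 * (C0 : ℝ)) * X = 12 * ((C0 : ℝ) * Λ * ρ) +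
                    12 * ((C0 : ℝ) * Λ) := by rw [hX]; ring
                rw [e1, e2]
                linarith
            _ ≤ C * X := by
                apply mul_le_mul_of_nonneg_right _ (by linarith)
                rw [hCdef]
                linarith
            _ ≤ L := hL1
        exact_mod_cast h1
      calc 2 * (l + 1) ≤ z * E' := hE1
        _ ≤ z * (Nat.log 2 len / (C0 * y) - 1) := Nat.mul_le_mul_left _ (by omega)

end Pool.Agent.Helper17.TU
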