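import Pool.Agent.Helper17.TU.PrmFL0

set_option autoImplicit false

/-!
Few turns: the good padded words are recognized, and the number of scales is computable.
-/

namespace Pool.Agent.Helper17.TU

open Pool.Agent.Helper6 Pool.Agent.Helper17.UL

section

variable {α : Type} [Fintype α] (C0 C1 : ℕ)

/-- The capped version of `yE`. -/
def yEc (w : List (Option α)) : ℕ :=
  if yW C1 w.length ≤ min (Nat.log 2 (min ((w.takeWhile Option.isSome).length +
      min 16 (w.length + 1)) (w.length + 1)) + min 2 (w.length + 1)) (w.length + 1) then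
    min (Nat.log 2 (min ((w.takeWhile Option.isSome).length +
      min 16 (w.length + 1)) (w.length + 1)) + min 2 (w.length + 1)) (w.length + 1)
  else yW C1 w.length

theorem yEc_FL : FL (Option α) Empty (fun w _ => yEc C1 w) := by
  have h1 : FL (Option α) Empty (fun w _ => min (Nat.log 2 (min
      ((w.takeWhile Option.isSome).length + min 16 (w.length + 1)) (w.length + 1)) +
        min 2 (w.length + 1)) (w.length + 1)) :=
    FL.add (FL.log2 (FL.add (lead_FL (α := α)) (FL.const 16))) (FL.const 2)
  exact FL.ite (isL_le (yW_FL C1) h1) h1 (yW_FL C1)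

omit [Fintype α] in
theorem yEc_eq (w : List (Option α)) (h : (w.takeWhile Option.isSome).length + 16 ≤ w.length) :
    yEc C1 w = yE C1 (w.takeWhile Option.isSome).length w.length := by
  unfold yEc yE
  have e1 : min 16 (w.length + 1) = 16 := min_eq_left (by omega)
  have e2 : min ((w.takeWhile Option.isSome).length + 16) (w.length + 1) =
      (w.takeWhile Option.isSome).length + 16 := min_eq_left (by omega)
  have e3 : min 2 (w.length + 1) = 2 := min_eq_left (by omega)
  rw [e1, e2, e3]
  have h2 : Nat.log 2 ((w.takeWhile Option.isSome).length + 16) + 2 ≤ w.length + 1 := by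
    have h3 : Nat.log 2 ((w.takeWhile Option.isSome).length + 16) <
        (w.takeWhile Option.isSome).length + 16 := Nat.log_lt_self 2 (by omega)
    omega
  rw [min_eq_left h2]
  split_ifs with h4
  · exact (max_eq_right h4).symm
  · exact (max_eq_left (by omega)).symm

theorem six_le_yE (n len : ℕ) : 6 ≤ yE C1 n len := by
  have : 4 ≤ Nat.log 2 (n + 16) := Nat.le_log_of_pow_le (by norm_num) (by norm_num)
  exact le_trans (by omega) (le_max_right _ _)

theorem goodP_isL' {α : Type} [Fintype α] (C0 C1 K0 : ℕ) (hC0 : 1 ≤ C0) (hK0 : 40 ≤ K0) :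
    IsL (Option α) Empty (fun w _ => GoodP (α := α) C0 C1 K0 w) ∧
    FLG (GoodP (α := α) C0 C1 K0)
      (fun w => yE C1 (w.takeWhile Option.isSome).length w.length) ∧
    FLG (GoodP (α := α) C0 C1 K0)
      (fun w => eE C0 (yE C1 (w.takeWhile Option.isSome).length w.length) w.length) := by
  have hy := yEc_FL (α := α) C1
  have hlen : FL (Option α) Empty (fun w _ => w.length) := FL.pred FL.len
  have hmul : FL (Option α) Empty (fun w _ =>
      min (min C0 (w.length + 1) * yEc C1 w) (w.length + 1)) := FL.mul (FL.const C0) hy
  refine ⟨?_, ⟨yEc C1, hy, fun w hw => yEc_eq C1 w hw.2.1⟩, ?_⟩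
  · have h1 : IsL (Option α) Empty (fun w _ => min K0 (w.length + 1) < w.length + 1) :=
      isL_lt (FL.const K0) FL.len
    have h2 : IsL (Option α) Empty (fun w _ => min ((w.takeWhile Option.isSome).length +
        min 16 (w.length + 1)) (w.length + 1) < w.length + 1) :=
      isL_lt (FL.add (lead_FL (α := α)) (FL.const 16)) FL.len
    have h3 : IsL (Option α) Empty (fun w _ =>
        min (min C0 (w.length + 1) * yEc C1 w) (w.length + 1) ≤ Nat.log 2 w.length) :=
      isL_le hmul (FL.log2 hlen)
    refine (h1.and (h2.and h3)).congr fun w x _ => ?_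
    unfold GoodP
    have e1 : min K0 (w.length + 1) < w.length + 1 ↔ K0 ≤ w.length := by omega
    have e2 : min ((w.takeWhile Option.isSome).length + min 16 (w.length + 1))
        (w.length + 1) < w.length + 1 ↔
        (w.takeWhile Option.isSome).length + 16 ≤ w.length := by omega
    rw [e1, e2]
    refine and_congr_right fun g1 => and_congr_right fun g2 => ?_
    rw [yEc_eq C1 w g2]
    have h6 := six_le_yE C1 (w.takeWhile Option.isSome).length w.length
    have hl : Nat.log 2 w.length ≤ w.length := Nat.log_le_self 2 _
    generalize yE C1 (w.takeWhile Option.isSome).length w.length = y at h6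
    generalize Nat.log 2 w.length = l at hl
    rcases Nat.le_total C0 (w.length + 1) with h | h
    · rw [min_eq_left h]
      omega
    · rw [min_eq_right h]
      have e3 : w.length + 1 ≤ (w.length + 1) * y := Nat.le_mul_of_pos_right _ (by omega)
      have e4 : C0 ≤ C0 * y := Nat.le_mul_of_pos_right _ (by omega)
      rw [min_eq_right e3]
      constructor
      · intro h7; omega
      · intro h7; omega
  · have hcap : FL (Option α) Empty (fun w _ => min (min 2 (w.length + 1) *
        min (yEc C1 w / Nat.log 2 (yEc C1 w) + min 1 (w.length + 1)) (w.length + 1))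
          (w.length + 1)) :=
      FL.mul (FL.const 2) (FL.add (FL.div hy (FL.log2 hy)) (FL.const 1))
    have hdiv : FL (Option α) Empty (fun w _ => Nat.log 2 w.length /
        min (min C0 (w.length + 1) * yEc C1 w) (w.length + 1) - 1) :=
      FL.pred (FL.div (FL.log2 hlen) hmul)
    have hE := FL.min' hcap hdiv
    refine ⟨fun w => min (min (min 2 (w.length + 1) *
        min (yEc C1 w / Nat.log 2 (yEc C1 w) + min 1 (w.length + 1)) (w.length + 1))
          (w.length + 1)) (Nat.log 2 w.length /
        min (min C0 (w.length + 1) * yEc C1 w) (w.length + 1) - 1), hE, fun w hw => ?_⟩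
    obtain ⟨g1, g2, g3⟩ := hw
    simp only [yEc_eq C1 w g2]
    have h6 := six_le_yE C1 (w.takeWhile Option.isSome).length w.length
    have hl : Nat.log 2 w.length ≤ w.length := Nat.log_le_self 2 _
    unfold eE qCap qZ
    generalize yE C1 (w.takeWhile Option.isSome).length w.length = y at h6 g3
    have e4 : C0 ≤ C0 * y := Nat.le_mul_of_pos_right _ (by omega)
    have e5 : y ≤ C0 * y := Nat.le_mul_of_pos_left _ (by omega)
    have e6 : y / Nat.log 2 y ≤ y := Nat.div_le_self _ _
    have e7 : Nat.log 2 w.length / (C0 * y) ≤ Nat.log 2 w.length := Nat.div_le_self _ _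
    have f1 : min C0 (w.length + 1) = C0 := min_eq_left (by omega)
    have f2 : min (C0 * y) (w.length + 1) = C0 * y := min_eq_left (by omega)
    have f3 : min 2 (w.length + 1) = 2 := min_eq_left (by omega)
    have f4 : min 1 (w.length + 1) = 1 := min_eq_left (by omega)
    have f5 : min (y / Nat.log 2 y + 1) (w.length + 1) = y / Nat.log 2 y + 1 :=
      min_eq_left (by omega)
    rw [f1, f2, f3, f4, f5]
    omega

end

end Pool.Agent.Helper17.TU
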