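import Pool.Agent.Helper17.TU.PrmEx

set_option autoImplicit false

/-!
Few turns: sizes of the parameters.
-/

namespace Pool.Agent.Helper17.TU

open Pool.Agent.Helper17.UL

private lemma trn17_key (y E c C0 s X : ℕ) (h1 : s ≤ 2 ^ X) (h2 : X ≤ c * (y * (E + 1)))
    (h3 : c ≤ C0) : s ≤ 2 ^ (C0 * y * (E + 1)) := by
  refine h1.trans (Nat.pow_le_pow_right (by norm_num) (h2.trans ?_))
  rw [mul_assoc]
  exact Nat.mul_le_mul_right _ h3

/-- Piece TRN-17. With `z = qZ y`, `2 ^ z ≤ y < 2 ^ (z + 1)`: `z * qM y = O(y)`,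
`z * qd κ K y = O(y)`, `qf ≤ 4 qd qq + 8 = O(y ^ 2)`, so `log₂ qf, log₂ qr ≤ c z`,
`(log₂ qr + 1) * qt = O(y)`. Compare `prm_size` in `Helper4/UL/Prm.lean` (the inequalities with
exponents of `2` there). -/
theorem prmE_size (κ K : ℕ) (hκ : 0 < κ) (hK : 0 < K) : ∃ C0 : ℕ, 1 ≤ C0 ∧
    ∀ y E : ℕ, 4 ≤ y → ∀ s ∈ sizesE κ K y E, s ≤ 2 ^ (C0 * y * (E + 1)) := by
  obtain ⟨c3, hc3⟩ : ∃ c3 : ℕ, c3 = 2 * (κ + 8) := ⟨_, rfl⟩
  obtain ⟨c4, hc4⟩ : ∃ c4 : ℕ, c4 = c3 * K := ⟨_, rfl⟩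
  obtain ⟨c5, hc5⟩ : ∃ c5 : ℕ, c5 = 4 * c4 + 12 := ⟨_, rfl⟩
  obtain ⟨c6, hc6⟩ : ∃ c6 : ℕ, c6 = c5 + 4 := ⟨_, rfl⟩
  refine ⟨(86 * c6 + 4 * c4) + c6 + c5 * c4 + 2 * c5 + 2 * c4 + (c3 + κ + 3) + 3, by omega, ?_⟩
  intro y E hy4
  -- exact inequalities which do not need the bound for `E`
  obtain ⟨-, -, -, -, -, -, -, -, -, -, hf8, -, -, -⟩ := prmE_exact κ K y 0 hκ hK hy4 (Nat.zero_le _)
  obtain ⟨z, hz⟩ : ∃ z : ℕ, z = qZ y := ⟨_, rfl⟩
  obtain ⟨M, hM⟩ : ∃ M : ℕ, M = qM y := ⟨_, rfl⟩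
  obtain ⟨A, hA⟩ : ∃ A : ℕ, A = qA κ y := ⟨_, rfl⟩
  obtain ⟨d, hd⟩ : ∃ d : ℕ, d = qd κ K y := ⟨_, rfl⟩
  obtain ⟨f, hf⟩ : ∃ f : ℕ, f = qf κ K y := ⟨_, rfl⟩
  obtain ⟨r, hr⟩ : ∃ r : ℕ, r = qr κ K y := ⟨_, rfl⟩
  obtain ⟨t, ht⟩ : ∃ t : ℕ, t = qt κ K y := ⟨_, rfl⟩
  obtain ⟨n, hn⟩ : ∃ n : ℕ, n = qn κ K y E := ⟨_, rfl⟩
  have eM : M = y / z + 2 := by rw [hM, hz]; rfl
  have eA : A = (κ + 8) * (y / z + 1) := by rw [hA, hz]; rfl
  have ed : d = A * K := by rw [hd, hA]; rfl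
  have er : r = 7 * f + (4 * M + 6) := by rw [hr, hf, hM]; rfl
  have et : t = 2 * (z * d) / Nat.log 2 r + 1 := by rw [ht, hz, hd, hr]; rfl
  have en : n = E * (20 * M + 24 + t) + 1 := by rw [hn, hM, ht]; rfl
  have eq' : qq y = 2 ^ z := by rw [hz]; rfl
  have eB : qB κ y = 2 ^ (z * A) := by rw [hz, hA]; rfl
  have hz2 : 2 ≤ z := by
    rw [hz]
    exact Nat.le_log_of_pow_le (by norm_num) (by norm_num; exact hy4)
  have hzy : 2 ^ z ≤ y := by
    rw [hz]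
    exact Nat.pow_log_le_self 2 (by omega)
  have hyz : y < 2 ^ (z + 1) := by
    rw [hz]
    exact Nat.lt_pow_succ_log_self (by norm_num) _
  have hzley : z ≤ y := (Nat.lt_two_pow_self).le.trans hzy
  have hdm := Nat.div_add_mod y z
  have hzq : z * (y / z) ≤ y := Nat.mul_div_le y z
  have hMz2 : M * z ≤ 3 * y := by
    have hMz : M * z = z * (y / z) + 2 * z := by
      rw [eM]
      ring
    rw [hMz]
    omega
  have hy2 : y / z ≤ y / 2 := Nat.div_le_div_left hz2 (by norm_num)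
  have hMy : M ≤ y := by omega
  have hM1 : M ≤ 2 ^ (z + 1) := hMy.trans hyz.le
  have hzA : z * A ≤ c3 * y := by
    calc z * A = (κ + 8) * (z * (y / z) + z) := by rw [eA]; ring
      _ ≤ (κ + 8) * (2 * y) := Nat.mul_le_mul_left _ (by omega)
      _ = c3 * y := by rw [hc3]; ring
  have hzd : z * d ≤ c4 * y := by
    calc z * d = z * A * K := by rw [ed]; ring
      _ ≤ c3 * y * K := Nat.mul_le_mul_right _ hzA
      _ = c4 * y := by rw [hc4]; ring
  have hdy : d ≤ c4 * y := (Nat.le_mul_of_pos_left d (show 0 < z by omega)).trans hzd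
  rw [eq', ← hf, ← hd] at hf8
  have hff : f ≤ 2 ^ (c5 * z) := by
    have h1 : f ≤ (4 * c4 + 8) * (y * y) := by
      have h2 : d * 2 ^ z ≤ c4 * y * y := Nat.mul_le_mul hdy hzy
      have h3 : 8 ≤ 8 * (y * y) := Nat.le_mul_of_pos_right _ (by positivity)
      calc f ≤ 4 * (d * 2 ^ z) + 8 := hf8
        _ ≤ 4 * (c4 * y * y) + 8 * (y * y) := Nat.add_le_add (Nat.mul_le_mul_left _ h2) h3
        _ = (4 * c4 + 8) * (y * y) := by ring
    calc f ≤ (4 * c4 + 8) * (y * y) := h1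
      _ ≤ 2 ^ (4 * c4 + 8) * (2 ^ (z + 1) * 2 ^ (z + 1)) :=
          Nat.mul_le_mul Nat.lt_two_pow_self.le (Nat.mul_le_mul hyz.le hyz.le)
      _ = 2 ^ (4 * c4 + 8 + (z + 1 + (z + 1))) := by rw [← pow_add, ← pow_add]
      _ ≤ 2 ^ (c5 * z) := by
          apply Nat.pow_le_pow_right (by norm_num)
          have h2 : c4 ≤ c4 * z := Nat.le_mul_of_pos_right _ (by omega)
          have h3 : c5 * z = 4 * (c4 * z) + 12 * z := by rw [hc5]; ring
          rw [h3]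
          omega
  have hm : 4 * M + 6 ≤ 2 ^ (3 * z) := by
    calc 4 * M + 6 ≤ 4 * 2 ^ (z + 1) + 2 ^ 3 := by omega
      _ ≤ 4 * 2 ^ (z + 1) + 4 * 2 ^ (z + 1) := by
          apply Nat.add_le_add_left
          have : 2 ^ 3 ≤ 2 ^ (z + 1) := Nat.pow_le_pow_right (by norm_num) (by omega)
          omega
      _ = 2 ^ (z + 4) := by ring
      _ ≤ 2 ^ (3 * z) := Nat.pow_le_pow_right (by norm_num) (by omega)
  have hrr : r ≤ 2 ^ (c6 * z) := by
    have h1 : 2 ^ (3 * z) ≤ 2 ^ (c5 * z) :=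
      Nat.pow_le_pow_right (by norm_num) (Nat.mul_le_mul_right _ (by omega))
    calc r = 7 * f + (4 * M + 6) := er
      _ ≤ 7 * 2 ^ (c5 * z) + 2 ^ (c5 * z) :=
          Nat.add_le_add (Nat.mul_le_mul_left _ hff) (hm.trans h1)
      _ = 2 ^ (c5 * z + 3) := by ring
      _ ≤ 2 ^ (c6 * z) := by
          apply Nat.pow_le_pow_right (by norm_num)
          have h3 : c6 * z = c5 * z + 4 * z := by rw [hc6]; ring
          rw [h3]
          omega
  have hr2 : 2 ≤ r := by omega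
  have hrt : r ^ t ≤ 2 ^ ((4 * c4 + 2 * c6) * y) := by
    have hL : 1 ≤ Nat.log 2 r :=
      Nat.le_log_of_pow_le (by norm_num) (by rw [pow_one]; exact hr2)
    have hL2 : Nat.log 2 r ≤ c6 * z := by
      have h1 : 2 ^ Nat.log 2 r ≤ 2 ^ (c6 * z) :=
        (Nat.pow_log_le_self 2 (by omega)).trans hrr
      exact (Nat.pow_le_pow_iff_right (by norm_num)).1 h1
    have h1 : r ≤ 2 ^ (2 * Nat.log 2 r) := by
      calc r ≤ 2 ^ (Nat.log 2 r + 1) := (Nat.lt_pow_succ_log_self (by norm_num) r).le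
        _ ≤ 2 ^ (2 * Nat.log 2 r) := Nat.pow_le_pow_right (by norm_num) (by omega)
    have h2 : Nat.log 2 r * t ≤ 2 * (z * d) + Nat.log 2 r := by
      have h3 : Nat.log 2 r * t = Nat.log 2 r * (2 * (z * d) / Nat.log 2 r) + Nat.log 2 r := by
        rw [et]
        ring
      rw [h3]
      have := Nat.mul_div_le (2 * (z * d)) (Nat.log 2 r)
      omega
    calc r ^ t ≤ (2 ^ (2 * Nat.log 2 r)) ^ t := Nat.pow_le_pow_left h1 _
      _ = 2 ^ (2 * (Nat.log 2 r * t)) := by rw [← pow_mul]; congr 1; ring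
      _ ≤ 2 ^ ((4 * c4 + 2 * c6) * y) := by
          apply Nat.pow_le_pow_right (by norm_num)
          have h4 : c6 * z ≤ c6 * y := Nat.mul_le_mul_left _ hzley
          calc 2 * (Nat.log 2 r * t) ≤ 2 * (2 * (z * d) + Nat.log 2 r) :=
                Nat.mul_le_mul_left _ h2
            _ ≤ 2 * (2 * (c4 * y) + c6 * y) := by omega
            _ = (4 * c4 + 2 * c6) * y := by ring
  have hrm : r ^ (20 * M + 24) ≤ 2 ^ (84 * c6 * y) := by
    calc r ^ (20 * M + 24) ≤ (2 ^ (c6 * z)) ^ (20 * M + 24) := Nat.pow_le_pow_left hrr _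
      _ = 2 ^ (c6 * (20 * (M * z) + 24 * z)) := by rw [← pow_mul]; congr 1; ring
      _ ≤ 2 ^ (84 * c6 * y) := by
          apply Nat.pow_le_pow_right (by norm_num)
          calc c6 * (20 * (M * z) + 24 * z) ≤ c6 * (84 * y) :=
                Nat.mul_le_mul_left _ (by omega)
            _ = 84 * c6 * y := by ring
  have hyE : y ≤ y * (E + 1) := Nat.le_mul_of_pos_right _ (by omega)
  have hlin : ∀ c X : ℕ, X ≤ c * y → X ≤ c * (y * (E + 1)) := fun c X h =>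
    h.trans (Nat.mul_le_mul_left _ hyE)
  -- the seven numbers
  intro s hs
  unfold sizesE at hs
  simp only [Set.mem_insert_iff, Set.mem_singleton_iff] at hs
  rw [← hr, ← hn, ← hf, ← hd, ← hM, eq', eB] at hs
  rcases hs with rfl | rfl | rfl | rfl | rfl | rfl | rfl
  · refine trn17_key y E ((86 * c6 + 4 * c4) + c6) _ _ ((86 * c6 + 4 * c4) * y * E + c6 * z)
      ?_ ?_ (by omega)
    · have e1 : r ^ n = (r ^ (20 * M + 24) * r ^ t) ^ E * r := by
        rw [en, pow_succ, ← pow_add, ← pow_mul, mul_comm E]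
      rw [e1]
      have e2 : r ^ (20 * M + 24) * r ^ t ≤ 2 ^ ((86 * c6 + 4 * c4) * y) := by
        calc r ^ (20 * M + 24) * r ^ t ≤ 2 ^ (84 * c6 * y) * 2 ^ ((4 * c4 + 2 * c6) * y) :=
              Nat.mul_le_mul hrm hrt
          _ = 2 ^ ((86 * c6 + 4 * c4) * y) := by rw [← pow_add]; congr 1; ring
      calc (r ^ (20 * M + 24) * r ^ t) ^ E * r ≤
            (2 ^ ((86 * c6 + 4 * c4) * y)) ^ E * 2 ^ (c6 * z) :=
            Nat.mul_le_mul (Nat.pow_le_pow_left e2 _) hrr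
        _ = 2 ^ ((86 * c6 + 4 * c4) * y * E + c6 * z) := by rw [← pow_mul, ← pow_add]
    · have h1 : c6 * z ≤ c6 * (y * (E + 1)) := Nat.mul_le_mul_left _ (hzley.trans hyE)
      calc (86 * c6 + 4 * c4) * y * E + c6 * z ≤
            (86 * c6 + 4 * c4) * (y * (E + 1)) + c6 * (y * (E + 1)) := by
            refine Nat.add_le_add ?_ h1
            rw [mul_assoc]
            exact Nat.mul_le_mul_left _ (Nat.mul_le_mul_left _ (by omega))
        _ = ((86 * c6 + 4 * c4) + c6) * (y * (E + 1)) := by ring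
  · refine trn17_key y E (c5 * c4) _ _ (c5 * (z * d)) ?_ (hlin _ _ ?_) (by omega)
    · calc f ^ d ≤ (2 ^ (c5 * z)) ^ d := Nat.pow_le_pow_left hff _
        _ = 2 ^ (c5 * (z * d)) := by rw [← pow_mul, mul_assoc]
    · rw [mul_assoc]
      exact Nat.mul_le_mul_left _ hzd
  · refine trn17_key y E (2 * c5) _ _ (c5 * z * 2) ?_ (hlin _ _ ?_) (by omega)
    · rw [pow_mul]
      exact Nat.pow_le_pow_left hff _
    · calc c5 * z * 2 = 2 * c5 * z := by ring
        _ ≤ 2 * c5 * y := Nat.mul_le_mul_left _ hzley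
  · refine trn17_key y E (2 * c4) _ _ (2 * (z * d)) ?_ (hlin _ _ ?_) (by omega)
    · rw [← pow_mul]
      refine (le_of_eq ?_)
      congr 1
      ring
    · rw [mul_assoc]
      exact Nat.mul_le_mul_left _ hzd
  · refine trn17_key y E (c3 + κ + 3) _ _ ((c3 + κ + 3) * (y * (E + 1))) ?_ le_rfl (by omega)
    have e1 : M ^ (E + 1) ≤ 2 ^ (2 * (y * (E + 1))) := by
      calc M ^ (E + 1) ≤ (2 ^ (z + 1)) ^ (E + 1) := Nat.pow_le_pow_left hM1 _
        _ = 2 ^ ((z + 1) * (E + 1)) := by rw [← pow_mul]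
        _ ≤ 2 ^ (2 * (y * (E + 1))) := by
            apply Nat.pow_le_pow_right (by norm_num)
            rw [← mul_assoc]
            exact Nat.mul_le_mul_right _ (by omega)
    have e2 : 2 ^ (z * A) ≤ 2 ^ (c3 * (y * (E + 1))) :=
      Nat.pow_le_pow_right (by norm_num) (hlin _ _ hzA)
    have e3 : 2 ^ (κ * y) ≤ 2 ^ (κ * (y * (E + 1))) :=
      Nat.pow_le_pow_right (by norm_num) (Nat.mul_le_mul_left _ hyE)
    have e4 : 2 ^ (κ * y) * M ^ (E + 1) ≤ 2 ^ ((κ + 2) * (y * (E + 1))) := by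
      calc 2 ^ (κ * y) * M ^ (E + 1) ≤ 2 ^ (κ * (y * (E + 1))) * 2 ^ (2 * (y * (E + 1))) :=
            Nat.mul_le_mul e3 e1
        _ = 2 ^ ((κ + 2) * (y * (E + 1))) := by rw [← pow_add]; congr 1; ring
    calc 2 ^ (z * A) + 2 ^ (κ * y) * M ^ (E + 1) ≤
          2 ^ ((c3 + κ + 2) * (y * (E + 1))) + 2 ^ ((c3 + κ + 2) * (y * (E + 1))) := by
          apply Nat.add_le_add
          · exact e2.trans (Nat.pow_le_pow_right (by norm_num) (Nat.mul_le_mul_right _ (by omega)))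
          · exact e4.trans (Nat.pow_le_pow_right (by norm_num) (Nat.mul_le_mul_right _ (by omega)))
      _ = 2 ^ ((c3 + κ + 2) * (y * (E + 1)) + 1) := by rw [pow_succ]; ring
      _ ≤ 2 ^ ((c3 + κ + 3) * (y * (E + 1))) := by
          apply Nat.pow_le_pow_right (by norm_num)
          have : (c3 + κ + 3) * (y * (E + 1)) = (c3 + κ + 2) * (y * (E + 1)) + y * (E + 1) := by
            ring
          omega
  · refine trn17_key y E 3 _ _ (3 * z) hm (hlin _ _ ?_) (by omega)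
    exact Nat.mul_le_mul_left _ hzley
  · refine trn17_key y E c6 _ _ (c6 * z) hrr (hlin _ _ ?_) (by omega)
    exact Nat.mul_le_mul_left _ hzley

end Pool.Agent.Helper17.TU
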