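import Pool.Agent.Helper6.MHeadF
import Pool.Agent.Helper17.UL.AutDefs

set_option autoImplicit false

/-!
Piece TRN-21: a polynomial number of blanks can be removed from the input of a multihead
automaton.
-/

namespace Pool.Agent.Helper17.TU

open Pool.Agent.Helper6 Pool.Agent.Helper17.UL Relation

variable {α V : Type}

/-- The padded word. -/
private def trn21_w (c : ℕ) (u : List α) : List (Option α) :=
  padW u ((u.length + 2) ^ c - (u.length + 2))

private theorem trn21_len (c : ℕ) (u : List α) :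
    (trn21_w (c + 1) u).length + 2 = (u.length + 2) ^ (c + 1) := by
  have h : u.length + 2 ≤ (u.length + 2) ^ (c + 1) := Nat.le_self_pow (by omega) _
  simp only [trn21_w, padW, List.length_append, List.length_map, List.length_replicate]
  omega

private theorem trn21_padget (u : List α) (m p : ℕ) (a : α) :
    (padW u m)[p]? = some (some a) ↔ u[p]? = some a := by
  unfold padW
  by_cases h : p < u.length
  · rw [List.getElem?_append_left (by simpa using h)]
    simp
  · rw [List.getElem?_append_right (by simpa using h)]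
    have h1 : u[p]? = none := List.getElem?_eq_none_iff.2 (by omega)
    rw [h1, List.getElem?_replicate]
    split_ifs <;> simp

private theorem trn21_get (c : ℕ) (u : List α) (x : Fin (c + 1) → ℕ)
    (hx : ∀ i, x i < u.length + 2) (a : α) :
    (trn21_w (c + 1) u)[val (u.length + 2) (c + 1) x - 1]? = some (some a) ↔
      (∀ i : Fin c, x i.succ = 0) ∧ (rd u (x 0)).2 = some a := by
  unfold trn21_w
  rw [trn21_padget]
  have h0 := hx 0
  have e1 : val (u.length + 2) (c + 1) x =
      x 0 + (u.length + 2) * val (u.length + 2) c (fun i => x i.succ) := rfl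
  have e2 := val_eq_zero (N := u.length + 2) (by omega) (x := fun i : Fin c => x i.succ)
  by_cases h : val (u.length + 2) c (fun i => x i.succ) = 0
  · rw [e1, h, Nat.mul_zero, Nat.add_zero]
    simp only [rd]
    constructor
    · intro h1
      exact ⟨e2.1 h, h1⟩
    · intro h1
      exact h1.2
  · constructor
    · intro h1
      exfalso
      have h2 : u[val (u.length + 2) (c + 1) x - 1]? = none := by
        rw [List.getElem?_eq_none_iff, e1]
        have h3 : (u.length + 2) * 1 ≤
            (u.length + 2) * val (u.length + 2) c (fun i => x i.succ) :=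
          Nat.mul_le_mul_left _ (Nat.one_le_iff_ne_zero.2 h)
        omega
      rw [h2] at h1
      simp at h1
    · intro h1
      exact absurd (e2.2 h1.1) h

/-- The first digits. -/
private theorem trn21_isSome (c : ℕ) (e : Fin (c + 1) → V) (a : α) :
    IsL α V (fun w z =>
      (trn21_w (c + 1) w)[val (w.length + 2) (c + 1) (z ∘ e) - 1]? = some (some a)) := by
  refine IsL.congr (IsL.and (IsL.bigAnd (R := fun (i : Fin c) _ z => z (e i.succ) = 0)
    (fun i => IsL.isZero _)) (IsL.sym (e 0) (fun s => s.2 = some a))) ?_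
  intro w z hz
  exact trn21_get c w (z ∘ e) (fun i => Nat.lt_succ_of_le (hz _)) a

/-- The right end. -/
private theorem trn21_isNone (c : ℕ) (e : Fin (c + 1) → V) :
    IsL α V (fun w z =>
      (trn21_w (c + 1) w)[val (w.length + 2) (c + 1) (z ∘ e) - 1]? = none) := by
  have h1 : IsL α (V ⊕ (Fin (c + 1) ⊕ Fin (c + 1))) (fun w z =>
      ((val (w.length + 2) (c + 1) (z ∘ (Sum.inl ∘ e)) = 0 ∧
          val (w.length + 2) (c + 1) (z ∘ (Sum.inr ∘ Sum.inl)) = 0) ∨
        val (w.length + 2) (c + 1) (z ∘ (Sum.inl ∘ e)) =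
          val (w.length + 2) (c + 1) (z ∘ (Sum.inr ∘ Sum.inl)) + 1) ∧
      val (w.length + 2) (c + 1) (z ∘ (Sum.inr ∘ Sum.inr)) =
        val (w.length + 2) (c + 1) (z ∘ (Sum.inr ∘ Sum.inl)) + 2) :=
    IsL.and (IsL.or (IsL.and (IsL.valZero _ _) (IsL.valZero _ _)) (IsL.valSucc _ _ _))
      (IsL.valAdd _ 2 _ _)
  refine IsL.congr (IsL.not (IsL.ex h1)) ?_
  intro w z hz
  have hl := trn21_len c w
  have hlt := val_lt (N := w.length + 2) (x := z ∘ e) (fun i => Nat.lt_succ_of_le (hz _))
  rw [List.getElem?_eq_none_iff]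
  constructor
  · rintro h ⟨t, ht, h2, h3⟩
    have h3' : val (w.length + 2) (c + 1) (t ∘ Sum.inr) =
      val (w.length + 2) (c + 1) (t ∘ Sum.inl) + 2 := h3
    have h2' : (val (w.length + 2) (c + 1) (z ∘ e) = 0 ∧
        val (w.length + 2) (c + 1) (t ∘ Sum.inl) = 0) ∨
      val (w.length + 2) (c + 1) (z ∘ e) = val (w.length + 2) (c + 1) (t ∘ Sum.inl) + 1 := h2
    have h4 := val_lt (N := w.length + 2) (x := t ∘ Sum.inr)
      (fun i => Nat.lt_succ_of_le (ht _))
    omega
  · intro h
    by_contra h5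
    apply h
    obtain ⟨t, ht, htv⟩ := val_surj (N := w.length + 2) (m := c + 1)
      (a := val (w.length + 2) (c + 1) (z ∘ e) - 1) (by omega) (by omega)
    obtain ⟨s, hs, hsv⟩ := val_surj (N := w.length + 2) (m := c + 1)
      (a := val (w.length + 2) (c + 1) (z ∘ e) - 1 + 2) (by omega) (by omega)
    refine ⟨Sum.elim t s, ?_, ?_, ?_⟩
    · rintro (i | i)
      · exact Nat.le_of_lt_succ (ht i)
      · exact Nat.le_of_lt_succ (hs i)
    · change (val (w.length + 2) (c + 1) (z ∘ e) = 0 ∧ val (w.length + 2) (c + 1) t = 0) ∨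
        val (w.length + 2) (c + 1) (z ∘ e) = val (w.length + 2) (c + 1) t + 1
      omega
    · change val (w.length + 2) (c + 1) s = val (w.length + 2) (c + 1) t + 2
      omega

private theorem trn21_let [Finite α] (c : ℕ) (e : Fin (c + 1) → V) (o : Option (Option α)) :
    IsL α V (fun w z =>
      (trn21_w (c + 1) w)[val (w.length + 2) (c + 1) (z ∘ e) - 1]? = o) := by
  match o with
  | none => exact trn21_isNone c e
  | some (some a) => exact trn21_isSome c e a
  | some none =>
    refine IsL.congr (IsL.and (IsL.not (trn21_isNone c e)) (IsL.bigAnd (fun a =>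
      IsL.not (trn21_isSome c e a)))) ?_
    intro w z _
    rcases (trn21_w (c + 1) w)[val (w.length + 2) (c + 1) (z ∘ e) - 1]? with _ | (_ | a)
    · simp
    · simp
    · simp

/-- What a head sees on the padded word. -/
private theorem trn21_rd [Finite α] (c : ℕ) (e : Fin (c + 1) → V)
    (s : Bool × Option (Option α)) :
    IsL α V (fun w z =>
      rd (trn21_w (c + 1) w) (val (w.length + 2) (c + 1) (z ∘ e)) = s) := by
  obtain ⟨b, o⟩ := s
  refine IsL.congr (IsL.and (IsL.iff (IsL.const (b = true)) (IsL.valZero (c + 1) e))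
    (trn21_let c e o)) ?_
  intro w z _
  simp only [rd, Prod.mk.injEq]
  refine and_congr ?_ Iff.rfl
  rw [Bool.eq_iff_iff, decide_eq_true_iff]
  exact Iff.comm

/-- The movement of a head on the padded word. -/
private theorem trn21_mv (c : ℕ) (d : Fin 3) (e e' : Fin (c + 1) → V) :
    IsL α V (fun w z => val (w.length + 2) (c + 1) (z ∘ e') =
      mv (trn21_w (c + 1) w).length d (val (w.length + 2) (c + 1) (z ∘ e))) := by
  match d with
  | 0 =>
    refine IsL.congr (IsL.or (IsL.and (IsL.valZero (c + 1) e) (IsL.valZero (c + 1) e'))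
      (IsL.valSucc (c + 1) e' e)) ?_
    intro w z _
    simp only [mv_zero]
    omega
  | 1 =>
    refine IsL.congr (IsL.valEq (c + 1) e e') ?_
    intro w z _
    simp
  | 2 =>
    have h1 : IsL α (V ⊕ Fin (c + 1)) (fun w z => val (w.length + 2) (c + 1) (z ∘ Sum.inr) =
        val (w.length + 2) (c + 1) (z ∘ (Sum.inl ∘ e)) + 1) := IsL.valSucc (c + 1) _ _
    refine IsL.congr (IsL.or (IsL.valSucc (c + 1) e e')
      (IsL.and (IsL.not (IsL.ex h1)) (IsL.valEq (c + 1) e e'))) ?_
    intro w z hz
    have hl := trn21_len c w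
    have hlt := val_lt (N := w.length + 2) (x := z ∘ e) (fun i => Nat.lt_succ_of_le (hz _))
    have hlt' := val_lt (N := w.length + 2) (x := z ∘ e') (fun i => Nat.lt_succ_of_le (hz _))
    simp only [mv_two]
    by_cases h : val (w.length + 2) (c + 1) (z ∘ e) + 1 < (w.length + 2) ^ (c + 1)
    · constructor
      · intro h2
        left
        omega
      · rintro (h2 | ⟨h2, h3⟩)
        · omega
        · exfalso
          apply h2
          obtain ⟨t, ht, htv⟩ := val_surj (N := w.length + 2) (m := c + 1) (by omega) h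
          exact ⟨t, fun u => Nat.le_of_lt_succ (ht u), htv⟩
    · constructor
      · intro h2
        right
        refine ⟨?_, by omega⟩
        rintro ⟨t, ht, h3⟩
        have h4 := val_lt (N := w.length + 2) (x := t) (fun i => Nat.lt_succ_of_le (ht _))
        have h3' : val (w.length + 2) (c + 1) t =
          val (w.length + 2) (c + 1) (z ∘ e) + 1 := h3
        omega
      · rintro (h2 | ⟨h2, h3⟩)
        · omega
        · omega

/-- Positions from digits. -/
private def trn21_dec {P : Type} (k c : ℕ) (w : List α) (q : P × (Fin k × Fin (c + 1) → ℕ)) :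
    P × (Fin k → ℕ) :=
  (q.1, fun j => val (w.length + 2) (c + 1) (fun i => q.2 (j, i)))

/-- The step on the digits. -/
private def trn21_E {P : Type} {k : ℕ} (c : ℕ) (η : FDTrans (Option α) P k) (w : List α)
    (_ : Empty → ℕ) (q q' : P × (Fin k × Fin (c + 1) → ℕ)) : Prop :=
  Good w q' ∧ trn21_dec k c w q' = fdStep η (trn21_w (c + 1) w) (trn21_dec k c w q)

private theorem trn21_isLE [Finite α] {P : Type} {k : ℕ} (c : ℕ)
    (η : FDTrans (Option α) P k) (a b : P) :
    IsL α (Empty ⊕ ((Fin k × Fin (c + 1)) ⊕ (Fin k × Fin (c + 1)))) (fun w z =>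
      trn21_E c η w (z ∘ Sum.inl) (a, z ∘ Sum.inr ∘ Sum.inl) (b, z ∘ Sum.inr ∘ Sum.inr)) := by
  have h1 : IsL α (Empty ⊕ ((Fin k × Fin (c + 1)) ⊕ (Fin k × Fin (c + 1)))) (fun w z =>
      ∃ s : Fin k → Bool × Option (Option α), (∀ j, rd (trn21_w (c + 1) w)
        (val (w.length + 2) (c + 1) (z ∘ (fun i => Sum.inr (Sum.inl (j, i))))) = s j) ∧
        ((η a s).1 = b ∧ ∀ j,
          val (w.length + 2) (c + 1) (z ∘ (fun i => Sum.inr (Sum.inr (j, i)))) =
          mv (trn21_w (c + 1) w).length ((η a s).2 j)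
            (val (w.length + 2) (c + 1) (z ∘ (fun i => Sum.inr (Sum.inl (j, i))))))) := by
    refine IsL.bigOr (fun s => IsL.and ?_ (IsL.and (IsL.const _) ?_))
    · exact IsL.bigAnd (fun j => trn21_rd c _ (s j))
    · exact IsL.bigAnd (fun j => trn21_mv c _ _ _)
  refine IsL.congr h1 ?_
  intro w z hz
  constructor
  · rintro ⟨_, h⟩
    refine ⟨_, fun j => rfl, ?_, ?_⟩
    · exact (congrArg Prod.fst h).symm
    · intro j
      exact congrFun (congrArg Prod.snd h) j
  · rintro ⟨s, hs, h2, h3⟩
    have hs' : s = fun j => rd (trn21_w (c + 1) w)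
        (val (w.length + 2) (c + 1) (z ∘ (fun i => Sum.inr (Sum.inl (j, i))))) := by
      funext j
      exact (hs j).symm
    subst hs'
    refine ⟨fun v => hz _, ?_⟩
    refine Prod.ext ?_ ?_
    · exact h2.symm
    · funext j
      exact h3 j

/-- Piece TRN-21: a polynomial number of blanks can be removed. -/
theorem unpad' {α : Type} [Fintype α] {Rr : List (Option α) → Prop}
    (h : IsL (Option α) Empty (fun w _ => Rr w)) (c : ℕ) (hc : 1 ≤ c) :
    IsL α Empty (fun u _ => Rr (padW u ((u.length + 2) ^ c - (u.length + 2)))) := by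
  classical
  obtain ⟨c, rfl⟩ : ∃ c', c = c' + 1 := ⟨c - 1, by omega⟩
  obtain ⟨k, P, _, η, p₀, G, hη⟩ := h.toAutomaton
  have hη' : ∀ w : List (Option α), Rr w ↔ FDAccepts η p₀ G w := hη
  -- the step on the digits is deterministic
  have hfun : ∀ (w : List α) (p : Empty → ℕ) (q d d' : P × (Fin k × Fin (c + 1) → ℕ)),
      (∀ u, p u ≤ w.length + 1) → Good w q → trn21_E c η w p q d →
      trn21_E c η w p q d' → d = d' := by
    rintro w p q d d' _ _ ⟨g1, h1⟩ ⟨g2, h2⟩
    have h3 := h1.trans h2.symm
    have h30 : d.1 = d'.1 :=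
      congrArg (Prod.fst : P × (Fin k → ℕ) → P) h3
    refine Prod.ext h30 ?_
    funext v
    obtain ⟨j, i⟩ := v
    have h4 : val (w.length + 2) (c + 1) (fun i => d.2 (j, i)) =
        val (w.length + 2) (c + 1) (fun i => d'.2 (j, i)) :=
      congrFun (congrArg Prod.snd h3) j
    exact congrFun (val_inj (fun i => Nat.lt_succ_of_le (g1 _))
      (fun i => Nat.lt_succ_of_le (g2 _)) h4) i
  have hdtc := fun g : P => IsL.dtcCtl (E := trn21_E c η) (trn21_isLE c η)
    (fun w p q d _ _ hE => hE.1) hfun p₀ g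
  have h2 : IsL α Empty (fun w x => ∃ g : G,
      ∃ t : (Fin k × Fin (c + 1)) ⊕ (Fin k × Fin (c + 1)) → ℕ,
        (∀ u, t u ≤ w.length + 1) ∧ ((∀ v, Sum.elim x t (Sum.inr (Sum.inl v)) = 0) ∧
        ReflTransGen (trn21_E c η w (Sum.elim x t ∘ Sum.inl))
          (p₀, Sum.elim x t ∘ Sum.inr ∘ Sum.inl)
          (g.1, Sum.elim x t ∘ Sum.inr ∘ Sum.inr))) := by
    refine IsL.bigOr (fun g => ?_)
    have h3 : IsL α (Empty ⊕ ((Fin k × Fin (c + 1)) ⊕ (Fin k × Fin (c + 1)))) (fun w z =>
        (∀ v, z (Sum.inr (Sum.inl v)) = 0) ∧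
        ReflTransGen (trn21_E c η w (z ∘ Sum.inl))
          (p₀, z ∘ Sum.inr ∘ Sum.inl) (g.1, z ∘ Sum.inr ∘ Sum.inr)) :=
      IsL.and (IsL.bigAnd (fun v => IsL.isZero _)) (hdtc g.1)
    exact IsL.ex h3
  refine IsL.congr h2 ?_
  intro w x _
  have hw : padW w ((w.length + 2) ^ (c + 1) - (w.length + 2)) = trn21_w (c + 1) w := rfl
  rw [hw, hη']
  have hl := trn21_len c w
  have hv0 : trn21_dec k c w (p₀, fun _ => 0) = (p₀, fun _ => 0) := by
    refine Prod.ext rfl ?_
    funext j
    exact (val_eq_zero (by omega)).2 (fun i => rfl)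
  constructor
  · rintro ⟨m, hm⟩
    have key : ∀ m : ℕ, ∃ d : P × (Fin k × Fin (c + 1) → ℕ), Good w d ∧
        ReflTransGen (trn21_E c η w (fun v => v.elim)) (p₀, fun _ => 0) d ∧
        trn21_dec k c w d = (fdStep η (trn21_w (c + 1) w))^[m] (p₀, fun _ => 0) := by
      intro m
      induction m with
      | zero => exact ⟨(p₀, fun _ => 0), fun _ => Nat.zero_le _, ReflTransGen.refl, hv0⟩
      | succ m ih =>
        obtain ⟨d, g1, g2, g3⟩ := ih
        rw [Function.iterate_succ_apply', ← g3]
        set F := fdStep η (trn21_w (c + 1) w) (trn21_dec k c w d) with hF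
        have hb : ∀ j, F.2 j < (w.length + 2) ^ (c + 1) := by
          intro j
          have h5 : val (w.length + 2) (c + 1) (fun i => d.2 (j, i)) ≤
              (trn21_w (c + 1) w).length + 1 := by
            have := val_lt (N := w.length + 2) (x := fun i => d.2 (j, i))
              (fun i => Nat.lt_succ_of_le (g1 _))
            omega
          have h6 : F.2 j ≤ (trn21_w (c + 1) w).length + 1 :=
            mv_le (n := (trn21_w (c + 1) w).length) h5
          omega
        have h7 : ∀ j, ∃ y : Fin (c + 1) → ℕ, (∀ i, y i < w.length + 2) ∧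
            val (w.length + 2) (c + 1) y = F.2 j := fun j => val_surj (by omega) (hb j)
        choose y hy hyv using h7
        have h8 : trn21_dec k c w (F.1, fun v => y v.1 v.2) = F := by
          refine Prod.ext rfl ?_
          funext j
          exact hyv j
        have g4 : Good w (F.1, fun v : Fin k × Fin (c + 1) => y v.1 v.2) :=
          fun v => Nat.le_of_lt_succ (hy _ _)
        exact ⟨(F.1, fun v => y v.1 v.2), g4, ReflTransGen.tail g2 ⟨g4, h8⟩, h8⟩
    obtain ⟨d, g1, g2, g3⟩ := key m
    have g5 : d.1 ∈ G := by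
      rw [← g3] at hm
      exact hm
    refine ⟨⟨d.1, g5⟩, Sum.elim (fun _ => 0) d.2, ?_, fun v => rfl, ?_⟩
    · rintro (v | v)
      · exact Nat.zero_le _
      · exact g1 v
    · exact g2
  · rintro ⟨g, t, _, h3, h4⟩
    have key : ∀ d : P × (Fin k × Fin (c + 1) → ℕ),
        ReflTransGen (trn21_E c η w (Sum.elim x t ∘ Sum.inl))
          (p₀, Sum.elim x t ∘ Sum.inr ∘ Sum.inl) d →
        ∃ m : ℕ, trn21_dec k c w d =
          (fdStep η (trn21_w (c + 1) w))^[m] (p₀, fun _ => 0) := by
      intro d hd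
      induction hd with
      | refl =>
        refine ⟨0, ?_⟩
        have e1 : (Sum.elim x t ∘ Sum.inr ∘ Sum.inl : Fin k × Fin (c + 1) → ℕ) =
          fun _ => 0 := by
          funext v
          exact h3 v
        rw [e1]
        exact hv0
      | tail _ hs ih =>
        obtain ⟨m, hm⟩ := ih
        refine ⟨m + 1, ?_⟩
        rw [Function.iterate_succ_apply', ← hm]
        exact hs.2
    obtain ⟨m, hm⟩ := key _ h4
    refine ⟨m, ?_⟩
    rw [← hm]
    exact g.2

end Pool.Agent.Helper17.TU
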