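import Mathlib

set_option autoImplicit false

/-!
Few turns: the number of blanks is polynomial for polylogarithmic `t`.
-/

namespace Pool.Agent.Helper17.TU

theorem trn22_nat (m D : ℕ) (hm : 2 ≤ m) : m ^ D ≤ m ^ (D + 2) - m := by
  have h1 : 1 ≤ m ^ D := Nat.one_le_pow _ _ (by omega)
  have h2 : m ^ (D + 2) = m ^ D * (m * m) := by ring
  apply Nat.le_sub_of_add_le
  rw [h2]
  obtain ⟨X, hX⟩ : ∃ X, m ^ D = X + 1 := ⟨m ^ D - 1, by omega⟩
  obtain ⟨j, rfl⟩ : ∃ j, m = j + 2 := ⟨m - 2, by omega⟩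
  rw [hX]
  nlinarith [Nat.zero_le (X * (j * j)), Nat.zero_le (X * j), Nat.zero_le (j * j)]

/-- `log 16 > 1`. -/
theorem trn22_log16 : Real.exp 1 < Real.log 16 := by
  have h1 : Real.log 16 = 4 * Real.log 2 := by
    rw [show (16 : ℝ) = 2 ^ 4 by norm_num, Real.log_pow]
    norm_num
  rw [h1]
  have h2 := Real.log_two_gt_d9
  have h3 := Real.exp_one_lt_d9
  linarith

theorem polylog_pad' (C : ℝ) (hC : 0 < C) (c : ℕ) : ∃ c' : ℕ, 1 ≤ c' ∧ ∀ n t : ℕ, 1 ≤ t →
    (t : ℝ) ≤ Real.log (n + 16) ^ c →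
    Real.exp (C * (Real.log (n + t + 16) *
      (1 + Real.log t / Real.log (Real.log (n + t + 16))))) ≤
      (((n + 2) ^ c' - (n + 2) : ℕ) : ℝ) := by
  obtain ⟨D, hD⟩ := exists_nat_ge (C * (((c : ℝ) + 2) * 4 * (1 + c)))
  refine ⟨D + 2, by omega, ?_⟩
  intro n t ht htl
  have hn0 : (0 : ℝ) ≤ n := Nat.cast_nonneg n
  have ht1 : (1 : ℝ) ≤ t := by exact_mod_cast ht
  have hc0 : (0 : ℝ) ≤ c := Nat.cast_nonneg c
  have h16 := trn22_log16
  have he : (1 : ℝ) < Real.exp 1 := by
    have := Real.add_one_lt_exp (x := (1 : ℝ)) one_ne_zero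
    linarith
  have hl1 : Real.log 16 ≤ Real.log (n + 16) := Real.log_le_log (by norm_num) (by linarith)
  have hL1 : Real.log (n + 16) ≤ Real.log (n + t + 16) :=
    Real.log_le_log (by positivity) (by linarith)
  have hl0 : 0 < Real.log (n + 16) := by linarith
  have hL0 : 0 < Real.log (n + t + 16) := by linarith
  -- the double logarithm
  have hLL : 1 < Real.log (Real.log (n + t + 16)) := by
    rw [Real.lt_log_iff_exp_lt hL0]
    linarith
  have hq : Real.log t / Real.log (Real.log (n + t + 16)) ≤ c := by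
    rw [div_le_iff₀ (by linarith)]
    have h1 : Real.log t ≤ Real.log (Real.log (n + 16) ^ c) :=
      Real.log_le_log (by linarith) htl
    rw [Real.log_pow] at h1
    have h2 : Real.log (Real.log (n + 16)) ≤ Real.log (Real.log (n + t + 16)) :=
      Real.log_le_log hl0 hL1
    have h3 := mul_le_mul_of_nonneg_left h2 hc0
    linarith
  -- the size of `L`
  have hle : Real.log (n + 16) ≤ n + 16 := by
    have := Real.log_le_sub_one_of_pos (x := (n : ℝ) + 16) (by positivity)
    linarith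
  have hL2 : Real.log (n + t + 16) ≤ (c + 2) * Real.log (n + 16) := by
    have h1 : (t : ℝ) ≤ ((n : ℝ) + 16) ^ c := htl.trans (pow_le_pow_left₀ hl0.le hle c)
    have h2 : (1 : ℝ) ≤ ((n : ℝ) + 16) ^ c := one_le_pow₀ (by linarith)
    have h3 : (n : ℝ) + t + 16 ≤ ((n : ℝ) + 16) ^ (c + 2) := by
      rw [pow_add]
      nlinarith [mul_nonneg hn0 (by linarith : (0 : ℝ) ≤ ((n : ℝ) + 16) ^ c)]
    calc Real.log (n + t + 16) ≤ Real.log (((n : ℝ) + 16) ^ (c + 2)) :=
          Real.log_le_log (by positivity) h3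
      _ = (c + 2) * Real.log (n + 16) := by
          rw [Real.log_pow]
          push_cast
          ring
  have hl2 : Real.log (n + 16) ≤ 4 * Real.log (n + 2) := by
    have h1 : (n : ℝ) + 16 ≤ ((n : ℝ) + 2) ^ 4 := by
      nlinarith [pow_nonneg hn0 2, pow_nonneg hn0 3, pow_nonneg hn0 4]
    calc Real.log (n + 16) ≤ Real.log (((n : ℝ) + 2) ^ 4) :=
          Real.log_le_log (by positivity) h1
      _ = 4 * Real.log (n + 2) := by
          rw [Real.log_pow]
          norm_num
  have hl3 : 0 ≤ Real.log ((n : ℝ) + 2) := Real.log_nonneg (by linarith)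
  have hexp : C * (Real.log (n + t + 16) *
      (1 + Real.log t / Real.log (Real.log (n + t + 16)))) ≤ D * Real.log (n + 2) := by
    have h1 : Real.log (n + t + 16) *
        (1 + Real.log t / Real.log (Real.log (n + t + 16))) ≤
        ((c + 2) * (4 * Real.log (n + 2))) * (1 + c) := by
      apply mul_le_mul _ (by linarith) _ (by positivity)
      · exact hL2.trans (mul_le_mul_of_nonneg_left hl2 (by positivity))
      · have : 0 ≤ Real.log t := Real.log_nonneg ht1
        positivity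
    calc C * (Real.log (n + t + 16) *
          (1 + Real.log t / Real.log (Real.log (n + t + 16))))
        ≤ C * (((c + 2) * (4 * Real.log (n + 2))) * (1 + c)) :=
          mul_le_mul_of_nonneg_left h1 hC.le
      _ = (C * (((c : ℝ) + 2) * 4 * (1 + c))) * Real.log (n + 2) := by ring
      _ ≤ D * Real.log (n + 2) := mul_le_mul_of_nonneg_right hD hl3
  have hfin : Real.exp (D * Real.log (n + 2)) = (((n + 2) ^ D : ℕ) : ℝ) := by
    rw [← Real.log_pow, Real.exp_log (by positivity)]
    push_cast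
    ring
  calc Real.exp (C * (Real.log (n + t + 16) *
        (1 + Real.log t / Real.log (Real.log (n + t + 16)))))
      ≤ Real.exp (D * Real.log (n + 2)) := Real.exp_le_exp.2 hexp
    _ = (((n + 2) ^ D : ℕ) : ℝ) := hfin
    _ ≤ (((n + 2) ^ (D + 2) - (n + 2) : ℕ) : ℝ) :=
        Nat.cast_le.2 (trn22_nat (n + 2) D (by omega))

end Pool.Agent.Helper17.TU
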