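import Pool.Agent.Helper17.TU.Core
import Pool.Agent.Helper17.TU.PrmSz
import Pool.Agent.Helper17.TU.PrmCh
import Pool.Agent.Helper17.TU.Unpad1
import Pool.Agent.Helper17.TU.Unpad2
import Pool.Agent.Helper17.TU.PrmFL2

set_option autoImplicit false

/-!
Few turns: the theorems.
-/

namespace Pool.Agent.Helper17.TU

open Pool.Agent.Helper17.SL Pool.Agent.Helper17.UL Pool.Agent.Helper6

theorem goodE_goodP {α : Type} [Fintype α] (κ K C0 C1 K0 : ℕ) (hC0 : 1 ≤ C0)
    (hK0 : κ + K + 40 ≤ K0)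
    (hsz : ∀ y E : ℕ, 4 ≤ y → ∀ s ∈ sizesE κ K y E, s ≤ 2 ^ (C0 * y * (E + 1))) :
    GoodE κ K (fun w : List (Option α) => yE C1 (w.takeWhile Option.isSome).length w.length)
      (fun w => eE C0 (yE C1 (w.takeWhile Option.isSome).length w.length) w.length)
      (GoodP (α := α) C0 C1 K0) := by
  obtain ⟨_, h2, h3⟩ := goodP_isL' (α := α) C0 C1 K0 hC0 (by omega)
  have h6 : ∀ n len, 6 ≤ yE C1 n len := by
    intro n len
    have : 4 ≤ Nat.log 2 (n + 16) :=
      Nat.le_log_of_pow_le (by norm_num) (by norm_num)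
    exact le_trans (by omega) (le_max_right _ _)
  refine ⟨fun w _ => (by norm_num : 4 ≤ 6).trans (h6 _ _), fun w _ => min_le_left _ _,
    fun w hw s hs => ?_, fun w hw => ?_, h2, h3⟩
  · obtain ⟨g1, g2, g3⟩ := hw
    have hy := h6 (w.takeWhile Option.isSome).length w.length
    have h7 := hsz _ _ (by omega) s hs
    have h8 := eE_good C0 _ w.length (Nat.mul_pos hC0 (by omega)) g3
    calc s ≤ _ := h7
      _ ≤ 2 ^ Nat.log 2 w.length := Nat.pow_le_pow_right (by norm_num) h8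
      _ ≤ w.length := Nat.pow_log_le_self 2 (by omega)
  · have := hw.1
    omega

theorem AcceptsTurns.succ {α Q Γ : Type} {k : ℕ} {δ : PDTrans α Q Γ k} {q₀ : Q} {F : Set Q}
    {t : ℕ} {u : List α} (h : AcceptsTurns δ q₀ F t u) : AcceptsTurns δ q₀ F (t + 1) u := by
  obtain ⟨τ, h0, hm, hF, hp⟩ := h
  refine ⟨fun i => τ (min i t), by simpa using h0, fun a b hab => hm (min_le_min_right t hab),
    by simpa using hF, fun i hi => ?_⟩
  rcases Nat.lt_or_ge i t with h | h
  · have e1 : min i t = i := min_eq_left h.le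
    have e2 : min (i + 1) t = i + 1 := min_eq_left h
    simp only [e1, e2]
    exact hp i h
  · have e1 : min i t = t := min_eq_right h
    have e2 : min (i + 1) t = t := min_eq_right (by omega)
    simp only [e1, e2]
    exact Or.inl fun m h1 h2 => absurd h1 (by omega)

theorem AcceptsTurns.acceptsIn {α Q Γ : Type} {k : ℕ} {δ : PDTrans α Q Γ k} {q₀ : Q}
    {F : Set Q} {t : ℕ} {u : List α} (h : AcceptsTurns δ q₀ F t u) :
    ∃ T, AcceptsIn δ q₀ F T u := by
  obtain ⟨τ, _, _, hF, _⟩ := h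
  exact ⟨τ t, τ t, le_rfl, hF⟩

/-- Each move is a piece. -/
theorem acceptsTurns_of_time {α Q Γ : Type} {k : ℕ} {δ : PDTrans α Q Γ k} {q₀ : Q}
    {F : Set Q} {T : ℕ} {u : List α} (h : AcceptsIn δ q₀ F T u) : AcceptsTurns δ q₀ F T u := by
  obtain ⟨m, hm, hF⟩ := h
  refine ⟨fun i => min i m, by simp, fun a b hab => min_le_min_right m hab, ?_, fun i _ => ?_⟩
  · simp only [min_eq_right hm]
    exact hF
  · rcases le_total ((pdStep δ u)^[i] (q₀, fun _ => 0, [])).2.2.length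
      ((pdStep δ u)^[i + 1] (q₀, fun _ => 0, [])).2.2.length with h | h
    · left
      intro j h1 h2
      dsimp only at h1 h2
      have : j = i := by omega
      rw [this]
      exact h
    · right
      intro j h1 h2
      dsimp only at h1 h2
      have : j = i := by omega
      rw [this]
      exact h

theorem few_turns {α Q Γ : Type} [Fintype α] [Fintype Q] [Fintype Γ] {k : ℕ}
    (δ : PDTrans α Q Γ k) (q₀ : Q) (F : Set Q) :
    ∃ (C : ℝ) (Rr : List (Option α) → Prop), 0 < C ∧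
      IsL (Option α) Empty (fun w _ => Rr w) ∧
      (∀ (u : List α) (m : ℕ), Rr (padW u m) → ∃ T, AcceptsIn δ q₀ F T u) ∧
      ∀ (u : List α) (t m : ℕ), 1 ≤ t →
        Real.exp (C * (Real.log (u.length + t + 16) *
          (1 + Real.log t / Real.log (Real.log (u.length + t + 16))))) ≤ m →
        AcceptsTurns δ q₀ F t u → Rr (padW u m) := by
  obtain ⟨κ, K, hκ, hK, hcore⟩ := core δ q₀ F
  obtain ⟨C0, hC0, hsz⟩ := prmE_size κ K hκ hK
  obtain ⟨C, hC, hch⟩ := choice_complete C0 (6 * C0) (κ + K + 40) hC0 le_rfl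
  have hGE := goodE_goodP (α := α) κ K C0 (6 * C0) (κ + K + 40) hC0 le_rfl hsz
  obtain ⟨R0, hR0, hans⟩ := hcore _ _ _ hGE
  have hGL := (goodP_isL' (α := α) C0 (6 * C0) (κ + K + 40) hC0 (by omega)).1
  have hyn : ∀ n len, n + 2 ≤ 2 ^ yE (6 * C0) n len := by
    intro n len
    have h1 : n + 16 < 2 ^ (Nat.log 2 (n + 16) + 1) := Nat.lt_pow_succ_log_self (by norm_num) _
    have h2 : Nat.log 2 (n + 16) + 1 ≤ yE (6 * C0) n len :=
      le_trans (by omega) (le_max_right _ _)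
    have h3 := Nat.pow_le_pow_right (show 0 < 2 by norm_num) h2
    omega
  refine ⟨C, fun w => GoodP C0 (6 * C0) (κ + K + 40) w ∧ R0 w, hC, hGL.and hR0, ?_, ?_⟩
  · rintro u m ⟨h1, h2⟩
    refine (hans u m h1 ?_).1 h2
    rw [padW_lead]
    exact hyn _ _
  · intro u t m ht hm hacc
    obtain ⟨c1, c2, c3, c4, c5⟩ := hch u.length t m ht hm
    have hlen : (padW u m).length = u.length + m := padW_length u m
    have hg : GoodP C0 (6 * C0) (κ + K + 40) (padW u m) := by
      refine ⟨by rw [hlen]; exact c1, ?_, ?_⟩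
      · rw [padW_lead, hlen]
        omega
      · rw [padW_lead, hlen]
        exact c4
    refine ⟨hg, (hans u m hg ?_).2 t ?_ ?_ hacc⟩
    · rw [padW_lead]
      exact hyn _ _
    · rw [padW_lead, hlen]
      omega
    · rw [padW_lead, hlen]
      exact c5

/-- The theorem in the model of the frozen statements. -/
theorem few_turns_aut {α Q Γ : Type} [Fintype α] [Fintype Q] [Fintype Γ] {k : ℕ}
    (δ : PDTrans α Q Γ k) (q₀ : Q) (F : Set Q) :
    ∃ (C : ℝ) (k' : ℕ) (P : Type) (_ : Fintype P) (η : FDTrans (Option α) P k') (p₀ : P)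
      (G : Set P),
      (∀ (u : List α) (m : ℕ), FDAccepts η p₀ G (padW u m) → ∃ T, AcceptsIn δ q₀ F T u) ∧
      ∀ (u : List α) (t m : ℕ), 1 ≤ t →
        Real.exp (C * (Real.log (u.length + t + 16) *
          (1 + Real.log t / Real.log (Real.log (u.length + t + 16))))) ≤ m →
        AcceptsTurns δ q₀ F t u → FDAccepts η p₀ G (padW u m) := by
  obtain ⟨C, Rr, _, hR, h1, h2⟩ := few_turns δ q₀ F
  obtain ⟨k', P, hP, η, p₀, G, hA⟩ := Pool.Agent.Helper6.IsL.toAutomaton hR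
  exact ⟨C, k', P, hP, η, p₀, G, fun u m h => h1 u m ((hA _).mpr h),
    fun u t m ht hm hacc => (hA _).mp (h2 u t m ht hm hacc)⟩

/-- Polylogarithmically many pieces: logarithmic space. -/
theorem polylog_turns {α Q Γ : Type} [Fintype α] [Fintype Q] [Fintype Γ] {k : ℕ}
    (δ : PDTrans α Q Γ k) (q₀ : Q) (F : Set Q) (c : ℕ)
    (h : ∀ u : List α, (∃ T, AcceptsIn δ q₀ F T u) →
      ∃ t : ℕ, (t : ℝ) ≤ Real.log (u.length + 16) ^ c ∧ AcceptsTurns δ q₀ F t u) :
    ∃ (k' : ℕ) (P : Type) (_ : Fintype P) (η : FDTrans α P k') (p₀ : P) (G : Set P),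
      ∀ u : List α, FDAccepts η p₀ G u ↔ ∃ T, AcceptsIn δ q₀ F T u := by
  obtain ⟨C, Rr, hC, hR, h1, h2⟩ := few_turns δ q₀ F
  obtain ⟨c', hc', hpad⟩ := polylog_pad' C hC c
  obtain ⟨k', P, hP, η, p₀, G, hA⟩ := Pool.Agent.Helper6.IsL.toAutomaton (unpad' hR c' hc')
  refine ⟨k', P, hP, η, p₀, G, fun u => ⟨fun hu => h1 u _ ((hA u).mpr hu), fun hu => ?_⟩⟩
  obtain ⟨t, ht, hacc⟩ := h u hu
  refine (hA u).mp ?_
  rcases Nat.eq_zero_or_pos t with h0 | h0
  · subst h0
    refine h2 u 1 _ le_rfl (hpad u.length 1 le_rfl ?_) hacc.succ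
    have hn0 : (0 : ℝ) ≤ (u.length : ℝ) := Nat.cast_nonneg _
    have h3 : (1 : ℝ) ≤ Real.log ((u.length : ℝ) + 16) := by
      rw [Real.le_log_iff_exp_le (by linarith)]
      have := Real.exp_one_lt_d9
      linarith
    push_cast
    exact one_le_pow₀ h3
  · exact h2 u t _ h0 (hpad u.length t h0 ht) hacc

end Pool.Agent.Helper17.TU
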