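import Pool.Agent.Helper17.TU.PhiB
import Pool.Agent.Helper17.SL.Stack

set_option autoImplicit false

/-!
Few turns: timed stack machines and the function which iterates such a machine inside one block.
-/

namespace Pool.Agent.Helper17.TU

open Pool.Agent.Helper17.SL

/-- Action of one step: keep the stack, push a symbol, or pop (the new control is a function of
the popped symbol, `none` if the stack is empty). -/
inductive TAct (S Γ : Type) where
  | stay (s : S)
  | push (s : S) (y : Γ)
  | pop (k : Option Γ → S)

/-- A timed stack machine. -/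
abbrev TStp (S Γ : Type) : Type := ℕ → S → TAct S Γ

/-- One step. -/
def TAct.app {S Γ : Type} : TAct S Γ → List Γ → S × List Γ
  | .stay s, l => (s, l)
  | .push s y, l => (s, y :: l)
  | .pop k, l => (k l.head?, l.tail)

/-- The run. -/
def trun {S Γ : Type} (stp : TStp S Γ) (c0 : S × List Γ) : ℕ → S × List Γ
  | 0 => c0
  | t + 1 => (stp t (trun stp c0 t).1).app (trun stp c0 t).2

/-- Values: time, height, control. -/
abbrev TV (N : ℕ) (S : Type) : Type := Fin (N + 1) × Fin (N + 1) × S

/-- Time and height of a value. -/
def ttm {N : ℕ} {S : Type} (v : TV N S) : ℕ := v.1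
def tht {N : ℕ} {S : Type} (v : TV N S) : ℕ := v.2.1

/-- The value of a configuration at time `t`. -/
def tval (N : ℕ) {S Γ : Type} (t : ℕ) (c : S × List Γ) : TV N S :=
  (clamp N t, clamp N c.2.length, c.1)

section base

variable {S Γ : Type} {N : ℕ} (stp : TStp S Γ) (P₀ : ℕ)

/-- The value after one step, given the symbol that is popped if the action is a pop. -/
def vadv (v : TV N S) (y : Option Γ) : TV N S :=
  match stp v.1 v.2.2 with
  | .stay s => (clamp N (v.1 + 1), v.2.1, s)
  | .push s _ => (clamp N (v.1 + 1), clamp N (v.2.1 + 1), s)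
  | .pop k => (clamp N (v.1 + 1), clamp N (v.2.1 - 1), k y)

/-- The symbol pushed if the action is a push. -/
def vpush (v : TV N S) : Option Γ :=
  match stp v.1 v.2.2 with
  | .push _ y => some y
  | _ => none

/-- Is the action a pop? -/
def vpop (v : TV N S) : Bool :=
  match stp v.1 v.2.2 with
  | .pop _ => true
  | _ => false

/-- One step of the search for the symbol at height `η`. -/
def symStep (η : ℕ) (q : TV N S × Option Γ) : TV N S × Option Γ :=
  if q.2.isSome then q
  else if (q.1.2.1 : ℕ) + 1 = η ∧ (vpush stp q.1).isSome then (q.1, vpush stp q.1)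
  else (vadv stp q.1 none, none)

/-- The symbol at height `η` which is pushed in the block of `g`. -/
def symAt (g : TV N S) (η : ℕ) : Option Γ := ((symStep stp η)^[P₀] (g, none)).2

/-- State of the iteration inside a block. -/
structure BS (V : Type) where
  cur : V
  best : Option V
  fin : Res V

/-- One step of the iteration inside a block. -/
def bstep (g x : TV N S) (q : BS (TV N S)) : BS (TV N S) :=
  match q.fin with
  | .none =>
    if blk P₀ x.1 ≤ q.cur.1 then { q with fin := .done q.cur (q.best.getD q.cur) }
    else if vpop stp q.cur = true ∧ 0 < (q.cur.2.1 : ℕ) ∧ (q.cur.2.1 : ℕ) ≤ g.2.1 then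
      { q with fin := .popped q.cur }
    else ⟨vadv stp q.cur (if vpop stp q.cur = true ∧ 0 < (q.cur.2.1 : ℕ) then
        symAt stp P₀ g q.cur.2.1 else none), better tht q.best q.cur, .none⟩
  | _ => q

/-- The function for blocks of length `P₀`. -/
def phiB (g x : TV N S) : Res (TV N S) := ((bstep stp P₀ g x)^[P₀ + 1] ⟨x, none, .none⟩).fin

end base

section run

variable {S Γ : Type} (stp : TStp S Γ) (c0 : S × List Γ)

theorem trun_succ (t : ℕ) : trun stp c0 (t + 1) =
    (stp t (trun stp c0 t).1).app (trun stp c0 t).2 := rfl

/-- In each block of length `P₀` the height is monotone or antitone. -/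
def Uni (P₀ : ℕ) : Prop := ∀ β, (∀ r, β * P₀ ≤ r → r < (β + 1) * P₀ →
    (trun stp c0 r).2.length ≤ (trun stp c0 (r + 1)).2.length) ∨
  (∀ r, β * P₀ ≤ r → r < (β + 1) * P₀ →
    (trun stp c0 (r + 1)).2.length ≤ (trun stp c0 r).2.length)

theorem app_length_le (a : TAct S Γ) (l : List Γ) : (a.app l).2.length ≤ l.length + 1 := by
  cases a <;> simp [TAct.app]
  omega

theorem le_app_length (a : TAct S Γ) (l : List Γ) : l.length ≤ (a.app l).2.length + 1 := by
  cases a <;> simp [TAct.app] <;> omega

theorem trun_length (t : ℕ) : (trun stp c0 t).2.length ≤ c0.2.length + t := by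
  induction t with
  | zero => simp [trun]
  | succ t ih =>
    rw [trun_succ]
    have := app_length_le (stp t (trun stp c0 t).1) (trun stp c0 t).2
    omega

theorem app_suffix {l l' : List Γ} (a : TAct S Γ) (h : l <:+ l')
    (hl : l.length ≤ (a.app l').2.length) : l <:+ (a.app l').2 := by
  cases a with
  | stay s => exact h
  | push s y => exact h.trans (List.suffix_cons _ _)
  | pop k =>
    simp only [TAct.app] at hl ⊢
    cases l' with
    | nil => simpa using h
    | cons y l'' =>
      simp only [List.tail_cons] at hl ⊢
      rcases List.suffix_cons_iff.mp h with h' | h'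
      · rw [h'] at hl
        simp at hl
      · exact h'

theorem trun_suffix {s t : ℕ} {l : List Γ} (hst : s ≤ t) (hs : l <:+ (trun stp c0 s).2)
    (h : ∀ r, s ≤ r → r ≤ t → l.length ≤ (trun stp c0 r).2.length) :
    l <:+ (trun stp c0 t).2 := by
  induction t, hst using Nat.le_induction with
  | base => exact hs
  | succ t hst ih =>
    have h1 := ih (fun r hr1 hr2 => h r hr1 (by omega))
    have h2 := h (t + 1) (by omega) le_rfl
    rw [trun_succ] at h2 ⊢
    exact app_suffix _ h1 h2

end run

end Pool.Agent.Helper17.TU
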