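import Pool.Agent.Helper17.SL.Defs

set_option autoImplicit false

/-!
Two-way multihead deterministic pushdown automata which accept with few turns: a bound for the
number of monotone pieces of the height of the stack.
-/

namespace Pool.Agent.Helper17.TU

open Pool.Agent.Helper17.SL

/-- The automaton reaches a state of `F` on the word `w`, and up to this moment the height of the
stack has at most `t` monotone pieces: there are times `0 = τ 0 ≤ τ 1 ≤ … ≤ τ t` such that between
`τ i` and `τ (i + 1)` the height does not decrease, or does not increase, and the state at time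
`τ t` belongs to `F`. -/
def AcceptsTurns {α Q Γ : Type} {k : ℕ} (δ : PDTrans α Q Γ k) (q₀ : Q) (F : Set Q) (t : ℕ)
    (w : List α) : Prop :=
  ∃ τ : ℕ → ℕ, τ 0 = 0 ∧ Monotone τ ∧ ((pdStep δ w)^[τ t] (q₀, fun _ => 0, [])).1 ∈ F ∧
    ∀ i < t,
      (∀ m, τ i ≤ m → m < τ (i + 1) →
        ((pdStep δ w)^[m] (q₀, fun _ => 0, [])).2.2.length ≤
          ((pdStep δ w)^[m + 1] (q₀, fun _ => 0, [])).2.2.length) ∨
      (∀ m, τ i ≤ m → m < τ (i + 1) →
        ((pdStep δ w)^[m + 1] (q₀, fun _ => 0, [])).2.2.length ≤
          ((pdStep δ w)^[m] (q₀, fun _ => 0, [])).2.2.length)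

end Pool.Agent.Helper17.TU
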