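import Pool.Agent.Helper17.TU.Turn
import Pool.Agent.Helper17.TU.TurnDef
import Pool.Agent.Helper17.SL.Machine

set_option autoImplicit false

/-!
Few turns: two-way multihead pushdown automata as untimed machines (the top symbol is kept in the
control, the stack of the machine is the rest of the stack).
-/

namespace Pool.Agent.Helper17.TU

open Pool.Agent.Helper17.SL

section

variable {α Q Γ : Type} {k : ℕ}

/-- Controls: state, head positions, pending word, top symbol. -/
abbrev UCtl (Q Γ : Type) (k n R : ℕ) : Type :=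
  Q × (Fin k → Fin (n + 2)) × Pend Γ R × Option Γ

/-- What the transition function gives for a control. -/
def uread (δ : PDTrans α Q Γ k) (w : List α) {n R : ℕ} (s : UCtl Q Γ k n R) :
    Q × (Fin k → Fin 3) × List Γ :=
  δ s.1 (fun j => (decide ((s.2.1 j : ℕ) = 0), w[(s.2.1 j : ℕ) - 1]?)) s.2.2.2

/-- New head positions. -/
def upos {n : ℕ} (m : Fin k → Fin 3) (pos : Fin k → Fin (n + 2)) (i : Fin k) : Fin (n + 2) :=
  ⟨min (mvp n (m i) (pos i)) (n + 1), by omega⟩

/-- The actions. A move which replaces the top symbol by the word `y :: l` makes `y` the top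
symbol and pushes `l` in the next steps; a move with the empty word pops. -/
def uact (δ : PDTrans α Q Γ k) (F : Q → Bool) (w : List α) {n R : ℕ} (s : UCtl Q Γ k n R) :
    TAct (UCtl Q Γ k n R) Γ :=
  match s.2.2.1 with
  | ⟨y :: ys, h⟩ => .push (s.1, s.2.1, ⟨ys, by simp at h; omega⟩, s.2.2.2) y
  | ⟨[], _⟩ =>
    if F s.1 = true then .stay s
    else if (uread δ w s).2.2.isEmpty = true ∧ s.2.2.2.isSome = true then
      .pop (fun y => ((uread δ w s).1, upos (uread δ w s).2.1 s.2.1, ⟨[], Nat.zero_le _⟩, y))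
    else .stay ((uread δ w s).1, upos (uread δ w s).2.1 s.2.1,
      ⟨((uread δ w s).2.2.tail.reverse).take R, by simp⟩, (uread δ w s).2.2.head?)

/-- The run of the automaton. -/
def prun (δ : PDTrans α Q Γ k) (q₀ : Q) (w : List α) (m : ℕ) : Q × (Fin k → ℕ) × List Γ :=
  (pdStep δ w)^[m] (q₀, fun _ => 0, [])

/-- Initial control. -/
def uinit (Γ : Type) (k n R : ℕ) (q₀ : Q) : UCtl Q Γ k n R :=
  (q₀, fun _ => ⟨0, by omega⟩, ⟨[], Nat.zero_le _⟩, none)

/-- Number of steps of the untimed machine for the first `m` moves. -/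
def usig (δ : PDTrans α Q Γ k) (q₀ : Q) (w : List α) : ℕ → ℕ
  | 0 => 0
  | m + 1 => usig δ q₀ w m + 1 +
      ((δ (prun δ q₀ w m).1 (fun j => (decide ((prun δ q₀ w m).2.1 j = 0),
        w[(prun δ q₀ w m).2.1 j - 1]?)) (prun δ q₀ w m).2.2.head?).2.2.length - 1)

/-- The real height of a configuration of the untimed machine. -/
def uht {n R : ℕ} (c : UCtl Q Γ k n R × List Γ) : ℕ :=
  c.2.length + c.1.2.2.1.1.length + (if c.1.2.2.2.isSome then 1 else 0)

variable {n R : ℕ}

theorem trn7_push (δ : PDTrans α Q Γ k) (F : Q → Bool) (w : List α) (q : Q)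
    (pos : Fin k → Fin (n + 2)) (X : Option Γ) (l : List Γ) (hl : l.length ≤ R) (st : List Γ)
    (c0 : UCtl Q Γ k n R × List Γ) (a : ℕ)
    (ha : urun (uact (n := n) (R := R) δ F w) c0 a = ((q, pos, ⟨l, hl⟩, X), st)) (j : ℕ)
    (hj : j ≤ l.length) :
    urun (uact (n := n) (R := R) δ F w) c0 (a + j) =
      ((q, pos, ⟨l.drop j, by rw [List.length_drop]; omega⟩, X), (l.take j).reverse ++ st) := by
  induction j with
  | zero =>
    rw [Nat.add_zero, ha]
    rfl
  | succ j ih =>
    have ih' := ih (by omega)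
    have h1 : l.drop j = l[j] :: l.drop (j + 1) := List.drop_eq_getElem_cons (by omega)
    have h2 : urun (uact (n := n) (R := R) δ F w) c0 (a + (j + 1)) =
        (uact (n := n) (R := R) δ F w (urun (uact (n := n) (R := R) δ F w) c0 (a + j)).1).app
          (urun (uact (n := n) (R := R) δ F w) c0 (a + j)).2 := rfl
    rw [h2, ih']
    have h3 : uact (n := n) (R := R) δ F w
        (q, pos, (⟨l.drop j, by rw [List.length_drop]; omega⟩ : Pend Γ R), X) =
        .push (q, pos, ⟨l.drop (j + 1), by rw [List.length_drop]; omega⟩, X) l[j] := by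
      have h4 : ∀ (l' : List Γ) (hl' : l'.length ≤ R), l' = l[j] :: l.drop (j + 1) →
          uact (n := n) (R := R) δ F w (q, pos, (⟨l', hl'⟩ : Pend Γ R), X) =
          .push (q, pos, ⟨l.drop (j + 1), by rw [List.length_drop]; omega⟩, X) l[j] := by
        intro l' hl' e
        subst e
        rfl
      exact h4 _ _ h1
    rw [h3]
    simp only [TAct.app]
    rw [List.take_succ_eq_append_getElem (by omega), List.reverse_append,
      List.reverse_singleton]
    rfl

theorem trn7_uact (δ : PDTrans α Q Γ k) (F : Q → Bool) (w : List α) (q : Q)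
    (pos : Fin k → Fin (n + 2)) (X : Option Γ) (hF : F q ≠ true)
    (r : Q × (Fin k → Fin 3) × List Γ)
    (hr : r = uread δ w ((q, pos, ⟨[], Nat.zero_le _⟩, X) : UCtl Q Γ k n R)) :
    uact (n := n) (R := R) δ F w (q, pos, ⟨[], Nat.zero_le _⟩, X) =
      if r.2.2.isEmpty = true ∧ X.isSome = true then
        .pop (fun y => (r.1, upos r.2.1 pos, ⟨[], Nat.zero_le _⟩, y))
      else .stay (r.1, upos r.2.1 pos, ⟨(r.2.2.tail.reverse).take R, by simp⟩, r.2.2.head?) := by
  subst hr
  unfold uact
  simp only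
  rw [if_neg hF]

theorem trn7_move (δ : PDTrans α Q Γ k) (F : Q → Bool) (w : List α) (hn : w.length = n)
    (q : Q) (pos : Fin k → ℕ)
    (hpos : ∀ i, pos i ≤ n + 1) (st : List Γ) (hF : F q ≠ true)
    (r : Q × (Fin k → Fin 3) × List Γ)
    (hr : r = δ q (fun i => (decide (pos i = 0), w[pos i - 1]?)) st.head?)
    (hlen : r.2.2.length ≤ R) [Decidable (r.2.2 = [])] :
    (uact (n := n) (R := R) δ F w (q, fun i => ⟨pos i, by have := hpos i; omega⟩,
      ⟨[], Nat.zero_le _⟩, st.head?)).app st.tail =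
      (((pdStep δ w (q, pos, st)).1, (fun i => ⟨(pdStep δ w (q, pos, st)).2.1 i, by
          have := pdStep_pos (δ := δ) (w := w) (c := (q, pos, st)) (by rw [hn]; exact hpos) i
          omega⟩),
        ⟨r.2.2.tail.reverse, by
            rw [List.length_reverse, List.length_tail]
            omega⟩, (pdStep δ w (q, pos, st)).2.2.head?),
        if r.2.2 = [] then st.tail.tail else st.tail) := by
  have hstep : pdStep δ w (q, pos, st) = (r.1,
    (fun i => if r.2.1 i = 0 then pos i - 1 else if r.2.1 i = 1 then pos i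
      else min (pos i + 1) (w.length + 1)), r.2.2 ++ st.tail) := by
    rw [hr]
    rfl
  have hposn : ∀ i, (pdStep δ w (q, pos, st)).2.1 i ≤ n + 1 := by
    intro i
    have := pdStep_pos (δ := δ) (w := w) (c := (q, pos, st)) (by rw [hn]; exact hpos) i
    omega
  have hup : upos r.2.1 (fun i => (⟨pos i, by have := hpos i; omega⟩ : Fin (n + 2))) =
      fun i => ⟨(pdStep δ w (q, pos, st)).2.1 i, by have := hposn i; omega⟩ := by
    funext i
    unfold upos
    simp only [Fin.mk.injEq]
    have h3 := hposn i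
    have h4 : mvp n (r.2.1 i) (pos i) = (pdStep δ w (q, pos, st)).2.1 i := by
      rw [hstep]
      unfold mvp
      simp only [hn]
    rw [← h4] at h3 ⊢
    exact min_eq_left h3
  have hread : r = uread δ w ((q, fun i => ⟨pos i, by have := hpos i; omega⟩,
      ⟨[], Nat.zero_le _⟩, st.head?) : UCtl Q Γ k n R) := by
    rw [hr]
    rfl
  have hst2 : (pdStep δ w (q, pos, st)).2.2 = r.2.2 ++ st.tail := by rw [hstep]
  have hst1 : (pdStep δ w (q, pos, st)).1 = r.1 := by rw [hstep]
  rw [trn7_uact δ F w q _ _ hF r hread]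
  by_cases hc : r.2.2.isEmpty = true ∧ st.head?.isSome = true
  · have hnil : r.2.2 = [] := List.isEmpty_iff.mp hc.1
    rw [if_pos hc]
    simp only [TAct.app]
    rw [hup, if_pos hnil]
    refine Prod.ext (Prod.ext hst1.symm (Prod.ext rfl (Prod.ext ?_ ?_))) rfl
    · simp only [Subtype.mk.injEq]
      rw [hnil]
      rfl
    · simp only
      rw [hst2, hnil]
      rfl
  · rw [if_neg hc]
    simp only [TAct.app]
    rw [hup]
    have hs : r.2.2 = [] → st = [] := by
      intro h
      by_contra h'
      apply hc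
      refine ⟨by rw [h]; rfl, ?_⟩
      cases st with
      | nil => exact absurd rfl h'
      | cons x st => rfl
    refine Prod.ext (Prod.ext hst1.symm (Prod.ext rfl (Prod.ext ?_ ?_))) ?_
    · simp only [Subtype.mk.injEq]
      apply List.take_of_length_le
      rw [List.length_reverse, List.length_tail]
      omega
    · simp only
      rw [hst2]
      cases hrr : r.2.2 with
      | nil =>
        rw [hs hrr]
        rfl
      | cons y l => rfl
    · simp only
      split_ifs with h
      · rw [hs h]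
        rfl
      · rfl

theorem trn7_phase (δ : PDTrans α Q Γ k) (q₀ : Q) (F : Q → Bool) (w : List α)
    (hn : w.length = n) (hR : ∀ q v X, (δ q v X).2.2.length ≤ R) (m : ℕ)
    (hF : F (prun δ q₀ w m).1 ≠ true)
    (h0 : urun (uact (n := n) (R := R) δ F w) (uinit Γ k n R q₀, []) (usig δ q₀ w m) =
      (((prun δ q₀ w m).1, fun j => ⟨(prun δ q₀ w m).2.1 j, by
          have := iter_pos (δ := δ) (w := w) q₀ m j
          unfold prun
          omega⟩, ⟨[], Nat.zero_le _⟩, (prun δ q₀ w m).2.2.head?), (prun δ q₀ w m).2.2.tail))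
    (r : Q × (Fin k → Fin 3) × List Γ)
    (hr : r = δ (prun δ q₀ w m).1 (fun j => (decide ((prun δ q₀ w m).2.1 j = 0),
        w[(prun δ q₀ w m).2.1 j - 1]?)) (prun δ q₀ w m).2.2.head?)
    (i : ℕ) (hi : i ≤ r.2.2.length - 1) [Decidable (r.2.2 = [])] :
    urun (uact (n := n) (R := R) δ F w) (uinit Γ k n R q₀, []) (usig δ q₀ w m + 1 + i) =
      (((prun δ q₀ w (m + 1)).1, fun j => ⟨(prun δ q₀ w (m + 1)).2.1 j, by
          have := iter_pos (δ := δ) (w := w) q₀ (m + 1) j
          unfold prun
          omega⟩, ⟨(r.2.2.tail.reverse).drop i, by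
            have := hR (prun δ q₀ w m).1 (fun j => (decide ((prun δ q₀ w m).2.1 j = 0),
              w[(prun δ q₀ w m).2.1 j - 1]?)) (prun δ q₀ w m).2.2.head?
            rw [← hr] at this
            rw [List.length_drop, List.length_reverse, List.length_tail]
            omega⟩, (prun δ q₀ w (m + 1)).2.2.head?),
        ((r.2.2.tail.reverse).take i).reverse ++ (if r.2.2 = [] then
          (prun δ q₀ w m).2.2.tail.tail else (prun δ q₀ w m).2.2.tail)) := by
  have hp : ∀ j, (prun δ q₀ w m).2.1 j ≤ n + 1 := by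
    intro j
    have := iter_pos (δ := δ) (w := w) q₀ m j
    unfold prun
    omega
  have hlen : r.2.2.length ≤ R := by
    rw [hr]
    exact hR _ _ _
  have h1 := trn7_move (n := n) (R := R) δ F w hn (prun δ q₀ w m).1 (prun δ q₀ w m).2.1 hp
    (prun δ q₀ w m).2.2 hF r hr hlen
  have hstep : pdStep δ w ((prun δ q₀ w m).1, (prun δ q₀ w m).2.1, (prun δ q₀ w m).2.2) =
      prun δ q₀ w (m + 1) := by
    unfold prun
    rw [Function.iterate_succ_apply']
  have h2 : urun (uact (n := n) (R := R) δ F w) (uinit Γ k n R q₀, []) (usig δ q₀ w m + 1) =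
      (uact (n := n) (R := R) δ F w (urun (uact (n := n) (R := R) δ F w)
        (uinit Γ k n R q₀, []) (usig δ q₀ w m)).1).app (urun (uact (n := n) (R := R) δ F w)
        (uinit Γ k n R q₀, []) (usig δ q₀ w m)).2 := rfl
  rw [h0] at h2
  simp only at h2
  rw [h1] at h2
  simp only [hstep] at h2
  refine trn7_push δ F w _ _ _ _ _ _ _ _ h2 i ?_
  rw [List.length_reverse, List.length_tail]
  exact hi

/-- Piece TRN-7. The untimed machine after `usig m` steps is the automaton after `m` moves: state,
head positions, empty pending word, top symbol, rest of the stack (compare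
`Helper17.SL.Machine.sim_move`). -/
theorem urun_usig (δ : PDTrans α Q Γ k) (q₀ : Q) (F : Q → Bool) (w : List α) (hn : w.length = n)
    (hR : ∀ q v X, (δ q v X).2.2.length ≤ R) (m : ℕ)
    (hF : ∀ m' < m, F (prun δ q₀ w m').1 ≠ true) :
    urun (uact (n := n) (R := R) δ F w) (uinit Γ k n R q₀, []) (usig δ q₀ w m) =
      (((prun δ q₀ w m).1, fun j => ⟨(prun δ q₀ w m).2.1 j, by
          have := iter_pos (δ := δ) (w := w) q₀ m j
          unfold prun
          omega⟩, ⟨[], Nat.zero_le _⟩, (prun δ q₀ w m).2.2.head?), (prun δ q₀ w m).2.2.tail) := by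
  classical
  induction m with
  | zero => rfl
  | succ m ih =>
    have ih' := ih (fun m' hm' => hF m' (by omega))
    obtain ⟨r, hr⟩ : ∃ r, r = δ (prun δ q₀ w m).1 (fun j => (decide ((prun δ q₀ w m).2.1 j = 0),
        w[(prun δ q₀ w m).2.1 j - 1]?)) (prun δ q₀ w m).2.2.head? := ⟨_, rfl⟩
    have h1 := trn7_phase δ q₀ F w hn hR m (hF m (by omega)) ih' r hr (r.2.2.length - 1) le_rfl
    have h2 : usig δ q₀ w (m + 1) = usig δ q₀ w m + 1 + (r.2.2.length - 1) := by
      rw [usig, hr]
    have h3 : (prun δ q₀ w (m + 1)).2.2 = r.2.2 ++ (prun δ q₀ w m).2.2.tail := by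
      rw [hr]
      unfold prun
      rw [Function.iterate_succ_apply']
      rfl
    rw [h2, h1]
    have hlen : (r.2.2.tail.reverse).length = r.2.2.length - 1 := by
      rw [List.length_reverse, List.length_tail]
    refine Prod.ext (Prod.ext rfl (Prod.ext rfl (Prod.ext ?_ rfl))) ?_
    · simp only [Subtype.mk.injEq]
      rw [← hlen, List.drop_length]
    · simp only
      rw [← hlen, List.take_length, List.reverse_reverse, h3]
      cases hrr : r.2.2 with
      | nil => simp
      | cons y l => simp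

/-- Piece TRN-7. The steps of the untimed machine between `usig m` and `usig (m + 1)`: after the
first step the real height is that of the automaton after `m + 1` moves, and it stays so; the
pending words are nonempty strictly between the two times; the operations after the first one are
pushes. -/
theorem urun_mid (δ : PDTrans α Q Γ k) (q₀ : Q) (F : Q → Bool) (w : List α) (hn : w.length = n)
    (hR : ∀ q v X, (δ q v X).2.2.length ≤ R) (m : ℕ)
    (hF : ∀ m' < m + 1, F (prun δ q₀ w m').1 ≠ true) (j : ℕ) (h1 : usig δ q₀ w m < j)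
    (h2 : j < usig δ q₀ w (m + 1)) :
    uht (urun (uact (n := n) (R := R) δ F w) (uinit Γ k n R q₀, []) j) =
        (prun δ q₀ w (m + 1)).2.2.length ∧
      (urun (uact (n := n) (R := R) δ F w) (uinit Γ k n R q₀, []) j).1.2.2.1.1 ≠ [] ∧
      (prun δ q₀ w m).2.2.length < (prun δ q₀ w (m + 1)).2.2.length ∧
      ∃ m', (urun (uact (n := n) (R := R) δ F w) (uinit Γ k n R q₀, []) j).1.1 =
        (prun δ q₀ w m').1 := by
  classical
  have h0 := urun_usig δ q₀ F w hn hR m (fun m' hm' => hF m' (by omega))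
  obtain ⟨r, hr⟩ : ∃ r, r = δ (prun δ q₀ w m).1 (fun j => (decide ((prun δ q₀ w m).2.1 j = 0),
      w[(prun δ q₀ w m).2.1 j - 1]?)) (prun δ q₀ w m).2.2.head? := ⟨_, rfl⟩
  have h4 : usig δ q₀ w (m + 1) = usig δ q₀ w m + 1 + (r.2.2.length - 1) := by
    rw [usig, hr]
  have h3 : (prun δ q₀ w (m + 1)).2.2 = r.2.2 ++ (prun δ q₀ w m).2.2.tail := by
    rw [hr]
    unfold prun
    rw [Function.iterate_succ_apply']
    rfl
  obtain ⟨i, rfl⟩ : ∃ i, j = usig δ q₀ w m + 1 + i := ⟨j - (usig δ q₀ w m + 1), by omega⟩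
  have hi : i < r.2.2.length - 1 := by omega
  have h5 := trn7_phase δ q₀ F w hn hR m (hF m (by omega)) h0 r hr i hi.le
  rw [h5]
  have hne : r.2.2 ≠ [] := by
    intro h
    rw [h] at hi
    simp at hi
  have hsome : (prun δ q₀ w (m + 1)).2.2.head?.isSome = true := by
    rw [h3]
    cases hrr : r.2.2 with
    | nil => exact absurd hrr hne
    | cons y l => rfl
  refine ⟨?_, ?_, ?_, m + 1, rfl⟩
  · unfold uht
    simp only
    rw [if_pos hsome, if_neg hne, h3]
    simp only [List.length_append, List.length_reverse, List.length_take, List.length_drop,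
      List.length_tail]
    omega
  · simp only
    intro h
    have := congrArg List.length h
    rw [List.length_drop, List.length_reverse, List.length_tail, List.length_nil] at this
    omega
  · rw [h3, List.length_append, List.length_tail]
    omega

/-- Piece TRN-8. Properties of the height along the steps. -/
theorem uht_step (δ : PDTrans α Q Γ k) (F : Q → Bool) (w : List α)
    (hR : ∀ q v X, (δ q v X).2.2.length ≤ R) (hR1 : 1 ≤ R) (c : UCtl Q Γ k n R × List Γ)
    (hc : c.1.2.2.2 = none → c.2 = [] ∧ c.1.2.2.1.1 = []) :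
    uht ((uact δ F w c.1).app c.2) ≤ uht c + R ∧
    ((uact δ F w c.1).kind = some false → uht ((uact δ F w c.1).app c.2) + 1 ≤ uht c) ∧
    (((uact δ F w c.1).app c.2).1.2.2.2 = none →
      ((uact δ F w c.1).app c.2).2 = [] ∧ ((uact δ F w c.1).app c.2).1.2.2.1.1 = []) := by
  obtain ⟨⟨q, pos, ⟨pl, hpl⟩, top⟩, st⟩ := c
  cases pl with
  | cons y ys =>
    have e1 : uact δ F w ((q, pos, (⟨y :: ys, hpl⟩ : Pend Γ R), top) : UCtl Q Γ k n R) =
        .push (q, pos, ⟨ys, by simp at hpl; omega⟩, top) y := rfl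
    have h0 : top ≠ none := fun h => by
      have := (hc h).2
      simp at this
    refine ⟨?_, ?_, ?_⟩
    · simp only [e1, TAct.app, uht, List.length_cons]
      omega
    · intro h
      simp [e1, TAct.kind] at h
    · intro h
      exact absurd (by simpa only [e1, TAct.app] using h) h0
  | nil =>
    by_cases hF : F q = true
    · have e1 : uact δ F w ((q, pos, (⟨[], hpl⟩ : Pend Γ R), top) : UCtl Q Γ k n R) =
          .stay (q, pos, ⟨[], hpl⟩, top) := by
        simp only [uact, if_pos hF]
      refine ⟨?_, ?_, ?_⟩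
      · simp only [e1, TAct.app]
        omega
      · intro h
        simp [e1, TAct.kind] at h
      · intro h
        simp only [e1, TAct.app] at h ⊢
        exact ⟨(hc h).1, trivial⟩
    · have hrl : (uread δ w ((q, pos, (⟨[], hpl⟩ : Pend Γ R), top) :
          UCtl Q Γ k n R)).2.2.length ≤ R := hR _ _ _
      set rd := uread δ w ((q, pos, (⟨[], hpl⟩ : Pend Γ R), top) : UCtl Q Γ k n R) with hrd
      by_cases hp : rd.2.2.isEmpty = true ∧ top.isSome = true
      · have e1 : uact δ F w ((q, pos, (⟨[], hpl⟩ : Pend Γ R), top) : UCtl Q Γ k n R) =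
            .pop (fun y => (rd.1, upos rd.2.1 pos, ⟨[], Nat.zero_le _⟩, y)) := by
          simp only [uact, if_neg hF]
          exact if_pos hp
        have hu : uht (((q, pos, (⟨[], hpl⟩ : Pend Γ R), top), st) :
            UCtl Q Γ k n R × List Γ) = st.length + 1 := by
          simp [uht, hp.2]
        cases st with
        | nil =>
          refine ⟨?_, ?_, ?_⟩
          · rw [e1, hu]
            simp [TAct.app, uht]
          · intro _
            rw [e1, hu]
            simp [TAct.app, uht]
          · intro _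
            simp [e1, TAct.app]
        | cons z zs =>
          refine ⟨?_, ?_, ?_⟩
          · rw [e1, hu]
            simp [TAct.app, uht]
            omega
          · intro _
            rw [e1, hu]
            simp [TAct.app, uht]
          · intro h
            simp [e1, TAct.app] at h
      · have e1 : uact δ F w ((q, pos, (⟨[], hpl⟩ : Pend Γ R), top) : UCtl Q Γ k n R) =
            .stay (rd.1, upos rd.2.1 pos, ⟨(rd.2.2.tail.reverse).take R, by simp⟩,
              rd.2.2.head?) := by
          simp only [uact, if_neg hF]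
          exact if_neg hp
        refine ⟨?_, ?_, ?_⟩
        · rw [e1]
          simp only [TAct.app, uht, List.length_take, List.length_reverse, List.length_tail,
            List.length_nil]
          cases hl : rd.2.2 with
          | nil => simp; omega
          | cons z zs =>
            rw [hl] at hrl
            simp only [List.length_cons] at hrl
            simp only [List.length_cons, List.head?_cons, Option.isSome_some, if_true]
            omega
        · intro h
          simp [e1, TAct.kind] at h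
        · intro h
          simp only [e1, TAct.app] at h ⊢
          have hl : rd.2.2 = [] := List.head?_eq_none_iff.mp h
          have ht : top = none := by
            by_contra hne
            exact hp ⟨by rw [hl]; rfl, Option.isSome_iff_ne_none.mpr hne⟩
          exact ⟨(hc ht).1, by rw [hl]; simp⟩

/-- Size of the set of controls. -/
noncomputable def usz (Q Γ : Type) (k n R : ℕ) [Fintype (UCtl Q Γ k n R)] : ℕ :=
  Fintype.card (UCtl Q Γ k n R)

theorem trn9_mono (δ : PDTrans α Q Γ k) (q₀ : Q) (w : List α) :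
    Monotone (usig δ q₀ w) := by
  refine monotone_nat_of_le_succ (fun m => ?_)
  rw [usig]
  omega

theorem trn9_find (δ : PDTrans α Q Γ k) (q₀ : Q) (w : List α) (a b j : ℕ)
    (h1 : usig δ q₀ w a ≤ j) (h2 : j < usig δ q₀ w b) :
    ∃ m, a ≤ m ∧ m < b ∧ usig δ q₀ w m ≤ j ∧ j < usig δ q₀ w (m + 1) := by
  induction b with
  | zero =>
    rw [usig] at h2
    omega
  | succ b ih =>
    rcases Nat.lt_or_ge j (usig δ q₀ w b) with h3 | h3
    · obtain ⟨m, h4, h5, h6⟩ := ih h3
      exact ⟨m, h4, by omega, h6⟩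
    · refine ⟨b, ?_, by omega, h3, h2⟩
      by_contra h4
      have h5 := trn9_mono δ q₀ w (show b + 1 ≤ a by omega)
      omega

theorem trn9_ht (δ : PDTrans α Q Γ k) (q₀ : Q) (F : Q → Bool) (w : List α)
    (hn : w.length = n) (hR : ∀ q v X, (δ q v X).2.2.length ≤ R) (m : ℕ)
    (hF : ∀ m' < m, F (prun δ q₀ w m').1 ≠ true) :
    uht (urun (uact (n := n) (R := R) δ F w) (uinit Γ k n R q₀, []) (usig δ q₀ w m)) =
      (prun δ q₀ w m).2.2.length := by
  rw [urun_usig δ q₀ F w hn hR m hF]
  unfold uht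
  cases (prun δ q₀ w m).2.2 <;> simp

theorem trn9_inv (δ : PDTrans α Q Γ k) (q₀ : Q) (F : Q → Bool) (w : List α)
    (hR : ∀ q v X, (δ q v X).2.2.length ≤ R) (hR1 : 1 ≤ R) (j : ℕ) :
    (urun (uact (n := n) (R := R) δ F w) (uinit Γ k n R q₀, []) j).1.2.2.2 = none →
      (urun (uact (n := n) (R := R) δ F w) (uinit Γ k n R q₀, []) j).2 = [] ∧
      (urun (uact (n := n) (R := R) δ F w) (uinit Γ k n R q₀, []) j).1.2.2.1.1 = [] := by
  induction j with
  | zero => intro _; exact ⟨rfl, rfl⟩
  | succ j ih => exact (uht_step δ F w hR hR1 _ ih).2.2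

theorem trn9_push (δ : PDTrans α Q Γ k) (F : Q → Bool) (w : List α)
    (s : UCtl Q Γ k n R) (h : (uact δ F w s).kind = some true) : s.2.2.1.1 ≠ [] := by
  obtain ⟨q, pos, ⟨l, hl⟩, X⟩ := s
  cases l with
  | nil =>
    exfalso
    simp only [uact] at h
    split_ifs at h <;> simp [TAct.kind] at h
  | cons y ys => simp

theorem trn9_stay (δ : PDTrans α Q Γ k) (F : Q → Bool) (w : List α)
    (s : UCtl Q Γ k n R) (h : F s.1 = true) (h' : s.2.2.1.1 = []) : uact δ F w s = .stay s := by
  obtain ⟨q, pos, ⟨l, hl⟩, X⟩ := s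
  cases l with
  | nil =>
    simp only at h
    simp only [uact]
    rw [if_pos h]
  | cons y ys => simp at h'

/-- Piece TRN-9. Completeness: if the automaton accepts with at most `t` pieces, then the timed
machine with long enough blocks is in an accepting state from time `t P₀` on. Let `T` be the first
time with a state of `F` (`T ≤ τ t`), `σ i = usig (min (τ i) T)`, `H s = (F s.1 = true ∧ pending
word empty)`, `J = usig T`, `W j = uht (urun .. j)`; use `urun_usig`, `urun_mid`, `uht_step`,
`length_bound`, `tact_run`, `sched_blocks` (with `op j = kind (uact (urun j).1)`; in a piece in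
which the height of the automaton does not decrease there is no pop, in the other case there is no
push because the pending words are empty), and the fact that `urun` is constant from `J` on. -/
theorem turn_complete (δ : PDTrans α Q Γ k) (q₀ : Q) (F : Q → Bool) (w : List α)
    (hn : w.length = n) (hR : ∀ q v X, (δ q v X).2.2.length ≤ R) (hR1 : 1 ≤ R)
    [Fintype (UCtl Q Γ k n R)] (t : ℕ) (hA : AcceptsTurns δ q₀ {q | F q = true} t w)
    {P₀ : ℕ} (hP₀ : 0 < P₀)
    (hP : t * ((t * R * usz Q Γ k n R + 1) * usz Q Γ k n R) ≤ P₀) (N : ℕ) (hN : t * P₀ ≤ N) :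
    F ((trun (tact (uact (n := n) (R := R) δ F w) P₀) ((none, uinit Γ k n R q₀), []) N).1.2.1) =
      true := by
  obtain ⟨τ, hτ0, hτm, hτF, hpc⟩ := hA
  have hex : ∃ m, F (prun δ q₀ w m).1 = true := ⟨τ t, hτF⟩
  obtain ⟨T, hTt, hT, hT'⟩ : ∃ T, T ≤ τ t ∧ F (prun δ q₀ w T).1 = true ∧
      ∀ m < T, F (prun δ q₀ w m).1 ≠ true := by
    classical
    exact ⟨Nat.find hex, Nat.find_min' hex hτF, Nat.find_spec hex,
      fun m hm => Nat.find_min hex hm⟩
  have hloc : ∀ m < T, ∀ j, usig δ q₀ w m ≤ j → j < usig δ q₀ w (m + 1) →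
      uht (urun (uact (n := n) (R := R) δ F w) (uinit Γ k n R q₀, []) (j + 1)) =
        (prun δ q₀ w (m + 1)).2.2.length ∧
      ((uht (urun (uact (n := n) (R := R) δ F w) (uinit Γ k n R q₀, []) j) =
          (prun δ q₀ w m).2.2.length ∧
        (urun (uact (n := n) (R := R) δ F w) (uinit Γ k n R q₀, []) j).1.2.2.1.1 = [] ∧
        F (urun (uact (n := n) (R := R) δ F w) (uinit Γ k n R q₀, []) j).1.1 ≠ true) ∨
      (uht (urun (uact (n := n) (R := R) δ F w) (uinit Γ k n R q₀, []) j) =
          (prun δ q₀ w (m + 1)).2.2.length ∧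
        (urun (uact (n := n) (R := R) δ F w) (uinit Γ k n R q₀, []) j).1.2.2.1.1 ≠ [] ∧
        (prun δ q₀ w m).2.2.length < (prun δ q₀ w (m + 1)).2.2.length)) := by
    intro m hm j h1 h2
    have hF1 : ∀ m' < m + 1, F (prun δ q₀ w m').1 ≠ true := fun m' hm' => hT' m' (by omega)
    have hF0 : ∀ m' < m, F (prun δ q₀ w m').1 ≠ true := fun m' hm' => hT' m' (by omega)
    refine ⟨?_, ?_⟩
    · rcases Nat.eq_or_lt_of_le (show j + 1 ≤ usig δ q₀ w (m + 1) by omega) with h3 | h3
      · rw [h3]
        exact trn9_ht δ q₀ F w hn hR (m + 1) hF1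
      · exact (urun_mid δ q₀ F w hn hR m hF1 (j + 1) (by omega) h3).1
    · rcases Nat.eq_or_lt_of_le h1 with h3 | h3
      · left
        rw [← h3]
        refine ⟨trn9_ht δ q₀ F w hn hR m hF0, ?_⟩
        rw [urun_usig δ q₀ F w hn hR m hF0]
        exact ⟨rfl, hT' m hm⟩
      · right
        obtain ⟨h4, h5, h6, -⟩ := urun_mid δ q₀ F w hn hR m hF1 j h3 h2
        exact ⟨h4, h5, h6⟩
  have hJ1 : (urun (uact (n := n) (R := R) δ F w) (uinit Γ k n R q₀, [])
      (usig δ q₀ w T)).1.2.2.1.1 = [] := by
    rw [urun_usig δ q₀ F w hn hR T hT']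
  have hJ2 : F (urun (uact (n := n) (R := R) δ F w) (uinit Γ k n R q₀, [])
      (usig δ q₀ w T)).1.1 = true := by
    rw [urun_usig δ q₀ F w hn hR T hT']
    exact hT
  have hcst : ∀ i, urun (uact (n := n) (R := R) δ F w) (uinit Γ k n R q₀, [])
      (usig δ q₀ w T + i) = urun (uact (n := n) (R := R) δ F w) (uinit Γ k n R q₀, [])
      (usig δ q₀ w T) := by
    intro i
    induction i with
    | zero => rfl
    | succ i ih =>
      rw [← add_assoc, urun, ih, trn9_stay δ F w _ hJ2 hJ1]
      rfl
  have hσm : Monotone (fun i => usig δ q₀ w (min (τ i) T)) := by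
    intro a b hab
    exact trn9_mono δ q₀ w (min_le_min_right _ (hτm hab))
  have hσ0 : usig δ q₀ w (min (τ 0) T) = 0 := by
    rw [hτ0, Nat.zero_min, usig]
  have hσt : usig δ q₀ w (min (τ t) T) = usig δ q₀ w T := by
    rw [min_eq_right hTt]
  have hpc' : ∀ i < t,
      (∀ j, usig δ q₀ w (min (τ i) T) ≤ j → j < usig δ q₀ w (min (τ (i + 1)) T) →
        ∃ m < T, usig δ q₀ w m ≤ j ∧ j < usig δ q₀ w (m + 1) ∧
          (prun δ q₀ w m).2.2.length ≤ (prun δ q₀ w (m + 1)).2.2.length) ∨
      (∀ j, usig δ q₀ w (min (τ i) T) ≤ j → j < usig δ q₀ w (min (τ (i + 1)) T) →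
        ∃ m < T, usig δ q₀ w m ≤ j ∧ j < usig δ q₀ w (m + 1) ∧
          (prun δ q₀ w (m + 1)).2.2.length ≤ (prun δ q₀ w m).2.2.length) := by
    intro i hi
    rcases hpc i hi with h | h
    · left
      intro j h1 h2
      obtain ⟨m, h3, h4, h5, h6⟩ := trn9_find δ q₀ w _ _ j h1 h2
      exact ⟨m, by omega, h5, h6, h m (by omega) (by omega)⟩
    · right
      intro j h1 h2
      obtain ⟨m, h3, h4, h5, h6⟩ := trn9_find δ q₀ w _ _ j h1 h2
      exact ⟨m, by omega, h5, h6, h m (by omega) (by omega)⟩
  have hstep : ∀ j, _ := fun j => uht_step δ F w hR hR1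
    (urun (uact (n := n) (R := R) δ F w) (uinit Γ k n R q₀, []) j)
    (trn9_inv δ q₀ F w hR hR1 j)
  have hlen : usig δ q₀ w T ≤ t * ((t * R * usz Q Γ k n R + 1) * usz Q Γ k n R) := by
    refine length_bound (uact (n := n) (R := R) δ F w) (uinit Γ k n R q₀, [])
      (fun s => F s.1 = true ∧ s.2.2.1.1 = []) (usig δ q₀ w T) R t ⟨hJ2, hJ1⟩ ?_
      (fun j => uht (urun (uact (n := n) (R := R) δ F w) (uinit Γ k n R q₀, []) j)) ?_ ?_ ?_
      (fun i => usig δ q₀ w (min (τ i) T)) hσ0 hσm hσt ?_
    · rintro j hj ⟨h1, h2⟩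
      obtain ⟨m, -, h3, h4, h5⟩ := trn9_find δ q₀ w 0 T j (by rw [usig]; omega) hj
      rcases (hloc m h3 j h4 h5).2 with ⟨-, -, h6⟩ | ⟨-, h6, -⟩
      · exact h6 h1
      · exact h6 h2
    · rfl
    · intro j _
      exact (hstep j).1
    · intro j _ h1
      exact (hstep j).2.1 h1
    · intro i hi
      rcases hpc' i hi with h | h
      · left
        intro j h1 h2
        obtain ⟨m, h3, h4, h5, h6⟩ := h j h1 h2
        obtain ⟨h7, h8⟩ := hloc m h3 j h4 h5
        rw [h7]
        rcases h8 with ⟨h8, -, -⟩ | ⟨h8, -, -⟩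
        · rw [h8]
          exact h6
        · rw [h8]
      · right
        intro j h1 h2
        obtain ⟨m, h3, h4, h5, h6⟩ := h j h1 h2
        obtain ⟨h7, h8⟩ := hloc m h3 j h4 h5
        rw [h7]
        rcases h8 with ⟨h8, -, -⟩ | ⟨h8, -, -⟩
        · rw [h8]
          exact h6
        · rw [h8]
  have hsch := sched_blocks hP₀
    (fun j => (uact (n := n) (R := R) δ F w
      (urun (uact (n := n) (R := R) δ F w) (uinit Γ k n R q₀, []) j).1).kind)
    (fun i => usig δ q₀ w (min (τ i) T)) t hσ0 hσm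
    (fun i hi => by
      have h1 : usig δ q₀ w (min (τ i) T) ≤ usig δ q₀ w (min (τ t) T) := hσm hi
      omega)
    (fun i hi => by
      rcases hpc' i hi with h | h
      · left
        intro j h1 h2 hk
        obtain ⟨m, h3, h4, h5, h6⟩ := h j h1 h2
        obtain ⟨h7, h8⟩ := hloc m h3 j h4 h5
        have h9 := (hstep j).2.1 hk
        have h10 : uht (urun (uact (n := n) (R := R) δ F w) (uinit Γ k n R q₀, []) (j + 1)) + 1 ≤
          uht (urun (uact (n := n) (R := R) δ F w) (uinit Γ k n R q₀, []) j) := h9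
        rcases h8 with ⟨h8, -, -⟩ | ⟨h8, -, -⟩ <;> omega
      · right
        intro j h1 h2 hk
        obtain ⟨m, h3, h4, h5, h6⟩ := h j h1 h2
        obtain ⟨h7, h8⟩ := hloc m h3 j h4 h5
        have h9 := trn9_push δ F w _ hk
        rcases h8 with ⟨-, h8, -⟩ | ⟨-, -, h8⟩
        · exact h9 h8
        · omega) t le_rfl N hN
  rw [tact_run]
  simp only at hsch ⊢
  rw [hσt] at hsch
  obtain ⟨i, hi⟩ := Nat.exists_eq_add_of_le hsch
  rw [hi, hcst]
  exact hJ2

theorem trn10_usig (δ : PDTrans α Q Γ k) (q₀ : Q) (w : List α) (j : ℕ) :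
    ∃ m, usig δ q₀ w m ≤ j ∧ j < usig δ q₀ w (m + 1) := by
  have hlt : ∀ m, usig δ q₀ w m < usig δ q₀ w (m + 1) := by
    intro m
    rw [usig]
    omega
  induction j with
  | zero => exact ⟨0, by rw [usig], by have := hlt 0; omega⟩
  | succ j ih =>
    obtain ⟨m, h1, h2⟩ := ih
    rcases Nat.lt_or_ge (j + 1) (usig δ q₀ w (m + 1)) with h3 | h3
    · exact ⟨m, by omega, h3⟩
    · exact ⟨m + 1, h3, by have := hlt (m + 1); omega⟩

/-- Piece TRN-10. Soundness: the state of the timed machine is at any time a state of the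
automaton (use `tact_run`, `urun_usig`, `urun_mid`; if `F` is never reached the run `urun` passes
through all `usig m`, otherwise it is constant from `usig T` on). -/
theorem turn_sound (δ : PDTrans α Q Γ k) (q₀ : Q) (F : Q → Bool) (w : List α)
    (hn : w.length = n) (hR : ∀ q v X, (δ q v X).2.2.length ≤ R) (P₀ N : ℕ)
    (h : F ((trun (tact (uact (n := n) (R := R) δ F w) P₀) ((none, uinit Γ k n R q₀), []) N).1.2.1)
      = true) :
    ∃ T, AcceptsIn δ q₀ {q | F q = true} T w := by
  by_contra hno
  have hF : ∀ m, F (prun δ q₀ w m).1 ≠ true := by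
    intro m hm
    exact hno ⟨m, m, le_rfl, hm⟩
  rw [tact_run] at h
  simp only at h
  obtain ⟨j, hj⟩ : ∃ j, (sched P₀ (fun j => (uact (n := n) (R := R) δ F w
      (urun (uact (n := n) (R := R) δ F w) (uinit Γ k n R q₀, []) j).1).kind) N).1 = j := ⟨_, rfl⟩
  rw [hj] at h
  obtain ⟨m, h1, h2⟩ := trn10_usig δ q₀ w j
  rcases Nat.eq_or_lt_of_le h1 with h3 | h3
  · have h4 := urun_usig (R := R) δ q₀ F w hn hR m (fun m' _ => hF m')
    rw [h3] at h4
    rw [h4] at h
    exact hF m h
  · obtain ⟨-, -, -, m', hm'⟩ := urun_mid (R := R) δ q₀ F w hn hR m (fun m' _ => hF m') j h3 h2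
    rw [hm'] at h
    exact hF m' h

end

end Pool.Agent.Helper17.TU
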