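import Pool.Agent.Helper17.UL.MachEq
import Pool.Agent.Helper17.TU.UMach

set_option autoImplicit false

/-!
Few turns: numeric form of the timed machine of a pushdown automaton and of the function for
blocks of length `P₀`.
-/

namespace Pool.Agent.Helper17.TU

open Pool.Agent.Helper17.SL Pool.Agent.Helper17.UL

/-- Parameters: bound `N` of the times, block length, length of the word, cap of all values, and
the codes of the letters. -/
structure NP where
  N : ℕ
  P0 : ℕ
  n : ℕ
  W : ℕ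
  Lt : ℕ → ℕ

/-- Code of a direction. -/
def dirc : Option Bool → ℕ
  | none => 0
  | some true => 1
  | some false => 2

section

variable {α Q Γ : Type} [Fintype α] [Fintype Q] [Fintype Γ] {k : ℕ}

/-- The value as a tuple: time, height, direction, state, pending word, top symbol, head
positions. -/
noncomputable def kV {n R N : ℕ} [Fintype (Pend Γ R)] (v : TV N (Option Bool × UCtl Q Γ k n R))
    (i : Fin (k + 4 + 2)) : ℕ :=
  if h : 6 ≤ (i : ℕ) then (v.2.2.2.2.1 ⟨i - 6, by omega⟩ : ℕ)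
  else if (i : ℕ) = 0 then (v.1 : ℕ)
  else if (i : ℕ) = 1 then (v.2.1 : ℕ)
  else if (i : ℕ) = 2 then dirc v.2.2.1
  else if (i : ℕ) = 3 then fc v.2.2.2.1
  else if (i : ℕ) = 4 then fc v.2.2.2.2.2.1
  else oc v.2.2.2.2.2.2

/-- Is the word written empty? -/
noncomputable def tabE (δ : PDTrans α Q Γ k) : (DI k → ℕ) → ℕ :=
  ptab (dcode (α := α) (Q := Q) (Γ := Γ)) (fun x =>
    if (δ x.1 x.2.1 x.2.2).2.2.isEmpty = true then 1 else 0)

/-- The new pending word. -/
noncomputable def tabR (R : ℕ) [Fintype (Pend Γ R)] (δ : PDTrans α Q Γ k) : (DI k → ℕ) → ℕ :=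
  ptab (dcode (α := α) (Q := Q) (Γ := Γ)) (fun x =>
    fc (⟨((δ x.1 x.2.1 x.2.2).2.2.tail.reverse).take R, by simp⟩ : Pend Γ R))

/-- The new top symbol if the word written is not empty. -/
noncomputable def tabO (δ : PDTrans α Q Γ k) : (DI k → ℕ) → ℕ :=
  ptab (dcode (α := α) (Q := Q) (Γ := Γ)) (fun x => oc (δ x.1 x.2.1 x.2.2).2.2.head?)

/-- The data on which the move depends. -/
def xlet (Lt : ℕ → ℕ) (x : Fin (k + 4 + 2) → ℕ) : DI k → ℕ := dval (fun j => Lt (x (pj j))) x

/-- The direction, forgotten at the multiples of `P0`. -/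
def nDir (P0 : ℕ) (x : Fin (k + 4 + 2) → ℕ) : ℕ :=
  if x 0 % P0 = 0 then 0 else x ⟨2, by omega⟩

/-- Is the state in `F`? -/
def nFin (F : Q → Bool) (x : Fin (k + 4 + 2) → ℕ) : Prop := tabF F (x ⟨3, by omega⟩) = 1

section ops

variable (δ : PDTrans α Q Γ k) (F : Q → Bool) (R : ℕ) [Fintype (Pend Γ R)] (p : NP)

/-- The untimed machine pops. -/
def nPop0 (x : Fin (k + 4 + 2) → ℕ) : Prop :=
  ¬ nPend Γ R x ∧ ¬ nFin F x ∧ tabE δ (xlet p.Lt x) = 1 ∧ x ⟨5, by omega⟩ ≠ 0

/-- The timed machine pushes. -/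
def nDoPush (x : Fin (k + 4 + 2) → ℕ) : Prop := nPend Γ R x ∧ nDir p.P0 x ≠ 2

/-- The timed machine pops. -/
def nDoPop (x : Fin (k + 4 + 2) → ℕ) : Prop := nPop0 δ F R p x ∧ nDir p.P0 x ≠ 1

/-- The timed machine makes a move without a pop. -/
def nMove (x : Fin (k + 4 + 2) → ℕ) : Prop :=
  ¬ nPend Γ R x ∧ ¬ nFin F x ∧ ¬ (tabE δ (xlet p.Lt x) = 1 ∧ x ⟨5, by omega⟩ ≠ 0)

open Classical in
/-- The new value without the cap. -/
noncomputable def nadv0 (x : Fin (k + 4 + 2) → ℕ) (y : ℕ) (i : Fin (k + 4 + 2)) : ℕ :=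
  if h : 6 ≤ (i : ℕ) then
    (if nDoPop δ F R p x ∨ nMove δ F R p x then
      min (mvpN p.n (tabM δ ⟨i - 6, by omega⟩ (xlet p.Lt x)) (x i)) (p.n + 1) else x i)
  else if (i : ℕ) = 0 then min (x 0 + 1) p.N
  else if (i : ℕ) = 1 then
    (if nDoPush (Γ := Γ) R p x then min (x 1 + 1) p.N
      else if nDoPop δ F R p x then min (x 1 - 1) p.N else x 1)
  else if (i : ℕ) = 2 then
    (if nDoPush (Γ := Γ) R p x then 1 else if nDoPop δ F R p x then 2 else nDir p.P0 x)
  else if (i : ℕ) = 3 then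
    (if nDoPop δ F R p x ∨ nMove δ F R p x then tabQ δ (xlet p.Lt x) else x i)
  else if (i : ℕ) = 4 then
    (if nDoPush (Γ := Γ) R p x then tabT Γ R (x i)
      else if nDoPop δ F R p x ∨ nMove δ F R p x then tabR R δ (xlet p.Lt x) else x i)
  else
    (if nDoPop δ F R p x then y
      else if nMove δ F R p x then tabO δ (xlet p.Lt x) else x i)

/-- The new value. -/
noncomputable def nadv (x : Fin (k + 4 + 2) → ℕ) (y : ℕ) (i : Fin (k + 4 + 2)) : ℕ :=
  min (nadv0 δ F R p x y i) p.W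

open Classical in
/-- Code of the symbol pushed (`0` if there is no push). -/
noncomputable def npush (x : Fin (k + 4 + 2) → ℕ) : ℕ :=
  if nDoPush (Γ := Γ) R p x then min (tabH Γ R (x ⟨4, by omega⟩)) p.W else 0

open Classical in
/-- One step of the search for the symbol at height `η`. -/
noncomputable def nsymStep (η : ℕ) (q : Fin (k + 4 + 2) ⊕ Unit → ℕ) :
    Fin (k + 4 + 2) ⊕ Unit → ℕ :=
  if q (Sum.inr ()) ≠ 0 then q
  else if q (Sum.inl 1) + 1 = η ∧ npush (Γ := Γ) R p (fun i => q (Sum.inl i)) ≠ 0 then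
    Sum.elim (fun i => q (Sum.inl i)) (fun _ => npush (Γ := Γ) R p (fun i => q (Sum.inl i)))
  else Sum.elim (nadv δ F R p (fun i => q (Sum.inl i)) 0) (fun _ => 0)

/-- Code of the symbol at height `η` which is pushed in the block of `g`. -/
noncomputable def nsymAt (g : Fin (k + 4 + 2) → ℕ) (η : ℕ) : ℕ :=
  ((nsymStep δ F R p η)^[p.P0] (Sum.elim g (fun _ => 0))) (Sum.inr ())

open Classical in
/-- One step of the iteration inside a block (only the components `cur`, `bt`, `best`, `ft`, `fx`,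
`fu` of a cell are used). -/
noncomputable def nbstep (g x : Fin (k + 4 + 2) → ℕ) (a : CI (k + 4) → ℕ) : CI (k + 4) → ℕ :=
  fun q =>
  if a .ft ≠ 0 then a q
  else if blk p.P0 (x 0) ≤ a (.cur 0) then
    (match q with
      | .ft => min 2 p.W
      | .fx i => a (.cur i)
      | .fu i => if a .bt = 0 then a (.cur i) else a (.best i)
      | q => a q)
  else if nDoPop δ F R p (fun i => a (.cur i)) ∧ 0 < a (.cur 1) ∧ a (.cur 1) ≤ g 1 then
    (match q with
      | .ft => 1
      | .fx i => a (.cur i)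
      | .fu _ => 0
      | q => a q)
  else
    (match q with
      | .cur i => nadv δ F R p (fun i => a (.cur i))
          (if nDoPop δ F R p (fun i => a (.cur i)) ∧ 0 < a (.cur 1) then
            nsymAt δ F R p g (a (.cur 1)) else 0) i
      | .bt => 1
      | .best i => if a .bt = 0 ∨ a (.cur 1) ≤ a (.best 1) then a (.cur i) else a (.best i)
      | q => a q)

/-- The start of the iteration. -/
def nbinit {c : ℕ} (x : Fin (c + 2) → ℕ) : CI c → ℕ
  | .cur i => x i
  | _ => 0

/-- Numeric form of `phiB`, with `cnt` iterations. -/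
noncomputable def phiNum (cnt : ℕ) (g x : Fin (k + 4 + 2) → ℕ) (q : RI (k + 4)) : ℕ :=
  match q with
  | .tag => ((nbstep δ F R p g x)^[cnt] (nbinit x)) .ft
  | .x i => ((nbstep δ F R p g x)^[cnt] (nbinit x)) (.fx i)
  | .u i => ((nbstep δ F R p g x)^[cnt] (nbinit x)) (.fu i)

end ops

/-- The base is large enough. -/
structure NOK (Q Γ : Type) [Fintype Q] [Fintype Γ] (n R N : ℕ) [Fintype (Pend Γ R)] (B : ℕ) :
    Prop where
  hN : N < B
  hn : n + 1 < B
  hQ : Fintype.card Q < B
  hP : Fintype.card (Pend Γ R) < B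
  hG : Fintype.card Γ + 1 < B
  h2 : 2 < B

/-- Parameters for a padded word. -/
noncomputable def npW (N P0 n : List (Option α) → ℕ) (w : List (Option α)) : NP :=
  ⟨N w, P0 w, n w, w.length + 1, fun z => oc ((w[z - 1]?).join)⟩

end

end Pool.Agent.Helper17.TU
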