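import Pool.Agent.Helper17.TU.NumDef

set_option autoImplicit false

/-!
Few turns: the numeric form of one step is right.
-/

namespace Pool.Agent.Helper17.TU

open Pool.Agent.Helper17.SL Pool.Agent.Helper17.UL

section

variable {α Q Γ : Type} [Fintype α] [Fintype Q] [Fintype Γ] {k : ℕ}
variable {n R N P₀ B : ℕ} [Fintype (Pend Γ R)]

theorem kV_0 (v : TV N (Option Bool × UCtl Q Γ k n R)) : kV v 0 = (v.1 : ℕ) := rfl
theorem kV_1 (v : TV N (Option Bool × UCtl Q Γ k n R)) : kV v 1 = (v.2.1 : ℕ) := rfl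
theorem kV_2 (v : TV N (Option Bool × UCtl Q Γ k n R)) : kV v ⟨2, by omega⟩ = dirc v.2.2.1 := rfl
theorem kV_3 (v : TV N (Option Bool × UCtl Q Γ k n R)) :
    kV v ⟨3, by omega⟩ = fc v.2.2.2.1 := rfl
theorem kV_4 (v : TV N (Option Bool × UCtl Q Γ k n R)) :
    kV v ⟨4, by omega⟩ = fc v.2.2.2.2.2.1 := rfl
theorem kV_5 (v : TV N (Option Bool × UCtl Q Γ k n R)) :
    kV v ⟨5, by omega⟩ = oc v.2.2.2.2.2.2 := rfl
theorem kV_pj (v : TV N (Option Bool × UCtl Q Γ k n R)) (j : Fin k) :
    kV v (pj j) = (v.2.2.2.2.1 j : ℕ) := by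
  have h : 6 ≤ ((pj j : Fin (k + 4 + 2)) : ℕ) := by simp [pj]
  unfold kV
  rw [dif_pos h]
  congr 2

theorem kV_lt (h : NOK Q Γ n R N B) (v : TV N (Option Bool × UCtl Q Γ k n R))
    (i : Fin (k + 4 + 2)) : kV v i < B := by
  revert i
  apply idx_cases
  · rw [kV_0]; have := h.hN; have := v.1.isLt; omega
  · rw [kV_1]; have := h.hN; have := v.2.1.isLt; omega
  · rw [kV_2]; have := h.h2; rcases v.2.2.1 with _ | _ | _ <;> simp only [dirc] <;> omega
  · rw [kV_3]; have := h.hQ; have := fc_lt v.2.2.2.1; omega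
  · rw [kV_4]; have := h.hP; have := fc_lt v.2.2.2.2.2.1; omega
  · rw [kV_5]; have := h.hG; have := oc_lt v.2.2.2.2.2.2; omega
  · intro j
    rw [kV_pj]; have := h.hn; have := (v.2.2.2.2.1 j).isLt; omega

/-- The parameters belong to the word `u`. -/
structure NPOK (u : List α) (n N P₀ B : ℕ) (p : NP) : Prop where
  hN : p.N = N
  hP : p.P0 = P₀
  hn : p.n = n
  hL : ∀ z, p.Lt z = oc (u[z - 1]?)
  hW : B ≤ p.W

variable (δ : PDTrans α Q Γ k) (F : Q → Bool) {u : List α} {p : NP}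

private theorem trn11_pend (v : TV N (Option Bool × UCtl Q Γ k n R)) :
    nPend Γ R (kV v) ↔ v.2.2.2.2.2.1.1 ≠ [] := by
  unfold nPend
  rw [kV_4, tabH, ptab_code fc_injective, Ne, oc_eq_zero, List.head?_eq_none_iff]

private theorem trn11_fin (v : TV N (Option Bool × UCtl Q Γ k n R)) :
    nFin F (kV v) ↔ F v.2.2.2.1 = true := by
  unfold nFin
  rw [kV_3, tabF, ptab_code fc_injective]
  cases F v.2.2.2.1 <;> simp

private theorem trn11_let (hp : NPOK u n N P₀ B p) (v : TV N (Option Bool × UCtl Q Γ k n R)) :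
    xlet p.Lt (kV v) = dcode (v.2.2.2.1, (fun j => (decide ((v.2.2.2.2.1 j : ℕ) = 0),
        u[(v.2.2.2.2.1 j : ℕ) - 1]?)), v.2.2.2.2.2.2) := by
  funext i
  rcases i with (_ | _) | j | j
  · rfl
  · rfl
  · simp only [xlet, dval, dcode, kV_pj]
    by_cases h : (v.2.2.2.2.1 j : ℕ) = 0 <;> simp [h]
  · simp only [xlet, dval, dcode, kV_pj, hp.hL]

private theorem trn11_dir (hp : NPOK u n N P₀ B p) (v : TV N (Option Bool × UCtl Q Γ k n R)) :
    nDir p.P0 (kV v) = dirc (if (v.1 : ℕ) % P₀ = 0 then none else v.2.2.1) := by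
  unfold nDir
  rw [kV_0, kV_2, hp.hP]
  by_cases h : (v.1 : ℕ) % P₀ = 0
  · rw [if_pos h, if_pos h]
    rfl
  · rw [if_neg h, if_neg h]

private theorem trn11_d2 (d : Option Bool) : dirc d = 2 ↔ d = some false := by
  rcases d with _ | _ | _ <;> simp [dirc]

private theorem trn11_d1 (d : Option Bool) : dirc d = 1 ↔ d = some true := by
  rcases d with _ | _ | _ <;> simp [dirc]

private theorem trn11_E (hp : NPOK u n N P₀ B p) (v : TV N (Option Bool × UCtl Q Γ k n R)) :
    tabE δ (xlet p.Lt (kV v)) = 1 ↔ (uread δ u v.2.2.2).2.2.isEmpty = true := by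
  rw [trn11_let hp, tabE, ptab_code dcode_inj]
  unfold uread
  by_cases h : (δ v.2.2.2.1 (fun j => (decide ((v.2.2.2.2.1 j : ℕ) = 0),
        u[(v.2.2.2.2.1 j : ℕ) - 1]?)) v.2.2.2.2.2.2).2.2.isEmpty = true
  · simp
  · simp

private theorem trn11_X (v : TV N (Option Bool × UCtl Q Γ k n R)) :
    kV v ⟨5, by omega⟩ ≠ 0 ↔ v.2.2.2.2.2.2.isSome = true := by
  rw [kV_5, Ne, oc_eq_zero]
  cases v.2.2.2.2.2.2 <;> simp

/-- The four kinds of values. -/
private theorem trn11_cases (hp : NPOK u n N P₀ B p)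
    (v : TV N (Option Bool × UCtl Q Γ k n R)) :
    -- push
    ((∃ y ys, ∃ h : (ys : List Γ).length ≤ R, v.2.2.2.2.2.1.1 = y :: ys ∧ nPend Γ R (kV v) ∧
      tact (uact (n := n) (R := R) δ F u) P₀ v.1 v.2.2 =
        if (if (v.1 : ℕ) % P₀ = 0 then none else v.2.2.1) = some false then
          .stay (if (v.1 : ℕ) % P₀ = 0 then none else v.2.2.1, v.2.2.2)
        else .push (some true, (v.2.2.2.1, v.2.2.2.2.1, ⟨ys, h⟩, v.2.2.2.2.2.2)) y) ∨
    -- halt
    (¬ nPend Γ R (kV v) ∧ nFin F (kV v) ∧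
      tact (uact (n := n) (R := R) δ F u) P₀ v.1 v.2.2 =
        .stay (if (v.1 : ℕ) % P₀ = 0 then none else v.2.2.1, v.2.2.2)) ∨
    -- pop
    (nPop0 δ F R p (kV v) ∧
      tact (uact (n := n) (R := R) δ F u) P₀ v.1 v.2.2 =
        if (if (v.1 : ℕ) % P₀ = 0 then none else v.2.2.1) = some true then
          .stay (if (v.1 : ℕ) % P₀ = 0 then none else v.2.2.1, v.2.2.2)
        else .pop (fun y => (some false, ((uread δ u v.2.2.2).1,
          upos (uread δ u v.2.2.2).2.1 v.2.2.2.2.1, ⟨[], Nat.zero_le _⟩, y)))) ∨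
    -- move
    (nMove δ F R p (kV v) ∧
      tact (uact (n := n) (R := R) δ F u) P₀ v.1 v.2.2 =
        .stay (if (v.1 : ℕ) % P₀ = 0 then none else v.2.2.1, ((uread δ u v.2.2.2).1,
          upos (uread δ u v.2.2.2).2.1 v.2.2.2.2.1,
          ⟨((uread δ u v.2.2.2).2.2.tail.reverse).take R, by simp⟩,
          (uread δ u v.2.2.2).2.2.head?)))) := by
  have h1 := trn11_pend v
  have h2 := trn11_fin F v
  have h3 := trn11_E δ hp v
  have h4 := trn11_X v
  rcases hl : v.2.2.2.2.2.1 with ⟨l, hlen⟩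
  cases l with
  | cons y ys =>
    left
    have hys : ys.length ≤ R := by
      simp only [List.length_cons] at hlen
      omega
    have hu : uact (n := n) (R := R) δ F u v.2.2.2 =
        .push (v.2.2.2.1, v.2.2.2.2.1, ⟨ys, hys⟩, v.2.2.2.2.2.2) y := by
      unfold uact
      rw [hl]
    refine ⟨y, ys, hys, rfl, h1.2 (by rw [hl]; simp), ?_⟩
    unfold tact
    rw [hu]
  | nil =>
    right
    have hnp : ¬ nPend Γ R (kV v) := by
      rw [h1, hl]
      simp
    by_cases hF : F v.2.2.2.1 = true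
    · left
      refine ⟨hnp, h2.2 hF, ?_⟩
      have hu : uact (n := n) (R := R) δ F u v.2.2.2 = .stay v.2.2.2 := by
        unfold uact
        rw [hl]
        simp only [if_pos hF]
      unfold tact
      rw [hu]
    · right
      have hnf : ¬ nFin F (kV v) := fun h => hF (h2.1 h)
      by_cases hE : (uread δ u v.2.2.2).2.2.isEmpty = true ∧ v.2.2.2.2.2.2.isSome = true
      · left
        refine ⟨⟨hnp, hnf, h3.2 hE.1, h4.2 hE.2⟩, ?_⟩
        have hu : uact (n := n) (R := R) δ F u v.2.2.2 =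
            .pop (fun y => ((uread δ u v.2.2.2).1, upos (uread δ u v.2.2.2).2.1 v.2.2.2.2.1,
              ⟨[], Nat.zero_le _⟩, y)) := by
          unfold uact
          rw [hl]
          simp only [if_neg hF, if_pos hE]
        unfold tact
        rw [hu]
      · right
        refine ⟨⟨hnp, hnf, fun h => hE ⟨h3.1 h.1, h4.1 h.2⟩⟩, ?_⟩
        have hu : uact (n := n) (R := R) δ F u v.2.2.2 =
            .stay ((uread δ u v.2.2.2).1, upos (uread δ u v.2.2.2).2.1 v.2.2.2.2.1,
              ⟨((uread δ u v.2.2.2).2.2.tail.reverse).take R, by simp⟩,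
              (uread δ u v.2.2.2).2.2.head?) := by
          unfold uact
          rw [hl]
          simp only [if_neg hF, if_neg hE]
        unfold tact
        rw [hu]

/-- Piece TRN-11. -/
theorem nDoPop_kV (hp : NPOK u n N P₀ B p) (v : TV N (Option Bool × UCtl Q Γ k n R)) :
    nDoPop δ F R p (kV v) ↔ vpop (tact (uact (n := n) (R := R) δ F u) P₀) v = true := by
  unfold nDoPop
  rw [trn11_dir hp, Ne, trn11_d1]
  rcases trn11_cases δ F hp v with ⟨y, ys, h, -, hP, ht⟩ | ⟨hP, hf, ht⟩ | ⟨hP, ht⟩ | ⟨hM, ht⟩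
  · unfold vpop
    rw [ht]
    constructor
    · intro h1
      exact absurd hP h1.1.1
    · by_cases hd : (if (v.1 : ℕ) % P₀ = 0 then none else v.2.2.1) = some false
      · simp [hd]
      · simp [hd]
  · unfold vpop
    rw [ht]
    constructor
    · intro h1
      exact absurd hf h1.1.2.1
    · simp
  · unfold vpop
    rw [ht]
    by_cases hd : (if (v.1 : ℕ) % P₀ = 0 then none else v.2.2.1) = some true
    · simp [hd]
    · simp [hd, hP]
  · unfold vpop
    rw [ht]
    constructor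
    · intro h1
      exact absurd h1.1.2.2 hM.2.2
    · simp

private theorem trn11_push (hp : NPOK u n N P₀ B p)
    (v : TV N (Option Bool × UCtl Q Γ k n R)) :
    nDoPush (Γ := Γ) R p (kV v) ↔
      (nPend Γ R (kV v) ∧ (if (v.1 : ℕ) % P₀ = 0 then none else v.2.2.1) ≠ some false) := by
  unfold nDoPush
  rw [trn11_dir hp, Ne, trn11_d2]

/-- Piece TRN-11. -/
theorem npush_kV (hB : NOK Q Γ n R N B) (hp : NPOK u n N P₀ B p)
    (v : TV N (Option Bool × UCtl Q Γ k n R)) :
    npush (Γ := Γ) R p (kV v) = oc (vpush (tact (uact (n := n) (R := R) δ F u) P₀) v) := by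
  unfold npush vpush
  rcases trn11_cases δ F hp v with ⟨y, ys, h, hl, hP, ht⟩ | ⟨hP, hf, ht⟩ | ⟨hP, ht⟩ | ⟨hM, ht⟩
  · rw [ht]
    by_cases hd : (if (v.1 : ℕ) % P₀ = 0 then none else v.2.2.1) = some false
    · rw [if_neg (fun h1 => ((trn11_push hp v).1 h1).2 hd)]
      simp only [if_pos hd]
      rfl
    · rw [if_pos ((trn11_push hp v).2 ⟨hP, hd⟩)]
      simp only [if_neg hd]
      rw [kV_4, tabH, ptab_code fc_injective, hl]
      have h1 := hB.hG
      have h2 := hp.hW
      have h3 := oc_lt (some y)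
      change min (oc (some y)) p.W = oc (some y)
      omega
  · rw [ht, if_neg (fun h1 => hP h1.1)]
    rfl
  · rw [ht, if_neg (fun h1 => hP.1 h1.1)]
    by_cases hd : (if (v.1 : ℕ) % P₀ = 0 then none else v.2.2.1) = some true
    · simp only [if_pos hd]
      rfl
    · simp only [if_neg hd]
      rfl
  · rw [ht, if_neg (fun h1 => hM.1 h1.1)]
    rfl

section adv

variable (x : Fin (k + 4 + 2) → ℕ) (y : ℕ)

private theorem trn11_0 : nadv0 δ F R p x y 0 = min (x 0 + 1) p.N := rfl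

open Classical in
private theorem trn11_1 : nadv0 δ F R p x y 1 = (if nDoPush (Γ := Γ) R p x then
      min (x 1 + 1) p.N else if nDoPop δ F R p x then min (x 1 - 1) p.N else x 1) := rfl

open Classical in
private theorem trn11_2 : nadv0 δ F R p x y ⟨2, by omega⟩ =
    (if nDoPush (Γ := Γ) R p x then 1 else if nDoPop δ F R p x then 2 else nDir p.P0 x) := rfl

open Classical in
private theorem trn11_3 : nadv0 δ F R p x y ⟨3, by omega⟩ =
    (if nDoPop δ F R p x ∨ nMove δ F R p x then tabQ δ (xlet p.Lt x) else x ⟨3, by omega⟩) := rfl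

open Classical in
private theorem trn11_4 : nadv0 δ F R p x y ⟨4, by omega⟩ =
    (if nDoPush (Γ := Γ) R p x then tabT Γ R (x ⟨4, by omega⟩)
      else if nDoPop δ F R p x ∨ nMove δ F R p x then tabR R δ (xlet p.Lt x)
      else x ⟨4, by omega⟩) := rfl

open Classical in
private theorem trn11_5 : nadv0 δ F R p x y ⟨5, by omega⟩ =
    (if nDoPop δ F R p x then y
      else if nMove δ F R p x then tabO δ (xlet p.Lt x) else x ⟨5, by omega⟩) := rfl

open Classical in
private theorem trn11_pj (j : Fin k) : nadv0 δ F R p x y (pj j) =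
    (if nDoPop δ F R p x ∨ nMove δ F R p x then
      min (mvpN p.n (tabM δ j (xlet p.Lt x)) (x (pj j))) (p.n + 1) else x (pj j)) := by
  have h6 : 6 ≤ ((pj j : Fin (k + 4 + 2)) : ℕ) := by simp [pj]
  rw [nadv0, dif_pos h6]
  rfl

end adv

private theorem trn11_upos (hp : NPOK u n N P₀ B p) (v : TV N (Option Bool × UCtl Q Γ k n R))
    (j : Fin k) : (upos (uread δ u v.2.2.2).2.1 v.2.2.2.2.1 j : ℕ) =
      min (mvpN p.n (tabM δ j (xlet p.Lt (kV v))) (kV v (pj j))) (p.n + 1) := by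
  rw [trn11_let hp, tabM, ptab_code dcode_inj, mvpN_eq, hp.hn, kV_pj]
  rfl

private theorem trn11_adv0 (hp : NPOK u n N P₀ B p)
    (v : TV N (Option Bool × UCtl Q Γ k n R)) (y : Option Γ) :
    kV (vadv (tact (uact (n := n) (R := R) δ F u) P₀) v y) = nadv0 δ F R p (kV v) (oc y) := by
  have hpush := trn11_push (Γ := Γ) (R := R) hp v
  have hpop : nDoPop δ F R p (kV v) ↔ (nPop0 δ F R p (kV v) ∧
      (if (v.1 : ℕ) % P₀ = 0 then none else v.2.2.1) ≠ some true) := by
    unfold nDoPop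
    rw [trn11_dir hp, Ne, trn11_d1]
  rcases trn11_cases δ F hp v with ⟨z, zs, h, hl, hP, ht⟩ | ⟨hP, hf, ht⟩ | ⟨hP, ht⟩ | ⟨hM, ht⟩
  · have n1 : ¬ nDoPop δ F R p (kV v) := fun h1 => h1.1.1 hP
    have n2 : ¬ nMove δ F R p (kV v) := fun h1 => h1.1 hP
    have n3 : ¬ (nDoPop δ F R p (kV v) ∨ nMove δ F R p (kV v)) := by tauto
    unfold vadv
    rw [ht]
    by_cases hd : (if (v.1 : ℕ) % P₀ = 0 then none else v.2.2.1) = some false
    · have n4 : ¬ nDoPush (Γ := Γ) R p (kV v) := fun h1 => (hpush.1 h1).2 hd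
      simp only [if_pos hd]
      funext i
      revert i
      apply idx_cases
      · rw [trn11_0, hp.hN]; rfl
      · rw [trn11_1, if_neg n4, if_neg n1]; rfl
      · rw [trn11_2, if_neg n4, if_neg n1, trn11_dir hp, hd]; rfl
      · rw [trn11_3, if_neg n3]; rfl
      · rw [trn11_4, if_neg n4, if_neg n3]; rfl
      · rw [trn11_5, if_neg n1, if_neg n2]; rfl
      · intro j
        rw [trn11_pj, if_neg n3, kV_pj, kV_pj]
    · have n4 : nDoPush (Γ := Γ) R p (kV v) := hpush.2 ⟨hP, hd⟩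
      simp only [if_neg hd]
      funext i
      revert i
      apply idx_cases
      · rw [trn11_0, hp.hN]; rfl
      · rw [trn11_1, if_pos n4, hp.hN]; rfl
      · rw [trn11_2, if_pos n4]; rfl
      · rw [trn11_3, if_neg n3]; rfl
      · rw [trn11_4, if_pos n4, kV_4, kV_4, tabT, ptab_code fc_injective]
        congr 1
        apply Subtype.ext
        simp [hl]
      · rw [trn11_5, if_neg n1, if_neg n2]; rfl
      · intro j
        rw [trn11_pj, if_neg n3, kV_pj, kV_pj]
  · have n1 : ¬ nDoPop δ F R p (kV v) := fun h1 => h1.1.2.1 hf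
    have n2 : ¬ nMove δ F R p (kV v) := fun h1 => h1.2.1 hf
    have n3 : ¬ (nDoPop δ F R p (kV v) ∨ nMove δ F R p (kV v)) := by tauto
    have n4 : ¬ nDoPush (Γ := Γ) R p (kV v) := fun h1 => hP h1.1
    unfold vadv
    rw [ht]
    funext i
    revert i
    apply idx_cases
    · rw [trn11_0, hp.hN]; rfl
    · rw [trn11_1, if_neg n4, if_neg n1]; rfl
    · rw [trn11_2, if_neg n4, if_neg n1, trn11_dir hp]; rfl
    · rw [trn11_3, if_neg n3]; rfl
    · rw [trn11_4, if_neg n4, if_neg n3]; rfl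
    · rw [trn11_5, if_neg n1, if_neg n2]; rfl
    · intro j
      rw [trn11_pj, if_neg n3, kV_pj, kV_pj]
  · have n2 : ¬ nMove δ F R p (kV v) := fun h1 => h1.2.2 hP.2.2
    have n4 : ¬ nDoPush (Γ := Γ) R p (kV v) := fun h1 => hP.1 h1.1
    unfold vadv
    rw [ht]
    by_cases hd : (if (v.1 : ℕ) % P₀ = 0 then none else v.2.2.1) = some true
    · have n1 : ¬ nDoPop δ F R p (kV v) := fun h1 => (hpop.1 h1).2 hd
      have n3 : ¬ (nDoPop δ F R p (kV v) ∨ nMove δ F R p (kV v)) := by tauto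
      simp only [if_pos hd]
      funext i
      revert i
      apply idx_cases
      · rw [trn11_0, hp.hN]; rfl
      · rw [trn11_1, if_neg n4, if_neg n1]; rfl
      · rw [trn11_2, if_neg n4, if_neg n1, trn11_dir hp, hd]; rfl
      · rw [trn11_3, if_neg n3]; rfl
      · rw [trn11_4, if_neg n4, if_neg n3]; rfl
      · rw [trn11_5, if_neg n1, if_neg n2]; rfl
      · intro j
        rw [trn11_pj, if_neg n3, kV_pj, kV_pj]
    · have n1 : nDoPop δ F R p (kV v) := hpop.2 ⟨hP, hd⟩
      have n3 : nDoPop δ F R p (kV v) ∨ nMove δ F R p (kV v) := Or.inl n1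
      have hE : (uread δ u v.2.2.2).2.2 = [] := by
        have h1 := (trn11_E δ hp v).1 hP.2.2.1
        exact List.isEmpty_iff.1 h1
      simp only [if_neg hd]
      funext i
      revert i
      apply idx_cases
      · rw [trn11_0, hp.hN]; rfl
      · rw [trn11_1, if_neg n4, if_pos n1, hp.hN]; rfl
      · rw [trn11_2, if_neg n4, if_pos n1]; rfl
      · rw [trn11_3, if_pos n3, trn11_let hp, tabQ, ptab_code dcode_inj]; rfl
      · rw [trn11_4, if_neg n4, if_pos n3, trn11_let hp, tabR, ptab_code dcode_inj, kV_4]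
        congr 1
        apply Subtype.ext
        change [] = (((uread δ u v.2.2.2).2.2.tail.reverse).take R)
        rw [hE]
        simp
      · rw [trn11_5, if_pos n1]; rfl
      · intro j
        rw [trn11_pj, if_pos n3, ← trn11_upos δ hp, kV_pj]
  · have n1 : ¬ nDoPop δ F R p (kV v) := fun h1 => hM.2.2 h1.1.2.2
    have n3 : nDoPop δ F R p (kV v) ∨ nMove δ F R p (kV v) := Or.inr hM
    have n4 : ¬ nDoPush (Γ := Γ) R p (kV v) := fun h1 => hM.1 h1.1
    unfold vadv
    rw [ht]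
    funext i
    revert i
    apply idx_cases
    · rw [trn11_0, hp.hN]; rfl
    · rw [trn11_1, if_neg n4, if_neg n1]; rfl
    · rw [trn11_2, if_neg n4, if_neg n1, trn11_dir hp]; rfl
    · rw [trn11_3, if_pos n3, trn11_let hp, tabQ, ptab_code dcode_inj]; rfl
    · rw [trn11_4, if_neg n4, if_pos n3, trn11_let hp, tabR, ptab_code dcode_inj]; rfl
    · rw [trn11_5, if_neg n1, if_pos hM, trn11_let hp, tabO, ptab_code dcode_inj]; rfl
    · intro j
      rw [trn11_pj, if_pos n3, ← trn11_upos δ hp, kV_pj]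

/-- Piece TRN-11. Compare `Helper17.UL.cV_newc_pend`, `cV_newc_halt`, `cV_newc_move` in
`Helper17/UL/MachEq.lean`. The cap does nothing by `kV_lt`. -/
theorem kV_vadv (hB : NOK Q Γ n R N B) (hp : NPOK u n N P₀ B p)
    (v : TV N (Option Bool × UCtl Q Γ k n R)) (y : Option Γ) :
    kV (vadv (tact (uact (n := n) (R := R) δ F u) P₀) v y) = nadv δ F R p (kV v) (oc y) := by
  funext i
  unfold nadv
  rw [← trn11_adv0 δ F hp v y]
  have h1 := kV_lt hB (vadv (tact (uact (n := n) (R := R) δ F u) P₀) v y) i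
  have h2 := hp.hW
  omega

end

end Pool.Agent.Helper17.TU
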