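import Pool.Agent.Helper17.TU.NumEq

set_option autoImplicit false

/-!
Few turns: the numeric form of the function for blocks of length `P₀` is right.
-/

namespace Pool.Agent.Helper17.TU

open Pool.Agent.Helper17.SL Pool.Agent.Helper17.UL

section

variable {α Q Γ : Type} [Fintype α] [Fintype Q] [Fintype Γ] {k : ℕ}
variable {n R N P₀ B : ℕ} [Fintype (Pend Γ R)]
variable (δ : PDTrans α Q Γ k) (F : Q → Bool) {u : List α} {p : NP}

/-- Numeric state of the search. -/
private noncomputable def trn12_tk (q : TV N (Option Bool × UCtl Q Γ k n R) × Option Γ) :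
    Fin (k + 4 + 2) ⊕ Unit → ℕ := Sum.elim (kV q.1) (fun _ => oc q.2)

private theorem trn12_step (hB : NOK Q Γ n R N B) (hp : NPOK u n N P₀ B p) (η : ℕ)
    (q : TV N (Option Bool × UCtl Q Γ k n R) × Option Γ) :
    nsymStep δ F R p η (trn12_tk q) =
      trn12_tk (symStep (tact (uact (n := n) (R := R) δ F u) P₀) η q) := by
  obtain ⟨v, y⟩ := q
  have e1 : ∀ i, (trn12_tk (v, y) : Fin (k + 4 + 2) ⊕ Unit → ℕ) (Sum.inl i) = kV v i :=
    fun i => rfl
  have e2 : (trn12_tk (v, y) : Fin (k + 4 + 2) ⊕ Unit → ℕ) (Sum.inr ()) = oc y := rfl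
  unfold nsymStep symStep
  simp only [e1, e2]
  have e3 : (fun i => kV v i) = kV v := rfl
  simp only [npush_kV δ F hB hp, kV_1]
  cases y with
  | some y =>
    have h1 : oc (some y) ≠ 0 := by simp [oc]
    rw [if_pos h1, if_pos (by simp)]
  | none =>
    have h1 : ¬ (oc (none : Option Γ) ≠ 0) := by simp [oc]
    rw [if_neg h1, if_neg (show ¬ ((v, (none : Option Γ)).2.isSome = true) by simp)]
    by_cases h2 : (v.2.1 : ℕ) + 1 = η ∧
        (vpush (tact (uact (n := n) (R := R) δ F u) P₀) v).isSome = true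
    · rw [if_pos h2, if_pos]
      · rfl
      · refine ⟨h2.1, ?_⟩
        intro h3
        rw [oc_eq_zero] at h3
        rw [h3] at h2
        simp at h2
    · rw [if_neg h2, if_neg]
      · unfold trn12_tk
        simp only
        rw [kV_vadv δ F hB hp]
        rfl
      · rintro ⟨h3, h4⟩
        apply h2
        refine ⟨h3, ?_⟩
        rw [Ne, oc_eq_zero] at h4
        exact Option.isSome_iff_ne_none.mpr h4

private theorem trn12_iter (hB : NOK Q Γ n R N B) (hp : NPOK u n N P₀ B p) (η : ℕ) (j : ℕ)
    (q : TV N (Option Bool × UCtl Q Γ k n R) × Option Γ) :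
    (nsymStep δ F R p η)^[j] (trn12_tk q) =
      trn12_tk ((symStep (tact (uact (n := n) (R := R) δ F u) P₀) η)^[j] q) := by
  induction j generalizing q with
  | zero => rfl
  | succ j ih =>
    rw [Function.iterate_succ_apply, Function.iterate_succ_apply, trn12_step δ F hB hp, ih]

/-- Piece TRN-12. Induction on the number of iterations, with the numeric state
`Sum.elim (kV q.1) (fun _ => oc q.2)` for `q : TV × Option Γ`. -/
theorem nsymAt_kV (hB : NOK Q Γ n R N B) (hp : NPOK u n N P₀ B p)
    (g : TV N (Option Bool × UCtl Q Γ k n R)) (η : ℕ) :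
    nsymAt δ F R p (kV g) η =
      oc (symAt (tact (uact (n := n) (R := R) δ F u) P₀) P₀ g η) := by
  unfold nsymAt symAt
  rw [hp.hP]
  exact congrFun (trn12_iter δ F hB hp η P₀ (g, none)) (Sum.inr ())

/-- Numeric state of the iteration. -/
private noncomputable def trn12_cBS (q : BS (TV N (Option Bool × UCtl Q Γ k n R))) :
    CI (k + 4) → ℕ
  | .cur i => kV q.cur i
  | .bt => if q.best.isSome then 1 else 0
  | .best i => match q.best with
    | none => 0
    | some v => kV v i
  | .ft => cRes kV q.fin .tag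
  | .fx i => cRes kV q.fin (.x i)
  | .fu i => cRes kV q.fin (.u i)
  | _ => 0

private theorem trn12_bstep (hB : NOK Q Γ n R N B) (hp : NPOK u n N P₀ B p)
    (g x : TV N (Option Bool × UCtl Q Γ k n R)) (q : BS (TV N (Option Bool × UCtl Q Γ k n R))) :
    nbstep δ F R p (kV g) (kV x) (trn12_cBS q) =
      trn12_cBS (bstep (tact (uact (n := n) (R := R) δ F u) P₀) P₀ g x q) := by
  obtain ⟨c, b, f⟩ := q
  have e1 : ∀ i, (trn12_cBS ⟨c, b, f⟩ : CI (k + 4) → ℕ) (.cur i) = kV c i := fun i => rfl
  have hW : 2 ≤ p.W := by have := hp.hW; have := hB.h2; omega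
  have hpop := nDoPop_kV δ F hp c
  cases f with
  | popped y =>
    have h1 : (trn12_cBS ⟨c, b, .popped y⟩ : CI (k + 4) → ℕ) .ft ≠ 0 := by
      simp [trn12_cBS, cRes, nPopped]
    funext r
    unfold nbstep bstep
    rw [if_pos h1]
  | done y z =>
    have h1 : (trn12_cBS ⟨c, b, .done y z⟩ : CI (k + 4) → ℕ) .ft ≠ 0 := by
      simp [trn12_cBS, cRes]
    funext r
    unfold nbstep bstep
    rw [if_pos h1]
  | none =>
    have h1 : ¬ ((trn12_cBS ⟨c, b, .none⟩ : CI (k + 4) → ℕ) .ft ≠ 0) := by
      simp [trn12_cBS, cRes]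
    funext r
    unfold nbstep bstep
    rw [if_neg h1]
    simp only [e1, kV_0, kV_1, hp.hP]
    by_cases h2 : blk P₀ (x.1 : ℕ) ≤ (c.1 : ℕ)
    · rw [if_pos h2, if_pos h2]
      cases r with
      | ft => simp only [trn12_cBS, cRes]; omega
      | fx i => rfl
      | fu i =>
        cases b with
        | none => simp [trn12_cBS, cRes]
        | some b => simp [trn12_cBS, cRes]
      | _ => rfl
    · rw [if_neg h2, if_neg h2]
      by_cases h3 : vpop (tact (uact (n := n) (R := R) δ F u) P₀) c = true ∧ 0 < (c.2.1 : ℕ) ∧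
          (c.2.1 : ℕ) ≤ (g.2.1 : ℕ)
      · rw [if_pos h3, if_pos ⟨hpop.mpr h3.1, h3.2.1, h3.2.2⟩]
        cases r with
        | ft => simp [trn12_cBS, cRes, nPopped]
        | fx i => simp [trn12_cBS, cRes, nPopped]
        | fu i => simp [trn12_cBS, cRes, nPopped]
        | _ => rfl
      · rw [if_neg h3, if_neg (fun h4 => h3 ⟨hpop.mp h4.1, h4.2.1, h4.2.2⟩)]
        cases r with
        | cur i =>
          simp only [trn12_cBS]
          rw [kV_vadv δ F hB hp]
          congr 1
          by_cases h5 : vpop (tact (uact (n := n) (R := R) δ F u) P₀) c = true ∧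
              0 < (c.2.1 : ℕ)
          · rw [if_pos h5, if_pos ⟨hpop.mpr h5.1, h5.2⟩, nsymAt_kV δ F hB hp]
          · rw [if_neg h5, if_neg (fun h6 => h5 ⟨hpop.mp h6.1, h6.2⟩)]
            rfl
        | bt =>
          cases b with
          | none => simp [trn12_cBS, better]
          | some b =>
            by_cases h5 : tht c ≤ tht b <;> simp [trn12_cBS, better, h5]
        | best i =>
          cases b with
          | none => simp [trn12_cBS, better]
          | some b =>
            simp only [trn12_cBS, better, tht, kV_1]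
            by_cases h5 : (c.2.1 : ℕ) ≤ (b.2.1 : ℕ)
            · simp [h5]
            · simp [h5]
        | _ => rfl

private theorem trn12_biter (hB : NOK Q Γ n R N B) (hp : NPOK u n N P₀ B p)
    (g x : TV N (Option Bool × UCtl Q Γ k n R)) (j : ℕ)
    (q : BS (TV N (Option Bool × UCtl Q Γ k n R))) :
    (nbstep δ F R p (kV g) (kV x))^[j] (trn12_cBS q) =
      trn12_cBS ((bstep (tact (uact (n := n) (R := R) δ F u) P₀) P₀ g x)^[j] q) := by
  induction j generalizing q with
  | zero => rfl
  | succ j ih =>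
    rw [Function.iterate_succ_apply, Function.iterate_succ_apply, trn12_bstep δ F hB hp, ih]

/-- Piece TRN-12. Define the code `CI (k + 4) → ℕ` of a state `BS V` (components `cur`, `bt`,
`best` (`0` if there is none), `ft`, `fx`, `fu` by `cRes kV`, all others `0`) and show by induction
that `nbstep` follows `bstep`. -/
theorem phiNum_kV (hB : NOK Q Γ n R N B) (hp : NPOK u n N P₀ B p)
    (g x : TV N (Option Bool × UCtl Q Γ k n R)) :
    phiNum δ F R p (P₀ + 1) (kV g) (kV x) =
      cRes kV (phiB (tact (uact (n := n) (R := R) δ F u) P₀) P₀ g x) := by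
  have h0 : (nbinit (kV x) : CI (k + 4) → ℕ) = trn12_cBS ⟨x, none, .none⟩ := by
    funext r
    cases r <;> rfl
  have h1 := trn12_biter δ F hB hp g x (P₀ + 1) ⟨x, none, .none⟩
  rw [← h0] at h1
  funext r
  unfold phiNum phiB
  cases r with
  | tag => exact congrFun h1 .ft
  | x i => exact congrFun h1 (.fx i)
  | u i => exact congrFun h1 (.fu i)

end

end Pool.Agent.Helper17.TU
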