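import Pool.Agent.Helper17.TU.NumDef
import Pool.Agent.Helper68.UL.Phi0FL

set_option autoImplicit false

/-!
Few turns: the numeric form is computable by multihead automata.
-/

namespace Pool.Agent.Helper17.TU

open Pool.Agent.Helper17.SL Pool.Agent.Helper17.UL Pool.Agent.Helper6

section

variable {α Q Γ : Type} [Fintype α] [Fintype Q] [Fintype Γ] {k : ℕ}
variable (δ : PDTrans α Q Γ k) (F : Q → Bool) (R : ℕ) [Fintype (Pend Γ R)]
variable {N P0 n : List (Option α) → ℕ}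

theorem trn14_dcode (x : Q × (Fin k → Bool × Option α) × Option Γ) :
    IsL (Option α) (Fin (k + 4 + 2)) (fun w z => dcode x = xlet (npW N P0 n w).Lt z) := by
  have h : ∀ d : DI k, IsL (Option α) (Fin (k + 4 + 2))
      (fun w z => dcode x d = xlet (npW N P0 n w).Lt z d) := by
    rintro ((_ | _) | (j | j))
    · refine IsL.congr (isL_const (fc x.1) ⟨3, by omega⟩) ?_
      intro w z _
      exact eq_comm
    · refine IsL.congr (isL_const (oc x.2.2) ⟨5, by omega⟩) ?_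
      intro w z _
      exact eq_comm
    · refine IsL.congr (IsL.iff (IsL.const ((x.2.1 j).1 = true)) (IsL.isZero (pj j))) ?_
      intro w z _
      simp only [dcode, dval, xlet]
      by_cases h1 : (x.2.1 j).1 = true <;> by_cases h2 : z (pj j) = 0 <;> simp [h1, h2]
    · exact IsL.sym (pj j) (fun s => oc (x.2.1 j).2 = oc (s.2.join))
  refine IsL.congr (IsL.bigAnd h) ?_
  intro w z _
  exact funext_iff

theorem trn14_nPend : IsL (Option α) (Fin (k + 4 + 2)) (fun _ z => nPend Γ R z) :=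
  IsL.not (isL_ptab _ _ (fun x => isL_var x (⟨4, by omega⟩ : Fin (k + 4 + 2))) 0)

theorem trn14_nFin : IsL (Option α) (Fin (k + 4 + 2)) (fun _ z => nFin F z) :=
  isL_ptab _ _ (fun x => isL_var x (⟨3, by omega⟩ : Fin (k + 4 + 2))) 1

theorem trn14_nDir (hP0 : FL (Option α) Empty (fun w _ => P0 w)) :
    FL (Option α) (Fin (k + 4 + 2)) (fun w x => nDir (P0 w) x) :=
  FL.ite (isL_eq (FL.mod (FL.proj 0) (FL.ofEmpty hP0)) FL.zero) FL.zero
    (FL.proj (⟨2, by omega⟩ : Fin (k + 4 + 2)))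

theorem trn14_isDir (hP0 : FL (Option α) Empty (fun w _ => P0 w)) (c : ℕ) :
    IsL (Option α) (Fin (k + 4 + 2)) (fun w x => nDir (P0 w) x = c) := by
  refine IsL.congr (IsL.and (isL_eq (trn14_nDir hP0) (FL.const c))
    (isL_comp (U := Unit) (isL_const c ()) (fun _ => trn14_nDir hP0))) ?_
  intro w x hx
  have h1 := (trn14_nDir (k := k) hP0).bd w x hx
  constructor
  · rintro h
    exact ⟨by omega, h⟩
  · rintro ⟨-, h⟩
    exact h

theorem trn14_nDoPush (hP0 : FL (Option α) Empty (fun w _ => P0 w)) :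
    IsL (Option α) (Fin (k + 4 + 2)) (fun w x => nDoPush (Γ := Γ) R (npW N P0 n w) x) :=
  IsL.and (trn14_nPend R) (IsL.not (trn14_isDir hP0 2))

theorem trn14_nE : IsL (Option α) (Fin (k + 4 + 2)) (fun w x =>
    tabE δ (xlet (npW N P0 n w).Lt x) = 1 ∧ x ⟨5, by omega⟩ ≠ 0) :=
  IsL.and (isL_ptab _ _ trn14_dcode 1) (IsL.not (IsL.isZero _))

theorem trn14_nMove : IsL (Option α) (Fin (k + 4 + 2)) (fun w x =>
    nMove δ F R (npW N P0 n w) x) :=
  IsL.and (IsL.not (trn14_nPend R)) (IsL.and (IsL.not (trn14_nFin F)) (IsL.not (trn14_nE δ)))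

/-- Piece TRN-14. Compare `Helper68/UL/Phi0FL.lean` (`isL_dcode`, `isL_ptab`, `FL.ptab`,
`isL_nPend`, `newc_FL`). -/
theorem nDoPop_isL (hP0 : FL (Option α) Empty (fun w _ => P0 w)) :
    IsL (Option α) (Fin (k + 4 + 2)) (fun w x => nDoPop δ F R (npW N P0 n w) x) :=
  IsL.and (IsL.and (IsL.not (trn14_nPend R)) (IsL.and (IsL.not (trn14_nFin F)) (trn14_nE δ)))
    (IsL.not (trn14_isDir hP0 1))

open Classical in
/-- Piece TRN-14. -/
theorem npush_FL (hP0 : FL (Option α) Empty (fun w _ => P0 w)) :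
    FL (Option α) (Fin (k + 4 + 2)) (fun w x => npush (Γ := Γ) R (npW N P0 n w) x) :=
  FL.ite (trn14_nDoPush R hP0) (FL.ptab (β := Option α) (V := Fin (k + 4 + 2))
    (fun p : Pend Γ R => fc p) (fun p => oc p.1.head?) (p := fun _ z => z ⟨4, by omega⟩)
    (fun p => isL_var p (⟨4, by omega⟩ : Fin (k + 4 + 2)))) FL.zero

open Classical in
/-- Piece TRN-14. -/
theorem nadv_FL (hN : FL (Option α) Empty (fun w _ => N w))
    (hP0 : FL (Option α) Empty (fun w _ => P0 w)) (hn : FL (Option α) Empty (fun w _ => n w))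
    (i : Fin (k + 4 + 2)) :
    FL (Option α) (Fin (k + 4 + 2) ⊕ Unit) (fun w z =>
      nadv δ F R (npW N P0 n w) (z ∘ Sum.inl) (z (Sum.inr ())) i) := by
  have lft : ∀ {S : List (Option α) → (Fin (k + 4 + 2) → ℕ) → Prop},
      IsL (Option α) (Fin (k + 4 + 2)) S →
      IsL (Option α) (Fin (k + 4 + 2) ⊕ Unit) (fun w z => S w (z ∘ Sum.inl)) := fun h =>
    IsL.lift h (Sum.inl : Fin (k + 4 + 2) → Fin (k + 4 + 2) ⊕ Unit) Sum.inl_injective
  have hPu : IsL (Option α) (Fin (k + 4 + 2) ⊕ Unit) (fun w z =>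
      nDoPush (Γ := Γ) R (npW N P0 n w) (z ∘ Sum.inl)) := lft (trn14_nDoPush R hP0)
  have hPo : IsL (Option α) (Fin (k + 4 + 2) ⊕ Unit) (fun w z =>
      nDoPop δ F R (npW N P0 n w) (z ∘ Sum.inl)) := lft (nDoPop_isL δ F R hP0)
  have hMo : IsL (Option α) (Fin (k + 4 + 2) ⊕ Unit) (fun w z =>
      nMove δ F R (npW N P0 n w) (z ∘ Sum.inl)) := lft (trn14_nMove δ F R)
  have hdc : ∀ x : Q × (Fin k → Bool × Option α) × Option Γ,
      IsL (Option α) (Fin (k + 4 + 2) ⊕ Unit) (fun w z =>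
        dcode x = xlet (npW N P0 n w).Lt (z ∘ Sum.inl)) := fun x => lft (trn14_dcode x)
  have hx : ∀ j : Fin (k + 4 + 2),
      FL (Option α) (Fin (k + 4 + 2) ⊕ Unit) (fun _ z => z (Sum.inl j)) := fun j => FL.proj _
  have hy : FL (Option α) (Fin (k + 4 + 2) ⊕ Unit) (fun _ z => z (Sum.inr ())) := FL.proj _
  have hN' : FL (Option α) (Fin (k + 4 + 2) ⊕ Unit) (fun w _ => N w) := FL.ofEmpty hN
  have hn' : FL (Option α) (Fin (k + 4 + 2) ⊕ Unit) (fun w _ => n w) := FL.ofEmpty hn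
  have hD : FL (Option α) (Fin (k + 4 + 2) ⊕ Unit) (fun w z => nDir (P0 w) (z ∘ Sum.inl)) :=
    FL.inl (U := Unit) (trn14_nDir hP0)
  by_cases h6 : 6 ≤ (i : ℕ)
  · have ht := fun m => isL_ptab (β := Option α) (V := Fin (k + 4 + 2) ⊕ Unit)
      (dcode (α := α) (Q := Q) (Γ := Γ) (k := k))
      (fun x => ((δ x.1 x.2.1 x.2.2).2.1 ⟨i - 6, by omega⟩ : ℕ)) hdc m
    refine FL.congr (FL.ite (IsL.or hPo hMo) (FL.min' (FL.ite (ht 0) (hx i).pred
      (FL.ite (ht 1) (hx i) (FL.min' (hx i).succ hn'.succ))) hn'.succ) (hx i)) ?_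
    intro w z hz
    have h1 := hz (Sum.inl i)
    have e : ptab (dcode (α := α) (Q := Q) (Γ := Γ) (k := k))
        (fun x => ((δ x.1 x.2.1 x.2.2).2.1 ⟨i - 6, by omega⟩ : ℕ))
        (xlet (npW N P0 n w).Lt (z ∘ Sum.inl)) =
        tabM δ ⟨i - 6, by omega⟩ (xlet (npW N P0 n w).Lt (z ∘ Sum.inl)) := rfl
    rw [e]
    simp only [nadv, nadv0, dif_pos h6, mvpN, Function.comp_apply]
    generalize tabM δ ⟨i - 6, by omega⟩ (xlet (npW N P0 n w).Lt (z ∘ Sum.inl)) = d
    simp only [npW]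
    split_ifs <;> omega
  by_cases h0 : (i : ℕ) = 0
  · refine FL.congr (FL.min' (hx 0).succ hN') ?_
    intro w z hz
    have h1 := hN'.bd w z hz
    simp only [nadv, nadv0, dif_neg h6, if_pos h0, Function.comp_apply, npW]
    omega
  by_cases h1 : (i : ℕ) = 1
  · refine FL.congr (FL.ite hPu (FL.min' (hx 1).succ hN')
      (FL.ite hPo (FL.min' (hx 1).pred hN') (hx 1))) ?_
    intro w z hz
    have h2 := hN'.bd w z hz
    have h3 := hz (Sum.inl 1)
    simp only [nadv, nadv0, dif_neg h6, if_neg h0, if_pos h1, Function.comp_apply]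
    have e1 : (npW N P0 n w).N = N w := rfl
    have e2 : (npW N P0 n w).W = w.length + 1 := rfl
    rw [e1, e2]
    split_ifs <;> omega
  by_cases h2 : (i : ℕ) = 2
  · refine FL.congr (FL.ite hPu FL.one (FL.ite hPo (FL.const 2) hD)) ?_
    intro w z hz
    have h3 := hD.bd w z hz
    simp only [nadv, nadv0, dif_neg h6, if_neg h0, if_neg h1, if_pos h2]
    have e1 : (npW N P0 n w).P0 = P0 w := rfl
    have e2 : (npW N P0 n w).W = w.length + 1 := rfl
    rw [e1, e2]
    split_ifs <;> omega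
  by_cases h3 : (i : ℕ) = 3
  · refine FL.congr (FL.ite (IsL.or hPo hMo) (FL.ptab (β := Option α)
      (V := Fin (k + 4 + 2) ⊕ Unit) (dcode (α := α) (Q := Q) (Γ := Γ) (k := k))
      (fun x => fc (δ x.1 x.2.1 x.2.2).1) hdc) (hx i)) ?_
    intro w z hz
    have h4 := hz (Sum.inl i)
    simp only [nadv, nadv0, dif_neg h6, if_neg h0, if_neg h1, if_neg h2, if_pos h3,
      Function.comp_apply, tabQ]
    have e2 : (npW N P0 n w).W = w.length + 1 := rfl
    rw [e2]
    split_ifs <;> omega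
  by_cases h4 : (i : ℕ) = 4
  · refine FL.congr (FL.ite hPu (FL.ptab (β := Option α) (V := Fin (k + 4 + 2) ⊕ Unit)
      (fun p : Pend Γ R => fc p) (fun p => fc (⟨p.1.tail, by
        have := p.2
        simp only [List.length_tail]
        omega⟩ : Pend Γ R)) (p := fun _ z => z (Sum.inl i)) (fun p => isL_var p (Sum.inl i)))
      (FL.ite (IsL.or hPo hMo) (FL.ptab (β := Option α) (V := Fin (k + 4 + 2) ⊕ Unit)
      (dcode (α := α) (Q := Q) (Γ := Γ) (k := k))
      (fun x => fc (⟨((δ x.1 x.2.1 x.2.2).2.2.tail.reverse).take R, by simp⟩ : Pend Γ R))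
      hdc) (hx i))) ?_
    intro w z hz
    have h5 := hz (Sum.inl i)
    simp only [nadv, nadv0, dif_neg h6, if_neg h0, if_neg h1, if_neg h2, if_neg h3, if_pos h4,
      Function.comp_apply, tabT, tabR]
    have e2 : (npW N P0 n w).W = w.length + 1 := rfl
    rw [e2]
    split_ifs <;> omega
  · refine FL.congr (FL.ite hPo hy (FL.ite hMo (FL.ptab (β := Option α)
      (V := Fin (k + 4 + 2) ⊕ Unit) (dcode (α := α) (Q := Q) (Γ := Γ) (k := k))
      (fun x => oc (δ x.1 x.2.1 x.2.2).2.2.head?) hdc) (hx i))) ?_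
    intro w z hz
    have h5 := hz (Sum.inl i)
    have h7 := hz (Sum.inr ())
    simp only [nadv, nadv0, dif_neg h6, if_neg h0, if_neg h1, if_neg h2, if_neg h3, if_neg h4,
      Function.comp_apply, tabO]
    have e2 : (npW N P0 n w).W = w.length + 1 := rfl
    rw [e2]
    split_ifs <;> omega

end

end Pool.Agent.Helper17.TU
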