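import Pool.Agent.Helper17.UL.TWNum
import Pool.Agent.Helper4.UL.Prm

set_option autoImplicit false

/-!
Few turns: explicit choice of the parameters. `y` is the logarithm of the bound for the length of
the word and the number of pieces, `E` the number of scales, `κ` a constant of the machine and `K`
the number of components of a cell.
-/

namespace Pool.Agent.Helper17.TU

open Pool.Agent.Helper17.UL

def qZ (y : ℕ) : ℕ := Nat.log 2 y

def qM (y : ℕ) : ℕ := y / qZ y + 2

/-- `2 ^ y ≤ qM y ^ qCap y`. -/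
def qCap (y : ℕ) : ℕ := 2 * (y / qZ y + 1)

/-- Number of digits of a component of a cell. -/
def qA (κ y : ℕ) : ℕ := (κ + 8) * (y / qZ y + 1)

/-- Number of digits of a cell. -/
def qd (κ K y : ℕ) : ℕ := qA κ y * K

/-- The base of the digits. -/
def qq (y : ℕ) : ℕ := 2 ^ qZ y

/-- The least prime above `2 qd qq + 2`. -/
noncomputable def qf (κ K y : ℕ) : ℕ :=
  Nat.find (Nat.exists_infinite_primes (2 * (qd κ K y * qq y) + 3))

noncomputable def qr (κ K y : ℕ) : ℕ := 7 * qf κ K y + (4 * qM y + 6)

noncomputable def qt (κ K y : ℕ) : ℕ :=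
  2 * (qZ y * qd κ K y) / Nat.log 2 (qr κ K y) + 1

noncomputable def qn (κ K y E : ℕ) : ℕ := E * (20 * qM y + 24 + qt κ K y) + 1

/-- The base of the codes. -/
def qB (κ y : ℕ) : ℕ := 2 ^ (qZ y * qA κ y)

/-- The sizes of the parameters. -/
noncomputable def sizesE (κ K y E : ℕ) : Set ℕ :=
  {qr κ K y ^ qn κ K y E, qf κ K y ^ qd κ K y, qf κ K y ^ 2, qq y ^ (2 * qd κ K y),
    qB κ y + 2 ^ (κ * y) * qM y ^ (E + 1), 4 * qM y + 6, qr κ K y}

/-- The logarithm of the bound, from the length `n` of the word and the length `len` of the padded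
word. -/
def yE (C1 n len : ℕ) : ℕ := max (yW C1 len) (Nat.log 2 (n + 16) + 2)

/-- The number of scales. -/
def eE (C0 y len : ℕ) : ℕ := min (qCap y) (Nat.log 2 len / (C0 * y) - 1)

end Pool.Agent.Helper17.TU
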