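import Pool.Agent.Helper17.TU.PrmE

set_option autoImplicit false

/-!
Few turns: exact inequalities for the parameters.
-/

namespace Pool.Agent.Helper17.TU

open Pool.Agent.Helper17.UL

private lemma trn16_sq (z : ℕ) : z * z ≤ 2 ^ z + 2 * z := by
  induction z with
  | zero => simp
  | succ n ih =>
    by_cases hn : n < 3
    · interval_cases n <;> norm_num
    · have h1 : 2 * n + 1 ≤ 2 ^ n + 2 := by
        have h2 : 2 * n ≤ 2 ^ n := by
          clear ih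
          induction n with
          | zero => simp
          | succ k ihk =>
            by_cases hk : k < 3
            · interval_cases k <;> first | (exfalso; omega) | norm_num
            · have := ihk hk
              rw [pow_succ]
              omega
        omega
      rw [pow_succ]
      nlinarith

private lemma trn16_yz (y : ℕ) (hy : 4 ≤ y) :
    2 ≤ qZ y ∧ 2 ^ qZ y ≤ y ∧ y < 2 ^ (qZ y + 1) ∧ qZ y ≤ y ∧ qZ y * qZ y ≤ 3 * y := by
  have hz2 : 2 ≤ qZ y := Nat.le_log_of_pow_le (by norm_num) (by norm_num; exact hy)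
  have h4 : 2 ^ qZ y ≤ y := Nat.pow_log_le_self 2 (by omega)
  have h5 : y < 2 ^ (qZ y + 1) := Nat.lt_pow_succ_log_self (by norm_num) _
  have h6 : qZ y ≤ y := (Nat.lt_two_pow_self).le.trans h4
  refine ⟨hz2, h4, h5, h6, ?_⟩
  have := trn16_sq (qZ y)
  omega

private lemma trn16_M (y : ℕ) (hy : 4 ≤ y) :
    0 < qM y ∧ y ≤ qZ y * (y / qZ y + 1) ∧ qM y ≤ y ∧
    qM y ≤ 2 ^ (qZ y + 1) ∧ 2 ^ qZ y ≤ qM y * qM y := by
  obtain ⟨hz2, hzy, hyz, hzley, hzz⟩ := trn16_yz y hy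
  have hM : qM y = y / qZ y + 2 := rfl
  obtain ⟨z, hz⟩ : ∃ z : ℕ, z = qZ y := ⟨_, rfl⟩
  obtain ⟨M, hM'⟩ : ∃ M : ℕ, M = qM y := ⟨_, rfl⟩
  rw [← hz] at hM
  rw [← hM'] at hM ⊢
  rw [← hz] at hz2 hzy hyz hzley hzz ⊢
  have hdm := Nat.div_add_mod y z
  have hml := Nat.mod_lt y (show 0 < z by omega)
  have hMz : M * z = z * (y / z) + 2 * z := by
    rw [hM]
    ring
  have hMz1 : y + z ≤ M * z := by
    rw [hMz]
    omega
  have hM0 : 0 < M := by
    rw [hM]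
    exact Nat.succ_pos _
  have hMy : M ≤ y := by
    have h1 : y / z ≤ y / 2 := Nat.div_le_div_left hz2 (by norm_num)
    omega
  refine ⟨hM0, ?_, hMy, hMy.trans hyz.le, ?_⟩
  · have h1 : z * (y / z + 1) = z * (y / z) + z := by ring
    rw [h1]
    omega
  have h1 : (y + z) * (y + z) ≤ (M * z) * (M * z) := Nat.mul_le_mul hMz1 hMz1
  have h2 := trn16_sq z
  have h3 : 2 ^ z * (z * z) ≤ (M * M) * (z * z) := by
    calc 2 ^ z * (z * z) ≤ 2 ^ z * (2 ^ z + 2 * z) := Nat.mul_le_mul_left _ h2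
      _ ≤ y * (y + 2 * z) := Nat.mul_le_mul hzy (by omega)
      _ ≤ (y + z) * (y + z) := by nlinarith
      _ ≤ (M * z) * (M * z) := h1
      _ = (M * M) * (z * z) := by ring
  exact Nat.le_of_mul_le_mul_right h3 (by positivity)

/-- Piece TRN-16. Compare `prm_exact` in `Helper4/UL/Prm.lean` (its private lemmas `yz`, `Mfacts`,
`Dfacts` have the same content with `y = pY T`, `z = pZ T`; copy them). -/
theorem prmE_exact (κ K y E : ℕ) (hκ : 0 < κ) (hK : 0 < K) (hy : 4 ≤ y) (hE : E ≤ qCap y) :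
    0 < qM y ∧ 2 ^ y ≤ qM y ^ qCap y ∧ 2 ^ (κ * y) * qM y ^ E < qB κ y ∧
    2 ^ y < qB κ y ∧ κ + 2 < qB κ y ∧ 4 * qM y + 6 < qB κ y ∧
    (qf κ K y).Prime ∧ 2 * (qd κ K y * (qq y - 1)) < qf κ K y - 1 ∧ 2 ≤ qq y ∧
    qq y ≤ qf κ K y ∧ qf κ K y ≤ 4 * (qd κ K y * qq y) + 8 ∧
    2 ^ (qZ y * qd κ K y) = qq y ^ qd κ K y ∧ 2 ^ (qZ y * qd κ K y) = qB κ y ^ K ∧
    2 ^ (2 * (qZ y * qd κ K y)) ≤ qr κ K y ^ qt κ K y := by
  obtain ⟨hz2, hzy, hyz, hzley, hzz⟩ := trn16_yz y hy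
  obtain ⟨hM0, hMz1, hMy, hM1, hM2⟩ := trn16_M y hy
  have hf := Nat.find_spec (Nat.exists_infinite_primes (2 * (qd κ K y * qq y) + 3))
  have hfeq : qf κ K y = Nat.find (Nat.exists_infinite_primes (2 * (qd κ K y * qq y) + 3)) := rfl
  rw [← hfeq] at hf
  have hq2 : 2 ≤ qq y := by
    calc 2 = 2 ^ 1 := (pow_one 2).symm
      _ ≤ 2 ^ qZ y := Nat.pow_le_pow_right (by norm_num) (by omega)
  have hA0 : 0 < qA κ y := by
    unfold qA
    positivity
  have hd0 : 0 < qd κ K y := by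
    unfold qd
    positivity
  -- the exponent of the base
  obtain ⟨w, hw⟩ : ∃ w : ℕ, w = qZ y * (y / qZ y + 1) := ⟨_, rfl⟩
  have hAw : qZ y * qA κ y = κ * w + 8 * w := by
    unfold qA
    rw [hw]
    ring
  rw [← hw] at hMz1
  have hκw : κ * y ≤ κ * w := Nat.mul_le_mul_left _ hMz1
  have hB : qB κ y = 2 ^ (κ * w + 8 * w) := by
    unfold qB
    rw [hAw]
  have hκw2 : κ ≤ κ * w := Nat.le_mul_of_pos_right _ (by omega)
  refine ⟨hM0, ?_, ?_, ?_, ?_, ?_, hf.2, ?_, hq2, ?_, ?_, ?_, ?_, ?_⟩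
  · calc 2 ^ y ≤ 2 ^ (qZ y * (y / qZ y + 1)) :=
          Nat.pow_le_pow_right (by norm_num) (by rw [← hw]; exact hMz1)
      _ = (2 ^ qZ y) ^ (y / qZ y + 1) := by rw [pow_mul]
      _ ≤ (qM y * qM y) ^ (y / qZ y + 1) := Nat.pow_le_pow_left hM2 _
      _ = qM y ^ qCap y := by
          unfold qCap
          rw [pow_mul, pow_two]
  · have h1 : qM y ^ E ≤ 2 ^ (3 * w) := by
      calc qM y ^ E ≤ qM y ^ qCap y := Nat.pow_le_pow_right hM0 hE
        _ ≤ (2 ^ (qZ y + 1)) ^ qCap y := Nat.pow_le_pow_left hM1 _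
        _ = 2 ^ ((qZ y + 1) * qCap y) := by rw [pow_mul]
        _ ≤ 2 ^ (3 * w) := by
            refine Nat.pow_le_pow_right (by norm_num) ?_
            unfold qCap
            rw [hw]
            calc (qZ y + 1) * (2 * (y / qZ y + 1)) = (2 * qZ y + 2) * (y / qZ y + 1) := by ring
              _ ≤ (3 * qZ y) * (y / qZ y + 1) := Nat.mul_le_mul_right _ (by omega)
              _ = 3 * (qZ y * (y / qZ y + 1)) := by ring
    calc 2 ^ (κ * y) * qM y ^ E ≤ 2 ^ (κ * w) * 2 ^ (3 * w) :=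
          Nat.mul_le_mul (Nat.pow_le_pow_right (by norm_num) hκw) h1
      _ = 2 ^ (κ * w + 3 * w) := by rw [← pow_add]
      _ < 2 ^ (κ * w + 8 * w) := Nat.pow_lt_pow_right (by norm_num) (by omega)
      _ = qB κ y := hB.symm
  · rw [hB]
    exact Nat.pow_lt_pow_right (by norm_num) (by omega)
  · calc κ + 2 < 2 ^ (κ + 2) := Nat.lt_two_pow_self
      _ ≤ 2 ^ (κ * w + 8 * w) := Nat.pow_le_pow_right (by norm_num) (by omega)
      _ = qB κ y := hB.symm
  · have h1 : y < 2 ^ y := Nat.lt_two_pow_self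
    have h2 : 4 * qM y + 6 < 2 ^ (y + 3) := by
      rw [pow_add]
      omega
    calc 4 * qM y + 6 < 2 ^ (y + 3) := h2
      _ ≤ 2 ^ (κ * w + 8 * w) := Nat.pow_le_pow_right (by norm_num) (by omega)
      _ = qB κ y := hB.symm
  · have h1 : qd κ K y * (qq y - 1) ≤ qd κ K y * qq y := Nat.mul_le_mul_left _ (by omega)
    omega
  · have h1 : qq y ≤ qd κ K y * qq y := Nat.le_mul_of_pos_left _ hd0
    omega
  · obtain ⟨p, hp, h1, h2⟩ :=
      Nat.exists_prime_lt_and_le_two_mul (2 * (qd κ K y * qq y) + 2) (by omega)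
    have h3 : qf κ K y ≤ p := by
      rw [hfeq]
      exact Nat.find_min' _ ⟨by omega, hp⟩
    omega
  · unfold qq
    rw [pow_mul]
  · unfold qB qd
    rw [← pow_mul, mul_assoc]
  · have hr2 : 2 ≤ qr κ K y := by
      unfold qr
      omega
    have hL : 1 ≤ Nat.log 2 (qr κ K y) :=
      Nat.le_log_of_pow_le (by norm_num) (by rw [pow_one]; exact hr2)
    have h1 : 2 ^ Nat.log 2 (qr κ K y) ≤ qr κ K y := Nat.pow_log_le_self 2 (by omega)
    have hdm := Nat.div_add_mod (2 * (qZ y * qd κ K y)) (Nat.log 2 (qr κ K y))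
    have hml := Nat.mod_lt (2 * (qZ y * qd κ K y)) (show 0 < Nat.log 2 (qr κ K y) by omega)
    have h2 : 2 * (qZ y * qd κ K y) ≤ Nat.log 2 (qr κ K y) * qt κ K y := by
      have h3 : Nat.log 2 (qr κ K y) * qt κ K y =
          Nat.log 2 (qr κ K y) * (2 * (qZ y * qd κ K y) / Nat.log 2 (qr κ K y)) +
            Nat.log 2 (qr κ K y) := by
        unfold qt
        ring
      rw [h3]
      omega
    calc 2 ^ (2 * (qZ y * qd κ K y)) ≤ 2 ^ (Nat.log 2 (qr κ K y) * qt κ K y) :=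
          Nat.pow_le_pow_right (by norm_num) h2
      _ = (2 ^ Nat.log 2 (qr κ K y)) ^ qt κ K y := by rw [pow_mul]
      _ ≤ _ := Nat.pow_le_pow_left h1 _

/-- Piece TRN-16. The exponent `2 * (log₂ T + 1) / log₂ y` is enough: `2 ^ qZ y ≤ qM y ^ 2`. -/
theorem le_qM_pow (y t E : ℕ) (hy : 4 ≤ y) (hE : 2 * (Nat.log 2 t + 1) ≤ qZ y * E) :
    t ≤ qM y ^ E := by
  obtain ⟨hM0, hMz1, hMy, hM1, hM2⟩ := trn16_M y hy
  have h1 : t < 2 ^ (Nat.log 2 t + 1) := Nat.lt_pow_succ_log_self (by norm_num) t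
  have h2 : (2 ^ (Nat.log 2 t + 1)) ^ 2 ≤ (qM y ^ E) ^ 2 := by
    calc (2 ^ (Nat.log 2 t + 1)) ^ 2 = 2 ^ (2 * (Nat.log 2 t + 1)) := by
          rw [← pow_mul]
          congr 1
          ring
      _ ≤ 2 ^ (qZ y * E) := Nat.pow_le_pow_right (by norm_num) hE
      _ = (2 ^ qZ y) ^ E := by rw [pow_mul]
      _ ≤ (qM y * qM y) ^ E := Nat.pow_le_pow_left hM2 E
      _ = (qM y ^ E) ^ 2 := by rw [← pow_two, ← pow_mul, ← pow_mul, mul_comm]
  have h3 : 2 ^ (Nat.log 2 t + 1) ≤ qM y ^ E := by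
    by_contra h
    push Not at h
    exact absurd h2 (not_le.2 (Nat.pow_lt_pow_left h (by norm_num)))
  omega

end Pool.Agent.Helper17.TU
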