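import Pool.Agent.Helper17.TU.PrmEx
import Pool.Agent.Helper17.UL.PrmGood
import Pool.Agent.Helper17.UL.TWFL
import Pool.Agent.Helper7.UL.Lead

set_option autoImplicit false

/-!
Few turns: the parameters are computable on the good words.
-/

namespace Pool.Agent.Helper17.TU

open Pool.Agent.Helper6 Pool.Agent.Helper17.UL

variable {β : Type}

/-- All what is needed of a set of good words for the functions `y`, `E`. -/
structure GoodE (κ K : ℕ) (y E : List β → ℕ) (Good : List β → Prop) : Prop where
  y4 : ∀ w, Good w → 4 ≤ y w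
  cap : ∀ w, Good w → E w ≤ qCap (y w)
  sz : ∀ w, Good w → ∀ s ∈ sizesE κ K (y w) (E w), s ≤ w.length
  len : ∀ w, Good w → κ + K + 30 ≤ w.length
  yF : FLG Good y
  eF : FLG Good E

/-- The good padded words. -/
def GoodP {α : Type} (C0 C1 K0 : ℕ) (w : List (Option α)) : Prop :=
  K0 ≤ w.length ∧ (w.takeWhile Option.isSome).length + 16 ≤ w.length ∧
    C0 * yE C1 (w.takeWhile Option.isSome).length w.length ≤ Nat.log 2 w.length

end Pool.Agent.Helper17.TU
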