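import Pool.Agent.Helper17.TU.Mach

set_option autoImplicit false

/-!
Few turns: from an untimed machine to the timed machine with a direction in each block.
-/

namespace Pool.Agent.Helper17.TU

open Pool.Agent.Helper17.SL

variable {S Γ : Type} (ua : S → TAct S Γ)

/-- Run of the untimed machine. -/
def urun (c0 : S × List Γ) : ℕ → S × List Γ
  | 0 => c0
  | j + 1 => (ua (urun c0 j).1).app (urun c0 j).2

/-- The timed machine: the first component of the control is the direction of the present block
(`some true` if there was a push, `some false` if there was a pop); it is forgotten at the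
multiples of `P₀`. An action in the other direction waits for the end of the block. -/
def tact (P₀ : ℕ) : TStp (Option Bool × S) Γ := fun t s =>
  match ua s.2 with
  | .stay s' => .stay (if t % P₀ = 0 then none else s.1, s')
  | .push s' y => if (if t % P₀ = 0 then none else s.1) = some false then
      .stay (if t % P₀ = 0 then none else s.1, s.2) else .push (some true, s') y
  | .pop k => if (if t % P₀ = 0 then none else s.1) = some true then
      .stay (if t % P₀ = 0 then none else s.1, s.2) else .pop (fun y => (some false, k y))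

theorem trn4_step (P₀ : ℕ) (t : ℕ) (s : Option Bool × S) (l : List Γ) :
    ((if t % P₀ = 0 then none else s.1) = none →
      ((((tact ua P₀ t s).app l).1.1 = none ∧ ((tact ua P₀ t s).app l).2.length = l.length) ∨
      (((tact ua P₀ t s).app l).1.1 = some true ∧
        l.length ≤ ((tact ua P₀ t s).app l).2.length) ∨
      (((tact ua P₀ t s).app l).1.1 = some false ∧
        ((tact ua P₀ t s).app l).2.length ≤ l.length))) ∧
    ((if t % P₀ = 0 then none else s.1) = some true →
      (((tact ua P₀ t s).app l).1.1 = some true ∧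
        l.length ≤ ((tact ua P₀ t s).app l).2.length)) ∧
    ((if t % P₀ = 0 then none else s.1) = some false →
      (((tact ua P₀ t s).app l).1.1 = some false ∧
        ((tact ua P₀ t s).app l).2.length ≤ l.length)) := by
  unfold tact
  generalize (if t % P₀ = 0 then none else s.1) = d
  cases hu : ua s.2 with
  | stay s' =>
    simp only [TAct.app]
    refine ⟨fun h => Or.inl ⟨h, trivial⟩, fun h => ⟨h, le_rfl⟩, fun h => ⟨h, le_rfl⟩⟩
  | push s' y =>
    by_cases hd : d = some false
    · subst hd
      simp [TAct.app]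
    · simp only [if_neg hd, TAct.app]
      refine ⟨fun _ => Or.inr (Or.inl ⟨trivial, ?_⟩), fun _ => ⟨trivial, ?_⟩, fun h => absurd h hd⟩ <;>
      simp
  | pop k =>
    by_cases hd : d = some true
    · subst hd
      simp [TAct.app]
    · simp only [if_neg hd, TAct.app]
      refine ⟨fun _ => Or.inr (Or.inr ⟨trivial, ?_⟩), fun h => absurd h hd, fun _ => ⟨trivial, ?_⟩⟩ <;>
      simp

/-- Piece TRN-4. In each block the height is monotone or antitone. Inside the block with number
`β` show by induction on `i ≤ P₀`: either the heights are constant on `[β P₀, β P₀ + i]` and (if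
`0 < i`) the direction at time `β P₀ + i` is `none`, or the direction is `some true` and all steps
so far are nondecreasing, or it is `some false` and all steps so far are nonincreasing. -/
theorem tact_uni (P₀ : ℕ) (c0 : (Option Bool × S) × List Γ) : Uni (tact ua P₀) c0 P₀ := by
  intro β
  have key : ∀ i, i ≤ P₀ →
      (((if i = 0 then none else (trun (tact ua P₀) c0 (β * P₀ + i)).1.1) = none ∧
        ∀ r, β * P₀ ≤ r → r < β * P₀ + i → (trun (tact ua P₀) c0 (r + 1)).2.length =
          (trun (tact ua P₀) c0 r).2.length) ∨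
      ((if i = 0 then none else (trun (tact ua P₀) c0 (β * P₀ + i)).1.1) = some true ∧
        ∀ r, β * P₀ ≤ r → r < β * P₀ + i → (trun (tact ua P₀) c0 r).2.length ≤
          (trun (tact ua P₀) c0 (r + 1)).2.length) ∨
      ((if i = 0 then none else (trun (tact ua P₀) c0 (β * P₀ + i)).1.1) = some false ∧
        ∀ r, β * P₀ ≤ r → r < β * P₀ + i → (trun (tact ua P₀) c0 (r + 1)).2.length ≤
          (trun (tact ua P₀) c0 r).2.length)) := by
    intro i
    induction i with
    | zero =>
      intro _
      exact Or.inl ⟨if_pos rfl, fun r h1 h2 => by omega⟩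
    | succ i ih =>
      intro hi
      have h0 := ih (by omega)
      have hm : (β * P₀ + i) % P₀ = i := by
        rw [Nat.mul_add_mod', Nat.mod_eq_of_lt (by omega)]
      have hdir : (if (β * P₀ + i) % P₀ = 0 then none
          else (trun (tact ua P₀) c0 (β * P₀ + i)).1.1) =
          (if i = 0 then none else (trun (tact ua P₀) c0 (β * P₀ + i)).1.1) := by
        rw [hm]
      obtain ⟨g1, g2, g3⟩ := trn4_step ua P₀ (β * P₀ + i)
        (trun (tact ua P₀) c0 (β * P₀ + i)).1 (trun (tact ua P₀) c0 (β * P₀ + i)).2
      rw [hdir] at g1 g2 g3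
      have hne : ¬ (i + 1 = 0) := Nat.succ_ne_zero i
      rw [if_neg hne]
      have hs : trun (tact ua P₀) c0 (β * P₀ + (i + 1)) =
          (tact ua P₀ (β * P₀ + i) (trun (tact ua P₀) c0 (β * P₀ + i)).1).app
            (trun (tact ua P₀) c0 (β * P₀ + i)).2 := trun_succ _ _ _
      rw [← hs] at g1 g2 g3
      have hlast : ∀ r, r < β * P₀ + (i + 1) → r < β * P₀ + i ∨ r = β * P₀ + i := by
        intro r hr
        omega
      rcases h0 with ⟨h1, h2⟩ | ⟨h1, h2⟩ | ⟨h1, h2⟩
      · rcases g1 h1 with ⟨e1, e2⟩ | ⟨e1, e2⟩ | ⟨e1, e2⟩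
        · refine Or.inl ⟨e1, fun r hr hr' => ?_⟩
          rcases hlast r hr' with h3 | rfl
          · exact h2 r hr h3
          · exact e2
        · refine Or.inr (Or.inl ⟨e1, fun r hr hr' => ?_⟩)
          rcases hlast r hr' with h3 | rfl
          · exact (h2 r hr h3).ge
          · exact e2
        · refine Or.inr (Or.inr ⟨e1, fun r hr hr' => ?_⟩)
          rcases hlast r hr' with h3 | rfl
          · exact (h2 r hr h3).le
          · exact e2
      · obtain ⟨e1, e2⟩ := g2 h1
        refine Or.inr (Or.inl ⟨e1, fun r hr hr' => ?_⟩)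
        rcases hlast r hr' with h3 | rfl
        · exact h2 r hr h3
        · exact e2
      · obtain ⟨e1, e2⟩ := g3 h1
        refine Or.inr (Or.inr ⟨e1, fun r hr hr' => ?_⟩)
        rcases hlast r hr' with h3 | rfl
        · exact h2 r hr h3
        · exact e2
  have hb : (β + 1) * P₀ = β * P₀ + P₀ := Nat.succ_mul β P₀
  rcases key P₀ le_rfl with ⟨-, h⟩ | ⟨-, h⟩ | ⟨-, h⟩
  · exact Or.inl fun r h1 h2 => (h r h1 (by omega)).ge
  · exact Or.inl fun r h1 h2 => h r h1 (by omega)
  · exact Or.inr fun r h1 h2 => h r h1 (by omega)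

/-- Kind of an action. -/
def TAct.kind : TAct S Γ → Option Bool
  | .stay _ => none
  | .push _ _ => some true
  | .pop _ => some false

/-- The schedule: number of steps of the untimed machine made so far, and direction. -/
def sched (P₀ : ℕ) (op : ℕ → Option Bool) : ℕ → ℕ × Option Bool
  | 0 => (0, none)
  | t + 1 =>
    if op (sched P₀ op t).1 = none then
      ((sched P₀ op t).1 + 1, if t % P₀ = 0 then none else (sched P₀ op t).2)
    else if (if t % P₀ = 0 then none else (sched P₀ op t).2) =
        (op (sched P₀ op t).1).map Bool.not then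
      ((sched P₀ op t).1, if t % P₀ = 0 then none else (sched P₀ op t).2)
    else ((sched P₀ op t).1 + 1, op (sched P₀ op t).1)

/-- Piece TRN-4. The timed machine follows the untimed one. -/
theorem tact_run (P₀ : ℕ) (s0 : S) (l0 : List Γ) (t : ℕ) :
    trun (tact ua P₀) ((none, s0), l0) t =
      (((sched P₀ (fun j => (ua (urun ua (s0, l0) j).1).kind) t).2,
        (urun ua (s0, l0) (sched P₀ (fun j => (ua (urun ua (s0, l0) j).1).kind) t).1).1),
        (urun ua (s0, l0) (sched P₀ (fun j => (ua (urun ua (s0, l0) j).1).kind) t).1).2) := by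
  induction t with
  | zero => rfl
  | succ t ih =>
    rw [trun_succ, ih, sched]
    generalize sched P₀ (fun j => (ua (urun ua (s0, l0) j).1).kind) t = q
    obtain ⟨j, D⟩ := q
    simp only
    unfold tact
    simp only
    have hu1 : urun ua (s0, l0) (j + 1) =
        (ua (urun ua (s0, l0) j).1).app (urun ua (s0, l0) j).2 := rfl
    generalize (if t % P₀ = 0 then none else D) = d
    cases hu : ua (urun ua (s0, l0) j).1 with
    | stay s' =>
      rw [hu] at hu1
      simp only [TAct.kind, TAct.app, if_true, hu1]
    | push s' y =>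
      rw [hu] at hu1
      simp only [TAct.kind, Option.map_some, Bool.not_true, reduceCtorEq, if_false]
      by_cases hd : d = some false
      · simp only [hd, if_true, TAct.app]
      · simp only [if_neg hd, TAct.app, hu1]
    | pop k =>
      rw [hu] at hu1
      simp only [TAct.kind, Option.map_some, Bool.not_false, reduceCtorEq, if_false]
      by_cases hd : d = some true
      · simp only [hd, if_true, TAct.app]
      · simp only [if_neg hd, TAct.app, hu1]

theorem trn5_mono1 (P₀ : ℕ) (op : ℕ → Option Bool) (t : ℕ) :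
    (sched P₀ op t).1 ≤ (sched P₀ op (t + 1)).1 := by
  rw [sched]
  split_ifs <;> simp

theorem trn5_mono (P₀ : ℕ) (op : ℕ → Option Bool) {t u : ℕ} (h : t ≤ u) :
    (sched P₀ op t).1 ≤ (sched P₀ op u).1 :=
  monotone_nat_of_le_succ (f := fun t => (sched P₀ op t).1) (trn5_mono1 P₀ op) h

theorem trn5_step (P₀ : ℕ) (op : ℕ → Option Bool) (t : ℕ) (b : Bool)
    (hd : (if t % P₀ = 0 then none else (sched P₀ op t).2) ≠ some (!b))
    (ho : op (sched P₀ op t).1 ≠ some (!b)) :
    (sched P₀ op (t + 1)).1 = (sched P₀ op t).1 + 1 ∧ (sched P₀ op (t + 1)).2 ≠ some (!b) := by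
  rw [sched]
  by_cases h1 : op (sched P₀ op t).1 = none
  · rw [if_pos h1]
    exact ⟨rfl, hd⟩
  · rw [if_neg h1]
    have h2 : ¬ ((if t % P₀ = 0 then none else (sched P₀ op t).2) =
        (op (sched P₀ op t).1).map Bool.not) := by
      intro h
      cases hc : op (sched P₀ op t).1 with
      | none => exact h1 hc
      | some c =>
        rw [hc] at h ho
        have hcb : c = b := by
          cases b <;> cases c <;> simp_all
        rw [hcb] at h
        exact hd h
    rw [if_neg h2]
    exact ⟨rfl, ho⟩

theorem trn5_block {P₀ : ℕ} (op : ℕ → Option Bool) (b : Bool) (l u i : ℕ)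
    (h : ∀ j, l ≤ j → j < u → op j ≠ some (!b)) (hl : l ≤ (sched P₀ op (i * P₀)).1) :
    ∀ a, a ≤ P₀ → u ≤ (sched P₀ op (i * P₀ + a)).1 ∨
      (l + a ≤ (sched P₀ op (i * P₀ + a)).1 ∧
        (0 < a → (sched P₀ op (i * P₀ + a)).2 ≠ some (!b))) := by
  intro a
  induction a with
  | zero => intro _; exact Or.inr ⟨hl, fun h => absurd h (lt_irrefl 0)⟩
  | succ a ih =>
    intro ha
    rcases ih (by omega) with h1 | ⟨h1, h2⟩
    · exact Or.inl (h1.trans (trn5_mono1 P₀ op _))
    · by_cases hu : u ≤ (sched P₀ op (i * P₀ + a)).1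
      · exact Or.inl (hu.trans (trn5_mono1 P₀ op _))
      · have hd : (if (i * P₀ + a) % P₀ = 0 then none else (sched P₀ op (i * P₀ + a)).2) ≠
            some (!b) := by
          split_ifs with hm
          · simp
          · apply h2
            rcases Nat.eq_zero_or_pos a with h0 | h0
            · exfalso
              apply hm
              rw [h0, Nat.add_zero, Nat.mul_mod_left]
            · exact h0
        have hs := trn5_step P₀ op (i * P₀ + a) b hd (h _ (by omega) (by omega))
        refine Or.inr ⟨?_, fun _ => hs.2⟩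
        have h3 := hs.1
        rw [← Nat.add_assoc (i * P₀) a 1, h3]
        omega

/-- Piece TRN-5. One piece per block: if the operations with numbers in `[σ i, σ (i + 1))` are
all not pops or all not pushes, and `σ (i + 1) ≤ P₀`, then after `i` blocks at least `σ i` steps
are made. Proof: induction on `i`; `sched` is nondecreasing in time and increases by at most one;
inside block number `i` as long as the number of steps `j` satisfies `σ i ≤ j < σ (i + 1)`, the
direction is `none` or that of the piece, so there is no conflict and `j` increases at each time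
step (prove: at time `i P₀ + a`, either `j ≥ σ (i + 1)`, or `j ≥ a + σ i` and the direction, if
`0 < a`, is `none` or the direction of the piece). -/
theorem sched_blocks {P₀ : ℕ} (hP₀ : 0 < P₀) (op : ℕ → Option Bool) (σ : ℕ → ℕ) (n : ℕ)
    (h0 : σ 0 = 0) (hmono : Monotone σ) (hP : ∀ i ≤ n, σ i ≤ P₀)
    (hop : ∀ i < n, (∀ j, σ i ≤ j → j < σ (i + 1) → op j ≠ some false) ∨
      (∀ j, σ i ≤ j → j < σ (i + 1) → op j ≠ some true)) (i : ℕ) (hi : i ≤ n) :
    ∀ t, i * P₀ ≤ t → σ i ≤ (sched P₀ op t).1 := by
  induction i with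
  | zero => intro t _; rw [h0]; exact Nat.zero_le _
  | succ i ih =>
    intro t ht
    have hl := ih (by omega) (i * P₀) le_rfl
    have key : σ (i + 1) ≤ (sched P₀ op (i * P₀ + P₀)).1 := by
      have hb : ∃ b : Bool, ∀ j, σ i ≤ j → j < σ (i + 1) → op j ≠ some (!b) := by
        rcases hop i (by omega) with h | h
        · exact ⟨true, h⟩
        · exact ⟨false, h⟩
      obtain ⟨b, hb⟩ := hb
      rcases trn5_block op b (σ i) (σ (i + 1)) i hb hl P₀ le_rfl with h | ⟨h, -⟩
      · exact h
      · exact (hP (i + 1) hi).trans ((Nat.le_add_left _ _).trans h)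
    refine key.trans (trn5_mono P₀ op ?_)
    rw [← Nat.succ_mul]
    exact ht

/-- The control after an action which is not a pop. -/
def trn6_next (s : S) : S :=
  match ua s with
  | .stay s' => s'
  | .push s' _ => s'
  | .pop _ => s

theorem trn6_step (c0 : S × List Γ) (j : ℕ) (h : (ua (urun ua c0 j).1).kind ≠ some false) :
    (urun ua c0 (j + 1)).1 = trn6_next ua (urun ua c0 j).1 := by
  rw [urun]
  unfold trn6_next
  cases hu : ua (urun ua c0 j).1 with
  | stay s' => rfl
  | push s' y => rfl
  | pop k =>
    exfalso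
    apply h
    rw [hu]
    rfl

theorem trn6_period (c0 : S × List Γ) (a b i p : ℕ) (hp : 0 < p) (hai : a ≤ i) (hib : i + p ≤ b)
    (hnp : ∀ j, a ≤ j → j < b → (ua (urun ua c0 j).1).kind ≠ some false)
    (he : (urun ua c0 i).1 = (urun ua c0 (i + p)).1) (n : ℕ) :
    (urun ua c0 (i + n)).1 = (urun ua c0 (i + n % p)).1 := by
  induction n with
  | zero => rw [Nat.zero_mod]
  | succ n ih =>
    have hlt := Nat.mod_lt n hp
    have h1 := hnp (i + n % p) (by omega) (by omega)
    have h2 := trn6_step ua c0 (i + n % p) h1
    have h3 := trn6_step ua c0 (i + n) (by rw [ih]; exact h1)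
    have h4 : (urun ua c0 (i + (n + 1))).1 = (urun ua c0 (i + (n % p + 1))).1 := by
      rw [← Nat.add_assoc, h3, ih, ← h2, Nat.add_assoc]
    rw [h4]
    by_cases hc : n % p + 1 < p
    · have h5 : (n + 1) % p = n % p + 1 := by
        rw [Nat.add_mod, Nat.mod_eq_of_lt (a := 1) (by omega), Nat.mod_eq_of_lt hc]
      rw [h5]
    · have h6 : n % p + 1 = p := by omega
      have h5 : (n + 1) % p = 0 := by
        rw [← Nat.mod_add_mod, h6, Nat.mod_self]
      rw [h5, h6, ← he, Nat.add_zero]

/-- Piece TRN-6. While there is no pop, the control evolves autonomously; a repetition would give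
an infinite run without a state of `H`. -/
theorem popfree_bound [Fintype S] (c0 : S × List Γ) (H : S → Prop) (J a b : ℕ) (hab : a ≤ b)
    (hbJ : b ≤ J) (hJ : H (urun ua c0 J).1) (hJ' : ∀ j < J, ¬ H (urun ua c0 j).1)
    (hnp : ∀ j, a ≤ j → j < b → (ua (urun ua c0 j).1).kind ≠ some false) :
    b - a + 1 ≤ Fintype.card S := by
  by_contra hcon
  rw [not_le] at hcon
  have hcard : Fintype.card S < Fintype.card (Fin (b - a + 1)) := by
    rw [Fintype.card_fin]
    exact hcon
  obtain ⟨x, y, hxy, he⟩ := Fintype.exists_ne_map_eq_of_card_lt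
    (fun i : Fin (b - a + 1) => (urun ua c0 (a + i)).1) hcard
  have key : ∀ i i' : ℕ, a ≤ i → i < i' → i' ≤ b →
      (urun ua c0 i).1 = (urun ua c0 i').1 → False := by
    intro i i' hi hii hib heq
    have h1 := trn6_period ua c0 a b i (i' - i) (by omega) hi (by omega) hnp
      (by rw [Nat.add_sub_cancel' hii.le]; exact heq) (J - i)
    rw [Nat.add_sub_cancel' (by omega)] at h1
    have h2 : (J - i) % (i' - i) < i' - i := Nat.mod_lt _ (by omega)
    apply hJ' (i + (J - i) % (i' - i)) (by omega)
    rw [← h1]
    exact hJ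
  have hx := x.isLt
  have hy := y.isLt
  have hne : (x : ℕ) ≠ y := fun h => hxy (Fin.ext h)
  rcases Nat.lt_or_ge (x : ℕ) y with h | h
  · exact key (a + x) (a + y) (by omega) (by omega) (by omega) he
  · exact key (a + y) (a + x) (by omega) (by omega) (by omega) he.symm

theorem trn6_anti (W : ℕ → ℕ) (a b : ℕ) (hW : ∀ j, a ≤ j → j < b → W (j + 1) ≤ W j) (j : ℕ)
    (haj : a ≤ j) (hjb : j ≤ b) : W j ≤ W a := by
  induction j, haj using Nat.le_induction with
  | base => exact le_rfl
  | succ j hj ih => exact (hW j hj (by omega)).trans (ih (by omega))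

/-- Piece TRN-6. A piece along which the potential `W` does not increase. Induction on `W a`. -/
theorem down_bound [Fintype S] (c0 : S × List Γ) (H : S → Prop) (J : ℕ)
    (hJ : H (urun ua c0 J).1) (hJ' : ∀ j < J, ¬ H (urun ua c0 j).1) (W : ℕ → ℕ)
    (hpop : ∀ j < J, (ua (urun ua c0 j).1).kind = some false → W (j + 1) + 1 ≤ W j)
    (a b : ℕ) (hab : a ≤ b) (hbJ : b ≤ J) (hW : ∀ j, a ≤ j → j < b → W (j + 1) ≤ W j) :
    b - a ≤ (W a + 1) * Fintype.card S := by
  classical
  induction hw : W a using Nat.strong_induction_on generalizing a with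
  | _ w ih =>
    by_cases hex : ∃ j, a ≤ j ∧ j < b ∧ (ua (urun ua c0 j).1).kind = some false
    · obtain ⟨h1, h2, h3⟩ := Nat.find_spec hex
      have hmin := fun m (hm : m < Nat.find hex) => Nat.find_min hex hm
      generalize Nat.find hex = j at h1 h2 h3 hmin
      have h4 := popfree_bound ua c0 H J a j h1 (by omega) hJ hJ' (fun m hm hmj hk =>
        hmin m hmj ⟨hm, by omega, hk⟩)
      have h5 := hpop j (by omega) h3
      have h6 := trn6_anti W a b hW j h1 h2.le
      have h7 := ih (W (j + 1)) (by omega) (j + 1) (by omega)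
        (fun m hm hmb => hW m (by omega) hmb) rfl
      have h8 : (W (j + 1) + 1) * Fintype.card S ≤ w * Fintype.card S :=
        Nat.mul_le_mul_right _ (by omega)
      rw [Nat.add_mul, Nat.one_mul]
      omega
    · have h4 := popfree_bound ua c0 H J a b hab hbJ hJ hJ' (fun m hm hmj hk =>
        hex ⟨m, hm, hmj, hk⟩)
      rw [Nat.add_mul, Nat.one_mul]
      omega

/-- Piece TRN-6. The length of a run with `t` pieces. -/
theorem length_bound [Fintype S] (c0 : S × List Γ) (H : S → Prop) (J R t : ℕ)
    (hJ : H (urun ua c0 J).1) (hJ' : ∀ j < J, ¬ H (urun ua c0 j).1) (W : ℕ → ℕ)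
    (hW0 : W 0 = 0) (hWR : ∀ j < J, W (j + 1) ≤ W j + R)
    (hpop : ∀ j < J, (ua (urun ua c0 j).1).kind = some false → W (j + 1) + 1 ≤ W j)
    (σ : ℕ → ℕ) (h0 : σ 0 = 0) (hmono : Monotone σ) (ht : σ t = J)
    (hpc : ∀ i < t, (∀ j, σ i ≤ j → j < σ (i + 1) → W j ≤ W (j + 1)) ∨
      (∀ j, σ i ≤ j → j < σ (i + 1) → W (j + 1) ≤ W j)) :
    J ≤ t * ((t * R * Fintype.card S + 1) * Fintype.card S) := by
  have hσ : ∀ i ≤ t, σ i ≤ J := fun i hi => by
    rw [← ht]
    exact hmono hi
  have hgrow : ∀ a n, a + n ≤ J → W (a + n) ≤ W a + n * R := by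
    intro a n
    induction n with
    | zero => intro _; simp
    | succ n ih =>
      intro h
      have h1 := ih (by omega)
      have h2 := hWR (a + n) (by omega)
      rw [Nat.succ_mul, ← Nat.add_assoc a n 1]
      omega
  have key : ∀ i, i ≤ t → W (σ i) ≤ i * (R * Fintype.card S) ∧
      σ i ≤ i * ((t * R * Fintype.card S + 1) * Fintype.card S) := by
    intro i
    induction i with
    | zero =>
      intro _
      rw [h0, hW0]
      simp
    | succ i ih =>
      intro hi
      obtain ⟨h1, h2⟩ := ih (by omega)
      have hm : σ i ≤ σ (i + 1) := hmono (Nat.le_succ i)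
      have hJi := hσ (i + 1) hi
      rcases hpc i (by omega) with hup | hdn
      · have h3 := popfree_bound ua c0 H J (σ i) (σ (i + 1)) hm hJi hJ hJ' (fun j hj hj' hk => by
          have h4 := hpop j (by omega) hk
          have h5 := hup j hj hj'
          omega)
        have h6 := hgrow (σ i) (σ (i + 1) - σ i) (by omega)
        rw [Nat.add_sub_cancel' hm] at h6
        have h7 : (σ (i + 1) - σ i) * R ≤ R * Fintype.card S := by
          rw [Nat.mul_comm]
          exact Nat.mul_le_mul_left _ (by omega)
        have h8 : Fintype.card S ≤ (t * R * Fintype.card S + 1) * Fintype.card S :=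
          Nat.le_mul_of_pos_left _ (Nat.succ_pos _)
        constructor
        · rw [Nat.succ_mul]
          omega
        · rw [Nat.succ_mul]
          omega
      · have h3 := down_bound ua c0 H J hJ hJ' W hpop (σ i) (σ (i + 1)) hm hJi hdn
        have h4 := trn6_anti W (σ i) (σ (i + 1)) hdn (σ (i + 1)) hm le_rfl
        have h5 : i * (R * Fintype.card S) ≤ t * R * Fintype.card S := by
          rw [Nat.mul_assoc]
          exact Nat.mul_le_mul_right _ (by omega)
        have h6 : (W (σ i) + 1) * Fintype.card S ≤
            (t * R * Fintype.card S + 1) * Fintype.card S :=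
          Nat.mul_le_mul_right _ (by omega)
        constructor
        · rw [Nat.succ_mul]
          omega
        · rw [Nat.succ_mul]
          omega
  have := (key t le_rfl).2
  rw [ht] at this
  exact this

end Pool.Agent.Helper17.TU
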